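import Mathlib

/-!
MP_072aa0_al, annuli in wreath products: definitions and module statements (blueprint).

`X` is a graph (relation `adj`), `o` the starting point. A state is a pair of a cursor position and
a load function; its norm is the length of a shortest walk from `o` to the cursor that visits all
lit points, plus the total load.
-/

set_option autoImplicit false

namespace Pool.Agent.AD

/-- There is a walk of length `k` from `o` to `c` that visits all points of `S`. -/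
def Tour {X : Type*} (adj : X → X → Prop) (S : Set X) (o c : X) (k : ℕ) : Prop :=
  ∃ w : ℕ → X, w 0 = o ∧ w k = c ∧ (∀ i < k, adj (w i) (w (i + 1))) ∧ ∀ v ∈ S, ∃ i ≤ k, w i = v

/-- The length of a shortest walk from `o` to `c` that visits all points of `S`. -/
noncomputable def tsp {X : Type*} (adj : X → X → Prop) (S : Set X) (o c : X) : ℕ :=
  sInf {k | Tour adj S o c k}

/-- Symmetric, connected and bipartite. -/
structure Good {X : Type*} (adj : X → X → Prop) : Prop where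
  symm : ∀ {a b}, adj a b → adj b a
  conn : ∀ a b, ∃ k, Tour adj ∅ a b k
  bip : ∃ χ : X → Bool, ∀ a b, adj a b → χ a ≠ χ b

/-- States: cursor position and loads. -/
abbrev St (X : Type*) := X × (X →₀ ℕ)

/-- The total load. -/
def mass {X : Type*} (g : X →₀ ℕ) : ℕ := g.sum fun _ m => m

/-- The set of the lit points. -/
def lit {X : Type*} (g : X →₀ ℕ) : Set X := {v | g v ≠ 0}

/-- The norm of a state. -/
noncomputable def nrm {X : Type*} (adj : X → X → Prop) (o : X) (s : St X) : ℕ :=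
  tsp adj (lit s.2) o s.1 + mass s.2

/-- One step: move the cursor, or change the load at the cursor by one. -/
inductive Step {X : Type*} (adj : X → X → Prop) : St X → St X → Prop
  | move (c c' : X) (g : X →₀ ℕ) : adj c c' → Step adj (c, g) (c', g)
  | inc (c : X) (g : X →₀ ℕ) : Step adj (c, g) (c, g + Finsupp.single c 1)
  | dec (c : X) (g : X →₀ ℕ) : Step adj (c, g + Finsupp.single c 1) (c, g)

/-- The norm of the state is in the window `[n, n + 3]`. -/
def InW {X : Type*} (adj : X → X → Prop) (o : X) (n : ℕ) (s : St X) : Prop :=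
  n ≤ nrm adj o s ∧ nrm adj o s ≤ n + 3

/-- Paths of exactly `k` steps inside the window. -/
inductive Rch {X : Type*} (adj : X → X → Prop) (o : X) (n : ℕ) : ℕ → St X → St X → Prop
  | refl (s : St X) : InW adj o n s → Rch adj o n 0 s s
  | tail {k : ℕ} {s t u : St X} : Rch adj o n k s t → Step adj t u → InW adj o n u →
      Rch adj o n (k + 1) s u

/-- Paths of at most `k` steps inside the window `[n, n + 3]`. -/
def Reach {X : Type*} (adj : X → X → Prop) (o : X) (n k : ℕ) (s t : St X) : Prop :=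
  ∃ j ≤ k, Rch adj o n j s t

/-- A walk of length `k` from `a` to `b` inside `V`. -/
def PathIn {X : Type*} (adj : X → X → Prop) (V : Finset X) (a b : X) (k : ℕ) : Prop :=
  ∃ w : ℕ → X, w 0 = a ∧ w k = b ∧ (∀ i < k, adj (w i) (w (i + 1))) ∧ ∀ i ≤ k, w i ∈ V

/-- `ℓ¹` distance of two load functions on `V`. -/
def dif {X : Type*} (V : Finset X) (g g' : X →₀ ℕ) : ℕ :=
  ∑ x ∈ V, ((g x - g' x) + (g' x - g x))

/-- Required load at the cursor for naive rearrangements on `v` points. -/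
def bd (v : ℕ) : ℕ := 1000 * (v + 1) ^ 3

/-- Overhead of naive rearrangements on `v` points. -/
def cst (v : ℕ) : ℕ := 10 ^ 6 * (v + 1) ^ 6

/-- Any two states at level `n + 1` whose loads differ only on the connected set `V`, with large
loads at the cursors, are joined inside the window by a path of length about
`4 * diam * (ℓ¹ distance)`. -/
def NAIVE_Stmt : Prop :=
  ∀ {X : Type} (adj : X → X → Prop), Good adj → ∀ (o : X) (n : ℕ) (V : Finset X) (δ : ℕ),
    δ ≤ V.card → (∀ a ∈ V, ∀ b ∈ V, ∃ k ≤ δ, PathIn adj V a b k) →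
    ∀ s ∈ V, ∀ s' ∈ V, ∀ g g' : X →₀ ℕ, (∀ x ∉ V, g x = g' x) →
    bd V.card ≤ g s → bd V.card ≤ g' s' →
    nrm adj o (s, g) = n + 1 → nrm adj o (s', g') = n + 1 →
    Reach adj o n (4 * δ * dif V g g' + cst V.card) (s, g) (s', g')

/-- `K` revolutions around a lit cycle: each point at which the tour length goes up loses `K`, each
point at which it goes down gains `K`. -/
def PUMP_Stmt : Prop :=
  ∀ {X : Type} (adj : X → X → Prop), Good adj → ∀ (o : X) (n P K : ℕ) (v : ℕ → X),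
    v P = v 0 → (∀ i < P, adj (v i) (v (i + 1))) → (∀ i < P, ∀ j < P, v i = v j → i = j) →
    ∀ g : X →₀ ℕ, nrm adj o (v 0, g) = n + 1 →
    (∀ i < P, 2 ≤ g (v (i + 1))) →
    (∀ i < P, tsp adj (lit g) o (v (i + 1)) = tsp adj (lit g) o (v i) + 1 →
      2 + K ≤ g (v (i + 1))) →
    ∃ g' : X →₀ ℕ, nrm adj o (v 0, g') = n + 1 ∧
      Reach adj o n (2 * P * K) (v 0, g) (v 0, g') ∧
      (∀ x, (∀ i < P, v i ≠ x) → g' x = g x) ∧
      (∀ i < P, tsp adj (lit g) o (v (i + 1)) = tsp adj (lit g) o (v i) + 1 →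
        g' (v (i + 1)) + K = g (v (i + 1))) ∧
      (∀ i < P, tsp adj (lit g) o (v (i + 1)) ≠ tsp adj (lit g) o (v i) + 1 →
        g' (v (i + 1)) = g (v (i + 1)) + K)

/-- `ρ` is the index function of a retraction of the graph onto the path `a 0, …, a d`, and the
only edges along which it changes are the edges of the path. -/
structure LineRet {V : Type*} (adj : V → V → Prop) (a : ℕ → V) (d : ℕ) (ρ : V → ℕ) : Prop where
  adj_path : ∀ i < d, adj (a i) (a (i + 1))
  val : ∀ i ≤ d, ρ (a i) = i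
  cross : ∀ u v, adj u v → ρ u ≠ ρ v →
    ∃ i < d, (u = a i ∧ v = a (i + 1)) ∨ (u = a (i + 1) ∧ v = a i)
  le : ∀ u, ρ u ≤ d

/-- Adjacency in a product of graphs. -/
def padj {A B : Type*} (adjA : A → A → Prop) (adjB : B → B → Prop) (x y : A × B) : Prop :=
  (adjA x.1 y.1 ∧ x.2 = y.2) ∨ (x.1 = y.1 ∧ adjB x.2 y.2)

/-- The boundary of the rectangle `[0, d] × [m, m + D]`. -/
def rect {A B : Type*} (α : ℕ → A) (β : ℕ → B) (d m D : ℕ) : Set (A × B) :=
  {v | (∃ j, m ≤ j ∧ j ≤ m + D ∧ (v = (α 0, β j) ∨ v = (α d, β j))) ∨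
    ∃ i ≤ d, v = (α i, β m) ∨ v = (α i, β (m + D))}

/-- The corridor `{a} × [1, m]`. -/
def corr {A B : Type*} (a : A) (β : ℕ → B) (m : ℕ) : Set (A × B) :=
  {v | ∃ j, 1 ≤ j ∧ j ≤ m ∧ v = (a, β j)}

/-- Pump inequality: with a corridor at the corner `(α 0, β m)`, the tour length at the opposite
corner is larger by almost `D + d`. -/
def PI_Stmt : Prop :=
  ∀ {A B : Type} (adjA : A → A → Prop) (adjB : B → B → Prop), Good adjA → Good adjB →
    ∀ (d D m : ℕ), 2 ≤ d → 2 ≤ D → 4 * (D + d) ≤ m →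
    ∀ (α : ℕ → A) (ρ : A → ℕ), LineRet adjA α d ρ →
    ∀ (β : ℕ → B) (p : B → ℕ), LineRet adjB β (m + D) p →
    ∀ o : A × B, p o.2 = 0 → ∀ S : Set (A × B), S.Finite → (∀ v ∈ S, p v.2 = 0) →
      tsp (padj adjA adjB) (S ∪ corr (α 0) β m ∪ rect α β d m D) o (α 0, β m) + (D + d) ≤
        tsp (padj adjA adjB) (S ∪ corr (α 0) β m ∪ rect α β d m D) o (α d, β (m + D)) + 4

/-- The laboratory: in an empty half space, a heap of size `H` is moved over the distance `N * d`
(`N ≤ d ^ 2`) in `O(H d ^ 2)` steps. -/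
def LAB_Stmt : Prop :=
  ∃ C : ℕ, ∀ {A B : Type} (adjA : A → A → Prop) (adjB : B → B → Prop), Good adjA → Good adjB →
    ∀ (d N : ℕ), 2 ≤ d → N ≤ d ^ 2 →
    ∀ (α : ℕ → A) (ρ : A → ℕ), LineRet adjA α (N * d) ρ →
    ∀ (β : ℕ → B) (p : B → ℕ), LineRet adjB β (4 * (d ^ 2 + d) + d ^ 2) p →
    ∀ o : A × B, p o.2 = 0 → ∀ env : A × B →₀ ℕ, (∀ v, env v ≠ 0 → p v.2 = 0) →
    ∀ n H : ℕ, d ^ C ≤ H →
      nrm (padj adjA adjB) o ((α 0, β 1), env + Finsupp.single (α 0, β 1) H) = n + 1 →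
      ∃ H' : ℕ, H ≤ H' + d ^ C ∧ H' ≤ H + d ^ C ∧
        nrm (padj adjA adjB) o ((α (N * d), β 1), env + Finsupp.single (α (N * d), β 1) H') = n + 1 ∧
        Reach (padj adjA adjB) o n (C * H * d ^ 2 + d ^ C)
          ((α 0, β 1), env + Finsupp.single (α 0, β 1) H)
          ((α (N * d), β 1), env + Finsupp.single (α (N * d), β 1) H')

/-- Adjacency in the Cayley graph of the free group of rank two (a tree). -/
def fadj (a b : FreeGroup Bool) : Prop :=
  ∃ x : Bool, a * FreeGroup.of x = b ∨ b * FreeGroup.of x = a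

/-- The Cayley graph of `F₂ × F₂`: the product of two trees. -/
def fadj2 : FreeGroup Bool × FreeGroup Bool → FreeGroup Bool × FreeGroup Bool → Prop :=
  padj fadj fadj

/-- Facts about the tree. -/
def TREE_Stmt : Prop :=
  Good fadj ∧
  (∀ x x' : FreeGroup Bool, ∃ (L : ℕ) (α : ℕ → FreeGroup Bool) (ρ : FreeGroup Bool → ℕ),
    LineRet fadj α L ρ ∧ α 0 = x ∧ α L = x' ∧ ∀ k, Tour fadj ∅ x x' k → L ≤ k) ∧
  (∀ (F : Finset (FreeGroup Bool)) (y : FreeGroup Bool) (q M : ℕ), F.card < 3 ^ q →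
    ∃ (α : ℕ → FreeGroup Bool) (ρ : FreeGroup Bool → ℕ), LineRet fadj α (q + M) ρ ∧ α 0 = y ∧
      ∀ b ∈ F, ρ b ≤ q)

/-- A heap of size `H` is moved over a distance at most `d ^ 3` in any environment in
`O(H d ^ 2)` steps. -/
def MOVE_Stmt : Prop :=
  ∃ C : ℕ, ∀ (d n : ℕ), 2 ≤ d → n + 6 ≤ 2 ^ d →
    ∀ (o c c' : FreeGroup Bool × FreeGroup Bool) (k : ℕ), k ≤ d ^ 3 → Tour fadj2 ∅ c c' k →
    ∀ (env : FreeGroup Bool × FreeGroup Bool →₀ ℕ) (H : ℕ), d ^ C ≤ H →
      nrm fadj2 o (c, env + Finsupp.single c H) = n + 1 →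
      ∃ H' : ℕ, H ≤ H' + d ^ C ∧ H' ≤ H + d ^ C ∧
        nrm fadj2 o (c', env + Finsupp.single c' H') = n + 1 ∧
        Reach fadj2 o n (C * H * d ^ 2 + d ^ C)
          (c, env + Finsupp.single c H) (c', env + Finsupp.single c' H')

/-- Unwinding: every state at level `n + 1` is joined to the heap at the origin. -/
def UNWIND_Stmt : Prop :=
  ∃ C : ℕ, ∀ (d n : ℕ), 2 ≤ d → n + 6 ≤ 2 ^ d → ∀ (o : FreeGroup Bool × FreeGroup Bool)
    (s : St (FreeGroup Bool × FreeGroup Bool)), nrm fadj2 o s = n + 1 →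
      Reach fadj2 o n ((n / d ^ 3 + 1) * (C * n * d ^ 2 + d ^ C) + n * d ^ C)
        s (o, Finsupp.single o (n + 1))

end Pool.Agent.AD
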