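import Pool.Agent.AD.GDefs

/-!
MP_072aa0_al: word norms, and the annulus of norms `n, n + 1, n + 2` is never connected (for any
infinite base and lamp groups).
-/

set_option autoImplicit false

namespace Pool.Agent.AD

/-! ### Word norms -/

section Norm

variable {G : Type*} [Group G] {S : Set G}

/-- `g` is a product of `k` elements of `S`. -/
def IsWord (S : Set G) (k : ℕ) (g : G) : Prop :=
  ∃ l : List G, l.length = k ∧ (∀ s ∈ l, s ∈ S) ∧ l.prod = g

theorem IsWord.one : IsWord S 0 (1 : G) := ⟨[], rfl, by simp, rfl⟩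

theorem IsWord.mul {k l : ℕ} {g h : G} (hg : IsWord S k g) (hh : IsWord S l h) :
    IsWord S (k + l) (g * h) := by
  obtain ⟨a, a1, a2, a3⟩ := hg
  obtain ⟨b, b1, b2, b3⟩ := hh
  refine ⟨a ++ b, by simp [a1, b1], fun s hs => ?_, by rw [List.prod_append, a3, b3]⟩
  rcases List.mem_append.mp hs with h | h
  · exact a2 s h
  · exact b2 s h

theorem IsWord.gen {s : G} (hs : s ∈ S) : IsWord S 1 s :=
  ⟨[s], rfl, by simpa using hs, by simp⟩

theorem wordNorm_le {k : ℕ} {g : G} (h : IsWord S k g) : wordNorm S g ≤ k := Nat.sInf_le h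

theorem IsWord.isWord_wordNorm {k : ℕ} {g : G} (h : IsWord S k g) :
    IsWord S (wordNorm S g) g := Nat.sInf_mem (s := {k | IsWord S k g}) ⟨k, h⟩

/-- Induction over words, adding letters at the end. -/
theorem IsWord.induction {p : ℕ → G → Prop} (h1 : p 0 1)
    (hs : ∀ k g s, IsWord S k g → p k g → s ∈ S → p (k + 1) (g * s)) {k : ℕ} {g : G}
    (h : IsWord S k g) : p k g := by
  obtain ⟨l, rfl, l2, rfl⟩ := h
  induction l using List.reverseRecOn with
  | nil => exact h1
  | append_singleton l a ih =>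
    rw [List.prod_append, List.prod_singleton, List.length_append, List.length_singleton]
    have h2 : ∀ s ∈ l, s ∈ S := fun s hs => l2 s (List.mem_append_left _ hs)
    exact hs _ _ _ ⟨l, rfl, h2, rfl⟩ (ih h2) (l2 a (by simp))

theorem IsGenSet.exists_isWord (hS : IsGenSet S) (g : G) : ∃ k, IsWord S k g := by
  have h : g ∈ Subgroup.closure S := by rw [hS.generates]; trivial
  induction h using Subgroup.closure_induction with
  | mem x hx => exact ⟨1, IsWord.gen hx⟩
  | one => exact ⟨0, IsWord.one⟩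
  | mul x y _ _ hx hy =>
    obtain ⟨a, ha⟩ := hx
    obtain ⟨b, hb⟩ := hy
    exact ⟨a + b, ha.mul hb⟩
  | inv x _ hx =>
    obtain ⟨a, l, h1, h2, rfl⟩ := hx
    refine ⟨a, (l.map (·⁻¹)).reverse, by simpa using h1, fun s hs => ?_, ?_⟩
    · rw [List.mem_reverse, List.mem_map] at hs
      obtain ⟨t, ht, rfl⟩ := hs
      exact hS.symm t (h2 t ht)
    · rw [List.prod_inv_reverse]

theorem IsGenSet.isWord (hS : IsGenSet S) (g : G) : IsWord S (wordNorm S g) g := by
  obtain ⟨k, hk⟩ := hS.exists_isWord g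
  exact hk.isWord_wordNorm

theorem wordNorm_one : wordNorm S (1 : G) = 0 := Nat.le_zero.mp (wordNorm_le IsWord.one)

theorem IsWord.eq_one {g : G} (h : IsWord S 0 g) : g = 1 := by
  obtain ⟨l, h1, h2, rfl⟩ := h
  rw [List.length_eq_zero_iff.mp h1, List.prod_nil]

theorem IsGenSet.wordNorm_pos (hS : IsGenSet S) {g : G} (hg : g ≠ 1) : 1 ≤ wordNorm S g := by
  by_contra h
  have h0 : wordNorm S g = 0 := by omega
  have h1 := hS.isWord g
  rw [h0] at h1
  exact hg h1.eq_one

theorem IsGenSet.wordNorm_mul_le (hS : IsGenSet S) (g h : G) :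
    wordNorm S (g * h) ≤ wordNorm S g + wordNorm S h :=
  wordNorm_le ((hS.isWord g).mul (hS.isWord h))

theorem IsGenSet.wordNorm_mul_gen_le (hS : IsGenSet S) (g : G) {s : G} (hs : s ∈ S) :
    wordNorm S (g * s) ≤ wordNorm S g + 1 :=
  wordNorm_le ((hS.isWord g).mul (IsWord.gen hs))

theorem IsGenSet.wordNorm_gen_le {s : G} (hs : s ∈ S) : wordNorm S s ≤ 1 :=
  wordNorm_le (IsWord.gen hs)

theorem IsGenSet.finite_ball (hS : IsGenSet S) (n : ℕ) : {g : G | wordNorm S g ≤ n}.Finite := by
  have h : ∀ n : ℕ, {g : G | IsWord S n g}.Finite := by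
    intro n
    induction n with
    | zero =>
      refine (Set.finite_singleton (1 : G)).subset fun g hg => ?_
      exact IsWord.eq_one hg
    | succ n ih =>
      refine ((ih.prod hS.finite).image fun p : G × G => p.1 * p.2).subset fun g hg => ?_
      obtain ⟨l, h1, h2, rfl⟩ := hg
      have hne : l ≠ [] := by
        rintro rfl
        simp at h1
      refine ⟨(l.dropLast.prod, l.getLast hne), ⟨⟨l.dropLast, by simp [h1],
        fun s hs => h2 s (List.mem_of_mem_dropLast hs), rfl⟩, h2 _ (List.getLast_mem hne)⟩, ?_⟩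
      show l.dropLast.prod * l.getLast hne = l.prod
      conv_rhs => rw [← List.dropLast_append_getLast hne]
      rw [List.prod_append, List.prod_singleton]
  refine ((Set.finite_le_nat n).biUnion fun k _ => h k).subset fun g hg => ?_
  exact Set.mem_biUnion hg (hS.isWord g)

/-- In an infinite group every natural number is the norm of an element. -/
theorem IsGenSet.exists_wordNorm_eq [Infinite G] (hS : IsGenSet S) (n : ℕ) :
    ∃ g : G, wordNorm S g = n := by
  obtain ⟨g, hg⟩ : ∃ g : G, n < wordNorm S g := by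
    by_contra hcon
    push Not at hcon
    exact Set.infinite_univ (α := G) ((hS.finite_ball n).subset fun g _ => hcon g)
  obtain ⟨l, h1, h2, h3⟩ := hS.isWord g
  refine ⟨(l.take n).prod, le_antisymm ?_ ?_⟩
  · refine wordNorm_le ⟨l.take n, ?_, fun s hs => h2 s (List.mem_of_mem_take hs), rfl⟩
    rw [List.length_take]
    omega
  · have e1 : g = (l.take n).prod * (l.drop n).prod := by
      rw [← List.prod_append, List.take_append_drop, h3]
    have e2 : wordNorm S (l.drop n).prod ≤ wordNorm S g - n := by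
      refine wordNorm_le ⟨l.drop n, ?_, fun s hs => h2 s (List.mem_of_mem_drop hs), rfl⟩
      rw [List.length_drop, h1]
    have e3 := hS.wordNorm_mul_le (l.take n).prod (l.drop n).prod
    rw [← e1] at e3
    omega

end Norm

/-! ### Lower bounds of norms in wreath products -/

section Wreath

variable {Γ L : Type*} [Group Γ] [Group L] {SΓ : Set Γ} {SL : Set L}

theorem Wreath.switch_lamp_one (t : L) : (Wreath.switch t : Wreath Γ L).lamp 1 = t := by
  simp [Wreath.switch]

theorem Wreath.switch_lamp_ne (t : L) {x : Γ} (hx : x ≠ 1) :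
    (Wreath.switch t : Wreath Γ L).lamp x = 1 := by
  simp [Wreath.switch, hx]

theorem Wreath.mul_switch_lamp_self (g : Wreath Γ L) (t : L) :
    (g * Wreath.switch t).lamp g.pos = g.lamp g.pos * t := by
  rw [Wreath.mul_lamp, inv_mul_cancel, Wreath.switch_lamp_one]

theorem Wreath.mul_switch_lamp_ne (g : Wreath Γ L) (t : L) {x : Γ} (hx : x ≠ g.pos) :
    (g * Wreath.switch t).lamp x = g.lamp x := by
  rw [Wreath.mul_lamp, Wreath.switch_lamp_ne, mul_one]
  intro h
  exact hx (inv_mul_eq_one.mp h).symm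

theorem Wreath.mul_switch_pos (g : Wreath Γ L) (t : L) : (g * Wreath.switch t).pos = g.pos := by
  rw [Wreath.mul_pos]
  exact mul_one _

theorem Wreath.mul_walk_pos (g : Wreath Γ L) (s : Γ) : (g * Wreath.walk s).pos = g.pos * s := rfl

theorem Wreath.mul_walk_lamp (g : Wreath Γ L) (s : Γ) (x : Γ) :
    (g * Wreath.walk s).lamp x = g.lamp x := by
  rw [Wreath.mul_lamp]
  exact mul_one _

/-- A word of length `k` for `g` has `a` moves and `b` switches. -/
theorem word_bound (hΓ : IsGenSet SΓ) (hL : IsGenSet SL) {k : ℕ} {g : Wreath Γ L}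
    (h : IsWord (Wreath.gens SΓ SL) k g) :
    ∃ a b, a + b = k ∧ wordNorm SΓ g.pos ≤ a ∧
      (∀ v, g.lamp v ≠ 1 → wordNorm SΓ v + wordNorm SΓ (v⁻¹ * g.pos) ≤ a) ∧
      (∀ W : Finset Γ, ∑ x ∈ W, wordNorm SL (g.lamp x) ≤ b) := by
  classical
  refine IsWord.induction (p := fun k g => ∃ a b, a + b = k ∧ wordNorm SΓ g.pos ≤ a ∧
      (∀ v, g.lamp v ≠ 1 → wordNorm SΓ v + wordNorm SΓ (v⁻¹ * g.pos) ≤ a) ∧
      (∀ W : Finset Γ, ∑ x ∈ W, wordNorm SL (g.lamp x) ≤ b)) ?_ ?_ h
  · refine ⟨0, 0, rfl, ?_, fun v hv => absurd rfl hv, fun W => ?_⟩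
    · rw [Wreath.one_pos, wordNorm_one]
    · refine (Finset.sum_eq_zero fun x _ => ?_).le
      rw [Wreath.one_lamp, wordNorm_one]
  · intro k g s _ ih hs
    obtain ⟨a, b, h1, h2, h3, h4⟩ := ih
    rcases hs with ⟨t, ht, rfl⟩ | ⟨t, ht, rfl⟩
    · refine ⟨a + 1, b, by omega, ?_, fun v hv => ?_, fun W => ?_⟩
      · rw [Wreath.mul_walk_pos]
        exact (hΓ.wordNorm_mul_gen_le _ ht).trans (by omega)
      · rw [Wreath.mul_walk_lamp] at hv
        rw [Wreath.mul_walk_pos, ← mul_assoc]
        have := h3 v hv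
        have := hΓ.wordNorm_mul_gen_le (v⁻¹ * g.pos) ht
        omega
      · simp only [Wreath.mul_walk_lamp]
        exact h4 W
    · refine ⟨a, b + 1, by omega, ?_, fun v hv => ?_, fun W => ?_⟩
      · rw [Wreath.mul_switch_pos]
        exact h2
      · rw [Wreath.mul_switch_pos]
        by_cases hvp : v = g.pos
        · rw [hvp, inv_mul_cancel, wordNorm_one]
          omega
        · rw [Wreath.mul_switch_lamp_ne g t hvp] at hv
          exact h3 v hv
      · by_cases hp : g.pos ∈ W
        · rw [← Finset.add_sum_erase W _ hp, Wreath.mul_switch_lamp_self]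
          have e1 : ∑ x ∈ W.erase g.pos, wordNorm SL ((g * Wreath.switch t).lamp x) =
              ∑ x ∈ W.erase g.pos, wordNorm SL (g.lamp x) :=
            Finset.sum_congr rfl fun x hx => by
              rw [Wreath.mul_switch_lamp_ne g t (Finset.ne_of_mem_erase hx)]
          rw [e1]
          have e2 := h4 W
          rw [← Finset.add_sum_erase W _ hp] at e2
          have := hL.wordNorm_mul_gen_le (g.lamp g.pos) ht
          omega
        · have e1 : ∑ x ∈ W, wordNorm SL ((g * Wreath.switch t).lamp x) =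
              ∑ x ∈ W, wordNorm SL (g.lamp x) :=
            Finset.sum_congr rfl fun x hx => by
              rw [Wreath.mul_switch_lamp_ne g t (fun h => hp (h ▸ hx))]
          rw [e1]
          exact (h4 W).trans (Nat.le_succ b)

theorem isWord_walk {k : ℕ} {x : Γ} (h : IsWord SΓ k x) :
    IsWord (Wreath.gens SΓ SL) k (Wreath.walk x : Wreath Γ L) := by
  refine IsWord.induction (p := fun k x =>
    IsWord (Wreath.gens SΓ SL) k (Wreath.walk x : Wreath Γ L)) ?_ ?_ h
  · have : (Wreath.walk 1 : Wreath Γ L) = 1 := rfl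
    rw [this]
    exact IsWord.one
  · intro k g s _ ih hs
    have e : (Wreath.walk (g * s) : Wreath Γ L) = Wreath.walk g * Wreath.walk s := by
      refine Wreath.ext rfl ?_
      funext x
      rw [Wreath.mul_walk_lamp]
      rfl
    rw [e]
    exact ih.mul (IsWord.gen (Or.inl ⟨s, hs, rfl⟩))

theorem isWord_switch {k : ℕ} {t : L} (h : IsWord SL k t) :
    IsWord (Wreath.gens SΓ SL) k (Wreath.switch t : Wreath Γ L) := by
  refine IsWord.induction (p := fun k t =>
    IsWord (Wreath.gens SΓ SL) k (Wreath.switch t : Wreath Γ L)) ?_ ?_ h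
  · have : (Wreath.switch 1 : Wreath Γ L) = 1 := by
      refine Wreath.ext rfl ?_
      funext x
      simp [Wreath.switch, Wreath.one_lamp]
    rw [this]
    exact IsWord.one
  · intro k g s _ ih hs
    have e : (Wreath.switch (g * s) : Wreath Γ L) = Wreath.switch g * Wreath.switch s := by
      refine Wreath.ext ?_ ?_
      · rw [Wreath.mul_switch_pos]
        rfl
      · funext x
        by_cases hx : x = (Wreath.switch g : Wreath Γ L).pos
        · rw [hx, Wreath.mul_switch_lamp_self]
          show (Wreath.switch (g * s) : Wreath Γ L).lamp 1 =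
            (Wreath.switch g : Wreath Γ L).lamp 1 * s
          rw [Wreath.switch_lamp_one, Wreath.switch_lamp_one]
        · rw [Wreath.mul_switch_lamp_ne _ _ hx, Wreath.switch_lamp_ne _ hx,
            Wreath.switch_lamp_ne _ hx]
    rw [e]
    exact ih.mul (IsWord.gen (Or.inr ⟨s, hs, rfl⟩))

/-- The component of `(x, 1)`, `|x| = n`, in the annulus of the norms `n, n + 1, n + 2`: at most one
lamp is lit, and its position has norm at least `n`. -/
def OneLit (SΓ : Set Γ) (SL : Set L) (n : ℕ) (g : Wreath Γ L) : Prop :=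
  (∃ k, IsWord (Wreath.gens SΓ SL) k g) ∧
    ((∀ x, g.lamp x = 1) ∨ ∃ v, g.lamp v ≠ 1 ∧ n ≤ wordNorm SΓ v ∧ ∀ x, x ≠ v → g.lamp x = 1)

theorem OneLit.step (hΓ : IsGenSet SΓ) (hL : IsGenSet SL) {n : ℕ} {g s : Wreath Γ L}
    (hg : OneLit SΓ SL n g) (hn : n ≤ wordNorm (Wreath.gens SΓ SL) g)
    (hs : s ∈ Wreath.gens SΓ SL)
    (hn2 : wordNorm (Wreath.gens SΓ SL) (g * s) ≤ n + 2) : OneLit SΓ SL n (g * s) := by
  classical
  obtain ⟨⟨k, hk⟩, h⟩ := hg
  have hw : IsWord (Wreath.gens SΓ SL) (k + 1) (g * s) := hk.mul (IsWord.gen hs)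
  refine ⟨⟨_, hw⟩, ?_⟩
  rcases hs with ⟨t, ht, rfl⟩ | ⟨t, ht, rfl⟩
  · simp only [Wreath.mul_walk_lamp]
    exact h
  · rcases h with h | ⟨v, h1, h2, h3⟩
    · by_cases ht1 : t = 1
      · left
        intro x
        by_cases hx : x = g.pos
        · rw [hx, Wreath.mul_switch_lamp_self, h, ht1, one_mul]
        · rw [Wreath.mul_switch_lamp_ne g t hx, h]
      · right
        refine ⟨g.pos, ?_, ?_, fun x hx => ?_⟩
        · rw [Wreath.mul_switch_lamp_self, h, one_mul]
          exact ht1
        · have e : g = Wreath.walk g.pos := by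
            refine Wreath.ext rfl ?_
            funext x
            rw [h]
            rfl
          rw [e] at hn
          exact hn.trans (wordNorm_le (isWord_walk (hΓ.isWord g.pos)))
        · rw [Wreath.mul_switch_lamp_ne g t hx, h]
    · by_cases hv : v = g.pos
      · by_cases h4 : g.lamp v * t = 1
        · left
          intro x
          by_cases hx : x = g.pos
          · rw [hx, Wreath.mul_switch_lamp_self, ← hv, h4]
          · rw [Wreath.mul_switch_lamp_ne g t hx, h3 x (by rw [hv]; exact hx)]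
        · right
          refine ⟨v, ?_, h2, fun x hx => ?_⟩
          · rw [hv, Wreath.mul_switch_lamp_self, ← hv]
            exact h4
          · rw [Wreath.mul_switch_lamp_ne g t (by rw [← hv]; exact hx), h3 x hx]
      · by_cases ht1 : t = 1
        · right
          refine ⟨v, ?_, h2, fun x hx => ?_⟩
          · rw [Wreath.mul_switch_lamp_ne g t hv]
            exact h1
          · by_cases hxp : x = g.pos
            · rw [hxp, Wreath.mul_switch_lamp_self, ht1, mul_one, h3 _ (by rw [← hxp]; exact hx)]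
            · rw [Wreath.mul_switch_lamp_ne g t hxp, h3 x hx]
        · exfalso
          obtain ⟨a, b, c1, c2, c3, c4⟩ := word_bound hΓ hL hw.isWord_wordNorm
          have d1 : (g * Wreath.switch t).lamp v ≠ 1 := by
            rw [Wreath.mul_switch_lamp_ne g t hv]
            exact h1
          have d2 : (g * Wreath.switch t).lamp g.pos ≠ 1 := by
            rw [Wreath.mul_switch_lamp_self, h3 _ (Ne.symm hv), one_mul]
            exact ht1
          have d3 := c3 v d1
          rw [Wreath.mul_switch_pos] at d3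
          have d4 : 1 ≤ wordNorm SΓ (v⁻¹ * g.pos) := by
            refine hΓ.wordNorm_pos fun h => hv ?_
            exact (inv_mul_eq_one.mp h)
          have d5 := c4 {v, g.pos}
          rw [Finset.sum_pair hv] at d5
          have d6 := hL.wordNorm_pos d1
          have d7 := hL.wordNorm_pos d2
          omega

theorem IsGenSet.inv_mem_gens (hΓ : IsGenSet SΓ) (hL : IsGenSet SL) {s : Wreath Γ L}
    (hs : s ∈ Wreath.gens SΓ SL) : s⁻¹ ∈ Wreath.gens SΓ SL := by
  rcases hs with ⟨t, ht, rfl⟩ | ⟨t, ht, rfl⟩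
  · refine Or.inl ⟨t⁻¹, hΓ.symm t ht, ?_⟩
    refine Wreath.ext rfl ?_
    funext x
    rw [Wreath.inv_lamp]
    exact inv_one
  · refine Or.inr ⟨t⁻¹, hL.symm t ht, ?_⟩
    refine Wreath.ext ?_ ?_
    · rw [Wreath.inv_pos]
      exact inv_one
    · funext x
      rw [Wreath.inv_lamp]
      have e : (Wreath.switch t : Wreath Γ L).pos * x = x := one_mul x
      rw [e]
      by_cases hx : x = 1
      · rw [hx, Wreath.switch_lamp_one, Wreath.switch_lamp_one]
      · rw [Wreath.switch_lamp_ne _ hx, Wreath.switch_lamp_ne _ hx, inv_one]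

/-- The annulus of the norms `n, n + 1, n + 2` is not connected, for every `n ≥ 1` and all infinite
groups. -/
theorem annulusDiam_two [Infinite Γ] [Infinite L] (hΓ : IsGenSet SΓ) (hL : IsGenSet SL) {n : ℕ}
    (hn : 1 ≤ n) : annulusDiam (Wreath.gens SΓ SL) n 2 = ⊤ := by
  classical
  unfold annulusDiam
  refine SimpleGraph.ediam_eq_top_of_not_preconnected fun hcon => ?_
  -- the first vertex
  obtain ⟨x, hx⟩ := hΓ.exists_wordNorm_eq n
  have hwx : IsWord (Wreath.gens SΓ SL) n (Wreath.walk x : Wreath Γ L) := by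
    rw [← hx]
    exact isWord_walk (hΓ.isWord x)
  have hnx : wordNorm (Wreath.gens SΓ SL) (Wreath.walk x : Wreath Γ L) = n := by
    refine le_antisymm (wordNorm_le hwx) ?_
    obtain ⟨a, b, c1, c2, -, -⟩ := word_bound hΓ hL hwx.isWord_wordNorm
    have : (Wreath.walk x : Wreath Γ L).pos = x := rfl
    rw [this, hx] at c2
    omega
  -- the second vertex
  obtain ⟨u, hu⟩ := hΓ.exists_wordNorm_eq 1
  have hu1 : u ≠ 1 := by
    rintro rfl
    rw [wordNorm_one] at hu
    omega
  obtain ⟨p, hp⟩ := hL.exists_wordNorm_eq (max 1 (n - 1))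
  obtain ⟨q, hq⟩ := hL.exists_wordNorm_eq 1
  set y : Wreath Γ L := Wreath.switch p * Wreath.walk u * Wreath.switch q with hy
  have hwy : IsWord (Wreath.gens SΓ SL) (max 1 (n - 1) + 1 + 1) y := by
    rw [hy, ← hp]
    refine ((isWord_switch (hL.isWord p)).mul ?_).mul ?_
    · rw [← hu]
      exact isWord_walk (hΓ.isWord u)
    · rw [← hq]
      exact isWord_switch (hL.isWord q)
  have ypos : y.pos = u := by
    rw [hy, Wreath.mul_switch_pos, Wreath.mul_walk_pos]
    exact one_mul u
  have ppos : (Wreath.switch p * Wreath.walk u : Wreath Γ L).pos = u := by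
    rw [Wreath.mul_walk_pos]
    exact one_mul u
  have y1 : y.lamp 1 = p := by
    rw [hy, Wreath.mul_switch_lamp_ne _ _ (by rw [ppos]; exact hu1.symm), Wreath.mul_walk_lamp,
      Wreath.switch_lamp_one]
  have yu : y.lamp u = q := by
    have := Wreath.mul_switch_lamp_self (Wreath.switch p * Wreath.walk u : Wreath Γ L) q
    rw [ppos] at this
    rw [hy, this, Wreath.mul_walk_lamp, Wreath.switch_lamp_ne _ hu1, one_mul]
  have hp1 : p ≠ 1 := by
    rintro rfl
    rw [wordNorm_one] at hp
    omega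
  have hq1 : q ≠ 1 := by
    rintro rfl
    rw [wordNorm_one] at hq
    omega
  have hny : n ≤ wordNorm (Wreath.gens SΓ SL) y := by
    obtain ⟨a, b, c1, c2, c3, c4⟩ := word_bound hΓ hL hwy.isWord_wordNorm
    have d5 := c4 {1, u}
    rw [Finset.sum_pair hu1.symm, y1, yu, hp, hq] at d5
    rw [ypos, hu] at c2
    omega
  have hny2 : wordNorm (Wreath.gens SΓ SL) y ≤ n + 2 := (wordNorm_le hwy).trans (by omega)
  -- the path
  have hr := hcon ⟨Wreath.walk x, by rw [annulus, Set.mem_setOf_eq, hnx]; omega⟩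
    ⟨y, hny, hny2⟩
  rw [SimpleGraph.reachable_iff_reflTransGen] at hr
  have key : OneLit SΓ SL n y := by
    refine Relation.ReflTransGen.head_induction_on
      (motive := fun (a : annulus (Wreath.gens SΓ SL) n 2) _ => OneLit SΓ SL n a.1 →
        OneLit SΓ SL n y) hr ?_ ?_ ?_
    · exact id
    · intro a c hac _ ih ha
      refine ih ?_
      rw [SimpleGraph.comap_adj] at hac
      obtain ⟨-, h⟩ := (SimpleGraph.fromRel_adj _ _ _).mp hac
      have key2 : ∃ s ∈ Wreath.gens SΓ SL, (a : Wreath Γ L) * s = c := by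
        rcases h with ⟨s, hs, h⟩ | ⟨s, hs, h⟩
        · exact ⟨s, hs, h⟩
        · refine ⟨s⁻¹, hΓ.inv_mem_gens hL hs, ?_⟩
          have h' : (c : Wreath Γ L) * s = a := h
          rw [← h']
          simp
      obtain ⟨s, hs, h⟩ := key2
      have := ha.step hΓ hL a.2.1 hs (by rw [h]; exact c.2.2)
      rwa [h] at this
    · exact ⟨⟨n, hwx⟩, Or.inl fun _ => rfl⟩
  obtain ⟨-, h | ⟨v, h1, h2, h3⟩⟩ := key
  · exact hp1 (by rw [← y1, h])
  · by_cases hv : v = 1
    · apply hq1
      rw [← yu, h3 u (by rw [hv]; exact hu1)]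
    · apply hp1
      rw [← y1, h3 1 (Ne.symm hv)]

end Wreath

end Pool.Agent.AD
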