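import Pool.Agent.AD.Group
import Pool.Agent.AD.Literal

/-!
MP_072aa0_al, the final estimates: the diameter of the annulus is `O(n ^ 2 / log n)`.
-/

set_option autoImplicit false

namespace Pool.Agent.AD

open Filter Topology

theorem cost_log (C r K : ℕ) : ∃ C' : ℝ, 0 < C' ∧ ∀ n : ℕ, 2 ≤ n →
    ((2 * (r + ((n / Nat.clog 2 (n + 6) ^ 3 + 1) * (C * n * Nat.clog 2 (n + 6) ^ 2 +
      Nat.clog 2 (n + 6) ^ C) + n * Nat.clog 2 (n + 6) ^ C)) +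
      2 * (4 * (2 * n + 1) + K) : ℕ) : ℝ) ≤ C' * (n : ℝ) ^ 2 / Real.log n := by
  -- a bound for `D ^ (C + 3) / 2 ^ D`
  obtain ⟨B, hB0, hB⟩ : ∃ B : ℝ, 0 ≤ B ∧ ∀ D : ℕ, (D : ℝ) ^ (C + 3) / 2 ^ D ≤ B := by
    have h1 : Tendsto (fun k : ℕ => (k : ℝ) ^ (C + 3) / (2 : ℝ) ^ k) atTop (𝓝 0) :=
      tendsto_pow_const_div_const_pow_of_one_lt (C + 3) (by norm_num)
    obtain ⟨B, hB⟩ := h1.bddAbove_range
    refine ⟨B, ?_, fun D => hB ⟨D, rfl⟩⟩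
    exact le_trans (by positivity) (hB ⟨0, rfl⟩)
  refine ⟨2 * C + 2 * (C + 3) * 14 * B + (2 * r + 24 + 2 * K) * 14 + 1, by positivity,
    fun n hn => ?_⟩
  set D := Nat.clog 2 (n + 6) with hD
  have hD1 : 1 ≤ D := Nat.clog_pos (by norm_num) (by omega)
  have h14 : 2 ^ D ≤ 14 * n := by
    have h2 : 2 ^ (D - 1) < n + 6 :=
      Nat.pow_pred_clog_lt_self (b := 2) (x := n + 6) (by norm_num) (by omega)
    have h3 : 2 ^ D = 2 ^ (D - 1) * 2 := by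
      rw [← pow_succ, Nat.sub_add_cancel hD1]
    omega
  refine (cost_alg C r K n D (by omega) hD1 h14).trans ?_
  have hDR : (1 : ℝ) ≤ D := by exact_mod_cast hD1
  have hlog0 : 0 < Real.log n := Real.log_pos (by exact_mod_cast (by omega : 1 < n))
  have hlogD : Real.log n ≤ D := by
    have h1 : (n : ℝ) ≤ 2 ^ D := by
      have : n + 6 ≤ 2 ^ D := Nat.le_pow_clog (by norm_num) _
      exact_mod_cast (by omega : n ≤ 2 ^ D)
    have h2 : Real.log n ≤ Real.log ((2 : ℝ) ^ D) :=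
      Real.log_le_log (by exact_mod_cast (by omega : 0 < n)) h1
    rw [Real.log_pow] at h2
    have h3 : Real.log 2 ≤ 1 := by
      have := Real.log_two_lt_d9
      linarith
    nlinarith
  have hinv : 1 / (D : ℝ) ≤ 1 / Real.log n := one_div_le_one_div_of_le hlog0 hlogD
  have e1 : (D : ℝ) ^ (C + 2) / 2 ^ D ≤ B * (1 / (D : ℝ)) := by
    have h1 := hB D
    have h2 : (D : ℝ) ^ (C + 2) / 2 ^ D = (D : ℝ) ^ (C + 3) / 2 ^ D * (1 / (D : ℝ)) := by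
      field_simp
      ring
    rw [h2]
    exact mul_le_mul_of_nonneg_right h1 (by positivity)
  have e2 : 1 / (n : ℝ) ≤ 14 * (1 / (D : ℝ)) := by
    have h1 : D < 2 ^ D := Nat.lt_two_pow_self
    have h2 : (D : ℝ) ≤ 14 * n := by
      exact_mod_cast (by omega : D ≤ 14 * n)
    have hn0 : (0 : ℝ) < n := by exact_mod_cast (by omega : 0 < n)
    rw [mul_one_div, div_le_div_iff₀ hn0 (by linarith)]
    linarith
  have hC0 : (0 : ℝ) ≤ C := by positivity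
  have hr0 : (0 : ℝ) ≤ r := by positivity
  have hK0 : (0 : ℝ) ≤ K := by positivity
  have hDp : (0 : ℝ) ≤ 1 / (D : ℝ) := by positivity
  have key : (2 * C : ℝ) * (1 / (D : ℝ)) +
      (2 * (C + 3) * 14 : ℝ) * ((D : ℝ) ^ (C + 2) / 2 ^ D) +
      (2 * r + 24 + 2 * K : ℝ) * (1 / (n : ℝ)) ≤
      (2 * C + 2 * (C + 3) * 14 * B + (2 * r + 24 + 2 * K) * 14 + 1) * (1 / Real.log n) := by
    calc (2 * C : ℝ) * (1 / (D : ℝ)) +
        (2 * (C + 3) * 14 : ℝ) * ((D : ℝ) ^ (C + 2) / 2 ^ D) +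
        (2 * r + 24 + 2 * K : ℝ) * (1 / (n : ℝ)) ≤
        (2 * C : ℝ) * (1 / (D : ℝ)) + (2 * (C + 3) * 14 : ℝ) * (B * (1 / (D : ℝ))) +
        (2 * r + 24 + 2 * K : ℝ) * (14 * (1 / (D : ℝ))) := by gcongr
      _ ≤ (2 * C + 2 * (C + 3) * 14 * B + (2 * r + 24 + 2 * K) * 14 + 1) * (1 / (D : ℝ)) := by
        nlinarith
      _ ≤ _ := by gcongr
  calc (n : ℝ) ^ 2 * ((2 * C : ℝ) * (1 / (D : ℝ)) +
      (2 * (C + 3) * 14 : ℝ) * ((D : ℝ) ^ (C + 2) / 2 ^ D) +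
      (2 * r + 24 + 2 * K : ℝ) * (1 / (n : ℝ))) ≤
      (n : ℝ) ^ 2 * ((2 * C + 2 * (C + 3) * 14 * B + (2 * r + 24 + 2 * K) * 14 + 1) *
        (1 / Real.log n)) := by gcongr
    _ = _ := by ring

/-- The diameter of the annulus of the norms `n, …, n + r`, `r ≥ 3`, in `(F₂ × F₂) ≀ ℤ` is
`O(n ^ 2 / log n)`. -/
theorem final_log (hT : TREE_Stmt) (h : UNWIND_Stmt) (h1 : NAIVE_Stmt) (r : ℕ) (hr : 3 ≤ r) :
    ∃ C : ℝ, 0 < C ∧ ∃ n₀ : ℕ, ∀ n ≥ n₀, ∃ D : ℕ,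
      annulusDiam (Wreath.gens SG SL) n r ≤ D ∧ (D : ℝ) ≤ C * (n : ℝ) ^ 2 / Real.log n := by
  have hG : Good fadj2 := grp_good_prod hT.1 hT.1
  obtain ⟨C, hC⟩ := h
  obtain ⟨C', hC0, hC'⟩ := cost_log C r (cst 2)
  refine ⟨C', hC0, max 2 (bd 2), fun n hn => ⟨_, ?_, hC' n (le_trans (le_max_left _ _) hn)⟩⟩
  refine diam_le hG h1 hr (le_trans (le_max_right _ _) hn) fun s hs => ?_
  refine hC (Nat.clog 2 (n + 6)) n ?_ (Nat.le_pow_clog (by norm_num) _) 1 s hs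
  by_contra hlt
  have h2 : Nat.clog 2 (n + 6) ≤ 1 := by omega
  have h3 := Nat.le_pow_clog (b := 2) (by norm_num) (n + 6)
  have h4 : 2 ^ Nat.clog 2 (n + 6) ≤ 2 ^ 1 := Nat.pow_le_pow_right (by norm_num) h2
  omega

end Pool.Agent.AD
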