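import Mathlib

/-!
MP_072aa0_al: group level definitions: word norm, Cayley graph, annuli, dead ends, wreath product.
-/

set_option autoImplicit false

namespace Pool.Agent.AD

/-- The word norm of `g` with respect to `S`. -/
noncomputable def wordNorm {G : Type*} [Group G] (S : Set G) (g : G) : ℕ :=
  sInf {k | ∃ l : List G, l.length = k ∧ (∀ s ∈ l, s ∈ S) ∧ l.prod = g}

/-- `S` is a finite symmetric generating set of `G`. -/
structure IsGenSet {G : Type*} [Group G] (S : Set G) : Prop where
  finite : S.Finite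
  symm : ∀ s ∈ S, s⁻¹ ∈ S
  generates : Subgroup.closure S = ⊤

/-- The Cayley graph: `g` and `g * s` are adjacent for all `s ∈ S`. -/
def cayley {G : Type*} [Group G] (S : Set G) : SimpleGraph G :=
  SimpleGraph.fromRel fun g h => ∃ s ∈ S, g * s = h

/-- The elements of norm at least `n` and at most `n + r`. -/
def annulus {G : Type*} [Group G] (S : Set G) (n r : ℕ) : Set G :=
  {g | n ≤ wordNorm S g ∧ wordNorm S g ≤ n + r}

/-- The diameter of the subgraph induced on the annulus (infinite if it is not connected). -/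
noncomputable def annulusDiam {G : Type*} [Group G] (S : Set G) (n r : ℕ) : ℕ∞ :=
  ((cayley S).induce (annulus S n r)).ediam

/-- No element is a dead end. -/
def NoDeadEnds {G : Type*} [Group G] (S : Set G) : Prop :=
  ∀ g : G, ∃ s ∈ S, wordNorm S g < wordNorm S (g * s)

/-- The restricted wreath product with base group `Γ` (positions) and lamp group `L`. -/
@[ext] structure Wreath (Γ L : Type*) [Group Γ] [Group L] where
  pos : Γ
  lamp : Γ → L
  finite_supp : {x | lamp x ≠ 1}.Finite

namespace Wreath

variable {Γ L : Type*} [Group Γ] [Group L]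

instance : Mul (Wreath Γ L) where
  mul a b := ⟨a.pos * b.pos, fun x => a.lamp x * b.lamp (a.pos⁻¹ * x), by
    refine (a.finite_supp.union (b.finite_supp.image (fun x => a.pos * x))).subset fun x hx => ?_
    by_cases h : a.lamp x = 1
    · refine Or.inr ⟨a.pos⁻¹ * x, ?_, by group⟩
      intro h'
      exact hx (by simp only [h, h', mul_one])
    · exact Or.inl h⟩

instance : One (Wreath Γ L) where
  one := ⟨1, fun _ => 1, by simp⟩

instance : Inv (Wreath Γ L) where
  inv a := ⟨a.pos⁻¹, fun x => (a.lamp (a.pos * x))⁻¹, by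
    refine (a.finite_supp.image (fun x => a.pos⁻¹ * x)).subset fun x hx => ?_
    exact ⟨a.pos * x, fun h => hx (by simp [h]), by group⟩⟩

theorem mul_pos (a b : Wreath Γ L) : (a * b).pos = a.pos * b.pos := rfl
theorem mul_lamp (a b : Wreath Γ L) (x : Γ) : (a * b).lamp x = a.lamp x * b.lamp (a.pos⁻¹ * x) := rfl
theorem one_pos : (1 : Wreath Γ L).pos = 1 := rfl
theorem one_lamp (x : Γ) : (1 : Wreath Γ L).lamp x = 1 := rfl
theorem inv_pos (a : Wreath Γ L) : (a⁻¹).pos = a.pos⁻¹ := rfl
theorem inv_lamp (a : Wreath Γ L) (x : Γ) : (a⁻¹).lamp x = (a.lamp (a.pos * x))⁻¹ := rfl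

instance : Group (Wreath Γ L) where
  mul_assoc a b c := by
    refine Wreath.ext (by simp only [mul_pos, mul_assoc]) ?_
    funext x
    simp only [mul_lamp, mul_pos, mul_assoc, mul_inv_rev]
  one_mul a := by
    refine Wreath.ext (by simp only [mul_pos, one_pos, one_mul]) ?_
    funext x
    simp only [mul_lamp, one_lamp, one_pos, one_mul, inv_one]
  mul_one a := by
    refine Wreath.ext (by simp only [mul_pos, one_pos, mul_one]) ?_
    funext x
    simp only [mul_lamp, one_lamp, mul_one]
  inv_mul_cancel a := by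
    refine Wreath.ext (by simp only [mul_pos, inv_pos, one_pos, inv_mul_cancel]) ?_
    funext x
    simp only [mul_lamp, inv_lamp, inv_pos, inv_inv, one_lamp, inv_mul_cancel]

/-- The element `(s, 1)`: a move of the cursor. -/
def walk (s : Γ) : Wreath Γ L := ⟨s, fun _ => 1, by simp⟩

open Classical in
/-- The element `(1, δ_t)`: a switch of the lamp at the cursor. -/
noncomputable def switch (t : L) : Wreath Γ L :=
  ⟨1, fun x => if x = 1 then t else 1, (Set.finite_singleton (1 : Γ)).subset fun x hx => by
    by_contra h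
    exact hx (if_neg h)⟩

/-- The switch-or-walk generating set. -/
def gens (SΓ : Set Γ) (SL : Set L) : Set (Wreath Γ L) :=
  {g | (∃ s ∈ SΓ, g = walk s) ∨ ∃ t ∈ SL, g = switch t}

end Wreath

/-- The statement of the final theorem: there are infinite groups `Γ` and `L` with finite symmetric
generating sets, `L` without dead ends, such that for every thickness `r ≥ 3` the diameter of the
annulus of the wreath product is `o(n ^ 2)`. -/
def FINAL_Stmt : Prop :=
  ∃ (Γ L : Type) (_ : Group Γ) (_ : Group L) (SΓ : Set Γ) (SL : Set L),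
    Infinite Γ ∧ Infinite L ∧ IsGenSet SΓ ∧ IsGenSet SL ∧ NoDeadEnds SL ∧
    ∀ r ≥ 3, ∀ ε > (0 : ℝ), ∃ n₀ : ℕ, ∀ n ≥ n₀, ∃ D : ℕ,
      annulusDiam (Wreath.gens SΓ SL) n r ≤ D ∧ (D : ℝ) ≤ ε * n ^ 2

end Pool.Agent.AD
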