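import Pool.Agent.AD.GroupC

/-!
MP_072aa0_al, group level: the final theorem.
-/

set_option autoImplicit false

namespace Pool.Agent.AD

open Filter Topology

theorem cost_alg (C r K n D : ℕ) (hn1 : 1 ≤ n) (hdpos : 1 ≤ D) (h2 : 2 ^ D ≤ 14 * n) :
    ((2 * (r + ((n / D ^ 3 + 1) * (C * n * D ^ 2 + D ^ C) + n * D ^ C)) +
      2 * (4 * (2 * n + 1) + K) : ℕ) : ℝ) ≤
    (n : ℝ) ^ 2 * ((2 * C : ℝ) * (1 / (D : ℝ)) +
        (2 * (C + 3) * 14 : ℝ) * ((D : ℝ) ^ (C + 2) / 2 ^ D) +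
        (2 * r + 24 + 2 * K : ℝ) * (1 / (n : ℝ))) := by
  have hnd : ((n / D ^ 3 : ℕ) : ℝ) ≤ n / (D : ℝ) ^ 3 := by
    have := Nat.cast_div_le (α := ℝ) (m := n) (n := D ^ 3)
    simpa using this
  have h14 : (2 : ℝ) ^ D ≤ 14 * n := by exact_mod_cast h2
  have hcast : ((2 * (r + ((n / D ^ 3 + 1) * (C * n * D ^ 2 + D ^ C) + n * D ^ C)) +
      2 * (4 * (2 * n + 1) + K) : ℕ) : ℝ) =
      2 * r + 2 * (((n / D ^ 3 : ℕ) : ℝ) * (C * n * (D : ℝ) ^ 2 + (D : ℝ) ^ C)) +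
      2 * ((C * n * (D : ℝ) ^ 2 + (D : ℝ) ^ C) + n * (D : ℝ) ^ C) +
      (8 * (2 * (n : ℝ) + 1) + 2 * K) := by
    push_cast
    ring
  rw [hcast]
  generalize ((n / D ^ 3 : ℕ) : ℝ) = q at hnd
  have hn1' : (1 : ℝ) ≤ n := by exact_mod_cast hn1
  have hD1 : (1 : ℝ) ≤ D := by exact_mod_cast hdpos
  have hr0 : (0 : ℝ) ≤ r := by positivity
  have hK0 : (0 : ℝ) ≤ K := by positivity
  have hC0 : (0 : ℝ) ≤ C := by positivity
  have hpowC : (D : ℝ) ^ C ≤ (D : ℝ) ^ (C + 2) := pow_le_pow_right₀ hD1 (by omega)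
  have hpow2 : (D : ℝ) ^ 2 ≤ (D : ℝ) ^ (C + 2) := pow_le_pow_right₀ hD1 (by omega)
  have hposC : (0 : ℝ) ≤ (D : ℝ) ^ C := by positivity
  have h2D : (0 : ℝ) < (2 : ℝ) ^ D := by positivity
  generalize (2 : ℝ) ^ D = E at *
  generalize (D : ℝ) ^ (C + 2) = P at *
  generalize (D : ℝ) ^ C = Q at *
  generalize (C : ℝ) = c at *
  generalize (r : ℝ) = ρ at *
  generalize (K : ℝ) = κ at *
  generalize (n : ℝ) = x at *
  generalize (D : ℝ) = y at *
  have hx0 : (0 : ℝ) < x := by linarith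
  have hy0 : (0 : ℝ) < y := by linarith
  have hP0 : (0 : ℝ) ≤ P := hposC.trans hpowC
  have hdivn : x / y ^ 3 ≤ x := div_le_self hx0.le (one_le_pow₀ hD1)
  have hdiv0 : 0 ≤ x / y ^ 3 := by positivity
  have hmain : q * (c * x * y ^ 2 + Q) ≤ c * x ^ 2 * (1 / y) + x * P := by
    calc q * (c * x * y ^ 2 + Q) ≤ (x / y ^ 3) * (c * x * y ^ 2 + Q) := by gcongr
      _ = c * x ^ 2 * (1 / y) + (x / y ^ 3) * Q := by field_simp
      _ ≤ c * x ^ 2 * (1 / y) + x * P := by gcongr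
  have hrest : (c * x * y ^ 2 + Q) + x * Q ≤ (c + 2) * x * P := by
    have e1 : c * x * y ^ 2 ≤ c * x * P := by gcongr
    have e2 : Q ≤ x * P := by nlinarith
    have e3 : x * Q ≤ x * P := by gcongr
    nlinarith
  have hexp : x * P ≤ x ^ 2 * (14 * (P / E)) := by
    have h3 : 1 ≤ 14 * x / E := by rwa [one_le_div h2D]
    have h4 : 0 ≤ x * P := by positivity
    calc x * P ≤ x * P * (14 * x / E) := le_mul_of_one_le_right h4 h3
      _ = x ^ 2 * (14 * (P / E)) := by ring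
  have hlin : 2 * ρ + (8 * (2 * x + 1) + 2 * κ) ≤ x ^ 2 * ((2 * ρ + 24 + 2 * κ) * (1 / x)) := by
    have : x ^ 2 * ((2 * ρ + 24 + 2 * κ) * (1 / x)) = x * (2 * ρ + 24 + 2 * κ) := by field_simp
    rw [this]
    nlinarith
  have hC3 : (2 * (c + 3)) * (x * P) ≤ (2 * (c + 3)) * (x ^ 2 * (14 * (P / E))) := by gcongr
  have hring : x ^ 2 * ((2 * c) * (1 / y) + (2 * (c + 3) * 14) * (P / E) +
      (2 * ρ + 24 + 2 * κ) * (1 / x)) = 2 * (c * x ^ 2 * (1 / y)) +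
      (2 * (c + 3)) * (x ^ 2 * (14 * (P / E))) + x ^ 2 * ((2 * ρ + 24 + 2 * κ) * (1 / x)) := by
    ring
  rw [hring]
  have hsum : 2 * (x * P) + 2 * ((c + 2) * x * P) = (2 * (c + 3)) * (x * P) := by ring
  linarith

/-- the cost function divided by `n ^ 2` tends to `0` -/
theorem cost_small (C r K : ℕ) (ε : ℝ) (hε : 0 < ε) : ∃ n₀ : ℕ, ∀ n ≥ n₀,
    ((2 * (r + ((n / Nat.clog 2 (n + 6) ^ 3 + 1) * (C * n * Nat.clog 2 (n + 6) ^ 2 +
      Nat.clog 2 (n + 6) ^ C) + n * Nat.clog 2 (n + 6) ^ C)) +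
      2 * (4 * (2 * n + 1) + K) : ℕ) : ℝ) ≤ ε * n ^ 2 := by
  obtain ⟨d, hd⟩ : ∃ d : ℕ → ℕ, ∀ n, d n = Nat.clog 2 (n + 6) := ⟨_, fun _ => rfl⟩
  -- growth of `d`
  have hd_le : ∀ n, n + 6 ≤ 2 ^ d n := fun n => by
    rw [hd]
    exact Nat.le_pow_clog (by norm_num) _
  have hd_pos : ∀ n, 1 ≤ d n := fun n => by
    rw [hd]
    exact Nat.clog_pos (by norm_num) (by omega)
  have hd_lt : ∀ n, 2 ^ d n < 2 * (n + 6) := by
    intro n
    have h2 : 2 ^ (d n - 1) < n + 6 := by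
      rw [hd]
      exact Nat.pow_pred_clog_lt_self (b := 2) (x := n + 6) (by norm_num) (by omega)
    have h3 : 2 ^ d n = 2 ^ (d n - 1) * 2 := by
      rw [← pow_succ]
      congr 1
      have := hd_pos n
      omega
    omega
  have hd_top : Tendsto d atTop atTop := by
    refine tendsto_atTop.2 fun b => ?_
    filter_upwards [eventually_ge_atTop (2 ^ b)] with n hn
    by_contra h
    have h1 : d n ≤ b := by omega
    have h2 : 2 ^ d n ≤ 2 ^ b := Nat.pow_le_pow_right (by norm_num) h1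
    have := hd_le n
    omega
  have hd_topR : Tendsto (fun n => (d n : ℝ)) atTop atTop :=
    tendsto_natCast_atTop_atTop.comp hd_top
  -- limits
  have L1 : Tendsto (fun n => (2 * C : ℝ) * (1 / (d n : ℝ))) atTop (𝓝 0) := by
    have := (tendsto_const_nhds (x := (1 : ℝ))).div_atTop hd_topR
    simpa using this.const_mul (2 * C : ℝ)
  have L2 : Tendsto (fun n => (2 * (C + 3) * 14 : ℝ) * ((d n : ℝ) ^ (C + 2) / 2 ^ d n)) atTop
      (𝓝 0) := by
    have h1 : Tendsto (fun k : ℕ => (k : ℝ) ^ (C + 2) / (2 : ℝ) ^ k) atTop (𝓝 0) :=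
      tendsto_pow_const_div_const_pow_of_one_lt (C + 2) (by norm_num)
    have h2 := h1.comp hd_top
    simpa using h2.const_mul (2 * (C + 3) * 14 : ℝ)
  have L3 : Tendsto (fun n : ℕ => (2 * r + 24 + 2 * K : ℝ) * (1 / (n : ℝ))) atTop (𝓝 0) := by
    have := (tendsto_const_nhds (x := (1 : ℝ))).div_atTop (tendsto_natCast_atTop_atTop (R := ℝ))
    simpa using this.const_mul (2 * r + 24 + 2 * K : ℝ)
  have L := (L1.add L2).add L3
  simp only [add_zero] at L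
  have hev := (L.eventually_le_const hε).and (eventually_ge_atTop 1)
  obtain ⟨n₀, hn₀⟩ := eventually_atTop.1 hev
  refine ⟨n₀, fun n hn => ?_⟩
  obtain ⟨h1, hn1⟩ := hn₀ n hn
  have h14 : 2 ^ d n ≤ 14 * n := by
    have := hd_lt n
    omega
  have hfin := mul_le_mul_of_nonneg_left h1 (by positivity : (0 : ℝ) ≤ (n : ℝ) ^ 2)
  rw [← hd n]
  refine (cost_alg C r K n (d n) hn1 (hd_pos n) h14).trans (hfin.trans (le_of_eq ?_))
  ring

theorem grp_tour_fst {A B : Type*} {adjA : A → A → Prop} {adjB : B → B → Prop} {a a' : A} (b : B)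
    {k : ℕ} (h : Tour adjA ∅ a a' k) : Tour (padj adjA adjB) ∅ (a, b) (a', b) k := by
  obtain ⟨w, h0, h1, h2, -⟩ := h
  exact ⟨fun i => (w i, b), by simp only [h0], by simp only [h1],
    fun i hi => Or.inl ⟨h2 i hi, rfl⟩, fun v hv => absurd hv (Set.notMem_empty v)⟩

theorem grp_tour_snd {A B : Type*} {adjA : A → A → Prop} {adjB : B → B → Prop} (a : A) {b b' : B}
    {k : ℕ} (h : Tour adjB ∅ b b' k) : Tour (padj adjA adjB) ∅ (a, b) (a, b') k := by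
  obtain ⟨w, h0, h1, h2, -⟩ := h
  exact ⟨fun i => (a, w i), by simp only [h0], by simp only [h1],
    fun i hi => Or.inr ⟨rfl, h2 i hi⟩, fun v hv => absurd hv (Set.notMem_empty v)⟩

theorem grp_good_prod {A B : Type*} {adjA : A → A → Prop} {adjB : B → B → Prop} (hA : Good adjA)
    (hB : Good adjB) : Good (padj adjA adjB) where
  symm := by
    rintro a b (⟨h1, h2⟩ | ⟨h1, h2⟩)
    · exact Or.inl ⟨hA.symm h1, h2.symm⟩
    · exact Or.inr ⟨h1.symm, hB.symm h2⟩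
  conn := by
    rintro ⟨a, b⟩ ⟨a', b'⟩
    obtain ⟨k, hk⟩ := hA.conn a a'
    obtain ⟨l, hl⟩ := hB.conn b b'
    exact ⟨k + l, ((grp_tour_fst b hk).trans (grp_tour_snd a' hl)).mono (Set.empty_subset _)⟩
  bip := by
    obtain ⟨χ, hχ⟩ := hA.bip
    obtain ⟨ψ, hψ⟩ := hB.bip
    refine ⟨fun x => xor (χ x.1) (ψ x.2), ?_⟩
    rintro ⟨a, b⟩ ⟨a', b'⟩ (⟨h1, h2⟩ | ⟨h1, h2⟩)
    · have := hχ _ _ h1
      simp only at h1 h2 this ⊢
      subst h2
      revert this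
      cases χ a <;> cases χ a' <;> cases ψ b <;> simp
    · have := hψ _ _ h2
      simp only at h1 h2 this ⊢
      subst h1
      revert this
      cases ψ b <;> cases ψ b' <;> cases χ a <;> simp

theorem final (hT : TREE_Stmt) (h : UNWIND_Stmt) (h1 : NAIVE_Stmt) : FINAL_Stmt := by
  have hG : Good fadj2 := grp_good_prod hT.1 hT.1
  refine ⟨GG, LL, inferInstance, inferInstance, SG, SL, inferInstance, inferInstance, SG_isGenSet,
    SL_isGenSet, SL_noDeadEnds, fun r hr ε hε => ?_⟩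
  obtain ⟨C, hC⟩ := h
  obtain ⟨n₀, hn₀⟩ := cost_small C r (cst 2) ε hε
  refine ⟨max n₀ (bd 2), fun n hn => ⟨_, ?_, hn₀ n (le_trans (le_max_left _ _) hn)⟩⟩
  refine diam_le hG h1 hr (le_trans (le_max_right _ _) hn) fun s hs => ?_
  refine hC (Nat.clog 2 (n + 6)) n ?_ (Nat.le_pow_clog (by norm_num) _) 1 s hs
  by_contra hlt
  have h2 : Nat.clog 2 (n + 6) ≤ 1 := by omega
  have h3 := Nat.le_pow_clog (b := 2) (by norm_num) (n + 6)
  have h4 : 2 ^ Nat.clog 2 (n + 6) ≤ 2 ^ 1 := Nat.pow_le_pow_right (by norm_num) h2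
  omega

end Pool.Agent.AD
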