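import Pool.Agent.AD.Tsp

/-!
MP_072aa0_al: path calculus in the load system and elementary operations.
-/

set_option autoImplicit false

namespace Pool.Agent.AD

variable {X : Type*} {adj : X → X → Prop} {o : X} {n : ℕ}

/-! ### Path calculus -/

theorem Step.symm (hs : ∀ {a b}, adj a b → adj b a) {s t : St X} (h : Step adj s t) :
    Step adj t s := by
  cases h with
  | move c c' g h => exact Step.move c' c g (hs h)
  | inc c g => exact Step.dec c g
  | dec c g => exact Step.inc c g

theorem Rch.inW_left {k : ℕ} {s t : St X} (h : Rch adj o n k s t) : InW adj o n s := by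
  induction h with
  | refl s h => exact h
  | tail _ _ _ ih => exact ih

theorem Rch.inW_right {k : ℕ} {s t : St X} (h : Rch adj o n k s t) : InW adj o n t := by
  cases h with
  | refl s h => exact h
  | tail _ _ h => exact h

theorem Rch.trans {k l : ℕ} {s t u : St X} (h : Rch adj o n k s t) (h' : Rch adj o n l t u) :
    Rch adj o n (k + l) s u := by
  induction h' with
  | refl t _ => exact h
  | tail _ hst hw ih => exact Rch.tail (ih h) hst hw

theorem Rch.single {s t : St X} (h : Step adj s t) (hs : InW adj o n s) (ht : InW adj o n t) :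
    Rch adj o n 1 s t := Rch.tail (Rch.refl s hs) h ht

theorem Rch.symm (hs : ∀ {a b}, adj a b → adj b a) {k : ℕ} {s t : St X}
    (h : Rch adj o n k s t) : Rch adj o n k t s := by
  induction h with
  | refl s h => exact Rch.refl s h
  | @tail k s t u h1 h2 h3 ih =>
    have := (Rch.single (h2.symm hs) h3 h1.inW_right).trans ih
    rwa [Nat.add_comm] at this

theorem Reach.refl {s : St X} (h : InW adj o n s) : Reach adj o n 0 s s :=
  ⟨0, le_rfl, Rch.refl s h⟩

theorem Reach.mono {k l : ℕ} {s t : St X} (h : Reach adj o n k s t) (hkl : k ≤ l) :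
    Reach adj o n l s t := by
  obtain ⟨j, hj, h⟩ := h
  exact ⟨j, hj.trans hkl, h⟩

theorem Reach.trans {k l : ℕ} {s t u : St X} (h : Reach adj o n k s t)
    (h' : Reach adj o n l t u) : Reach adj o n (k + l) s u := by
  obtain ⟨i, hi, h⟩ := h
  obtain ⟨j, hj, h'⟩ := h'
  exact ⟨i + j, by omega, h.trans h'⟩

theorem Reach.symm (hs : ∀ {a b}, adj a b → adj b a) {k : ℕ} {s t : St X}
    (h : Reach adj o n k s t) : Reach adj o n k t s := by
  obtain ⟨j, hj, h⟩ := h
  exact ⟨j, hj, h.symm hs⟩

theorem Reach.inW_left {k : ℕ} {s t : St X} (h : Reach adj o n k s t) : InW adj o n s := by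
  obtain ⟨j, hj, h⟩ := h
  exact h.inW_left

theorem Reach.inW_right {k : ℕ} {s t : St X} (h : Reach adj o n k s t) : InW adj o n t := by
  obtain ⟨j, hj, h⟩ := h
  exact h.inW_right

theorem Reach.snoc {k : ℕ} {s t u : St X} (h : Reach adj o n k s t) (h' : Step adj t u)
    (hu : InW adj o n u) : Reach adj o n (k + 1) s u := by
  obtain ⟨j, hj, h⟩ := h
  exact ⟨j + 1, by omega, Rch.tail h h' hu⟩

theorem inW_of_eq {s : St X} {m : ℕ} (h : nrm adj o s = m) (h1 : n ≤ m) (h2 : m ≤ n + 3) :
    InW adj o n s := by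
  unfold InW
  omega

/-- A sequence of reachability statements of the same cost. -/
theorem Reach.iterate {s : ℕ → St X} {k m : ℕ} (h0 : InW adj o n (s 0))
    (h : ∀ i < m, Reach adj o n k (s i) (s (i + 1))) : Reach adj o n (m * k) (s 0) (s m) := by
  induction m with
  | zero => simpa using Reach.refl h0
  | succ m ih =>
    have h1 := (ih fun i hi => h i (by omega)).trans (h m (by omega))
    refine h1.mono ?_
    rw [Nat.succ_mul]

/-! ### Norms -/

theorem nrm_eq (c : X) (g : X →₀ ℕ) : nrm adj o (c, g) = tsp adj (lit g) o c + mass g := rfl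

theorem Good.nrm_adj (hG : Good adj) {c c' : X} (h : adj c c') (g : X →₀ ℕ) :
    nrm adj o (c', g) = nrm adj o (c, g) + 1 ∨ nrm adj o (c, g) = nrm adj o (c', g) + 1 := by
  rw [nrm_eq, nrm_eq]
  rcases hG.tsp_adj (lit_finite g) (o := o) h with h1 | h1 <;> omega

theorem lit_add_single_of_ne {g : X →₀ ℕ} {c : X} (h : g c ≠ 0) (k : ℕ) :
    lit (g + Finsupp.single c k) = lit g := by
  rcases Nat.eq_zero_or_pos k with rfl | hk
  · simp
  · rw [lit_add_single g c hk.ne']
    exact Set.insert_eq_of_mem h

theorem exists_add_single {g : X →₀ ℕ} {c : X} {k : ℕ} (h : k ≤ g c) :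
    ∃ g' : X →₀ ℕ, g = g' + Finsupp.single c k := by
  refine ⟨g - Finsupp.single c k, ?_⟩
  exact (tsub_add_cancel_of_le (Finsupp.single_le_iff.mpr h)).symm

/-! ### Elementary operations -/

/-- The load after the walk step `u → u'`. -/
noncomputable def wstep (adj : X → X → Prop) (o : X) (u u' : X) (g : X →₀ ℕ) : X →₀ ℕ :=
  open Classical in
  if tsp adj (lit g) o u' = tsp adj (lit g) o u + 1 then g - Finsupp.single u' 1
  else g + Finsupp.single u' 1

/-- The walk step (a): the tour length goes up. -/
theorem Good.walk_up (hG : Good adj) {u u' : X} (h : adj u u') {h0 : X →₀ ℕ} (hu' : h0 u' ≠ 0)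
    (ht : tsp adj (lit h0) o u' = tsp adj (lit h0) o u + 1)
    (hn : nrm adj o (u, h0 + Finsupp.single u' 1) = n + 1) :
    nrm adj o (u', h0) = n + 1 ∧ Reach adj o n 2 (u, h0 + Finsupp.single u' 1) (u', h0) := by
  have h1 : nrm adj o (u', h0 + Finsupp.single u' 1) = n + 2 := by
    rw [nrm_eq, lit_add_single_of_ne hu', mass_add_single] at hn ⊢
    omega
  have h2 : nrm adj o (u', h0) = n + 1 := by
    rw [hG.nrm_add_single] at h1
    omega
  refine ⟨h2, ?_⟩
  have a0 : InW adj o n _ := inW_of_eq hn (by omega) (by omega)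
  have a1 := (Reach.refl a0).snoc (Step.move u u' _ h) (inW_of_eq h1 (by omega) (by omega))
  exact a1.snoc (Step.dec u' h0) (inW_of_eq h2 (by omega) (by omega))

/-- The walk step (a): the tour length goes down. -/
theorem Good.walk_down (hG : Good adj) {u u' : X} (h : adj u u') {h0 : X →₀ ℕ}
    (ht : tsp adj (lit h0) o u' ≠ tsp adj (lit h0) o u + 1)
    (hn : nrm adj o (u, h0) = n + 1) :
    nrm adj o (u', h0 + Finsupp.single u' 1) = n + 1 ∧
      Reach adj o n 2 (u, h0) (u', h0 + Finsupp.single u' 1) := by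
  have h1 : nrm adj o (u', h0) = n := by
    rw [nrm_eq] at hn ⊢
    rcases hG.tsp_adj (lit_finite h0) (o := o) h with h3 | h3 <;> omega
  have h2 : nrm adj o (u', h0 + Finsupp.single u' 1) = n + 1 := by
    rw [hG.nrm_add_single]
    omega
  refine ⟨h2, ?_⟩
  have a0 : InW adj o n _ := inW_of_eq hn (by omega) (by omega)
  have a1 := (Reach.refl a0).snoc (Step.move u u' _ h) (inW_of_eq h1 (by omega) (by omega))
  exact a1.snoc (Step.inc u' h0) (inW_of_eq h2 (by omega) (by omega))

theorem wstep_apply_ne {u u' x : X} (g : X →₀ ℕ) (hx : x ≠ u') : wstep adj o u u' g x = g x := by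
  unfold wstep
  split_ifs
  · simp [Finsupp.single_eq_of_ne hx]
  · simp [Finsupp.single_eq_of_ne hx]

theorem wstep_apply_up {u u' : X} {g : X →₀ ℕ}
    (ht : tsp adj (lit g) o u' = tsp adj (lit g) o u + 1) : wstep adj o u u' g u' = g u' - 1 := by
  unfold wstep
  rw [if_pos ht]
  simp

theorem wstep_apply_down {u u' : X} {g : X →₀ ℕ}
    (ht : tsp adj (lit g) o u' ≠ tsp adj (lit g) o u + 1) : wstep adj o u u' g u' = g u' + 1 := by
  unfold wstep
  rw [if_neg ht]
  simp

theorem wstep_apply_bounds (u u' x : X) (g : X →₀ ℕ) :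
    wstep adj o u u' g x ≤ g x + 1 ∧ g x ≤ wstep adj o u u' g x + 1 := by
  by_cases hx : x = u'
  · subst hx
    by_cases ht : tsp adj (lit g) o x = tsp adj (lit g) o u + 1
    · rw [wstep_apply_up ht]
      omega
    · rw [wstep_apply_down ht]
      omega
  · rw [wstep_apply_ne g hx]
    omega

theorem lit_wstep (u : X) {u' : X} {g : X →₀ ℕ} (h : 2 ≤ g u') :
    lit (wstep adj o u u' g) = lit g := by
  ext x
  simp only [lit, Set.mem_setOf_eq]
  by_cases hx : x = u'
  · subst hx
    have := wstep_apply_bounds (adj := adj) (o := o) u x x g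
    omega
  · rw [wstep_apply_ne g hx]

/-- The walk step (a). -/
theorem Good.walk_step (hG : Good adj) {u u' : X} (h : adj u u') {g : X →₀ ℕ} (hu' : 2 ≤ g u')
    (hn : nrm adj o (u, g) = n + 1) :
    nrm adj o (u', wstep adj o u u' g) = n + 1 ∧
      Reach adj o n 2 (u, g) (u', wstep adj o u u' g) := by
  by_cases ht : tsp adj (lit g) o u' = tsp adj (lit g) o u + 1
  · obtain ⟨h0, rfl⟩ := exists_add_single (show 1 ≤ g u' by omega)
    have hu0 : h0 u' ≠ 0 := by
      simp at hu'
      omega
    have e1 : wstep adj o u u' (h0 + Finsupp.single u' 1) = h0 := by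
      unfold wstep
      rw [if_pos ht]
      exact add_tsub_cancel_right _ _
    rw [lit_add_single_of_ne hu0] at ht
    rw [e1]
    exact hG.walk_up h hu0 ht hn
  · have e1 : wstep adj o u u' g = g + Finsupp.single u' 1 := by
      unfold wstep
      rw [if_neg ht]
    rw [e1]
    exact hG.walk_down h ht hn

/-- Conjugation by a walk step: an exchange of loads done with the cursor at `u'` can be done with
the cursor at `u`. -/
theorem Good.conj (hG : Good adj) {u u' : X} (h : adj u u') {g g2 : X →₀ ℕ} (hu' : 2 ≤ g u')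
    (hu2 : 2 ≤ g2 u') {k : ℕ} (hn : nrm adj o (u, g) = n + 1) (hn2 : nrm adj o (u, g2) = n + 1)
    (hr : Reach adj o n k (u', wstep adj o u u' g) (u', wstep adj o u u' g2)) :
    Reach adj o n (k + 4) (u, g) (u, g2) := by
  have h1 := (hG.walk_step h hu' hn).2
  have h2 := (hG.walk_step h hu2 hn2).2.symm hG.symm
  exact ((h1.trans hr).trans h2).mono (by omega)

/-- Transfer of one unit (b). -/
theorem Good.transfer_one (hG : Good adj) {u u' : X} (h : adj u u') {h0 : X →₀ ℕ} (hu : h0 u ≠ 0)
    (hu' : h0 u' ≠ 0) (hn : nrm adj o (u, h0 + Finsupp.single u 1) = n + 1) :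
    nrm adj o (u, h0 + Finsupp.single u' 1) = n + 1 ∧
      Reach adj o n 4 (u, h0 + Finsupp.single u 1) (u, h0 + Finsupp.single u' 1) := by
  have hn0 : tsp adj (lit h0) o u + mass h0 = n := by
    rw [hG.nrm_add_single, nrm_eq] at hn
    omega
  have h2 : nrm adj o (u, h0 + Finsupp.single u' 1) = n + 1 := by
    rw [nrm_eq, lit_add_single_of_ne hu', mass_add_single]
    omega
  refine ⟨h2, ?_⟩
  have a00 : InW adj o n _ := inW_of_eq hn (by omega) (by omega)
  have a0 := Reach.refl a00
  rcases hG.tsp_adj (lit_finite h0) (o := o) h with ht | ht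
  · -- the tour length goes up
    have b1 : nrm adj o (u, h0) = n := by rw [nrm_eq]; omega
    have b2 : nrm adj o (u', h0) = n + 1 := by rw [nrm_eq]; omega
    have b3 : nrm adj o (u', h0 + Finsupp.single u' 1) = n + 2 := by
      rw [hG.nrm_add_single]; omega
    have a1 := a0.snoc (Step.dec u h0) (inW_of_eq b1 (by omega) (by omega))
    have a2 := a1.snoc (Step.move u u' h0 h) (inW_of_eq b2 (by omega) (by omega))
    have a3 := a2.snoc (Step.inc u' h0) (inW_of_eq b3 (by omega) (by omega))
    exact a3.snoc (Step.move u' u _ (hG.symm h)) (inW_of_eq h2 (by omega) (by omega))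
  · have b1 : nrm adj o (u', h0 + Finsupp.single u 1) = n := by
      rw [nrm_eq, lit_add_single_of_ne hu, mass_add_single]; omega
    have b2 : nrm adj o (u', h0 + Finsupp.single u 1 + Finsupp.single u' 1) = n + 1 := by
      rw [hG.nrm_add_single]; omega
    have e1 : h0 + Finsupp.single u 1 + Finsupp.single u' 1 =
        h0 + Finsupp.single u' 1 + Finsupp.single u 1 := by
      rw [add_right_comm]
    have b3 : nrm adj o (u, h0 + Finsupp.single u' 1 + Finsupp.single u 1) = n + 2 := by
      rw [hG.nrm_add_single]; omega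
    have a1 := a0.snoc (Step.move u u' _ h) (inW_of_eq b1 (by omega) (by omega))
    have a2 := a1.snoc (Step.inc u' _) (inW_of_eq b2 (by omega) (by omega))
    rw [e1] at a2
    have a3 := a2.snoc (Step.move u' u _ (hG.symm h)) (inW_of_eq b3 (by omega) (by omega))
    exact a3.snoc (Step.dec u _) (inW_of_eq h2 (by omega) (by omega))

/-- Transfer of `M` units (b). -/
theorem Good.transfer (hG : Good adj) {u u' : X} (h : adj u u') (M : ℕ) {h0 : X →₀ ℕ}
    (hu : h0 u ≠ 0) (hu' : h0 u' ≠ 0) (hn : nrm adj o (u, h0 + Finsupp.single u M) = n + 1) :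
    nrm adj o (u, h0 + Finsupp.single u' M) = n + 1 ∧
      Reach adj o n (M * 4) (u, h0 + Finsupp.single u M) (u, h0 + Finsupp.single u' M) := by
  have h2 : nrm adj o (u, h0 + Finsupp.single u' M) = n + 1 := by
    rw [nrm_eq, lit_add_single_of_ne hu, mass_add_single] at hn
    rw [nrm_eq, lit_add_single_of_ne hu', mass_add_single]
    omega
  refine ⟨h2, ?_⟩
  induction M generalizing h0 with
  | zero => simpa using Reach.refl (inW_of_eq hn (by omega) (by omega))
  | succ M ih =>
    have e1 : h0 + Finsupp.single u (M + 1) =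
        (h0 + Finsupp.single u M) + Finsupp.single u 1 := by
      rw [Finsupp.single_add, add_assoc]
    have e2 : (h0 + Finsupp.single u M) + Finsupp.single u' 1 =
        (h0 + Finsupp.single u' 1) + Finsupp.single u M := by
      rw [add_right_comm]
    have e3 : (h0 + Finsupp.single u' 1) + Finsupp.single u' M =
        h0 + Finsupp.single u' (M + 1) := by
      rw [add_assoc, ← Finsupp.single_add, Nat.add_comm 1 M]
    rw [e1] at hn ⊢
    obtain ⟨c1, c2⟩ := hG.transfer_one h (h0 := h0 + Finsupp.single u M) (by simp; omega)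
      (by simp; omega) hn
    rw [e2] at c1 c2
    have c3 := ih (h0 := h0 + Finsupp.single u' 1) (by simp; omega) (by simp) c1 (by
      rw [e3]; exact h2)
    rw [e3] at c3
    exact (c2.trans c3).mono (by omega)

/-- Lighting a neighbour `v` of the cursor (c). -/
theorem Good.light (hG : Good adj) {u v : X} (h : adj u v) {h0 : X →₀ ℕ} (hu : h0 u ≠ 0)
    (hv : h0 v = 0) (hn : nrm adj o (u, h0 + Finsupp.single u 3) = n + 1) :
    ∃ a : ℕ, (a = 0 ∨ a = 2) ∧
      nrm adj o (u, h0 + Finsupp.single u a + Finsupp.single v 1) = n + 1 ∧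
      Reach adj o n 6 (u, h0 + Finsupp.single u 3)
        (u, h0 + Finsupp.single u a + Finsupp.single v 1) := by
  have hn0 : tsp adj (lit h0) o u + mass h0 + 2 = n := by
    rw [hG.nrm_add_single, nrm_eq] at hn
    omega
  have a00 : InW adj o n _ := inW_of_eq hn (by omega) (by omega)
  have a0 := Reach.refl a00
  have hl : ∀ a : ℕ, lit (h0 + Finsupp.single u a + Finsupp.single v 1) = insert v (lit h0) := by
    intro a
    rw [lit_add_single _ _ one_ne_zero, lit_add_single_of_ne hu]
  have hN : ∀ a : ℕ, nrm adj o (u, h0 + Finsupp.single u a + Finsupp.single v 1) =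
      tsp adj (insert v (lit h0)) o u + mass h0 + a + 1 := by
    intro a
    rw [nrm_eq, hl, mass_add_single, mass_add_single]
    omega
  have hNv : ∀ a : ℕ, nrm adj o (v, h0 + Finsupp.single u a) =
      tsp adj (lit h0) o v + mass h0 + a := by
    intro a
    rw [nrm_eq, lit_add_single_of_ne hu, mass_add_single]
    omega
  rcases hG.tsp_adj (lit_finite h0) (o := o) h with ht | ht
  · -- the tour length goes up
    have e1 : h0 + Finsupp.single u 3 = (h0 + Finsupp.single u 2) + Finsupp.single u 1 := by
      rw [add_assoc, ← Finsupp.single_add]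
    have b1 : nrm adj o (u, h0 + Finsupp.single u 2) = n := by
      rw [hG.nrm_add_single, nrm_eq]; omega
    have b2 : nrm adj o (v, h0 + Finsupp.single u 2) = n + 1 := by rw [hNv]; omega
    have b3 : nrm adj o (v, h0 + Finsupp.single u 2 + Finsupp.single v 1) = n + 2 := by
      rw [hG.nrm_add_single]; omega
    rw [e1] at a0
    have a1 := a0.snoc (Step.dec u _) (inW_of_eq b1 (by omega) (by omega))
    have a2 := a1.snoc (Step.move u v _ h) (inW_of_eq b2 (by omega) (by omega))
    have a3 := a2.snoc (Step.inc v _) (inW_of_eq b3 (by omega) (by omega))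
    rw [← e1] at a3
    rcases hG.tsp_insert_adj (lit_finite h0) (o := o) h with hi | hi
    · have b4 := hN 2
      rw [hi] at b4
      refine ⟨2, Or.inr rfl, by omega, ?_⟩
      exact (a3.snoc (Step.move v u _ (hG.symm h)) (inW_of_eq b4 (by omega) (by omega))).mono
        (by omega)
    · have b4 := hN 2
      have b5 := hN 1
      have b6 := hN 0
      rw [hi] at b4 b5 b6
      have a4 := a3.snoc (Step.move v u _ (hG.symm h)) (inW_of_eq b4 (by omega) (by omega))
      have f1 : h0 + Finsupp.single u 2 + Finsupp.single v 1 =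
          (h0 + Finsupp.single u 1 + Finsupp.single v 1) + Finsupp.single u 1 := by
        rw [add_right_comm, add_right_comm h0 (Finsupp.single u 1), add_assoc (h0 + _),
          ← Finsupp.single_add]
      have f2 : h0 + Finsupp.single u 1 + Finsupp.single v 1 =
          (h0 + Finsupp.single u 0 + Finsupp.single v 1) + Finsupp.single u 1 := by
        rw [Finsupp.single_zero, add_zero, add_right_comm]
      rw [f1] at a4
      have a5 := a4.snoc (Step.dec u _) (inW_of_eq b5 (by omega) (by omega))
      rw [f2] at a5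
      have a6 := a5.snoc (Step.dec u _) (inW_of_eq b6 (by omega) (by omega))
      exact ⟨0, Or.inl rfl, by omega, a6⟩
  · have hi : tsp adj (insert v (lit h0)) o u = tsp adj (lit h0) o u := by
      have c1 := hG.tsp_insert_self (lit_finite h0) o v
      rcases hG.tsp_insert_adj (lit_finite h0) (o := o) h with hi | hi
      · exact hi
      · rcases hG.tsp_adj ((lit_finite h0).insert v) (o := o) h with h3 | h3 <;> omega
    have b1 : nrm adj o (v, h0 + Finsupp.single u 3) = n := by rw [hNv]; omega
    have b2 : nrm adj o (v, h0 + Finsupp.single u 3 + Finsupp.single v 1) = n + 1 := by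
      rw [hG.nrm_add_single]; omega
    have b3 := hN 3
    have b4 := hN 2
    rw [hi] at b3 b4
    have a1 := a0.snoc (Step.move u v _ h) (inW_of_eq b1 (by omega) (by omega))
    have a2 := a1.snoc (Step.inc v _) (inW_of_eq b2 (by omega) (by omega))
    have a3 := a2.snoc (Step.move v u _ (hG.symm h)) (inW_of_eq b3 (by omega) (by omega))
    have f1 : h0 + Finsupp.single u 3 + Finsupp.single v 1 =
        (h0 + Finsupp.single u 2 + Finsupp.single v 1) + Finsupp.single u 1 := by
      rw [add_right_comm, add_right_comm h0 (Finsupp.single u 2), add_assoc (h0 + _),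
        ← Finsupp.single_add]
    rw [f1] at a3
    have a4 := a3.snoc (Step.dec u _) (inW_of_eq b4 (by omega) (by omega))
    exact ⟨2, Or.inr rfl, by omega, a4.mono (by omega)⟩

/-! ### Transport -/

section Transport

variable {Y : Type*} {adjY : Y → Y → Prop} (e : X ≃ Y)

/-- The image of a state. -/
noncomputable def mapSt (e : X ≃ Y) (s : St X) : St Y := (e s.1, s.2.mapDomain e)

theorem Tour.map (he : ∀ a b, adj a b ↔ adjY (e a) (e b)) {S : Set X} {c : X} {k : ℕ}
    (h : Tour adj S o c k) : Tour adjY (e '' S) (e o) (e c) k := by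
  obtain ⟨w, h0, h1, h2, h3⟩ := h
  refine ⟨fun i => e (w i), by simp [h0], by simp [h1], fun i hi => (he _ _).mp (h2 i hi), ?_⟩
  rintro _ ⟨v, hv, rfl⟩
  obtain ⟨i, hi, rfl⟩ := h3 v hv
  exact ⟨i, hi, rfl⟩

theorem tour_map_iff (he : ∀ a b, adj a b ↔ adjY (e a) (e b)) {S : Set X} {c : X} {k : ℕ} :
    Tour adjY (e '' S) (e o) (e c) k ↔ Tour adj S o c k := by
  constructor
  · intro h
    have h1 := h.map (adjY := adj) e.symm (fun a b => by rw [he]; simp)
    simpa using h1
  · exact Tour.map e he

theorem tsp_map (he : ∀ a b, adj a b ↔ adjY (e a) (e b)) (S : Set X) (c : X) :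
    tsp adjY (e '' S) (e o) (e c) = tsp adj S o c := by
  unfold tsp
  congr 1
  ext k
  exact tour_map_iff e he

theorem lit_mapDomain (g : X →₀ ℕ) : lit (g.mapDomain e) = e '' lit g := by
  ext y
  simp only [lit, Set.mem_setOf_eq, Set.mem_image, Finsupp.mapDomain_equiv_apply]
  constructor
  · intro h
    exact ⟨e.symm y, h, by simp⟩
  · rintro ⟨x, hx, rfl⟩
    simpa using hx

theorem mass_mapDomain (g : X →₀ ℕ) : mass (g.mapDomain e) = mass g :=
  Finsupp.sum_mapDomain_index (fun _ => rfl) (fun _ _ _ => rfl)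

theorem nrm_map (he : ∀ a b, adj a b ↔ adjY (e a) (e b)) (s : St X) :
    nrm adjY (e o) (mapSt e s) = nrm adj o s := by
  unfold nrm mapSt
  rw [lit_mapDomain, tsp_map e he, mass_mapDomain]

theorem Step.map (he : ∀ a b, adj a b ↔ adjY (e a) (e b)) {s t : St X} (h : Step adj s t) :
    Step adjY (mapSt e s) (mapSt e t) := by
  cases h with
  | move c c' g h => exact Step.move _ _ _ ((he _ _).mp h)
  | inc c g =>
    unfold mapSt
    rw [Finsupp.mapDomain_add, Finsupp.mapDomain_single]
    exact Step.inc _ _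
  | dec c g =>
    unfold mapSt
    rw [Finsupp.mapDomain_add, Finsupp.mapDomain_single]
    exact Step.dec _ _

theorem Reach.map (he : ∀ a b, adj a b ↔ adjY (e a) (e b)) {k : ℕ} {s t : St X}
    (h : Reach adj o n k s t) : Reach adjY (e o) n k (mapSt e s) (mapSt e t) := by
  obtain ⟨j, hj, h⟩ := h
  refine ⟨j, hj, ?_⟩
  have hw : ∀ s, InW adj o n s → InW adjY (e o) n (mapSt e s) := by
    intro s hs
    unfold InW
    rw [nrm_map e he]
    exact hs
  clear hj
  induction h with
  | refl s h => exact Rch.refl _ (hw s h)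
  | tail h1 h2 h3 ih => exact Rch.tail ih (h2.map e he) (hw _ h3)

end Transport

end Pool.Agent.AD
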