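import Pool.Agent.AD.GDefs
import Pool.Agent.AD.Moves

/-!
MP_072aa0_al, group level, part A: generating sets, word norms.
-/

set_option autoImplicit false

namespace Pool.Agent.AD

/-! ### Word norms -/

section wordnorm

variable {G : Type*} [Group G] {S : Set G}

theorem wordNorm_eq (N : G → ℕ) (h1 : N 1 = 0) (hlip : ∀ g, ∀ s ∈ S, N (g * s) ≤ N g + 1)
    (hdesc : ∀ g, g ≠ 1 → ∃ h, ∃ s ∈ S, h * s = g ∧ N h + 1 ≤ N g) (g : G) :
    wordNorm S g = N g := by
  have hle : ∀ l : List G, (∀ s ∈ l, s ∈ S) → N l.prod ≤ l.length := by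
    intro l
    induction l using List.reverseRecOn with
    | nil => intro _; simp [h1]
    | append_singleton l s ih =>
      intro h
      rw [List.prod_append, List.prod_singleton, List.length_append, List.length_singleton]
      have h2 := hlip l.prod s (h s (by simp))
      have h3 := ih (fun t ht => h t (by simp [ht]))
      omega
  have hex : ∀ k g, N g ≤ k → ∃ l : List G, l.length ≤ N g ∧ (∀ s ∈ l, s ∈ S) ∧ l.prod = g := by
    intro k
    induction k with
    | zero =>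
      intro g hg
      by_cases h : g = 1
      · exact ⟨[], by simp, by simp, by simp [h]⟩
      · obtain ⟨h', s, hs, he, hN⟩ := hdesc g h
        omega
    | succ k ih =>
      intro g hg
      by_cases h : g = 1
      · exact ⟨[], by simp, by simp, by simp [h]⟩
      · obtain ⟨h', s, hs, he, hN⟩ := hdesc g h
        obtain ⟨l, hl, hl2, hl3⟩ := ih h' (by omega)
        refine ⟨l ++ [s], by simp; omega, ?_, by simp [hl3, he]⟩
        intro t ht
        rcases List.mem_append.1 ht with ht | ht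
        · exact hl2 t ht
        · rw [List.mem_singleton.1 ht]; exact hs
  obtain ⟨l, hl, hl2, hl3⟩ := hex _ g le_rfl
  have hlen : l.length = N g := le_antisymm hl (by
    have := hle l hl2
    rwa [hl3] at this)
  refine le_antisymm (Nat.sInf_le ⟨l, hlen, hl2, hl3⟩) ?_
  refine le_csInf ⟨_, l, hlen, hl2, hl3⟩ ?_
  rintro k ⟨l', rfl, h2, h3⟩
  rw [← h3]
  exact hle l' h2

end wordnorm

/-! ### The generating sets -/

/-- The base group `F₂ × F₂`. -/
abbrev GG := FreeGroup Bool × FreeGroup Bool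

/-- The lamp group `ℤ`. -/
abbrev LL := Multiplicative ℤ

/-- The eight generators of `F₂ × F₂`. -/
def SG : Set GG :=
  {g | ∃ x : Bool, g = (FreeGroup.of x, 1) ∨ g = ((FreeGroup.of x)⁻¹, 1) ∨
    g = (1, FreeGroup.of x) ∨ g = (1, (FreeGroup.of x)⁻¹)}

/-- The two generators of `ℤ`. -/
def SL : Set LL := {Multiplicative.ofAdd 1, Multiplicative.ofAdd (-1)}

theorem SG_finite : SG.Finite := by
  have : SG ⊆ (Set.range fun x : Bool => ((FreeGroup.of x, 1) : GG)) ∪
      (Set.range fun x : Bool => (((FreeGroup.of x)⁻¹, 1) : GG)) ∪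
      (Set.range fun x : Bool => ((1, FreeGroup.of x) : GG)) ∪
      (Set.range fun x : Bool => ((1, (FreeGroup.of x)⁻¹) : GG)) := by
    rintro g ⟨x, h | h | h | h⟩
    · exact Or.inl (Or.inl (Or.inl ⟨x, h.symm⟩))
    · exact Or.inl (Or.inl (Or.inr ⟨x, h.symm⟩))
    · exact Or.inl (Or.inr ⟨x, h.symm⟩)
    · exact Or.inr ⟨x, h.symm⟩
  exact ((((Set.finite_range _).union (Set.finite_range _)).union (Set.finite_range _)).union
    (Set.finite_range _)).subset this

theorem SG_symm : ∀ s ∈ SG, s⁻¹ ∈ SG := by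
  rintro s ⟨x, h | h | h | h⟩ <;> subst h
  · exact ⟨x, Or.inr (Or.inl (by simp))⟩
  · exact ⟨x, Or.inl (by simp)⟩
  · exact ⟨x, Or.inr (Or.inr (Or.inr (by simp)))⟩
  · exact ⟨x, Or.inr (Or.inr (Or.inl (by simp)))⟩

theorem SG_gen : Subgroup.closure SG = ⊤ := by
  rw [eq_top_iff]
  rintro ⟨a, b⟩ -
  have h1 : (Subgroup.closure (Set.range (FreeGroup.of : Bool → FreeGroup Bool))).map
      (MonoidHom.inl (FreeGroup Bool) (FreeGroup Bool)) ≤ Subgroup.closure SG := by
    rw [MonoidHom.map_closure, Subgroup.closure_le]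
    rintro _ ⟨_, ⟨x, rfl⟩, rfl⟩
    exact Subgroup.subset_closure ⟨x, Or.inl rfl⟩
  have h2 : (Subgroup.closure (Set.range (FreeGroup.of : Bool → FreeGroup Bool))).map
      (MonoidHom.inr (FreeGroup Bool) (FreeGroup Bool)) ≤ Subgroup.closure SG := by
    rw [MonoidHom.map_closure, Subgroup.closure_le]
    rintro _ ⟨_, ⟨x, rfl⟩, rfl⟩
    exact Subgroup.subset_closure ⟨x, Or.inr (Or.inr (Or.inl rfl))⟩
  rw [FreeGroup.closure_range_of] at h1 h2
  have h3 : ((a, b) : GG) = (a, 1) * (1, b) := by simp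
  rw [h3]
  exact Subgroup.mul_mem _ (h1 ⟨a, trivial, rfl⟩) (h2 ⟨b, trivial, rfl⟩)

theorem SG_isGenSet : IsGenSet SG := ⟨SG_finite, SG_symm, SG_gen⟩

theorem SL_isGenSet : IsGenSet SL := by
  refine ⟨by unfold SL; exact Set.toFinite _, ?_, ?_⟩
  · rintro s (h | h)
    · subst h; exact Or.inr rfl
    · rw [Set.mem_singleton_iff] at h
      subst h; exact Or.inl rfl
  · rw [eq_top_iff]
    intro z _
    have h1 : (Multiplicative.ofAdd (1 : ℤ)) ∈ Subgroup.closure SL :=
      Subgroup.subset_closure (Or.inl rfl)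
    have h2 := Subgroup.zpow_mem _ h1 (Multiplicative.toAdd z)
    rwa [← ofAdd_zsmul, smul_eq_mul, mul_one, ofAdd_toAdd] at h2

theorem wordNorm_SL (z : LL) : wordNorm SL z = (Multiplicative.toAdd z).natAbs := by
  refine wordNorm_eq (fun z : LL => (Multiplicative.toAdd z).natAbs) (by simp) ?_ ?_ z
  · rintro g s (h | h)
    · subst h
      simp only [toAdd_mul, toAdd_ofAdd]
      omega
    · rw [Set.mem_singleton_iff] at h
      subst h
      simp only [toAdd_mul, toAdd_ofAdd]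
      omega
  · intro g hg
    have hg' : Multiplicative.toAdd g ≠ 0 := fun h => hg (by
      rw [← ofAdd_toAdd g, h]; rfl)
    rcases lt_or_gt_of_ne hg' with h | h
    · refine ⟨g * Multiplicative.ofAdd 1, Multiplicative.ofAdd (-1), Or.inr rfl, ?_, ?_⟩
      · rw [mul_assoc, ← ofAdd_add]; simp
      · simp only [toAdd_mul, toAdd_ofAdd]
        omega
    · refine ⟨g * Multiplicative.ofAdd (-1), Multiplicative.ofAdd 1, Or.inl rfl, ?_, ?_⟩
      · rw [mul_assoc, ← ofAdd_add]; simp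
      · simp only [toAdd_mul, toAdd_ofAdd]
        omega

theorem SL_noDeadEnds : NoDeadEnds SL := by
  intro g
  rcases le_or_gt 0 (Multiplicative.toAdd g) with h | h
  · refine ⟨Multiplicative.ofAdd 1, Or.inl rfl, ?_⟩
    rw [wordNorm_SL, wordNorm_SL]
    simp only [toAdd_mul, toAdd_ofAdd]
    omega
  · refine ⟨Multiplicative.ofAdd (-1), Or.inr rfl, ?_⟩
    rw [wordNorm_SL, wordNorm_SL]
    simp only [toAdd_mul, toAdd_ofAdd]
    omega

/-! ### Adjacency in the base group -/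

theorem fadj2_iff (a b : GG) : fadj2 a b ↔ ∃ s ∈ SG, a * s = b := by
  obtain ⟨a1, a2⟩ := a
  obtain ⟨b1, b2⟩ := b
  constructor
  · rintro (⟨⟨x, h | h⟩, h2⟩ | ⟨h2, ⟨x, h | h⟩⟩)
    · exact ⟨_, ⟨x, Or.inl rfl⟩, by ext <;> simp_all⟩
    · refine ⟨_, ⟨x, Or.inr (Or.inl rfl)⟩, ?_⟩
      simp only at h h2
      subst h h2
      simp
    · exact ⟨_, ⟨x, Or.inr (Or.inr (Or.inl rfl))⟩, by ext <;> simp_all⟩
    · refine ⟨_, ⟨x, Or.inr (Or.inr (Or.inr rfl))⟩, ?_⟩
      simp only at h h2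
      subst h h2
      simp
  · rintro ⟨s, ⟨x, h | h | h | h⟩, hs⟩ <;> subst h <;> rw [← hs]
    · exact Or.inl ⟨⟨x, Or.inl (by simp)⟩, by simp⟩
    · exact Or.inl ⟨⟨x, Or.inr (by simp)⟩, by simp⟩
    · exact Or.inr ⟨by simp, ⟨x, Or.inl (by simp)⟩⟩
    · exact Or.inr ⟨by simp, ⟨x, Or.inr (by simp)⟩⟩

end Pool.Agent.AD
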