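import Pool.Agent.AD.GroupA

/-!
MP_072aa0_al, group level, part B: the word norm in the wreath product, lifting of paths.
-/

set_option autoImplicit false

namespace Pool.Agent.AD

open Multiplicative

/-- The wreath product. -/
abbrev WW := Wreath GG LL

/-- The generators of the wreath product. -/
abbrev WS : Set WW := Wreath.gens SG SL

/-- The value of a lamp. -/
def lv (w : WW) (x : GG) : ℤ := toAdd (w.lamp x)

theorem lv_ext {w w' : WW} (h1 : w.pos = w'.pos) (h2 : ∀ x, lv w x = lv w' x) : w = w' :=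
  Wreath.ext h1 (funext fun x => toAdd.injective (h2 x))

/-- The loads (absolute values of the lamps). -/
noncomputable def ld (w : WW) : GG →₀ ℕ :=
  Finsupp.ofSupportFinite (fun x => (lv w x).natAbs) (w.finite_supp.subset fun x hx => by
    intro h
    apply hx
    simp [lv, h])

theorem ld_apply (w : WW) (x : GG) : ld w x = (lv w x).natAbs := rfl

theorem lv_mul_walk (w : WW) (s x : GG) : lv (w * Wreath.walk s) x = lv w x := by
  simp [lv, Wreath.mul_lamp, Wreath.walk]

theorem pos_mul_walk (w : WW) (s : GG) : (w * Wreath.walk s).pos = w.pos * s := rfl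

theorem lv_mul_switch_self (w : WW) (t : ℤ) :
    lv (w * Wreath.switch (ofAdd t)) w.pos = lv w w.pos + t := by
  simp [lv, Wreath.mul_lamp, Wreath.switch]

theorem lv_mul_switch_ne (w : WW) (t : ℤ) {x : GG} (hx : x ≠ w.pos) :
    lv (w * Wreath.switch (ofAdd t)) x = lv w x := by
  have : w.pos⁻¹ * x ≠ 1 := fun h => hx (by rw [← mul_inv_cancel_left w.pos x, h, mul_one])
  simp [lv, Wreath.mul_lamp, Wreath.switch, this]

theorem pos_mul_switch (w : WW) (t : LL) : (w * Wreath.switch t).pos = w.pos := by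
  show w.pos * 1 = w.pos
  rw [mul_one]

theorem ld_mul_walk (w : WW) (s : GG) : ld (w * Wreath.walk s) = ld w := by
  ext x
  rw [ld_apply, ld_apply, lv_mul_walk]

/-- increasing the absolute value of the lamp at the cursor -/
theorem ld_mul_switch_inc (w : WW) (t : ℤ)
    (h : (lv w w.pos + t).natAbs = (lv w w.pos).natAbs + 1) :
    ld (w * Wreath.switch (ofAdd t)) = ld w + Finsupp.single w.pos 1 := by
  classical
  ext x
  rw [ld_apply, Finsupp.add_apply, ld_apply]
  by_cases hx : x = w.pos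
  · subst hx
    rw [lv_mul_switch_self, h, Finsupp.single_eq_same]
  · rw [lv_mul_switch_ne w t hx, Finsupp.single_eq_of_ne hx, add_zero]

/-- decreasing the absolute value of the lamp at the cursor -/
theorem ld_mul_switch_dec (w : WW) (t : ℤ)
    (h : (lv w w.pos + t).natAbs + 1 = (lv w w.pos).natAbs) :
    ld w = ld (w * Wreath.switch (ofAdd t)) + Finsupp.single w.pos 1 := by
  classical
  ext x
  rw [ld_apply, Finsupp.add_apply, ld_apply]
  by_cases hx : x = w.pos
  · subst hx
    rw [lv_mul_switch_self, ← h, Finsupp.single_eq_same]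
  · rw [lv_mul_switch_ne w t hx, Finsupp.single_eq_of_ne hx, add_zero]

/-- The norm. -/
noncomputable def NN (w : WW) : ℕ := nrm fadj2 1 (w.pos, ld w)

theorem NN_walk (hG : Good fadj2) (w : WW) {s : GG} (hs : s ∈ SG) :
    NN (w * Wreath.walk s) = NN w + 1 ∨ NN w = NN (w * Wreath.walk s) + 1 := by
  unfold NN
  rw [ld_mul_walk, pos_mul_walk]
  exact hG.nrm_adj ((fadj2_iff _ _).2 ⟨s, hs, rfl⟩) (ld w)

theorem NN_switch_inc (hG : Good fadj2) (w : WW) (t : ℤ)
    (h : (lv w w.pos + t).natAbs = (lv w w.pos).natAbs + 1) :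
    NN (w * Wreath.switch (ofAdd t)) = NN w + 1 := by
  unfold NN
  rw [ld_mul_switch_inc w t h, pos_mul_switch, hG.nrm_add_single]

theorem NN_switch_dec (hG : Good fadj2) (w : WW) (t : ℤ)
    (h : (lv w w.pos + t).natAbs + 1 = (lv w w.pos).natAbs) :
    NN w = NN (w * Wreath.switch (ofAdd t)) + 1 := by
  have h1 := hG.nrm_add_single 1 w.pos (ld (w * Wreath.switch (ofAdd t))) 1
  unfold NN
  rw [pos_mul_switch, ← h1, ← ld_mul_switch_dec w t h]

theorem NN_adj (hG : Good fadj2) (w : WW) {s : WW} (hs : s ∈ WS) :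
    NN (w * s) = NN w + 1 ∨ NN w = NN (w * s) + 1 := by
  rcases hs with ⟨s, hs, rfl⟩ | ⟨t, ht, rfl⟩
  · exact NN_walk hG w hs
  · rcases ht with h | h
    · subst h
      rcases le_or_gt 0 (lv w w.pos) with h0 | h0
      · exact Or.inl (NN_switch_inc hG w 1 (by omega))
      · exact Or.inr (NN_switch_dec hG w 1 (by omega))
    · rw [Set.mem_singleton_iff] at h
      subst h
      rcases lt_or_ge 0 (lv w w.pos) with h0 | h0
      · exact Or.inr (NN_switch_dec hG w (-1) (by omega))
      · exact Or.inl (NN_switch_inc hG w (-1) (by omega))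

theorem WS_symm {s : WW} (hs : s ∈ WS) : s⁻¹ ∈ WS := by
  rcases hs with ⟨s, hs, rfl⟩ | ⟨t, ht, rfl⟩
  · refine Or.inl ⟨s⁻¹, SG_symm s hs, ?_⟩
    refine Wreath.ext rfl ?_
    funext x
    simp [Wreath.inv_lamp, Wreath.walk]
  · refine Or.inr ⟨t⁻¹, SL_isGenSet.symm t ht, ?_⟩
    refine Wreath.ext (by simp [Wreath.inv_pos, Wreath.switch]) ?_
    funext x
    simp only [Wreath.inv_lamp, Wreath.switch, one_mul]
    split_ifs <;> simp

/-- every state with positive norm has a neighbour of smaller norm -/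
theorem NN_desc (hG : Good fadj2) (w : WW) (hw : w ≠ 1) : ∃ h, ∃ s ∈ WS, h * s = w ∧ NN h + 1 ≤ NN w := by
  by_cases h0 : lv w w.pos = 0
  · -- unlit cursor
    have hun : w.pos ∉ lit (ld w) := by
      simp [lit, ld_apply, h0]
    have hT := hG.tour_tsp (lit_finite (ld w)) 1 w.pos
    rcases hk : tsp fadj2 (lit (ld w)) 1 w.pos with _ | k
    · exfalso
      rw [hk] at hT
      obtain ⟨h1, h2⟩ := hT.of_zero
      apply hw
      refine lv_ext h1 fun x => ?_
      have h3 : x ∉ lit (ld w) := by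
        intro hx
        have := h2 hx
        rw [Set.mem_singleton_iff] at this
        subst this
        rw [h1] at hun
        exact hun hx
      have h4 : (lv w x).natAbs = 0 := by
        by_contra h4
        exact h3 h4
      have h5 : lv w x = 0 := by omega
      rw [h5]
      rfl
    · rw [hk] at hT
      obtain ⟨c', hc', hT'⟩ := hT.unsnoc
      have hS : lit (ld w) \ {w.pos} = lit (ld w) := by
        rw [Set.sdiff_singleton_eq_self hun]
      rw [hS] at hT'
      obtain ⟨s, hs, hs'⟩ := (fadj2_iff _ _).1 hc'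
      refine ⟨⟨c', w.lamp, w.finite_supp⟩, Wreath.walk s, Or.inl ⟨s, hs, rfl⟩, ?_, ?_⟩
      · refine Wreath.ext hs' ?_
        funext x
        simp [Wreath.mul_lamp, Wreath.walk]
      · have e1 : NN ⟨c', w.lamp, w.finite_supp⟩ = tsp fadj2 (lit (ld w)) 1 c' + mass (ld w) := rfl
        have e2 : NN w = tsp fadj2 (lit (ld w)) 1 w.pos + mass (ld w) := rfl
        have := tsp_le hT'
        omega
  · rcases lt_or_gt_of_ne h0 with h1 | h1
    · refine ⟨w * Wreath.switch (ofAdd 1), (Wreath.switch (ofAdd 1))⁻¹,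
        WS_symm (Or.inr ⟨_, Or.inl rfl, rfl⟩), by group, ?_⟩
      have := NN_switch_dec hG w 1 (by omega)
      omega
    · refine ⟨w * Wreath.switch (ofAdd (-1)), (Wreath.switch (ofAdd (-1)))⁻¹,
        WS_symm (Or.inr ⟨_, Or.inr rfl, rfl⟩), by group, ?_⟩
      have := NN_switch_dec hG w (-1) (by omega)
      omega

theorem tsp_self (S : Set GG) (hS : S ⊆ {1}) : tsp fadj2 S 1 1 = 0 :=
  Nat.le_zero.1 (tsp_le ((Tour.refl (adj := fadj2) 1).mono hS))

theorem NN_one : NN (1 : WW) = 0 := by
  have h1 : ld (1 : WW) = 0 := by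
    ext x
    rfl
  unfold NN
  rw [h1]
  show tsp fadj2 (lit 0) 1 1 + mass 0 = 0
  rw [tsp_self _ (by intro x hx; simp [lit] at hx)]
  simp [mass]

theorem wordNorm_WS (hG : Good fadj2) (w : WW) : wordNorm WS w = NN w := by
  refine wordNorm_eq NN NN_one ?_ (NN_desc hG) w
  intro g s hs
  have := NN_adj hG g hs
  omega

end Pool.Agent.AD
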