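import Pool.Agent.AD.GroupB

/-!
MP_072aa0_al, group level, part C: lifting of paths, connections inside the annulus.
-/

set_option autoImplicit false

namespace Pool.Agent.AD

open Multiplicative

/-- The element with signs `σ`, cursor and loads given by the state. -/
noncomputable def elt (σ : GG → ℤ) (s : St GG) : WW :=
  ⟨s.1, fun x => ofAdd (σ x * (s.2 x : ℤ)), s.2.support.finite_toSet.subset (fun x hx => by
    simp only [Finset.mem_coe, Finsupp.mem_support_iff]
    intro h
    exact hx (by simp [h]))⟩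

theorem lv_elt (σ : GG → ℤ) (s : St GG) (x : GG) : lv (elt σ s) x = σ x * (s.2 x : ℤ) := rfl

theorem ld_elt {σ : GG → ℤ} (hσ : ∀ x, (σ x).natAbs = 1) (s : St GG) : ld (elt σ s) = s.2 := by
  ext x
  rw [ld_apply, lv_elt, Int.natAbs_mul, hσ x, one_mul, Int.natAbs_natCast]

theorem NN_elt {σ : GG → ℤ} (hσ : ∀ x, (σ x).natAbs = 1) (s : St GG) :
    NN (elt σ s) = nrm fadj2 1 s := by
  unfold NN
  rw [ld_elt hσ]
  rfl

theorem ofAdd_sign_mem {z : ℤ} (h : z.natAbs = 1) : ofAdd z ∈ SL := by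
  rcases Int.natAbs_eq z with h1 | h1
  · rw [h1, h]; exact Or.inl rfl
  · rw [h1, h]; exact Or.inr rfl

theorem step_elt {σ : GG → ℤ} (hσ : ∀ x, (σ x).natAbs = 1) {s t : St GG} (h : Step fadj2 s t) :
    ∃ u ∈ WS, elt σ s * u = elt σ t := by
  classical
  cases h with
  | move c c' g h =>
    obtain ⟨u, hu, hu'⟩ := (fadj2_iff _ _).1 h
    refine ⟨Wreath.walk u, Or.inl ⟨u, hu, rfl⟩, lv_ext hu' fun x => ?_⟩
    rw [lv_mul_walk]
    rfl
  | inc c g =>
    refine ⟨Wreath.switch (ofAdd (σ c)), Or.inr ⟨_, ofAdd_sign_mem (hσ c), rfl⟩,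
      lv_ext (pos_mul_switch _ _) fun x => ?_⟩
    by_cases hx : x = c
    · subst hx
      have := lv_mul_switch_self (elt σ (x, g)) (σ x)
      rw [show (elt σ (x, g)).pos = x from rfl] at this
      rw [this, lv_elt, lv_elt]
      simp only [Finsupp.add_apply, Finsupp.single_eq_same]
      push_cast
      ring
    · rw [lv_mul_switch_ne _ _ (by exact hx), lv_elt, lv_elt]
      simp only [Finsupp.add_apply]
      rw [Finsupp.single_eq_of_ne hx, add_zero]
  | dec c g =>
    refine ⟨Wreath.switch (ofAdd (-σ c)),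
      Or.inr ⟨_, ofAdd_sign_mem (by rw [Int.natAbs_neg]; exact hσ c), rfl⟩,
      lv_ext (pos_mul_switch _ _) fun x => ?_⟩
    by_cases hx : x = c
    · subst hx
      have := lv_mul_switch_self (elt σ (x, g + Finsupp.single x 1)) (-σ x)
      rw [show (elt σ (x, g + Finsupp.single x 1)).pos = x from rfl] at this
      rw [this, lv_elt, lv_elt]
      simp only [Finsupp.add_apply, Finsupp.single_eq_same]
      push_cast
      ring
    · rw [lv_mul_switch_ne _ _ (by exact hx), lv_elt, lv_elt]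
      simp only [Finsupp.add_apply]
      rw [Finsupp.single_eq_of_ne hx, add_zero]

/-! ### Connections -/

/-- `a` and `b` are joined inside the annulus by a path of length at most `k`. -/
def Con (n r k : ℕ) (a b : WW) : Prop :=
  ∃ (ha : a ∈ annulus WS n r) (hb : b ∈ annulus WS n r),
    ((cayley WS).induce (annulus WS n r)).edist ⟨a, ha⟩ ⟨b, hb⟩ ≤ k

variable {n r k l : ℕ} {a b c : WW}

theorem mem_ann (hG : Good fadj2) : a ∈ annulus WS n r ↔ n ≤ NN a ∧ NN a ≤ n + r := by
  unfold annulus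
  rw [Set.mem_ofPred_eq, wordNorm_WS hG]

theorem Con.refl (ha : a ∈ annulus WS n r) : Con n r 0 a a := ⟨ha, ha, by simp⟩

theorem Con.mono (h : Con n r k a b) (hkl : k ≤ l) : Con n r l a b := by
  obtain ⟨ha, hb, h⟩ := h
  exact ⟨ha, hb, h.trans (by exact_mod_cast hkl)⟩

theorem Con.symm (h : Con n r k a b) : Con n r k b a := by
  obtain ⟨ha, hb, h⟩ := h
  exact ⟨hb, ha, by rwa [SimpleGraph.edist_comm]⟩

theorem Con.trans (h : Con n r k a b) (h' : Con n r l b c) : Con n r (k + l) a c := by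
  obtain ⟨ha, hb, h⟩ := h
  obtain ⟨hb', hc, h'⟩ := h'
  refine ⟨ha, hc, le_trans (SimpleGraph.edist_triangle (v := (⟨b, hb⟩ : ↥(annulus WS n r)))) ?_⟩
  push_cast
  exact add_le_add h h'

theorem Con.step (ha : a ∈ annulus WS n r) (hb : b ∈ annulus WS n r)
    (h : ∃ s ∈ WS, a * s = b) : Con n r 1 a b := by
  refine ⟨ha, hb, ?_⟩
  by_cases hab : a = b
  · subst hab
    simp
  · rw [Nat.cast_one, SimpleGraph.edist_le_one_iff_adj_or_eq]
    refine Or.inl ?_
    rw [SimpleGraph.comap_adj]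
    show (cayley WS).Adj a b
    unfold cayley
    rw [SimpleGraph.fromRel_adj]
    exact ⟨hab, Or.inl h⟩

theorem Con.of_rch (hG : Good fadj2) (hr : 3 ≤ r) {σ : GG → ℤ} (hσ : ∀ x, (σ x).natAbs = 1)
    {s t : St GG} (h : Rch fadj2 1 n k s t) : Con n r k (elt σ s) (elt σ t) := by
  have hmem : ∀ s, InW fadj2 1 n s → elt σ s ∈ annulus WS n r := by
    intro s hs
    rw [mem_ann hG, NN_elt hσ]
    have := hs.1
    have := hs.2
    omega
  induction h with
  | refl s h => exact Con.refl (hmem s h)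
  | tail h1 h2 h3 ih =>
    exact ih.trans (Con.step (hmem _ h1.inW_right) (hmem _ h3) (step_elt hσ h2))

theorem Con.of_reach (hG : Good fadj2) (hr : 3 ≤ r) {σ : GG → ℤ} (hσ : ∀ x, (σ x).natAbs = 1)
    {s t : St GG} (h : Reach fadj2 1 n k s t) : Con n r k (elt σ s) (elt σ t) := by
  obtain ⟨j, hj, h⟩ := h
  exact (Con.of_rch hG hr hσ h).mono hj

/-- going down to level `n + 1` -/
theorem Con.down (hG : Good fadj2) (j : ℕ) (hj : j + 1 ≤ r) (a : WW) (ha : NN a = n + 1 + j) :
    ∃ b, NN b = n + 1 ∧ Con n r j a b := by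
  induction j generalizing a with
  | zero => exact ⟨a, by omega, Con.refl ((mem_ann hG).2 (by omega))⟩
  | succ j ih =>
    have ha1 : a ≠ 1 := by
      rintro rfl
      rw [NN_one] at ha
      omega
    obtain ⟨h, s, hs, he, hN⟩ := NN_desc hG a ha1
    have hN' : NN h = n + 1 + j := by
      have := NN_adj hG h hs
      rw [he] at this
      omega
    obtain ⟨b, hb, hab⟩ := ih (by omega) h hN'
    refine ⟨b, hb, ?_⟩
    have h1 : Con n r 1 h a := Con.step ((mem_ann hG).2 (by omega)) ((mem_ann hG).2 (by omega))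
      ⟨s, hs, he⟩
    have h2 := h1.symm.trans hab
    rwa [Nat.add_comm] at h2

theorem Con.to_level (hG : Good fadj2) (hr : 1 ≤ r) (a : WW) (ha : a ∈ annulus WS n r) :
    ∃ b, NN b = n + 1 ∧ Con n r r a b := by
  have ha' := (mem_ann hG).1 ha
  rcases Nat.eq_or_lt_of_le ha'.1 with h | h
  · -- norm `n`: go up
    rcases le_or_gt 0 (lv a a.pos) with h0 | h0
    · have := NN_switch_inc hG a 1 (by omega)
      refine ⟨_, by rw [this, ← h], (Con.step ha ((mem_ann hG).2 ?_)
        ⟨_, Or.inr ⟨_, Or.inl rfl, rfl⟩, rfl⟩).mono hr⟩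
      omega
    · have := NN_switch_inc hG a (-1) (by omega)
      refine ⟨_, by rw [this, ← h], (Con.step ha ((mem_ann hG).2 ?_)
        ⟨_, Or.inr ⟨_, Or.inr rfl, rfl⟩, rfl⟩).mono hr⟩
      omega
  · obtain ⟨b, hb, hab⟩ := Con.down (r := r) (n := n) hG (NN a - (n + 1)) (by omega) a (by omega)
    exact ⟨b, hb, hab.mono (by omega)⟩

/-- The sign function of an element. -/
def sgn (w : WW) (x : GG) : ℤ := if lv w x < 0 then -1 else 1

theorem sgn_natAbs (w : WW) (x : GG) : (sgn w x).natAbs = 1 := by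
  unfold sgn
  split_ifs <;> rfl

theorem elt_sgn (w : WW) : elt (sgn w) (w.pos, ld w) = w := by
  refine lv_ext rfl fun x => ?_
  rw [lv_elt]
  simp only [ld_apply, sgn]
  split_ifs with h <;> omega

/-- The heap at the origin, with sign `ε`. -/
noncomputable def hub (n : ℕ) (ε : ℤ) : WW := elt (fun _ => ε) (1, Finsupp.single 1 (n + 1))

theorem elt_hub (n : ℕ) (σ : GG → ℤ) :
    elt σ (1, Finsupp.single 1 (n + 1)) = hub n (σ 1) := by
  classical
  refine lv_ext rfl fun x => ?_
  unfold hub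
  rw [lv_elt, lv_elt]
  by_cases hx : x = 1
  · subst hx; rfl
  · simp only
    rw [Finsupp.single_eq_of_ne hx]
    simp

/-- the two heaps are joined -/
theorem Con.flip (hG : Good fadj2) (h1 : NAIVE_Stmt) (hr : 3 ≤ r) (hn : bd 2 ≤ n) {ε ε' : ℤ}
    (hε : ε.natAbs = 1) (hε' : ε'.natAbs = 1) :
    Con n r (2 * (4 * (2 * n + 1) + cst 2)) (hub n ε) (hub n ε') := by
  classical
  set v : GG := (FreeGroup.of true, 1) with hv
  have hv1 : v ≠ 1 := by
    intro h
    have := congrArg Prod.fst h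
    simp [hv] at this
  have hadj : fadj2 1 v := (fadj2_iff _ _).2 ⟨v, ⟨true, Or.inl rfl⟩, by simp⟩
  have hV : ({1, v} : Finset GG).card = 2 := Finset.card_pair hv1.symm
  have hnrm1 : nrm fadj2 1 (1, Finsupp.single (1 : GG) (n + 1)) = n + 1 := by
    rw [nrm_eq, mass_single, tsp_self]
    · omega
    · intro x hx
      by_contra h
      apply hx
      exact Finsupp.single_eq_of_ne h
  have htsp : tsp fadj2 (lit (Finsupp.single v n)) 1 v = 1 := by
    have h2 : tsp fadj2 (lit (Finsupp.single v n)) 1 v ≤ 1 := by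
      refine tsp_le ((Tour.edge hadj).mono ?_)
      intro x hx
      by_contra h
      apply hx
      refine Finsupp.single_eq_of_ne ?_
      rintro rfl
      exact h (Or.inr rfl)
    have h3 : tsp fadj2 (lit (Finsupp.single v n)) 1 v ≠ 0 := by
      intro h3
      have h4 := hG.tour_tsp (lit_finite (Finsupp.single v n)) 1 v
      rw [h3] at h4
      exact hv1 h4.of_zero.1
    omega
  have hnrm2 : nrm fadj2 1 (v, Finsupp.single v n) = n + 1 := by
    rw [nrm_eq, mass_single, htsp]
    omega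
  have key : Reach fadj2 1 n (4 * (2 * n + 1) + cst 2) (1, Finsupp.single (1 : GG) (n + 1))
      (v, Finsupp.single v n) := by
    have := h1 fadj2 hG 1 n {1, v} 1 (by rw [hV]; omega) ?_ 1 (by simp) v (by simp)
      (Finsupp.single 1 (n + 1)) (Finsupp.single v n) ?_ ?_ ?_ hnrm1 hnrm2
    · refine this.mono ?_
      rw [hV]
      have hd : dif {1, v} (Finsupp.single (1 : GG) (n + 1)) (Finsupp.single v n) = 2 * n + 1 := by
        unfold dif
        rw [Finset.sum_pair hv1.symm, Finsupp.single_eq_same, Finsupp.single_eq_same,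
          Finsupp.single_eq_of_ne hv1.symm, Finsupp.single_eq_of_ne hv1]
        omega
      rw [hd]
    · have hA : ∀ a ∈ ({1, v} : Finset GG), PathIn fadj2 {1, v} a a 0 := by
        intro a ha
        exact ⟨fun _ => a, rfl, rfl, fun i hi => absurd hi (Nat.not_lt_zero i), fun _ _ => ha⟩
      have hE : ∀ a ∈ ({1, v} : Finset GG), ∀ b ∈ ({1, v} : Finset GG), fadj2 a b →
          PathIn fadj2 {1, v} a b 1 := by
        intro a ha b hb hab
        refine ⟨fun i => if i = 0 then a else b, by simp, by simp, ?_, ?_⟩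
        · intro i hi
          have : i = 0 := by omega
          subst this
          simpa using hab
        · intro i _
          show (if i = 0 then a else b) ∈ ({1, v} : Finset GG)
          split_ifs
          · exact ha
          · exact hb
      intro a ha b hb
      have ha' := ha
      have hb' := hb
      simp only [Finset.mem_insert, Finset.mem_singleton] at ha' hb'
      rcases ha' with rfl | rfl <;> rcases hb' with rfl | rfl
      · exact ⟨0, by omega, hA _ ha⟩
      · exact ⟨1, le_rfl, hE _ ha _ hb hadj⟩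
      · exact ⟨1, le_rfl, hE _ ha _ hb (hG.symm hadj)⟩
      · exact ⟨0, by omega, hA _ ha⟩
    · intro x hx
      simp only [Finset.mem_insert, Finset.mem_singleton, not_or] at hx
      rw [Finsupp.single_eq_of_ne hx.1, Finsupp.single_eq_of_ne hx.2]
    · rw [hV, Finsupp.single_eq_same]; omega
    · rw [hV, Finsupp.single_eq_same]; omega
  -- lift with two sign functions
  have hs1 : ∀ x : GG, ((fun _ => ε : GG → ℤ) x).natAbs = 1 := fun _ => hε
  have hs2 : ∀ x : GG, ((fun x => if x = 1 then ε' else ε : GG → ℤ) x).natAbs = 1 := by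
    intro x
    show (if x = 1 then ε' else ε).natAbs = 1
    split_ifs
    · exact hε'
    · exact hε
  have c1 := Con.of_reach hG hr hs1 key
  have c2 := Con.of_reach hG hr hs2 key
  rw [elt_hub] at c1 c2
  have he : elt (fun _ => ε : GG → ℤ) (v, Finsupp.single v n) =
      elt (fun x => if x = 1 then ε' else ε : GG → ℤ) (v, Finsupp.single v n) := by
    refine lv_ext rfl fun x => ?_
    rw [lv_elt, lv_elt]
    by_cases hx : x = 1
    · subst hx
      simp only
      rw [Finsupp.single_eq_of_ne hv1.symm]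
      simp
    · simp only [if_neg hx]
  rw [he] at c1
  have c3 := c1.trans c2.symm
  rw [if_pos rfl] at c3
  refine c3.mono (by omega)

/-- everything is joined to the hub -/
theorem Con.to_hub (hG : Good fadj2) (hr : 3 ≤ r) {M : ℕ}
    (hU : ∀ s : St GG, nrm fadj2 1 s = n + 1 →
      Reach fadj2 1 n M s (1, Finsupp.single (1 : GG) (n + 1))) (a : WW)
    (ha : a ∈ annulus WS n r) : ∃ ε : ℤ, ε.natAbs = 1 ∧ Con n r (r + M) a (hub n ε) := by
  obtain ⟨b, hb, hab⟩ := Con.to_level hG (by omega) a ha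
  have h1 := Con.of_reach hG hr (sgn_natAbs b) (hU (b.pos, ld b) hb)
  rw [elt_sgn, elt_hub] at h1
  exact ⟨sgn b 1, sgn_natAbs b 1, hab.trans h1⟩

theorem diam_le (hG : Good fadj2) (h1 : NAIVE_Stmt) (hr : 3 ≤ r) (hn : bd 2 ≤ n) {M : ℕ}
    (hU : ∀ s : St GG, nrm fadj2 1 s = n + 1 →
      Reach fadj2 1 n M s (1, Finsupp.single (1 : GG) (n + 1))) :
    annulusDiam WS n r ≤ ((2 * (r + M) + 2 * (4 * (2 * n + 1) + cst 2) : ℕ) : ℕ∞) := by
  refine SimpleGraph.ediam_le_of_edist_le ?_
  rintro ⟨a, ha⟩ ⟨b, hb⟩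
  obtain ⟨ε, hε, h2⟩ := Con.to_hub hG hr hU a ha
  obtain ⟨ε', hε', h3⟩ := Con.to_hub hG hr hU b hb
  obtain ⟨ha', hb', h4⟩ := ((h2.trans (Con.flip hG h1 hr hn hε hε')).trans h3.symm)
  refine h4.trans ?_
  exact_mod_cast (by omega : r + M + 2 * (4 * (2 * n + 1) + cst 2) + (r + M) ≤
    2 * (r + M) + 2 * (4 * (2 * n + 1) + cst 2))

end Pool.Agent.AD
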