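import Pool.Agent.AD.LabD

/-!
MP_072aa0_al, module LAB: the laboratory.
-/

set_option autoImplicit false

namespace Pool.Agent.AD

namespace Lab

open Finset (range)

section block

variable {A B : Type} {adjA : A → A → Prop} {adjB : B → B → Prop}
  {α : ℕ → A} {ρ : A → ℕ} {β : ℕ → B} {p : B → ℕ} {d D m : ℕ}

lemma TB.mono {X : Type} {adj : X → X → Prop} {o : X} {env : X →₀ ℕ} {S S' : Set X} {T0 Y : ℕ}
    (h : TB adj o env S T0 Y) (hS : S' ⊆ S) : TB adj o env S' T0 Y :=
  fun F hF c hc => h F (hF.trans hS) c (hS hc)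

/-- the mirrored block -/
lemma Ctx.mirror (C : Ctx adjA adjB α ρ β p d D m) :
    Ctx adjA adjB (fun i => α (d - i)) (fun a => d - ρ a) β p d D m where
  hA := C.hA
  hB := C.hB
  hα := {
    adj_path := by
      intro i hi
      have h := C.hα.adj_path (d - (i + 1)) (by omega)
      rw [show d - (i + 1) + 1 = d - i by omega] at h
      exact C.hA.symm h
    val := by
      intro i hi
      have h := C.hα.val (d - i) (by omega)
      show d - ρ (α (d - i)) = i
      rw [h]
      omega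
    cross := by
      intro u v huv hne
      have hne' : ρ u ≠ ρ v := fun h => hne (by simp only [h])
      obtain ⟨i, hi, h⟩ := C.hα.cross u v huv hne'
      refine ⟨d - (i + 1), by omega, ?_⟩
      have e1 : d - (d - (i + 1)) = i + 1 := by omega
      have e2 : d - (d - (i + 1) + 1) = i := by omega
      show (u = α (d - (d - (i + 1))) ∧ v = α (d - (d - (i + 1) + 1))) ∨
        (u = α (d - (d - (i + 1) + 1)) ∧ v = α (d - (d - (i + 1))))
      rw [e1, e2]
      exact h.symm
    le := by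
      intro u
      show d - ρ u ≤ d
      omega }
  hβ := C.hβ
  hd := C.hd
  hD := C.hD
  hm := C.hm

lemma uM_mirror (K : ℕ) : uM (fun i => α (d - i)) β d D m K = uM α β d D m K := by
  have e1 : pl (fun i => (α (d - i), β m)) (d + 1) (K + 2) =
      pl (fun i => (α i, β m)) (d + 1) (K + 2) := by
    rw [← pl_reflect (fun i => (α i, β m)) (d + 1) (K + 2)]
    exact pl_congr fun i _ => by rw [show d + 1 - 1 - i = d - i by omega]
  have e2 : pl (fun i => (α (d - i), β (m + D))) (d + 1) 2 =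
      pl (fun i => (α i, β (m + D))) (d + 1) 2 := by
    rw [← pl_reflect (fun i => (α i, β (m + D))) (d + 1) 2]
    exact pl_congr fun i _ => by rw [show d + 1 - 1 - i = d - i by omega]
  unfold uM
  simp only [e1, e2, Nat.sub_zero, Nat.sub_self]
  abel

lemma sites_mirror (b : ℕ) : sites (fun i => α (d - i)) β d b ⊆ sites α β d b := by
  rintro v ⟨i, hi, j, hj, rfl⟩
  exact ⟨d - i, by omega, j, hj, rfl⟩

/-- cost of a block -/
def bcost (d D m K R q : ℕ) : ℕ :=
  2 * hcost d D m K R q + (8 * (m + 2 * (D + d)) * (2 * R) + cst q)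

/-- One block. -/
theorem block (hN : NAIVE_Stmt) (hP : PUMP_Stmt) (hPI : PI_Stmt)
    (C : Ctx adjA adjB α ρ β p d D m) {o : A × B} (ho : p o.2 = 0) {env : A × B →₀ ℕ}
    (henv : ∀ v, env v ≠ 0 → p v.2 = 0) {n K T0 Y H R q : ℕ}
    (hT : TB (padj adjA adjB) o env (sites α β d (m + D)) T0 Y)
    (hn : T0 + mass env + H = n + 1) (hq : 2 * m + 2 * (D + d) + 1 ≤ q)
    (hH1 : K * (2 * D + d + 3) + (4 * m + 4 * (D + d) + 8) + Y + bd q ≤ H)
    (hH2 : H + Y ≤ K * (2 * D + d) + R) :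
    Reach (padj adjA adjB) o n (bcost d D m K R q)
      (fil (padj adjA adjB) o n (α 0, β (m + D)) (env + qld β m D K (α 0)))
      (fil (padj adjA adjB) o n (α d, β (m + D)) (env + qld β m D K (α d))) := by
  have hd := C.hd
  have hD := C.hD
  have hm := C.hm
  have hG := C.good
  have h1 := half hN hP hPI C ho henv hT hn hq hH1 hH2
  have h2 := half hN hP hPI C.mirror ho henv (hT.mono (sites_mirror _)) hn hq hH1 hH2
  rw [uM_mirror] at h2
  simp only [Nat.sub_zero] at h2
  have hsub : (V3 α β d D m : Set (A × B)) ⊆ sites α β d (m + D) := V3_subset_sites (by omega)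
  have hlM := lit_uM_V3 C K
  have mem0 : (α 0, β m) ∈ V3 α β d D m := cyc_zero (α := α) (β := β) (d := d) (D := D) ▸
    cyc_mem_V3 (Nat.zero_le _)
  have mem1 : (α d, β m) ∈ V3 α β d D m := by
    have e : cyc α β d D m (D + d + D) = (α d, β m) := by
      rw [cyc_col' (by omega) le_rfl]
      simp
    rw [← e]
    exact cyc_mem_V3 (by omega)
  have hKexp : K * (2 * D + d + 3) = K * (2 * D + d) + 3 * K := by ring
  have b1 := lef_bd hT hn (hlM.trans hsub) (hsub mem0) (bd q) (by rw [mass_uM]; omega)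
  have b2 := lef_bd hT hn (hlM.trans hsub) (hsub mem1) (bd q) (by rw [mass_uM]; omega)
  rw [mass_uM] at b1 b2
  have h3 : Reach (padj adjA adjB) o n (8 * (m + 2 * (D + d)) * (2 * R) + cst q)
      (fil (padj adjA adjB) o n (α 0, β m) (env + uM α β d D m K))
      (fil (padj adjA adjB) o n (α d, β m) (env + uM α β d D m K)) := by
    have e1 : env + uM α β d D m K = env + uM α β d D m K + 0 := by rw [add_zero]
    have c1 := b1.2.1
    have c2 := b1.2.2
    have c3 := b2.2.1
    have c4 := b2.2.2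
    rw [e1] at c1 c2 c3 c4
    rw [e1]
    refine fil_reach hN hG o n (V3 α β d D m) (hub_V3 C) (card_V3.trans hq)
      mem0 mem1 ?_ ?_ c1 c3 ?_
    · rw [lit_zero]; exact Set.empty_subset _
    · rw [lit_zero]; exact Set.empty_subset _
    · rw [mass_zero]
      omega
  refine ((h1.trans h3).trans (h2.symm hG.symm)).mono ?_
  unfold bcost
  omega

end block

/-! ### Polynomial bounds -/

section poly

variable {d : ℕ}

lemma pw_add (hd : 2 ≤ d) {a b i : ℕ} (ha : a ≤ d ^ i) (hb : b ≤ d ^ i) : a + b ≤ d ^ (i + 1) := by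
  calc a + b ≤ 2 * d ^ i := by omega
    _ ≤ d * d ^ i := Nat.mul_le_mul_right _ hd
    _ = d ^ (i + 1) := by ring

lemma pw_mul {a b i j : ℕ} (ha : a ≤ d ^ i) (hb : b ≤ d ^ j) : a * b ≤ d ^ (i + j) := by
  rw [pow_add]
  exact Nat.mul_le_mul ha hb

lemma pw_mono (hd : 2 ≤ d) {a i j : ℕ} (ha : a ≤ d ^ i) (hij : i ≤ j) : a ≤ d ^ j :=
  ha.trans (Nat.pow_le_pow_right (by omega) hij)

lemma pw_const (hd : 2 ≤ d) {c i : ℕ} (hc : c ≤ 2 ^ i) : c ≤ d ^ i :=
  hc.trans (Nat.pow_le_pow_left hd i)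

lemma pw_pow {a i j : ℕ} (ha : a ≤ d ^ i) : a ^ j ≤ d ^ (i * j) := by
  rw [pow_mul]
  exact Nat.pow_le_pow_left ha j

lemma pw_add' (hd : 2 ≤ d) {a b i j k : ℕ} (ha : a ≤ d ^ i) (hb : b ≤ d ^ j) (hi : i < k)
    (hj : j < k) : a + b ≤ d ^ k := by
  obtain ⟨k, rfl⟩ : ∃ l, k = l + 1 := ⟨k - 1, by omega⟩
  exact pw_add hd (pw_mono hd ha (by omega)) (pw_mono hd hb (by omega))

end poly

/-! ### Sites of the laboratory -/

lemma tour_line {V : Type*} {adj : V → V → Prop} (hs : ∀ {a b}, adj a b → adj b a) {a : ℕ → V}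
    {L : ℕ} (h : ∀ i < L, adj (a i) (a (i + 1))) {i j : ℕ} (hi : i ≤ L) (hj : j ≤ L) :
    ∃ k ≤ L, Tour adj ∅ (a i) (a j) k := by
  have key : ∀ i j, i ≤ j → j ≤ L → Tour adj ∅ (a i) (a j) (j - i) := by
    intro i j hij hj
    refine ⟨fun l => a (i + l), rfl, ?_, fun l hl => h (i + l) (by omega),
      fun v hv => absurd hv (Set.notMem_empty v)⟩
    show a (i + (j - i)) = a j
    rw [show i + (j - i) = j by omega]
  rcases Nat.le_total i j with hij | hij
  · exact ⟨j - i, by omega, key i j hij hj⟩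
  · exact ⟨i - j, by omega, (key j i hij hi).reverse hs⟩

section sites

variable {A B : Type} {adjA : A → A → Prop} {adjB : B → B → Prop} {α : ℕ → A} {β : ℕ → B}

lemma tour_sites (hA : Good adjA) (hB : Good adjB) {L b : ℕ}
    (ha : ∀ i < L, adjA (α i) (α (i + 1))) (hb : ∀ j < b, adjB (β j) (β (j + 1)))
    {v w : A × B} (hv : v ∈ sites α β L b) (hw : w ∈ sites α β L b) :
    ∃ k ≤ L + b, Tour (padj adjA adjB) ∅ v w k := by
  obtain ⟨i, hi, j, hj, rfl⟩ := hv
  obtain ⟨i', hi', j', hj', rfl⟩ := hw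
  obtain ⟨k, hk, t⟩ := tour_line (adj := adjA) (a := α) (L := L)
    (fun {x y} h => hA.symm h) ha hi hi'
  obtain ⟨l, hl, t'⟩ := tour_line (adj := adjB) (a := β) (L := b)
    (fun {x y} h => hB.symm h) hb hj hj'
  exact ⟨k + l, by omega, ((tour_fst t (β j)).trans (tour_snd t' (α i'))).mono
    (Set.empty_subset _)⟩

theorem TB_sites (hA : Good adjA) (hB : Good adjB) {L b : ℕ}
    (ha : ∀ i < L, adjA (α i) (α (i + 1))) (hb : ∀ j < b, adjB (β j) (β (j + 1)))
    (o : A × B) (env : A × B →₀ ℕ) {c0 : A × B} (hc0 : c0 ∈ sites α β L b) :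
    TB (padj adjA adjB) o env (sites α β L b) (tsp (padj adjA adjB) (lit env) o c0)
      ((L + b) + (L + 1) * (b + 1) * (2 * (L + b))) := by
  classical
  have hG : Good (padj adjA adjB) := good_padj hA hB
  intro F hF c hc
  set SF : Finset (A × B) := ((range (L + 1)) ×ˢ (range (b + 1))).image
    (fun x => (α x.1, β x.2)) with hSF
  have hSF' : ∀ v, v ∈ SF ↔ v ∈ sites α β L b := by
    intro v
    rw [hSF, Finset.mem_image]
    constructor
    · rintro ⟨⟨i, j⟩, hij, rfl⟩
      rw [Finset.mem_product, Finset.mem_range, Finset.mem_range] at hij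
      exact ⟨i, by have := hij.1; simp only at this; omega, j,
        by have := hij.2; simp only at this; omega, rfl⟩
    · rintro ⟨i, hi, j, hj, rfl⟩
      exact ⟨(i, j), Finset.mem_product.2 ⟨Finset.mem_range.2 (by simp only; omega),
        Finset.mem_range.2 (by simp only; omega)⟩, rfl⟩
  have hcard : SF.card ≤ (L + 1) * (b + 1) := by
    rw [hSF]
    refine Finset.card_image_le.trans ?_
    rw [Finset.card_product, Finset.card_range, Finset.card_range]
  have hfin : (lit env ∪ (SF : Set (A × B))).Finite := (lit_finite env).union SF.finite_toSet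
  have hFs : lit env ∪ F ⊆ lit env ∪ (SF : Set (A × B)) := by
    refine Set.union_subset_union_right _ fun v hv => ?_
    exact Finset.mem_coe.2 ((hSF' v).2 (hF hv))
  have hfin' : (lit env ∪ F).Finite := hfin.subset hFs
  obtain ⟨k, hk, t⟩ := tour_sites hA hB ha hb hc hc0
  obtain ⟨k', hk', t'⟩ := tour_sites hA hB ha hb hc0 hc
  have h1 := tsp_move hG (lit_finite env) (o := o) t
  have h2 := tsp_move hG (lit_finite env) (o := o) t'
  have h3 := hG.tsp_mono hfin' (Set.subset_union_left : lit env ⊆ lit env ∪ F) o c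
  have h4 := hG.tsp_mono hfin hFs o c
  have h5 := tsp_union_le hG (lit_finite env) (o := o) SF (c := c) (r := L + b)
    (fun v hv => tour_sites hA hB ha hb hc ((hSF' v).1 hv))
  have h6 : SF.card * (2 * (L + b)) ≤ (L + 1) * (b + 1) * (2 * (L + b)) :=
    Nat.mul_le_mul_right _ hcard
  omega

end sites

/-- the numerical bounds -/
lemma numeric {d N H K : ℕ} (hd : 2 ≤ d) (hN : N ≤ d ^ 2) {Y Z R q : ℕ}
    (hq : q = 2 * (4 * (d ^ 2 + d)) + 2 * (d ^ 2 + d) + 1)
    (hY : Y = (N * d + (4 * (d ^ 2 + d) + d ^ 2)) + (N * d + 1) * (4 * (d ^ 2 + d) + d ^ 2 + 1) *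
      (2 * (N * d + (4 * (d ^ 2 + d) + d ^ 2))))
    (hZ : Z = (4 * (4 * (d ^ 2 + d)) + 4 * (d ^ 2 + d) + 8) + Y + bd q)
    (hR : R = 3 * K + ((2 * d ^ 2 + d + 3) + Z + Y))
    (hK : K * (2 * d ^ 2 + d + 3) ≤ H) :
    Y ≤ d ^ 20 ∧ Z ≤ d ^ 44 ∧
    (8 * (4 * (d ^ 2 + d) + d ^ 2) * (2 * H + 2 * Y) + cst q) +
      N * bcost d (d ^ 2) (4 * (d ^ 2 + d)) K R q +
      (8 * (4 * (d ^ 2 + d) + d ^ 2) * (2 * H + 2 * Y) + cst q) ≤
      4000 * H * d ^ 2 + d ^ 4000 := by
  have hd0 : d ≤ d ^ 1 := by simp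
  have hD : d ^ 2 ≤ d ^ 2 := le_rfl
  have hdD : d ≤ d ^ 2 := by nlinarith
  have hh : d ^ 2 + d ≤ d ^ 3 := pw_add hd hD hdD
  obtain ⟨h, hh0⟩ : ∃ h, h = d ^ 2 + d := ⟨_, rfl⟩
  rw [← hh0] at hq hY hZ hh ⊢
  have h4 : 4 * h ≤ d ^ 5 := by
    have : 4 ≤ d ^ 2 := pw_const hd (by norm_num)
    exact (pw_mul this hh)
  have hb : 4 * h + d ^ 2 ≤ d ^ 6 := pw_add hd h4 (pw_mono hd hD (by omega))
  have hNd : N * d ≤ d ^ 3 := pw_mul hN hd0
  have hq1 : q ≤ d ^ 8 := by
    rw [hq]
    have a1 : 2 * (4 * h) ≤ d ^ 6 := pw_mono hd (pw_mul (i := 1) (by simpa using hd) h4) (by omega)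
    have a2 : 2 * h ≤ d ^ 4 := pw_mono hd (pw_mul (i := 1) (by simpa using hd) hh) (by omega)
    exact pw_add' hd (i := 7) (j := 0) (pw_add' hd a1 a2 (by omega) (by omega)) (by simp)
      (by omega) (by omega)
  have hr0 : N * d + (4 * h + d ^ 2) ≤ d ^ 7 := pw_add' hd hNd hb (by omega) (by omega)
  have hYb : Y ≤ d ^ 20 := by
    rw [hY]
    have a1 : N * d + 1 ≤ d ^ 4 := pw_add' hd (j := 0) hNd (by simp) (by omega) (by omega)
    have a2 : 4 * h + d ^ 2 + 1 ≤ d ^ 7 := pw_add' hd (j := 0) hb (by simp) (by omega) (by omega)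
    have a3 : 2 * (N * d + (4 * h + d ^ 2)) ≤ d ^ 8 :=
      pw_mono hd (pw_mul (i := 1) (by simpa using hd) hr0) (by omega)
    exact pw_add' hd hr0 (pw_mul (pw_mul a1 a2) a3) (by omega) (by omega)
  have hq2 : q + 1 ≤ d ^ 9 := pw_add' hd (j := 0) hq1 (by simp) (by omega) (by omega)
  have hbd : bd q ≤ d ^ 37 := by
    unfold bd
    have a1 : 1000 ≤ d ^ 10 := pw_const hd (by norm_num)
    exact pw_mul a1 (pw_pow hq2)
  have hcst : cst q ≤ d ^ 74 := by
    unfold cst
    have a1 : 10 ^ 6 ≤ d ^ 20 := pw_const hd (by norm_num)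
    exact pw_mul a1 (pw_pow hq2)
  have hZb : Z ≤ d ^ 44 := by
    rw [hZ]
    have a1 : 4 * (4 * h) ≤ d ^ 7 :=
      pw_mono hd (pw_mul (i := 2) (pw_const hd (by norm_num)) h4) (by omega)
    have a2 : 4 * (4 * h) + 4 * h ≤ d ^ 8 := pw_add' hd a1 h4 (by omega) (by omega)
    have a3 : 4 * (4 * h) + 4 * h + 8 ≤ d ^ 9 :=
      pw_add' hd (j := 3) a2 (pw_const hd (by norm_num)) (by omega) (by omega)
    have a4 : 4 * (4 * h) + 4 * h + 8 + Y ≤ d ^ 21 := pw_add' hd a3 hYb (by omega) (by omega)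
    exact pw_add' hd a4 hbd (by omega) (by omega)
  refine ⟨hYb, hZb, ?_⟩
  obtain ⟨R0, hR0⟩ : ∃ R0, R0 = (2 * d ^ 2 + d + 3) + Z + Y := ⟨_, rfl⟩
  rw [← hR0] at hR
  have hw : 2 * d ^ 2 + d + 3 ≤ d ^ 6 := by
    have a1 : 2 * d ^ 2 ≤ d ^ 3 := pw_mono hd (pw_mul (i := 1) (by simpa using hd) hD) (by omega)
    have a2 : 2 * d ^ 2 + d ≤ d ^ 4 := pw_add' hd a1 hd0 (by omega) (by omega)
    exact pw_add' hd (j := 2) a2 (pw_const hd (by norm_num)) (by omega) (by omega)
  have hR0b : R0 ≤ d ^ 46 := by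
    rw [hR0]
    exact pw_add' hd (pw_add' hd (k := 45) hw hZb (by omega) (by omega)) hYb (by omega) (by omega)
  -- the linear part
  have hKh : K * h ≤ H := by
    refine (Nat.mul_le_mul_left K ?_).trans hK
    rw [hh0]
    omega
  have hKd : K * (d * d) ≤ H := by
    refine (Nat.mul_le_mul_left K ?_).trans hK
    nlinarith
  have hKd1 : K * d ≤ H := by
    refine (Nat.mul_le_mul_left K ?_).trans hK
    omega
  have hcost_le : hcost d (d ^ 2) (4 * h) K R q ≤ 1200 * H +
      (16 * (d * d) + 16 * (d * R0) + 96 * (h * h) + 96 * (h * R0) +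
        (48 * h * (8 * h + 8) + 96 * (h * R0)) + 3 * cst q) := by
    unfold hcost
    rw [hR, ← hh0]
    have e1 : 8 * d * (2 * (d * K) + 2 * d + 2 * (3 * K + R0)) =
        16 * (K * (d * d)) + 48 * (K * d) + (16 * (d * d) + 16 * (d * R0)) := by ring
    have e2 : 8 * (4 * h + 2 * h) * (2 * h + 2 * K + 2 * (3 * K + R0)) =
        384 * (K * h) + (96 * (h * h) + 96 * (h * R0)) := by ring
    have e3 : 2 * (2 * h) * K = 4 * (K * h) := by ring
    have e4 : 8 * (4 * h + 2 * h) * (9 * K + 2 * (4 * h) + 8 + 2 * (3 * K + R0)) =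
        720 * (K * h) + (48 * h * (8 * h + 8) + 96 * (h * R0)) := by ring
    rw [e1, e2, e3, e4]
    omega
  have hP : 16 * (d * d) + 16 * (d * R0) + 96 * (h * h) + 96 * (h * R0) +
        (48 * h * (8 * h + 8) + 96 * (h * R0)) + 3 * cst q ≤ d ^ 90 := by
    have a1 : 16 * (d * d) ≤ d ^ 6 :=
      pw_mono hd (pw_mul (i := 4) (pw_const hd (by norm_num)) (pw_mul hd0 hd0)) (by omega)
    have a2 : 16 * (d * R0) ≤ d ^ 60 :=
      pw_mono hd (pw_mul (i := 4) (pw_const hd (by norm_num)) (pw_mul hd0 hR0b)) (by omega)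
    have a3 : 96 * (h * h) ≤ d ^ 60 :=
      pw_mono hd (pw_mul (i := 7) (pw_const hd (by norm_num)) (pw_mul hh hh)) (by omega)
    have a4 : 96 * (h * R0) ≤ d ^ 60 :=
      pw_mono hd (pw_mul (i := 7) (pw_const hd (by norm_num)) (pw_mul hh hR0b)) (by omega)
    have a5 : 48 * h * (8 * h + 8) ≤ d ^ 60 := by
      have b1 : 8 * h ≤ d ^ 6 :=
        pw_mono hd (pw_mul (i := 3) (pw_const hd (by norm_num)) hh) (by omega)
      have b2 : 8 * h + 8 ≤ d ^ 7 :=
        pw_add' hd (j := 3) b1 (pw_const hd (by norm_num)) (by omega) (by omega)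
      exact pw_mono hd (pw_mul (pw_mul (i := 6) (pw_const hd (by norm_num)) hh) b2) (by omega)
    have a6 : 3 * cst q ≤ d ^ 80 :=
      pw_mono hd (pw_mul (i := 2) (pw_const hd (by norm_num)) hcst) (by omega)
    have c1 := pw_add' hd (k := 61) a1 a2 (by omega) (by omega)
    have c2 := pw_add' hd (k := 62) c1 a3 (by omega) (by omega)
    have c3 := pw_add' hd (k := 63) c2 a4 (by omega) (by omega)
    have c4 := pw_add' hd (k := 61) a5 a4 (by omega) (by omega)
    have c5 := pw_add' hd (k := 64) c3 c4 (by omega) (by omega)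
    exact pw_add' hd (k := 90) c5 a6 (by omega) (by omega)
  have hb_le : bcost d (d ^ 2) (4 * h) K R q ≤ 3000 * H + d ^ 92 := by
    unfold bcost
    rw [← hh0]
    have e1 : 8 * (4 * h + 2 * h) * (2 * R) = 288 * (K * h) + 96 * (h * R0) := by
      rw [hR]; ring
    rw [e1]
    have a4 : 96 * (h * R0) ≤ d ^ 60 :=
      pw_mono hd (pw_mul (i := 7) (pw_const hd (by norm_num)) (pw_mul hh hR0b)) (by omega)
    have a5 := pw_add' hd (k := 75) a4 hcst (by omega) (by omega)
    have a6 : 2 * d ^ 90 ≤ d ^ 91 := by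
      calc 2 * d ^ 90 ≤ d * d ^ 90 := Nat.mul_le_mul_right _ hd
        _ = d ^ 91 := (pow_succ' d 90).symm
    have a7 := pw_add' hd (k := 92) a6 a5 (by omega) (by omega)
    omega
  have hN_le : N * bcost d (d ^ 2) (4 * h) K R q ≤ 3000 * H * d ^ 2 + d ^ 94 := by
    calc N * bcost d (d ^ 2) (4 * h) K R q ≤ d ^ 2 * (3000 * H + d ^ 92) :=
          Nat.mul_le_mul hN hb_le
      _ = 3000 * H * d ^ 2 + d ^ 94 := by ring
  have hends : 8 * (4 * h + d ^ 2) * (2 * H + 2 * Y) + cst q ≤ 200 * H * d ^ 2 + d ^ 80 := by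
    have e0 : h ≤ 2 * d ^ 2 := by rw [hh0]; omega
    have e1 : 8 * (4 * h + d ^ 2) ≤ 72 * d ^ 2 := by omega
    have e2 : 8 * (4 * h + d ^ 2) * (2 * H + 2 * Y) ≤ 72 * d ^ 2 * (2 * H + 2 * Y) :=
      Nat.mul_le_mul_right _ e1
    have e3 : 72 * d ^ 2 * (2 * H + 2 * Y) = 144 * H * d ^ 2 + 144 * (d ^ 2 * Y) := by ring
    have a1 : 144 * (d ^ 2 * Y) ≤ d ^ 30 :=
      pw_mono hd (pw_mul (i := 8) (pw_const hd (by norm_num)) (pw_mul hD hYb)) (by omega)
    have a2 := pw_add' hd (k := 80) a1 hcst (by omega) (by omega)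
    have e4 : 144 * H * d ^ 2 ≤ 200 * H * d ^ 2 := by
      have : 144 * H ≤ 200 * H := by omega
      exact Nat.mul_le_mul_right _ this
    omega
  have a1 : d ^ 80 + d ^ 94 ≤ d ^ 95 := pw_add' hd le_rfl le_rfl (by omega) (by omega)
  have a2 : d ^ 80 + d ^ 94 + d ^ 80 ≤ d ^ 96 := pw_add' hd a1 le_rfl (by omega) (by omega)
  have a3 : d ^ 96 ≤ d ^ 4000 := Nat.pow_le_pow_right (by omega) (by norm_num)
  have e5 : 4000 * H * d ^ 2 = 200 * H * d ^ 2 + 3000 * H * d ^ 2 + 200 * H * d ^ 2 +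
      600 * (H * d ^ 2) := by ring
  omega

end Lab

open Lab in
/-- Module LAB. -/
theorem lab (hN : NAIVE_Stmt) (hP : PUMP_Stmt) (hPI : PI_Stmt) : LAB_Stmt := by
  refine ⟨4000, ?_⟩
  intro A B adjA adjB hA hB d N hd hNd α ρ hα β p hβ o ho env henv n H hH hn0
  obtain ⟨D, hD⟩ : ∃ D, D = d ^ 2 := ⟨_, rfl⟩
  obtain ⟨m, hm⟩ : ∃ m, m = 4 * (d ^ 2 + d) := ⟨_, rfl⟩
  have hG : Good (padj adjA adjB) := good_padj hA hB
  have hD2 : 2 ≤ D := by rw [hD]; nlinarith
  obtain ⟨q, hq⟩ : ∃ q, q = 2 * (4 * (d ^ 2 + d)) + 2 * (d ^ 2 + d) + 1 := ⟨_, rfl⟩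
  obtain ⟨Y, hY⟩ : ∃ Y, Y = (N * d + (4 * (d ^ 2 + d) + d ^ 2)) +
      (N * d + 1) * (4 * (d ^ 2 + d) + d ^ 2 + 1) *
      (2 * (N * d + (4 * (d ^ 2 + d) + d ^ 2))) := ⟨_, rfl⟩
  obtain ⟨Z, hZ⟩ : ∃ Z, Z = (4 * (4 * (d ^ 2 + d)) + 4 * (d ^ 2 + d) + 8) + Y + bd q := ⟨_, rfl⟩
  obtain ⟨K, hK⟩ : ∃ K, K = (H - Z) / (2 * d ^ 2 + d + 3) := ⟨_, rfl⟩
  obtain ⟨R, hR⟩ : ∃ R, R = 3 * K + ((2 * d ^ 2 + d + 3) + Z + Y) := ⟨_, rfl⟩
  have hKle : K * (2 * d ^ 2 + d + 3) ≤ H - Z := by
    rw [hK]; exact Nat.div_mul_le_self _ _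
  have hKlt : H - Z < (K + 1) * (2 * d ^ 2 + d + 3) := by
    rw [hK]
    have := Nat.lt_div_mul_add (a := H - Z) (b := 2 * d ^ 2 + d + 3) (by omega)
    have e : ((H - Z) / (2 * d ^ 2 + d + 3) + 1) * (2 * d ^ 2 + d + 3) =
      (H - Z) / (2 * d ^ 2 + d + 3) * (2 * d ^ 2 + d + 3) + (2 * d ^ 2 + d + 3) := by ring
    omega
  obtain ⟨hYb, hZb, hcost⟩ := numeric (K := K) (H := H) hd hNd hq hY hZ hR (by omega)
  have hdH : ∀ i, i ≤ 4000 → d ^ i ≤ H := fun i hi =>
    (Nat.pow_le_pow_right (by omega) hi).trans hH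
  have hYH : Y ≤ H := hYb.trans (hdH 20 (by norm_num))
  have hZH : Z ≤ H := hZb.trans (hdH 44 (by norm_num))
  have hbq : bd q ≤ Z := by rw [hZ]; omega
  -- the parameters of the blocks
  have hq' : 2 * m + 2 * (D + d) + 1 ≤ q := by rw [hq, hm, hD]
  have hH1 : K * (2 * D + d + 3) + (4 * m + 4 * (D + d) + 8) + Y + bd q ≤ H := by
    rw [hD, hm]; omega
  have hH2 : H + Y ≤ K * (2 * D + d) + R := by
    rw [hD, hR]
    have e1 : K * (2 * d ^ 2 + d + 3) = K * (2 * d ^ 2 + d) + 3 * K := by ring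
    have e2 : (K + 1) * (2 * d ^ 2 + d + 3) = K * (2 * d ^ 2 + d + 3) + (2 * d ^ 2 + d + 3) := by
      ring
    omega
  rw [← hm, ← hD] at hβ
  have hc0 : (α 0, β 1) ∈ sites α β (N * d) (m + D) := ⟨0, Nat.zero_le _, 1, by omega, rfl⟩
  have hTB := TB_sites hA hB (L := N * d) (b := m + D) hα.adj_path hβ.adj_path o env hc0
  have hYeq : (N * d + (m + D)) + (N * d + 1) * (m + D + 1) * (2 * (N * d + (m + D))) = Y := by
    rw [hY, hm, hD]
  rw [hYeq] at hTB
  have hn : tsp (padj adjA adjB) (lit env) o (α 0, β 1) + mass env + H = n + 1 := by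
    rw [hG.nrm_add_single, nrm_eq] at hn0
    exact hn0
  -- blocks
  have hblock : ∀ k < N, Reach (padj adjA adjB) o n (bcost d D m K R q)
      (fil (padj adjA adjB) o n (α (k * d), β (m + D)) (env + qld β m D K (α (k * d))))
      (fil (padj adjA adjB) o n (α ((k + 1) * d), β (m + D))
        (env + qld β m D K (α ((k + 1) * d)))) := by
    intro k hk
    have hkd : k * d + d ≤ N * d := by
      have : (k + 1) * d ≤ N * d := Nat.mul_le_mul_right _ hk
      have e : (k + 1) * d = k * d + d := by ring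
      omega
    have C : Ctx adjA adjB (fun i => α (k * d + i)) (fun a => min (ρ a - k * d) d) β p d D m :=
      { hA := hA
        hB := hB
        hα := {
          adj_path := fun i hi => hα.adj_path (k * d + i) (by omega)
          val := by
            intro i hi
            show min (ρ (α (k * d + i)) - k * d) d = i
            rw [hα.val _ (by omega)]
            omega
          cross := by
            intro u v huv hne
            have hne' : ρ u ≠ ρ v := fun h => hne (by simp only [h])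
            obtain ⟨i, hi, h⟩ := hα.cross u v huv hne'
            have v1 := hα.val i (by omega)
            have v2 := hα.val (i + 1) (by omega)
            have hr : k * d ≤ i ∧ i < k * d + d := by
              rcases h with ⟨rfl, rfl⟩ | ⟨rfl, rfl⟩
              · rw [v1, v2] at hne
                omega
              · rw [v1, v2] at hne
                omega
            refine ⟨i - k * d, by omega, ?_⟩
            show (u = α (k * d + (i - k * d)) ∧ v = α (k * d + (i - k * d + 1))) ∨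
              (u = α (k * d + (i - k * d + 1)) ∧ v = α (k * d + (i - k * d)))
            rw [show k * d + (i - k * d) = i by omega,
              show k * d + (i - k * d + 1) = i + 1 by omega]
            exact h
          le := fun u => min_le_right _ _ }
        hβ := hβ
        hd := hd
        hD := hD2
        hm := by rw [hm, hD] }
    have hsub : sites (fun i => α (k * d + i)) β d (m + D) ⊆ sites α β (N * d) (m + D) := by
      rintro v ⟨i, hi, j, hj, rfl⟩
      exact ⟨k * d + i, by omega, j, hj, rfl⟩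
    have h1 := block hN hP hPI C ho henv (hTB.mono hsub) hn hq' hH1 hH2
    rw [show (k + 1) * d = k * d + d by ring]
    exact h1
  -- the columns
  have hcolumn : ∀ a : A, (∀ j, 1 ≤ j → j ≤ m + D → (a, β j) ∈ sites α β (N * d) (m + D)) →
      bd q ≤ lef (padj adjA adjB) o n (a, β 1) env →
      lef (padj adjA adjB) o n (a, β 1) env ≤ H + Y →
      Reach (padj adjA adjB) o n
        (8 * (m + D) * (2 * H + 2 * Y) + cst q)
        (fil (padj adjA adjB) o n (a, β 1) env)
        (fil (padj adjA adjB) o n (a, β (m + D)) (env + qld β m D K a)) := by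
    intro a ha hl1 hl2
    have hr : ∀ v ∈ corF β (m + D) a, ∃ k ≤ m + D,
        PathIn (padj adjA adjB) (corF β (m + D) a) v (a, β (m + D)) k := by
      intro v hv
      obtain ⟨j, hj, rfl⟩ := mem_corF.1 hv
      refine ⟨m + D - (j + 1), by omega, pin_path (w := fun l => (a, β l)) (by omega)
        (fun l _ hl => Or.inr ⟨rfl, hβ.adj_path l hl⟩) (fun l h1 h2 => ?_)⟩
      exact mem_corF.2 ⟨l - 1, by omega, by rw [show l - 1 + 1 = l by omega]⟩
    have hcard : (corF β (m + D) a).card ≤ q := by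
      classical
      refine le_trans ?_ (show m + D ≤ q by omega)
      unfold corF
      exact Finset.card_image_le.trans (by simp)
    have hlit : lit (qld β m D K a) ⊆ corF β (m + D) a := by
      unfold qld cor
      rw [lit_add]
      refine Set.union_subset ?_ ?_
      · intro v hv
        obtain ⟨j, hj, rfl⟩ := lit_pl_subset _ _ _ hv
        exact Finset.mem_coe.2 (mem_corF.2 ⟨j, by omega, rfl⟩)
      · intro v hv
        obtain ⟨j, hj, rfl⟩ := lit_pl_subset _ _ _ hv
        refine Finset.mem_coe.2 (mem_corF.2 ⟨m + j, by omega, ?_⟩)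
        rw [Nat.add_assoc]
    have hsites : (corF β (m + D) a : Set (A × B)) ⊆ sites α β (N * d) (m + D) := by
      intro v hv
      obtain ⟨j, hj, rfl⟩ := mem_corF.1 (Finset.mem_coe.1 hv)
      exact ha (j + 1) (by omega) (by omega)
    have hmem1 : (a, β 1) ∈ corF β (m + D) a := mem_corF.2 ⟨0, by omega, rfl⟩
    have hmem2 : (a, β (m + D)) ∈ corF β (m + D) a :=
      mem_corF.2 ⟨m + D - 1, by omega, by rw [show m + D - 1 + 1 = m + D by omega]⟩
    have hKexp : K * (2 * D + d + 3) = 2 * D * K + (d * K + 3 * K) := by ring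
    have b1 := lef_bd hTB hn (hlit.trans hsites) (hsites hmem2) (bd q) (by
      rw [mass_qld]; omega)
    have e1 : env = env + 0 := by rw [add_zero]
    have l1 := hl1
    have l2 := hl2
    rw [e1] at l1 l2
    have key := fil_reach hN hG o n (corF β (m + D) a) hr hcard hmem1 hmem2 (h := env) (u := 0)
      (u' := qld β m D K a) (by rw [lit_zero]; exact Set.empty_subset _) hlit l1 b1.2.1
      (R := 2 * H + 2 * Y) (by
        rw [mass_zero]
        have := b1.2.2
        omega)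
    rw [← e1] at key
    exact key
  have hmemcol : ∀ k ≤ N, ∀ j, 1 ≤ j → j ≤ m + D →
      (α (k * d), β j) ∈ sites α β (N * d) (m + D) := by
    intro k hk j _ hj
    exact ⟨k * d, Nat.mul_le_mul_right _ hk, j, hj, rfl⟩
  have hlef0 : lef (padj adjA adjB) o n (α 0, β 1) env = H := by
    unfold lef
    rw [nrm_eq]
    omega
  have hstart := hcolumn (α 0) (by
    have := hmemcol 0 (Nat.zero_le _)
    simpa using this) (by rw [hlef0]; omega) (by rw [hlef0]; omega)
  have hfilstart : fil (padj adjA adjB) o n (α 0, β 1) env =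
      ((α 0, β 1), env + Finsupp.single (α 0, β 1) H) := by
    unfold fil
    rw [hlef0]
  rw [hfilstart] at hstart
  have e0 : env = env + 0 := by rw [add_zero]
  have hlefN := lef_bd hTB hn (u := 0) (by rw [lit_zero]; exact Set.empty_subset _)
    (hmemcol N le_rfl 1 le_rfl (by omega)) (H - Y) (by rw [mass_zero]; omega)
  rw [← e0, mass_zero] at hlefN
  have hend := hcolumn (α (N * d)) (hmemcol N le_rfl) (by omega) (by omega)
  -- the chain
  have hchain := Reach.iterate (adj := padj adjA adjB) (o := o) (n := n)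
    (s := fun k => fil (padj adjA adjB) o n (α (k * d), β (m + D))
      (env + qld β m D K (α (k * d)))) (k := bcost d D m K R q) (m := N) (by
      have := hstart.inW_right
      simpa using this) hblock
  simp only [Nat.zero_mul] at hchain
  have hall := (hstart.trans hchain).trans (hend.symm hG.symm)
  refine ⟨lef (padj adjA adjB) o n (α (N * d), β 1) env, ?_, ?_, ?_, ?_⟩
  · have := hYb.trans (Nat.pow_le_pow_right (show 0 < d by omega) (show 20 ≤ 4000 by norm_num))
    omega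
  · have := hYb.trans (Nat.pow_le_pow_right (show 0 < d by omega) (show 20 ≤ 4000 by norm_num))
    omega
  · exact nrm_fil hG hlefN.1
  · refine hall.mono ?_
    rw [hm, hD]
    exact hcost

end Pool.Agent.AD
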