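import Pool.Agent.AD.Moves

/-!
MP_072aa0_al, module LAB, part A: loads along paths, `ℓ¹` distances, paths inside a set.
-/

set_option autoImplicit false

namespace Pool.Agent.AD

namespace Lab

open Finset (range)

variable {X : Type*} {adj : X → X → Prop} {o : X} {n : ℕ}

/-! ### Loads along a path -/

/-- load `k` at the points `w 0, …, w (L-1)` -/
noncomputable def pl (w : ℕ → X) (L k : ℕ) : X →₀ ℕ := ∑ i ∈ range L, Finsupp.single (w i) k

lemma mass_zero : mass (0 : X →₀ ℕ) = 0 := Finsupp.sum_zero_index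

lemma mass_sum {ι : Type*} (s : Finset ι) (f : ι → X →₀ ℕ) :
    mass (∑ i ∈ s, f i) = ∑ i ∈ s, mass (f i) := by
  classical
  induction s using Finset.induction_on with
  | empty => simp [mass_zero]
  | insert a s ha ih => rw [Finset.sum_insert ha, Finset.sum_insert ha, mass_add, ih]

lemma mass_pl (w : ℕ → X) (L k : ℕ) : mass (pl w L k) = L * k := by
  unfold pl
  rw [mass_sum]
  simp [mass_single]

lemma lit_add (f g : X →₀ ℕ) : lit (f + g) = lit f ∪ lit g := by
  ext v
  show (f + g) v ≠ 0 ↔ (f v ≠ 0 ∨ g v ≠ 0)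
  rw [Finsupp.add_apply]
  omega

lemma lit_zero : lit (0 : X →₀ ℕ) = ∅ := by
  ext v
  simp [lit]

lemma lit_single_subset (c : X) (k : ℕ) : lit (Finsupp.single c k) ⊆ {c} := by
  classical
  intro v hv
  by_contra h
  exact hv (Finsupp.single_eq_of_ne h)

lemma sum_apply {ι : Type*} (s : Finset ι) (f : ι → X →₀ ℕ) (x : X) :
    (∑ i ∈ s, f i) x = ∑ i ∈ s, f i x := Finsupp.finsetSum_apply s f x

lemma pl_apply (w : ℕ → X) (L k : ℕ) (x : X) :
    pl w L k x = ∑ i ∈ range L, (Finsupp.single (w i) k : X →₀ ℕ) x := sum_apply _ _ _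

lemma pl_apply_of_not {w : ℕ → X} {L k : ℕ} {x : X} (h : ∀ i < L, w i ≠ x) : pl w L k x = 0 := by
  rw [pl_apply]
  refine Finset.sum_eq_zero fun i hi => ?_
  exact Finsupp.single_eq_of_ne (fun h' => h i (Finset.mem_range.1 hi) h'.symm)

lemma le_pl (w : ℕ → X) {L i : ℕ} (k : ℕ) (hi : i < L) : k ≤ pl w L k (w i) := by
  rw [pl_apply]
  calc k = (Finsupp.single (w i) k : X →₀ ℕ) (w i) := by simp
    _ ≤ _ := Finset.single_le_sum (f := fun j => (Finsupp.single (w j) k : X →₀ ℕ) (w i))
        (fun _ _ => Nat.zero_le _) (Finset.mem_range.2 hi)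

lemma pl_apply_inj {w : ℕ → X} {L : ℕ} (k : ℕ) (hw : ∀ i < L, ∀ j < L, w i = w j → i = j) {i : ℕ}
    (hi : i < L) : pl w L k (w i) = k := by
  rw [pl_apply, Finset.sum_eq_single i]
  · simp
  · intro j hj hji
    exact Finsupp.single_eq_of_ne (fun h => hji (hw j (Finset.mem_range.1 hj) i hi h.symm))
  · intro h
    exact absurd (Finset.mem_range.2 hi) h

lemma lit_pl_subset (w : ℕ → X) (L k : ℕ) : lit (pl w L k) ⊆ {v | ∃ i < L, w i = v} := by
  intro v hv
  by_contra h
  refine hv (pl_apply_of_not fun i hi h' => h ⟨i, hi, h'⟩)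

lemma lit_pl (w : ℕ → X) (L : ℕ) {k : ℕ} (hk : k ≠ 0) :
    lit (pl w L k) = {v | ∃ i < L, w i = v} := by
  refine Set.Subset.antisymm (lit_pl_subset w L k) ?_
  rintro v ⟨i, hi, rfl⟩
  have := le_pl w k hi
  show pl w L k (w i) ≠ 0
  omega

/-- partial sums of singles over a subset of indices -/
lemma apply_filter_of_not {w : ℕ → X} {s : Finset ℕ} {k : ℕ} {x : X} (h : ∀ i ∈ s, w i ≠ x) :
    (∑ i ∈ s, (Finsupp.single (w i) k : X →₀ ℕ)) x = 0 := by
  rw [sum_apply]
  refine Finset.sum_eq_zero fun i hi => ?_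
  exact Finsupp.single_eq_of_ne (fun h' => h i hi h'.symm)

lemma apply_filter_inj {w : ℕ → X} {s : Finset ℕ} (k : ℕ) {i : ℕ}
    (hw : ∀ j ∈ s, w j = w i → j = i) (hi : i ∈ s) :
    (∑ i ∈ s, (Finsupp.single (w i) k : X →₀ ℕ)) (w i) = k := by
  rw [sum_apply, Finset.sum_eq_single i]
  · simp
  · intro j hj hji
    exact Finsupp.single_eq_of_ne (fun h => hji (hw j hj h.symm))
  · intro h
    exact absurd hi h

lemma mass_filter (w : ℕ → X) (s : Finset ℕ) (k : ℕ) :
    mass (∑ i ∈ s, (Finsupp.single (w i) k : X →₀ ℕ)) = s.card * k := by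
  rw [mass_sum]
  simp [mass_single]

/-! ### `ℓ¹` distances -/

lemma sum_le_mass (V : Finset X) (u : X →₀ ℕ) : ∑ x ∈ V, u x ≤ mass u := by
  classical
  show _ ≤ ∑ x ∈ u.support, u x
  exact Finset.sum_le_sum_of_ne_zero fun x _ hx => Finsupp.mem_support_iff.2 hx

lemma dif_of_add_eq (V : Finset X) {g g' u u' : X →₀ ℕ} (h : g + u = g' + u') :
    dif V g g' ≤ mass u + mass u' := by
  have h1 : dif V g g' ≤ ∑ x ∈ V, (u x + u' x) := by
    refine Finset.sum_le_sum fun x _ => ?_
    have := DFunLike.congr_fun h x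
    simp only [Finsupp.add_apply] at this
    omega
  rw [Finset.sum_add_distrib] at h1
  have h2 := sum_le_mass V u
  have h3 := sum_le_mass V u'
  omega

lemma dif_triangle (V : Finset X) (f g h : X →₀ ℕ) : dif V f h ≤ dif V f g + dif V g h := by
  unfold dif
  rw [← Finset.sum_add_distrib]
  refine Finset.sum_le_sum fun x _ => ?_
  omega

lemma dif_add_le (V : Finset X) (h u u' : X →₀ ℕ) : dif V (h + u) (h + u') ≤ mass u + mass u' := by
  have : (h + u) + u' = (h + u') + u := by
    rw [add_assoc, add_comm u u', ← add_assoc]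
  have h1 := dif_of_add_eq V this
  omega

/-! ### Paths inside a finite set -/

section path

variable {V : Finset X}

lemma pin_refl {a : X} (h : a ∈ V) : PathIn adj V a a 0 :=
  ⟨fun _ => a, rfl, rfl, fun i hi => absurd hi (Nat.not_lt_zero i), fun _ _ => h⟩

lemma pin_trans {a b c : X} {k l : ℕ} (h : PathIn adj V a b k) (h' : PathIn adj V b c l) :
    PathIn adj V a c (k + l) := by
  obtain ⟨w, h0, h1, h2, h3⟩ := h
  obtain ⟨w', h0', h1', h2', h3'⟩ := h'
  refine ⟨fun i => if i ≤ k then w i else w' (i - k), ?_, ?_, ?_, ?_⟩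
  · simpa using h0
  · show (if k + l ≤ k then w (k + l) else w' (k + l - k)) = c
    split_ifs with hh
    · have : l = 0 := by omega
      subst this
      rw [Nat.add_zero, h1, ← h0', h1']
    · rw [Nat.add_sub_cancel_left]; exact h1'
  · intro i hi
    show adj (if i ≤ k then w i else w' (i - k)) (if i + 1 ≤ k then w (i + 1) else w' (i + 1 - k))
    rcases Nat.lt_trichotomy i k with h | h | h
    · rw [if_pos h.le, if_pos (by omega)]
      exact h2 i h
    · subst h
      rw [if_pos le_rfl, if_neg (by omega), Nat.add_sub_cancel_left, h1, ← h0']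
      exact h2' 0 (by omega)
    · rw [if_neg (by omega), if_neg (by omega), show i + 1 - k = i - k + 1 by omega]
      exact h2' (i - k) (by omega)
  · intro i hi
    show (if i ≤ k then w i else w' (i - k)) ∈ V
    split_ifs with hh
    · exact h3 i hh
    · exact h3' (i - k) (by omega)

lemma pin_symm (hs : ∀ {a b}, adj a b → adj b a) {a b : X} {k : ℕ}
    (h : PathIn adj V a b k) : PathIn adj V b a k := by
  obtain ⟨w, h0, h1, h2, h3⟩ := h
  refine ⟨fun i => w (k - i), by simpa using h1, by simpa using h0, fun i hi => ?_, fun i hi => ?_⟩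
  · show adj (w (k - i)) (w (k - (i + 1)))
    have := h2 (k - (i + 1)) (by omega)
    rw [show k - (i + 1) + 1 = k - i by omega] at this
    exact hs this
  · exact h3 _ (by omega)

lemma pin_mono {W : Finset X} {a b : X} {k : ℕ} (h : PathIn adj V a b k) (hV : V ⊆ W) :
    PathIn adj W a b k := by
  obtain ⟨w, h0, h1, h2, h3⟩ := h
  exact ⟨w, h0, h1, h2, fun i hi => hV (h3 i hi)⟩

lemma pin_path {w : ℕ → X} {i j : ℕ} (hij : i ≤ j) (ha : ∀ l, i ≤ l → l < j →
    adj (w l) (w (l + 1))) (hV : ∀ l, i ≤ l → l ≤ j → w l ∈ V) :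
    PathIn adj V (w i) (w j) (j - i) := by
  refine ⟨fun l => w (i + l), rfl, ?_, fun l hl => ?_, fun l hl => ?_⟩
  · show w (i + (j - i)) = w j
    rw [Nat.add_sub_cancel' hij]
  · exact ha (i + l) (by omega) (by omega)
  · exact hV (i + l) (by omega) (by omega)

/-- a shortest path has fewer steps than points -/
lemma pin_short {a b : X} (h : ∃ k, PathIn adj V a b k) :
    ∃ k, PathIn adj V a b k ∧ k < V.card ∧ ∀ l, PathIn adj V a b l → k ≤ l := by
  classical
  refine ⟨Nat.find h, Nat.find_spec h, ?_, fun l hl => Nat.find_min' h hl⟩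
  obtain ⟨w, h0, h1, h2, h3⟩ := Nat.find_spec h
  set k := Nat.find h with hk
  have hinj : Set.InjOn w (Finset.range (k + 1) : Set ℕ) := by
    have key : ∀ i j, i < j → j ≤ k → w i ≠ w j := by
      intro i j hij hj he
      have p1 : PathIn adj V (w 0) (w i) (i - 0) :=
        pin_path (Nat.zero_le i) (fun l _ hl => h2 l (by omega)) (fun l _ hl => h3 l (by omega))
      have p2 : PathIn adj V (w j) (w k) (k - j) :=
        pin_path hj (fun l _ hl => h2 l (by omega)) (fun l _ hl => h3 l (by omega))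
      rw [he] at p1
      have p3 := pin_trans p1 p2
      rw [h0, h1] at p3
      have := Nat.find_min' h p3
      omega
    intro i hi j hj he
    have hi' : i < k + 1 := by simpa using hi
    have hj' : j < k + 1 := by simpa using hj
    rcases Nat.lt_trichotomy i j with h | h | h
    · exact absurd he (key i j h (by omega))
    · exact h
    · exact absurd he.symm (key j i h (by omega))
  have h4 : (Finset.range (k + 1)).card ≤ V.card :=
    Finset.card_le_card_of_injOn w (fun i hi => h3 i (by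
      have : i < k + 1 := by simpa using hi
      omega)) hinj
  rw [Finset.card_range] at h4
  omega

lemma conn_of_hub (hs : ∀ {a b}, adj a b → adj b a) {hub : X} {r : ℕ}
    (hr : ∀ a ∈ V, ∃ k ≤ r, PathIn adj V a hub k) :
    ∀ a ∈ V, ∀ b ∈ V, ∃ k ≤ min (2 * r) V.card, PathIn adj V a b k := by
  intro a ha b hb
  obtain ⟨k, hk, p⟩ := hr a ha
  obtain ⟨l, hl, p'⟩ := hr b hb
  have p'' := pin_trans p (pin_symm hs p')
  obtain ⟨j, hj, hj1, hj2⟩ := pin_short ⟨_, p''⟩
  have := hj2 _ p''
  exact ⟨j, le_min (by omega) hj1.le, hj⟩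

end path

/-! ### Filling up to the norm `n + 1` -/

/-- what is missing at the cursor -/
noncomputable def lef (adj : X → X → Prop) (o : X) (n : ℕ) (c : X) (f : X →₀ ℕ) : ℕ :=
  n + 1 - nrm adj o (c, f)

/-- the state with the loads `f` outside the cursor and norm `n + 1` -/
noncomputable def fil (adj : X → X → Prop) (o : X) (n : ℕ) (c : X) (f : X →₀ ℕ) : St X :=
  (c, f + Finsupp.single c (lef adj o n c f))

lemma nrm_fil (hG : Good adj) {c : X} {f : X →₀ ℕ} (h : nrm adj o (c, f) ≤ n + 1) :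
    nrm adj o (fil adj o n c f) = n + 1 := by
  unfold fil lef
  rw [hG.nrm_add_single]
  omega

lemma lef_le_apply (c : X) (f : X →₀ ℕ) :
    lef adj o n c f ≤ (fil adj o n c f).2 c := by
  show _ ≤ (f + Finsupp.single c (lef adj o n c f)) c
  rw [Finsupp.add_apply, Finsupp.single_eq_same]
  omega

lemma bd_mono {a b : ℕ} (h : a ≤ b) : bd a ≤ bd b := by
  unfold bd
  gcongr

lemma cst_mono {a b : ℕ} (h : a ≤ b) : cst a ≤ cst b := by
  unfold cst
  gcongr

/-- naive rearrangement with a hub -/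
theorem naive_hub (hN : NAIVE_Stmt) {X : Type} {adj : X → X → Prop} (hG : Good adj) (o : X)
    (n : ℕ) (V : Finset X) {r q R : ℕ} {hub : X} (hr : ∀ a ∈ V, ∃ k ≤ r, PathIn adj V a hub k)
    (hq : V.card ≤ q) {c c' : X} (hc : c ∈ V) (hc' : c' ∈ V) {g g' : X →₀ ℕ}
    (hoff : ∀ x ∉ V, g x = g' x) (hb : bd q ≤ g c) (hb' : bd q ≤ g' c')
    (hn : nrm adj o (c, g) = n + 1) (hn' : nrm adj o (c', g') = n + 1) (hR : dif V g g' ≤ R) :
    Reach adj o n (8 * r * R + cst q) (c, g) (c', g') := by
  have h1 := hN adj hG o n V (min (2 * r) V.card) (min_le_right _ _)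
    (conn_of_hub hG.symm hr) c hc c' hc' g g' hoff ((bd_mono hq).trans hb)
    ((bd_mono hq).trans hb') hn hn'
  refine h1.mono ?_
  have h2 : 4 * min (2 * r) V.card * dif V g g' ≤ 4 * (2 * r) * R :=
    Nat.mul_le_mul (Nat.mul_le_mul_left _ (min_le_left _ _)) hR
  have h3 := cst_mono hq
  have h4 : 4 * (2 * r) * R = 8 * r * R := by ring
  omega

/-- naive rearrangement between two filled states -/
theorem fil_reach (hN : NAIVE_Stmt) {X : Type} {adj : X → X → Prop} (hG : Good adj) (o : X)
    (n : ℕ) (V : Finset X) {r q : ℕ} {hub : X} (hr : ∀ a ∈ V, ∃ k ≤ r, PathIn adj V a hub k)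
    (hq : V.card ≤ q) {c c' : X} (hc : c ∈ V) (hc' : c' ∈ V) {h u u' : X →₀ ℕ}
    (hu : lit u ⊆ V) (hu' : lit u' ⊆ V)
    (hb : bd q ≤ lef adj o n c (h + u)) (hb' : bd q ≤ lef adj o n c' (h + u')) {R : ℕ}
    (hR : mass u + mass u' + lef adj o n c (h + u) + lef adj o n c' (h + u') ≤ R) :
    Reach adj o n (8 * r * R + cst q) (fil adj o n c (h + u)) (fil adj o n c' (h + u')) := by
  have hpos : 0 < bd q := by unfold bd; positivity
  have hn : nrm adj o (c, h + u) ≤ n + 1 := by unfold lef at hb; omega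
  have hn' : nrm adj o (c', h + u') ≤ n + 1 := by unfold lef at hb'; omega
  refine naive_hub hN hG o n V hr hq hc hc' ?_ (hb.trans (lef_le_apply c _))
    (hb'.trans (lef_le_apply c' _)) (nrm_fil hG hn) (nrm_fil hG hn') ?_
  · intro x hx
    have e1 : u x = 0 := by
      by_contra hne
      exact hx (hu hne)
    have e2 : u' x = 0 := by
      by_contra hne
      exact hx (hu' hne)
    have e3 : (Finsupp.single c (lef adj o n c (h + u)) : X →₀ ℕ) x = 0 :=
      Finsupp.single_eq_of_ne (fun he => hx (he ▸ hc))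
    have e4 : (Finsupp.single c' (lef adj o n c' (h + u')) : X →₀ ℕ) x = 0 :=
      Finsupp.single_eq_of_ne (fun he => hx (he ▸ hc'))
    rw [Finsupp.add_apply, Finsupp.add_apply, Finsupp.add_apply, Finsupp.add_apply, e1, e2, e3, e4]
  · rw [add_assoc, add_assoc]
    refine (dif_add_le V h _ _).trans ?_
    rw [mass_add_single, mass_add_single]
    omega

/-! ### Bounds for tour lengths -/

lemma tsp_union_le (hG : Good adj) {S : Set X} (hS : S.Finite) (F : Finset X) {c : X} {r : ℕ}
    (h : ∀ v ∈ F, ∃ k ≤ r, Tour adj ∅ c v k) :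
    tsp adj (S ∪ (F : Set X)) o c ≤ tsp adj S o c + F.card * (2 * r) := by
  classical
  induction F using Finset.induction_on with
  | empty => simp
  | insert a F ha ih =>
    have ih' := ih (fun v hv => h v (Finset.mem_insert_of_mem hv))
    obtain ⟨k, hk, t⟩ := h a (Finset.mem_insert_self _ _)
    have t1 : Tour adj ({a} : Set X) c c (k + k) := by
      refine (t.end_mem.trans (t.reverse hG.symm)).mono ?_
      intro v hv
      exact Or.inl (Or.inl hv)
    have h1 := hG.tsp_le_add (S := S ∪ (F : Set X)) (hS.union F.finite_toSet) (o := o) t1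
    have h2 : S ∪ ((insert a F : Finset X) : Set X) = S ∪ (F : Set X) ∪ {a} := by
      ext v
      simp only [Finset.coe_insert, Set.mem_union, Set.mem_insert_iff, Finset.mem_coe,
        Set.mem_singleton_iff]
      tauto
    rw [h2, Finset.card_insert_of_notMem ha]
    have h3 : (F.card + 1) * (2 * r) = F.card * (2 * r) + 2 * r := by ring
    omega

lemma tsp_move (hG : Good adj) {S : Set X} (hS : S.Finite) {c c' : X} {k : ℕ}
    (t : Tour adj ∅ c c' k) : tsp adj S o c' ≤ tsp adj S o c + k := by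
  have := hG.tsp_le_add hS (o := o) t
  rwa [Set.union_empty] at this

end Lab

end Pool.Agent.AD
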