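import Pool.Agent.AD.LabA

/-!
MP_072aa0_al, module LAB, part B: geometry of one block, the pump.
-/

set_option autoImplicit false
set_option linter.unusedSimpArgs false
set_option linter.unusedTactic false
set_option linter.unreachableTactic false

namespace Pool.Agent.AD

namespace Lab

open Finset (range)

/-! ### Products of graphs -/

section prod

variable {A B : Type} {adjA : A → A → Prop} {adjB : B → B → Prop}

lemma tour_fst {a a' : A} {k : ℕ} (h : Tour adjA ∅ a a' k) (b : B) :
    Tour (padj adjA adjB) ∅ (a, b) (a', b) k := by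
  obtain ⟨w, h0, h1, h2, -⟩ := h
  exact ⟨fun i => (w i, b), by simp [h0], by simp [h1], fun i hi => Or.inl ⟨h2 i hi, rfl⟩,
    fun v hv => absurd hv (Set.notMem_empty v)⟩

lemma tour_snd {b b' : B} {k : ℕ} (h : Tour adjB ∅ b b' k) (a : A) :
    Tour (padj adjA adjB) ∅ (a, b) (a, b') k := by
  obtain ⟨w, h0, h1, h2, -⟩ := h
  exact ⟨fun i => (a, w i), by simp [h0], by simp [h1], fun i hi => Or.inr ⟨rfl, h2 i hi⟩,
    fun v hv => absurd hv (Set.notMem_empty v)⟩

theorem good_padj (hA : Good adjA) (hB : Good adjB) : Good (padj adjA adjB) where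
  symm := by
    rintro a b (⟨h1, h2⟩ | ⟨h1, h2⟩)
    · exact Or.inl ⟨hA.symm h1, h2.symm⟩
    · exact Or.inr ⟨h1.symm, hB.symm h2⟩
  conn := by
    rintro ⟨a1, a2⟩ ⟨b1, b2⟩
    obtain ⟨k, hk⟩ := hA.conn a1 b1
    obtain ⟨l, hl⟩ := hB.conn a2 b2
    exact ⟨k + l, ((tour_fst hk a2).trans (tour_snd hl b1)).mono (Set.empty_subset _)⟩
  bip := by
    obtain ⟨χ, hχ⟩ := hA.bip
    obtain ⟨ψ, hψ⟩ := hB.bip
    refine ⟨fun v => xor (χ v.1) (ψ v.2), ?_⟩
    rintro ⟨a1, a2⟩ ⟨b1, b2⟩ (⟨h1, h2⟩ | ⟨h1, h2⟩)
    · have := hχ _ _ h1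
      simp only at h2 this ⊢
      rw [h2]
      revert this
      cases χ a1 <;> cases χ b1 <;> cases ψ b2 <;> simp
    · have := hψ _ _ h2
      simp only at h1 this ⊢
      rw [h1]
      revert this
      cases χ b1 <;> cases ψ a2 <;> cases ψ b2 <;> simp

end prod

lemma LineRet.inj' {V : Type*} {adj : V → V → Prop} {a : ℕ → V} {d : ℕ} {ρ : V → ℕ}
    (h : LineRet adj a d ρ) {i j : ℕ} (hi : i ≤ d) (hj : j ≤ d) (he : a i = a j) : i = j := by
  have h1 := h.val i hi
  have h2 := h.val j hj
  rw [he] at h1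
  omega

lemma pl_congr {X : Type*} {w w' : ℕ → X} {L k : ℕ} (h : ∀ i < L, w i = w' i) :
    pl w L k = pl w' L k := by
  unfold pl
  exact Finset.sum_congr rfl fun i hi => by rw [h i (Finset.mem_range.1 hi)]

lemma pl_succ' {X : Type*} (w : ℕ → X) (L k : ℕ) :
    pl w (L + 1) k = pl (fun i => w (i + 1)) L k + Finsupp.single (w 0) k :=
  Finset.sum_range_succ' _ _

lemma pl_add {X : Type*} (w : ℕ → X) (L L' k : ℕ) :
    pl w (L + L') k = pl w L k + pl (fun i => w (L + i)) L' k := Finset.sum_range_add _ _ _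

lemma pl_reflect {X : Type*} (w : ℕ → X) (L k : ℕ) :
    pl (fun i => w (L - 1 - i)) L k = pl w L k :=
  Finset.sum_range_reflect (fun i => (Finsupp.single (w i) k : X →₀ ℕ)) L

/-! ### The cycle -/

section cyc

variable {A B : Type} {adjA : A → A → Prop} {adjB : B → B → Prop}

/-- indices of the points of the cycle -/
def cidx (d D m i : ℕ) : ℕ × ℕ :=
  if i ≤ D then (0, m + i)
  else if i ≤ D + d then (i - D, m + D)
  else if i ≤ 2 * D + d then (d, m + (2 * D + d - i))
  else (2 * D + 2 * d - i, m)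

/-- the points of the cycle -/
def cyc (α : ℕ → A) (β : ℕ → B) (d D m i : ℕ) : A × B :=
  (α (cidx d D m i).1, β (cidx d D m i).2)

variable {d D m : ℕ}

lemma cidx_le {i : ℕ} (hi : i ≤ 2 * (D + d)) :
    (cidx d D m i).1 ≤ d ∧ (cidx d D m i).2 ≤ m + D ∧ m ≤ (cidx d D m i).2 := by
  unfold cidx
  split_ifs
  all_goals refine ⟨?_, ?_, ?_⟩
  all_goals simp only
  all_goals omega

lemma cidx_inj (hd : 2 ≤ d) (hD : 2 ≤ D) {i j : ℕ} (hi : i < 2 * (D + d)) (hj : j < 2 * (D + d))
    (h : cidx d D m i = cidx d D m j) : i = j := by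
  unfold cidx at h
  split_ifs at h
  all_goals simp only [Prod.mk.injEq, true_and, and_true] at h
  all_goals omega

lemma cidx_last : cidx d D m (2 * (D + d)) = cidx d D m 0 ∨ d = 0 := by
  unfold cidx
  split_ifs
  all_goals try simp only [Prod.mk.injEq, true_and, and_true, true_or, or_true]
  all_goals omega

/-- standing assumptions on a block -/
structure Ctx (adjA : A → A → Prop) (adjB : B → B → Prop) (α : ℕ → A) (ρ : A → ℕ) (β : ℕ → B)
    (p : B → ℕ) (d D m : ℕ) : Prop where
  hA : Good adjA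
  hB : Good adjB
  hα : LineRet adjA α d ρ
  hβ : LineRet adjB β (m + D) p
  hd : 2 ≤ d
  hD : 2 ≤ D
  hm : 4 * (D + d) ≤ m

variable {α : ℕ → A} {ρ : A → ℕ} {β : ℕ → B} {p : B → ℕ}

/-- the points of the block -/
def sites (α : ℕ → A) (β : ℕ → B) (d b : ℕ) : Set (A × B) :=
  {v | ∃ i ≤ d, ∃ j ≤ b, v = (α i, β j)}

lemma cyc_mem_sites {i : ℕ} (hi : i ≤ 2 * (D + d)) : cyc α β d D m i ∈ sites α β d (m + D) :=
  ⟨_, (cidx_le hi).1, _, (cidx_le hi).2.1, rfl⟩

lemma cyc_last (hd : 2 ≤ d) : cyc α β d D m (2 * (D + d)) = cyc α β d D m 0 := by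
  have : cidx d D m (2 * (D + d)) = cidx d D m 0 := by
    rcases cidx_last (d := d) (D := D) (m := m) with h | h
    · exact h
    · omega
  unfold cyc
  rw [this]

lemma cyc_zero : cyc α β d D m 0 = (α 0, β m) := by
  unfold cyc cidx
  simp

lemma cyc_half (hd : 2 ≤ d) : cyc α β d D m (D + d) = (α d, β (m + D)) := by
  have h : cidx d D m (D + d) = (d, m + D) := by
    unfold cidx
    split_ifs
    all_goals try simp only [Prod.mk.injEq, true_and, and_true, true_or, or_true]
    all_goals omega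
  unfold cyc
  rw [h]

variable (C : Ctx adjA adjB α ρ β p d D m)

include C

lemma Ctx.good : Good (padj adjA adjB) := good_padj C.hA C.hB

lemma Ctx.site_inj {i i' j j' : ℕ} (hi : i ≤ d) (hi' : i' ≤ d) (hj : j ≤ m + D)
    (hj' : j' ≤ m + D) (h : (α i, β j) = (α i', β j')) : i = i' ∧ j = j' := by
  have h' := Prod.mk.inj h
  exact ⟨LineRet.inj' C.hα hi hi' h'.1, LineRet.inj' C.hβ hj hj' h'.2⟩

lemma Ctx.cyc_inj {i j : ℕ} (hi : i < 2 * (D + d)) (hj : j < 2 * (D + d))
    (h : cyc α β d D m i = cyc α β d D m j) : i = j := by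
  have h1 := cidx_le (d := d) (D := D) (m := m) hi.le
  have h2 := cidx_le (d := d) (D := D) (m := m) hj.le
  have h3 := C.site_inj h1.1 h2.1 h1.2.1 h2.2.1 h
  exact cidx_inj C.hd C.hD hi hj (Prod.ext h3.1 h3.2)

lemma Ctx.cyc_succ_inj {i j : ℕ} (hi : i < 2 * (D + d)) (hj : j < 2 * (D + d))
    (h : cyc α β d D m (i + 1) = cyc α β d D m (j + 1)) : i = j := by
  have hd := C.hd
  rcases Nat.lt_or_ge (i + 1) (2 * (D + d)) with h1 | h1
  · rcases Nat.lt_or_ge (j + 1) (2 * (D + d)) with h2 | h2
    · have := C.cyc_inj h1 h2 h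
      omega
    · have hj1 : j + 1 = 2 * (D + d) := by omega
      rw [hj1, cyc_last hd] at h
      have := C.cyc_inj h1 (by omega) h
      omega
  · have hi1 : i + 1 = 2 * (D + d) := by omega
    rcases Nat.lt_or_ge (j + 1) (2 * (D + d)) with h2 | h2
    · rw [hi1, cyc_last hd] at h
      have := C.cyc_inj (by omega) h2 h
      omega
    · omega

lemma Ctx.cyc_adj {i : ℕ} (hi : i < 2 * (D + d)) :
    padj adjA adjB (cyc α β d D m i) (cyc α β d D m (i + 1)) := by
  have hd := C.hd
  have hD := C.hD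
  have ha := C.hα.adj_path
  have hb := C.hβ.adj_path
  have hsa : ∀ {a b}, adjA a b → adjA b a := C.hA.symm
  have hsb : ∀ {a b}, adjB a b → adjB b a := C.hB.symm
  have key : (∃ a, ∃ j < m + D, cidx d D m i = (a, j) ∧ cidx d D m (i + 1) = (a, j + 1)) ∨
      (∃ a, ∃ j < m + D, cidx d D m i = (a, j + 1) ∧ cidx d D m (i + 1) = (a, j)) ∨
      (∃ b, ∃ j < d, cidx d D m i = (j, b) ∧ cidx d D m (i + 1) = (j + 1, b)) ∨
      (∃ b, ∃ j < d, cidx d D m i = (j + 1, b) ∧ cidx d D m (i + 1) = (j, b)) := by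
    rcases Nat.lt_or_ge i D with h1 | h1
    · left
      refine ⟨0, m + i, by omega, ?_, ?_⟩ <;> unfold cidx <;> split_ifs <;>
        (try simp only [Prod.mk.injEq, true_and, and_true]) <;> omega
    · rcases Nat.lt_or_ge i (D + d) with h2 | h2
      · right; right; left
        refine ⟨m + D, i - D, by omega, ?_, ?_⟩ <;> unfold cidx <;> split_ifs <;>
          (try simp only [Prod.mk.injEq, true_and, and_true]) <;> omega
      · rcases Nat.lt_or_ge i (2 * D + d) with h3 | h3
        · right; left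
          refine ⟨d, m + (2 * D + d - (i + 1)), by omega, ?_, ?_⟩ <;> unfold cidx <;>
            split_ifs <;> (try simp only [Prod.mk.injEq, true_and, and_true]) <;> omega
        · right; right; right
          refine ⟨m, 2 * D + 2 * d - (i + 1), by omega, ?_, ?_⟩ <;> unfold cidx <;>
            split_ifs <;> (try simp only [Prod.mk.injEq, true_and, and_true]) <;> omega
  unfold cyc
  rcases key with ⟨a, j, hj, e1, e2⟩ | ⟨a, j, hj, e1, e2⟩ | ⟨b, j, hj, e1, e2⟩ | ⟨b, j, hj, e1, e2⟩
  · rw [e1, e2]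
    exact Or.inr ⟨rfl, hb j hj⟩
  · rw [e1, e2]
    exact Or.inr ⟨rfl, hsb (hb j hj)⟩
  · rw [e1, e2]
    exact Or.inl ⟨ha j hj, rfl⟩
  · rw [e1, e2]
    exact Or.inl ⟨hsa (ha j hj), rfl⟩

lemma Ctx.rect_eq : {v | ∃ i < 2 * (D + d), cyc α β d D m (i + 1) = v} = rect α β d m D := by
  have hd := C.hd
  have hD := C.hD
  ext v
  constructor
  · rintro ⟨i, hi, rfl⟩
    unfold cyc
    have hle := cidx_le (d := d) (D := D) (m := m) (i := i + 1) (by omega)
    have key : (cidx d D m (i + 1)).1 = 0 ∨ (cidx d D m (i + 1)).1 = d ∨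
        (cidx d D m (i + 1)).2 = m ∨ (cidx d D m (i + 1)).2 = m + D := by
      unfold cidx
      split_ifs
      all_goals try simp only [true_or, or_true]
      all_goals omega
    rcases key with h | h | h | h
    · left
      exact ⟨_, hle.2.2, hle.2.1, Or.inl (by rw [h])⟩
    · left
      exact ⟨_, hle.2.2, hle.2.1, Or.inr (by rw [h])⟩
    · right
      exact ⟨_, hle.1, Or.inl (by rw [h])⟩
    · right
      exact ⟨_, hle.1, Or.inr (by rw [h])⟩
  · have aux : ∀ (i a j : ℕ), 1 ≤ i → i ≤ 2 * (D + d) → cidx d D m i = (a, j) →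
        ∃ i < 2 * (D + d), cyc α β d D m (i + 1) = (α a, β j) := by
      intro i a j h1 h2 h3
      refine ⟨i - 1, by omega, ?_⟩
      rw [show i - 1 + 1 = i by omega]
      unfold cyc
      rw [h3]
    rintro (⟨j, h1, h2, rfl | rfl⟩ | ⟨i, h1, rfl | rfl⟩)
    · rcases Nat.eq_or_lt_of_le h1 with h | h
      · subst h
        refine aux (2 * (D + d)) 0 m (by omega) le_rfl ?_
        unfold cidx
        split_ifs
        all_goals try simp only [Prod.mk.injEq, true_and, and_true, true_or, or_true]
        all_goals omega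
      · refine aux (j - m) 0 j (by omega) (by omega) ?_
        unfold cidx
        split_ifs
        all_goals try simp only [Prod.mk.injEq, true_and, and_true, true_or, or_true]
        all_goals omega
    · refine aux (2 * D + d - (j - m)) d j (by omega) (by omega) ?_
      unfold cidx
      split_ifs
      all_goals try simp only [Prod.mk.injEq, true_and, and_true, true_or, or_true]
      all_goals omega
    · refine aux (2 * D + 2 * d - i) i m (by omega) (by omega) ?_
      unfold cidx
      split_ifs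
      all_goals try simp only [Prod.mk.injEq, true_and, and_true, true_or, or_true]
      all_goals omega
    · rcases Nat.eq_zero_or_pos i with h | h
      · subst h
        refine aux D 0 (m + D) (by omega) (by omega) ?_
        unfold cidx
        split_ifs
        all_goals try simp only [Prod.mk.injEq, true_and, and_true, true_or, or_true]
        all_goals omega
      · refine aux (D + i) i (m + D) (by omega) (by omega) ?_
        unfold cidx
        split_ifs
        all_goals try simp only [Prod.mk.injEq, true_and, and_true, true_or, or_true]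
        all_goals omega

end cyc

/-! ### Counting the exceptional steps -/

open Classical in
lemma count_steps (f : ℕ → ℕ) (h : ℕ) (hf : ∀ i < h, f (i + 1) = f i + 1 ∨ f i = f (i + 1) + 1) :
    f h + 2 * ((range h).filter (fun i => ¬ f (i + 1) = f i + 1)).card = f 0 + h ∧
    f 0 + 2 * ((range h).filter (fun i => f (i + 1) = f i + 1)).card = f h + h := by
  induction h with
  | zero => simp
  | succ h ih =>
    obtain ⟨h1, h2⟩ := ih (fun i hi => hf i (by omega))
    rw [Finset.range_add_one, Finset.filter_insert, Finset.filter_insert]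
    rcases hf h (by omega) with h3 | h3
    · rw [if_neg (by simpa using h3), if_pos h3, Finset.card_insert_of_notMem (by simp)]
      omega
    · rw [if_pos (by omega), if_neg (by omega), Finset.card_insert_of_notMem (by simp)]
      omega

end Lab

end Pool.Agent.AD
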