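import Pool.Agent.AD.LabB

/-!
MP_072aa0_al, module LAB, part C: the loads of one block, the pump.
-/

set_option autoImplicit false

namespace Pool.Agent.AD

namespace Lab

open Finset (range)

section pump

variable {A B : Type} {adjA : A → A → Prop} {adjB : B → B → Prop}
  {α : ℕ → A} {ρ : A → ℕ} {β : ℕ → B} {p : B → ℕ} {d D m : ℕ}

/-- corridor load -/
noncomputable def cor (β : ℕ → B) (m k : ℕ) (a : A) : A × B →₀ ℕ :=
  pl (fun j => (a, β (j + 1))) m k

/-- load on the first `D` points of the cycle (first column) -/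
noncomputable def c1 (α : ℕ → A) (β : ℕ → B) (d D m k : ℕ) : A × B →₀ ℕ :=
  pl (fun i => cyc α β d D m (i + 1)) D k

/-- load on the next `d` points (bottom) -/
noncomputable def bot (α : ℕ → A) (β : ℕ → B) (d D m k : ℕ) : A × B →₀ ℕ :=
  pl (fun i => cyc α β d D m (D + i + 1)) d k

/-- load on the second half of the cycle -/
noncomputable def sec (α : ℕ → A) (β : ℕ → B) (d D m k : ℕ) : A × B →₀ ℕ :=
  pl (fun i => cyc α β d D m (D + d + i + 1)) (D + d) k

/-- the lit set of the pump -/
def litP (α : ℕ → A) (β : ℕ → B) (d D m : ℕ) (env : A × B →₀ ℕ) : Set (A × B) :=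
  lit env ∪ corr (α 0) β m ∪ rect α β d m D

open Classical in
/-- indices of the exceptional points in the second half -/
noncomputable def upS (adjA : A → A → Prop) (adjB : B → B → Prop) (o : A × B) (α : ℕ → A)
    (β : ℕ → B) (d D m : ℕ) (env : A × B →₀ ℕ) : Finset ℕ :=
  (range (D + d)).filter (fun i =>
    tsp (padj adjA adjB) (litP α β d D m env) o (cyc α β d D m (D + d + (i + 1))) =
      tsp (padj adjA adjB) (litP α β d D m env) o (cyc α β d D m (D + d + i)) + 1)

open Classical in
/-- indices of the exceptional points in the first half -/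
noncomputable def dnF (adjA : A → A → Prop) (adjB : B → B → Prop) (o : A × B) (α : ℕ → A)
    (β : ℕ → B) (d D m : ℕ) (env : A × B →₀ ℕ) : Finset ℕ :=
  (range (D + d)).filter (fun i =>
    ¬ tsp (padj adjA adjB) (litP α β d D m env) o (cyc α β d D m (i + 1)) =
      tsp (padj adjA adjB) (litP α β d D m env) o (cyc α β d D m i) + 1)

/-- extra load on the exceptional points of the second half -/
noncomputable def exc (adjA : A → A → Prop) (adjB : B → B → Prop) (o : A × B) (α : ℕ → A)
    (β : ℕ → B) (d D m : ℕ) (env : A × B →₀ ℕ) (K : ℕ) : A × B →₀ ℕ :=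
  ∑ i ∈ upS adjA adjB o α β d D m env, Finsupp.single (cyc α β d D m (D + d + i + 1)) K

/-- extra load on the exceptional points of the first half -/
noncomputable def exd (adjA : A → A → Prop) (adjB : B → B → Prop) (o : A × B) (α : ℕ → A)
    (β : ℕ → B) (d D m : ℕ) (env : A × B →₀ ℕ) (K : ℕ) : A × B →₀ ℕ :=
  ∑ i ∈ dnF adjA adjB o α β d D m env, Finsupp.single (cyc α β d D m (i + 1)) (2 * K)

/-- loads before the pump (without the cursor) -/
noncomputable def uA (adjA : A → A → Prop) (adjB : B → B → Prop) (o : A × B) (α : ℕ → A)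
    (β : ℕ → B) (d D m : ℕ) (env : A × B →₀ ℕ) (K : ℕ) : A × B →₀ ℕ :=
  cor β m 2 (α 0) + c1 α β d D m (2 * K + 2) + bot α β d D m (K + 2) + (sec α β d D m 2 +
    exc adjA adjB o α β d D m env K)

/-- loads after the pump (without the cursor and the exceptional points) -/
noncomputable def uB (α : ℕ → A) (β : ℕ → B) (d D m K : ℕ) : A × B →₀ ℕ :=
  cor β m 2 (α 0) + c1 α β d D m (K + 2) + bot α β d D m 2 + sec α β d D m (K + 2)

lemma lit_corr (a : A) {k : ℕ} (hk : k ≠ 0) : lit (cor β m k a) = corr a β m := by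
  unfold cor
  rw [lit_pl _ _ hk]
  ext v
  constructor
  · rintro ⟨j, hj, rfl⟩
    exact ⟨j + 1, by omega, by omega, rfl⟩
  · rintro ⟨j, h1, h2, rfl⟩
    exact ⟨j - 1, by omega, by show (a, β (j - 1 + 1)) = _; rw [show j - 1 + 1 = j by omega]⟩

/-- evaluation of a load on a segment of the cycle -/
lemma seg_apply (C : Ctx adjA adjB α ρ β p d D m) (s L k : ℕ) (hs : s + L ≤ 2 * (D + d)) {i : ℕ}
    (hi : i < 2 * (D + d)) :
    pl (fun i => cyc α β d D m (s + i + 1)) L k (cyc α β d D m (i + 1)) =
      if s ≤ i ∧ i < s + L then k else 0 := by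
  split_ifs with h
  · have e : cyc α β d D m (i + 1) = (fun i => cyc α β d D m (s + i + 1)) (i - s) := by
      show _ = cyc α β d D m (s + (i - s) + 1)
      rw [show s + (i - s) = i by omega]
    rw [e]
    refine pl_apply_inj k ?_ (by omega)
    intro a ha b hb hab
    have := C.cyc_succ_inj (i := s + a) (j := s + b) (by omega) (by omega) hab
    omega
  · refine pl_apply_of_not fun j hj he => ?_
    have := C.cyc_succ_inj (i := s + j) (j := i) (by omega) (by omega) he
    omega

lemma seg_off (s L k : ℕ) (hs : s + L ≤ 2 * (D + d)) {x : A × B}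
    (hx : ∀ i < 2 * (D + d), cyc α β d D m (i + 1) ≠ x) :
    pl (fun i => cyc α β d D m (s + i + 1)) L k x = 0 :=
  pl_apply_of_not fun j hj he => hx (s + j) (by omega) he

lemma c1_eq (k : ℕ) : c1 α β d D m k = pl (fun i => cyc α β d D m (0 + i + 1)) D k := by
  unfold c1
  exact pl_congr fun i _ => by rw [Nat.zero_add]

lemma exc_apply (C : Ctx adjA adjB α ρ β p d D m) (o : A × B) (env : A × B →₀ ℕ) (K : ℕ) {i : ℕ}
    (hi : i < 2 * (D + d)) :
    (D + d ≤ i → i - (D + d) ∈ upS adjA adjB o α β d D m env →
      exc adjA adjB o α β d D m env K (cyc α β d D m (i + 1)) = K) ∧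
    (¬ (D + d ≤ i ∧ i - (D + d) ∈ upS adjA adjB o α β d D m env) →
      exc adjA adjB o α β d D m env K (cyc α β d D m (i + 1)) = 0) := by
  have hlt : ∀ j ∈ upS adjA adjB o α β d D m env, j < D + d := fun j hj => by
    unfold upS at hj
    exact Finset.mem_range.1 (Finset.mem_filter.1 hj).1
  constructor
  · intro h1 h2
    unfold exc
    have e : cyc α β d D m (i + 1) = (fun i => cyc α β d D m (D + d + i + 1)) (i - (D + d)) := by
      show _ = cyc α β d D m (D + d + (i - (D + d)) + 1)
      rw [show D + d + (i - (D + d)) = i by omega]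
    rw [e]
    refine apply_filter_inj (w := fun i => cyc α β d D m (D + d + i + 1)) K ?_ h2
    intro j hj he
    have := hlt j hj
    have := C.cyc_succ_inj (i := D + d + j) (j := D + d + (i - (D + d))) (by omega) (by omega) he
    omega
  · intro h1
    unfold exc
    refine apply_filter_of_not (w := fun i => cyc α β d D m (D + d + i + 1)) fun j hj he => ?_
    have := hlt j hj
    have := C.cyc_succ_inj (i := D + d + j) (j := i) (by omega) (by omega) he
    subst this
    exact h1 ⟨by omega, by rwa [show D + d + j - (D + d) = j by omega]⟩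

lemma exd_apply (C : Ctx adjA adjB α ρ β p d D m) (o : A × B) (env : A × B →₀ ℕ) (K : ℕ) {i : ℕ}
    (hi : i < 2 * (D + d)) :
    (i ∈ dnF adjA adjB o α β d D m env →
      exd adjA adjB o α β d D m env K (cyc α β d D m (i + 1)) = 2 * K) ∧
    (i ∉ dnF adjA adjB o α β d D m env →
      exd adjA adjB o α β d D m env K (cyc α β d D m (i + 1)) = 0) := by
  have hlt : ∀ j ∈ dnF adjA adjB o α β d D m env, j < D + d := fun j hj => by
    unfold dnF at hj
    exact Finset.mem_range.1 (Finset.mem_filter.1 hj).1
  constructor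
  · intro h2
    unfold exd
    refine apply_filter_inj (w := fun i => cyc α β d D m (i + 1)) (2 * K) ?_ h2
    intro j hj he
    have := hlt j hj
    exact C.cyc_succ_inj (by omega) (by omega) he
  · intro h1
    unfold exd
    refine apply_filter_of_not (w := fun i => cyc α β d D m (i + 1)) fun j hj he => ?_
    have := hlt j hj
    have := C.cyc_succ_inj (i := j) (j := i) (by omega) (by omega) he
    subst this
    exact h1 hj

lemma exc_off (o : A × B) (env : A × B →₀ ℕ) (K : ℕ) {x : A × B}
    (hx : ∀ i < 2 * (D + d), cyc α β d D m (i + 1) ≠ x) :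
    exc adjA adjB o α β d D m env K x = 0 := by
  unfold exc
  refine apply_filter_of_not (w := fun i => cyc α β d D m (D + d + i + 1)) fun j hj he => ?_
  unfold upS at hj
  have := Finset.mem_range.1 (Finset.mem_filter.1 hj).1
  exact hx (D + d + j) (by omega) he

lemma exd_off (o : A × B) (env : A × B →₀ ℕ) (K : ℕ) {x : A × B}
    (hx : ∀ i < 2 * (D + d), cyc α β d D m (i + 1) ≠ x) :
    exd adjA adjB o α β d D m env K x = 0 := by
  unfold exd
  refine apply_filter_of_not (w := fun i => cyc α β d D m (i + 1)) fun j hj he => ?_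
  unfold dnF at hj
  have := Finset.mem_range.1 (Finset.mem_filter.1 hj).1
  exact hx j (by omega) he

lemma lit_exc_subset (C : Ctx adjA adjB α ρ β p d D m) (o : A × B) (env : A × B →₀ ℕ) (K : ℕ) :
    lit (exc adjA adjB o α β d D m env K) ⊆ rect α β d m D := by
  rw [← C.rect_eq]
  intro v hv
  by_contra h
  refine hv (exc_off o env K fun i hi he => h ⟨i, hi, he⟩)

/-- the lit set before the pump -/
lemma lit_uA (C : Ctx adjA adjB α ρ β p d D m) (o : A × B) (env : A × B →₀ ℕ) (K : ℕ) :
    lit (env + uA adjA adjB o α β d D m env K) = litP α β d D m env := by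
  have hd := C.hd
  have hD := C.hD
  have h1 : lit (c1 α β d D m (2 * K + 2)) ∪ lit (bot α β d D m (K + 2)) ∪
      lit (sec α β d D m 2) = rect α β d m D := by
    rw [← C.rect_eq]
    unfold c1 bot sec
    rw [lit_pl _ _ (by omega), lit_pl _ _ (by omega), lit_pl _ _ (by omega)]
    ext v
    constructor
    · rintro ((⟨i, hi, rfl⟩ | ⟨i, hi, rfl⟩) | ⟨i, hi, rfl⟩)
      · exact ⟨i, by omega, rfl⟩
      · exact ⟨D + i, by omega, rfl⟩
      · exact ⟨D + d + i, by omega, rfl⟩
    · rintro ⟨i, hi, rfl⟩
      rcases Nat.lt_or_ge i D with h | h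
      · exact Or.inl (Or.inl ⟨i, h, rfl⟩)
      · rcases Nat.lt_or_ge i (D + d) with h' | h'
        · refine Or.inl (Or.inr ⟨i - D, by omega, ?_⟩)
          show cyc α β d D m (D + (i - D) + 1) = _
          rw [show D + (i - D) = i by omega]
        · refine Or.inr ⟨i - (D + d), by omega, ?_⟩
          show cyc α β d D m (D + d + (i - (D + d)) + 1) = _
          rw [show D + d + (i - (D + d)) = i by omega]
  have h2 := lit_exc_subset C o env K
  unfold uA litP
  rw [lit_add, lit_add, lit_add, lit_add, lit_add, lit_corr _ (by omega : (2 : ℕ) ≠ 0), ← h1]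
  rw [← h1] at h2
  ext v
  have h3 := @h2 v
  simp only [Set.mem_union] at h3 ⊢
  tauto

lemma cyc_mem_rect (C : Ctx adjA adjB α ρ β p d D m) {i : ℕ} (hi : i ≤ 2 * (D + d)) :
    cyc α β d D m i ∈ rect α β d m D := by
  rw [← C.rect_eq]
  rcases Nat.eq_zero_or_pos i with h | h
  · subst h
    have hd := C.hd
    refine ⟨2 * (D + d) - 1, by omega, ?_⟩
    rw [show 2 * (D + d) - 1 + 1 = 2 * (D + d) by omega, cyc_last hd]
  · exact ⟨i - 1, by omega, by rw [show i - 1 + 1 = i by omega]⟩

lemma litP_finite (C : Ctx adjA adjB α ρ β p d D m) (env : A × B →₀ ℕ) :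
    (litP α β d D m env).Finite := by
  rw [← lit_uA C (α 0, β 0) env 0]
  exact lit_finite _

/-- the numbers of exceptional points -/
lemma exceptional_card (hPI : PI_Stmt) (C : Ctx adjA adjB α ρ β p d D m) {o : A × B}
    (ho : p o.2 = 0) {env : A × B →₀ ℕ} (henv : ∀ v, env v ≠ 0 → p v.2 = 0) :
    (upS adjA adjB o α β d D m env).card ≤ 2 ∧ (dnF adjA adjB o α β d D m env).card ≤ 2 := by
  have hd := C.hd
  have hPI' := hPI adjA adjB C.hA C.hB d D m hd C.hD C.hm α ρ C.hα β p C.hβ o ho (lit env)
    (lit_finite _) henv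
  set T := fun v => tsp (padj adjA adjB) (litP α β d D m env) o v with hT
  have hT0 : T (cyc α β d D m 0) + (D + d) ≤ T (cyc α β d D m (D + d)) + 4 := by
    rw [cyc_zero, cyc_half hd]
    exact hPI'
  have hfin := litP_finite C env
  have hadj : ∀ i < 2 * (D + d), T (cyc α β d D m (i + 1)) = T (cyc α β d D m i) + 1 ∨
      T (cyc α β d D m i) = T (cyc α β d D m (i + 1)) + 1 :=
    fun i hi => C.good.tsp_adj hfin (C.cyc_adj hi)
  have c1 := (count_steps (fun i => T (cyc α β d D m i)) (D + d)
    (fun i hi => hadj i (by omega))).1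
  have c2 := (count_steps (fun i => T (cyc α β d D m (D + d + i))) (D + d)
    (fun i hi => hadj (D + d + i) (by omega))).2
  have e1 : T (cyc α β d D m (D + d + (D + d))) = T (cyc α β d D m 0) := by
    rw [show D + d + (D + d) = 2 * (D + d) by ring, cyc_last hd]
  unfold upS dnF
  simp only [Nat.add_zero] at c1 c2
  constructor
  · have := c2
    simp only [hT] at this hT0 e1 ⊢
    omega
  · have := c1
    simp only [hT] at this hT0 e1 ⊢
    omega

/-- The pump. -/
theorem pump_half (hP : PUMP_Stmt) (C : Ctx adjA adjB α ρ β p d D m) {o : A × B}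
    {env : A × B →₀ ℕ} (n K l : ℕ)
    (hn : nrm (padj adjA adjB) o (cyc α β d D m 0, env + uA adjA adjB o α β d D m env K +
      Finsupp.single (cyc α β d D m 0) l) = n + 1) :
    ∃ gB : A × B →₀ ℕ, nrm (padj adjA adjB) o (cyc α β d D m 0, gB) = n + 1 ∧
      Reach (padj adjA adjB) o n (2 * (2 * (D + d)) * K)
        (cyc α β d D m 0, env + uA adjA adjB o α β d D m env K +
          Finsupp.single (cyc α β d D m 0) l) (cyc α β d D m 0, gB) ∧
      (∀ x, (∀ i < 2 * (D + d), cyc α β d D m (i + 1) ≠ x) →
        gB x = (env + uA adjA adjB o α β d D m env K) x) ∧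
      l ≤ gB (cyc α β d D m 0) ∧
      gB + exc adjA adjB o α β d D m env K =
        (env + uB α β d D m K + Finsupp.single (cyc α β d D m 0) l) +
          exd adjA adjB o α β d D m env K := by
  have hd := C.hd
  have hD := C.hD
  set g := env + uA adjA adjB o α β d D m env K + Finsupp.single (cyc α β d D m 0) l with hg
  have hlit : lit g = litP α β d D m env := by
    rw [hg, lit_add, lit_uA C]
    refine Set.union_eq_self_of_subset_right ((lit_single_subset _ _).trans ?_)
    rintro v hv
    rw [Set.mem_singleton_iff.1 hv]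
    exact Or.inr (cyc_mem_rect C (Nat.zero_le _))
  -- values of `g` on the cycle
  set base := fun x : A × B => env x + cor β m 2 (α 0) x +
    (Finsupp.single (cyc α β d D m 0) l : A × B →₀ ℕ) x with hbase
  have gval : ∀ x, g x = base x + c1 α β d D m (2 * K + 2) x + bot α β d D m (K + 2) x +
      sec α β d D m 2 x + exc adjA adjB o α β d D m env K x := by
    intro x
    simp only [hg, uA, hbase, Finsupp.add_apply]
    ring
  have Bval : ∀ x, (env + uB α β d D m K + Finsupp.single (cyc α β d D m 0) l :
      A × B →₀ ℕ) x = base x + c1 α β d D m (K + 2) x + bot α β d D m 2 x +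
      sec α β d D m (K + 2) x := by
    intro x
    simp only [uB, hbase, Finsupp.add_apply]
    ring
  have s1 : ∀ k i, i < 2 * (D + d) → c1 α β d D m k (cyc α β d D m (i + 1)) =
      if 0 ≤ i ∧ i < 0 + D then k else 0 := by
    intro k i hi
    rw [c1_eq]
    exact seg_apply C 0 D k (by omega) hi
  have s2 : ∀ k i, i < 2 * (D + d) → bot α β d D m k (cyc α β d D m (i + 1)) =
      if D ≤ i ∧ i < D + d then k else 0 := by
    intro k i hi
    exact seg_apply C D d k (by omega) hi
  have s3 : ∀ k i, i < 2 * (D + d) → sec α β d D m k (cyc α β d D m (i + 1)) =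
      if D + d ≤ i ∧ i < D + d + (D + d) then k else 0 := by
    intro k i hi
    exact seg_apply C (D + d) (D + d) k (by omega) hi
  set T := fun v => tsp (padj adjA adjB) (litP α β d D m env) o v with hT
  -- membership in the exceptional sets
  have mU : ∀ i < 2 * (D + d), D + d ≤ i → (i - (D + d) ∈ upS adjA adjB o α β d D m env ↔
      T (cyc α β d D m (i + 1)) = T (cyc α β d D m i) + 1) := by
    intro i hi h
    unfold upS
    rw [Finset.mem_filter, Finset.mem_range, show D + d + (i - (D + d) + 1) = i + 1 by omega,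
      show D + d + (i - (D + d)) = i by omega]
    simp only [hT]
    exact ⟨fun h => h.2, fun h' => ⟨by omega, h'⟩⟩
  have mD : ∀ i < D + d, (i ∈ dnF adjA adjB o α β d D m env ↔
      ¬ T (cyc α β d D m (i + 1)) = T (cyc α β d D m i) + 1) := by
    intro i hi
    unfold dnF
    rw [Finset.mem_filter, Finset.mem_range]
    simp only [hT]
    exact ⟨fun h => h.2, fun h' => ⟨by omega, h'⟩⟩
  have mD' : ∀ i, D + d ≤ i → i ∉ dnF adjA adjB o α β d D m env := by
    intro i hi h
    unfold dnF at h
    have := Finset.mem_range.1 (Finset.mem_filter.1 h).1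
    omega
  have h2 : ∀ i < 2 * (D + d), 2 ≤ g (cyc α β d D m (i + 1)) := by
    intro i hi
    rw [gval, s1 _ i hi, s2 _ i hi, s3 _ i hi]
    split_ifs <;> omega
  have h3 : ∀ i < 2 * (D + d), T (cyc α β d D m (i + 1)) = T (cyc α β d D m i) + 1 →
      2 + K ≤ g (cyc α β d D m (i + 1)) := by
    intro i hi hu
    rw [gval, s1 _ i hi, s2 _ i hi, s3 _ i hi]
    rcases Nat.lt_or_ge i (D + d) with h | h
    · split_ifs <;> omega
    · have := (exc_apply C o env K hi).1 h ((mU i hi h).2 hu)
      rw [this]
      split_ifs <;> omega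
  have hP' := hP (padj adjA adjB) C.good o n (2 * (D + d)) K (cyc α β d D m) (cyc_last hd)
    (fun i hi => C.cyc_adj hi) (fun i hi j hj h => C.cyc_inj hi hj h) g hn h2 (by
      intro i hi hu
      rw [hlit] at hu
      exact h3 i hi hu)
  obtain ⟨gB, b1, b2, b3, b4, b5⟩ := hP'
  rw [hlit] at b4 b5
  have b3' : ∀ x, (∀ i < 2 * (D + d), cyc α β d D m (i + 1) ≠ x) → gB x = g x := by
    intro x hx
    refine b3 x fun i hi he => ?_
    rcases Nat.eq_zero_or_pos i with h | h
    · subst h
      refine hx (2 * (D + d) - 1) (by omega) ?_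
      rw [show 2 * (D + d) - 1 + 1 = 2 * (D + d) by omega, cyc_last hd]
      exact he
    · refine hx (i - 1) (by omega) ?_
      rw [show i - 1 + 1 = i by omega]
      exact he
  refine ⟨gB, b1, b2, ?_, ?_, ?_⟩
  · intro x hx
    rw [b3' x hx, hg, Finsupp.add_apply]
    have : (Finsupp.single (cyc α β d D m 0) l : A × B →₀ ℕ) x = 0 := by
      refine Finsupp.single_eq_of_ne fun he => ?_
      refine hx (2 * (D + d) - 1) (by omega) ?_
      rw [show 2 * (D + d) - 1 + 1 = 2 * (D + d) by omega, cyc_last hd]
      exact he.symm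
    rw [this, Nat.add_zero]
  · -- the cursor
    have hi : 2 * (D + d) - 1 < 2 * (D + d) := by omega
    have e : cyc α β d D m (2 * (D + d) - 1 + 1) = cyc α β d D m 0 := by
      rw [show 2 * (D + d) - 1 + 1 = 2 * (D + d) by omega, cyc_last hd]
    have hl : l ≤ base (cyc α β d D m 0) := by
      simp only [hbase, Finsupp.single_eq_same]
      omega
    by_cases hu : T (cyc α β d D m (2 * (D + d) - 1 + 1)) =
        T (cyc α β d D m (2 * (D + d) - 1)) + 1
    · have h4 := b4 _ hi hu
      have h5 := (exc_apply C o env K hi).1 (by omega) ((mU _ hi (by omega)).2 hu)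
      have h6 := gval (cyc α β d D m (2 * (D + d) - 1 + 1))
      rw [e] at h4 h5 h6
      omega
    · have h4 := b5 _ hi hu
      have h6 := gval (cyc α β d D m (2 * (D + d) - 1 + 1))
      rw [e] at h4 h6
      omega
  · ext x
    rw [Finsupp.add_apply, Finsupp.add_apply, Bval]
    by_cases hx : ∃ i < 2 * (D + d), cyc α β d D m (i + 1) = x
    · obtain ⟨i, hi, rfl⟩ := hx
      have hgv := gval (cyc α β d D m (i + 1))
      rw [s1 _ i hi, s2 _ i hi, s3 _ i hi] at hgv
      rw [s1 _ i hi, s2 _ i hi, s3 _ i hi]
      by_cases hu : T (cyc α β d D m (i + 1)) = T (cyc α β d D m i) + 1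
      · have h4 := b4 _ hi hu
        rcases Nat.lt_or_ge i (D + d) with h | h
        · have h5 := (exc_apply C o env K hi).2 (by omega)
          have h6 := (exd_apply C o env K hi).2 (fun h7 => ((mD i h).1 h7) hu)
          rw [h5, h6]
          rw [h5] at hgv
          split_ifs at hgv ⊢ <;> omega
        · have h5 := (exc_apply C o env K hi).1 h ((mU i hi h).2 hu)
          have h6 := (exd_apply C o env K hi).2 (mD' i h)
          rw [h5, h6]
          rw [h5] at hgv
          split_ifs at hgv ⊢ <;> omega
      · have h4 := b5 _ hi hu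
        rcases Nat.lt_or_ge i (D + d) with h | h
        · have h5 := (exc_apply C o env K hi).2 (by omega)
          have h6 := (exd_apply C o env K hi).1 ((mD i h).2 hu)
          rw [h5, h6]
          rw [h5] at hgv
          split_ifs at hgv ⊢ <;> omega
        · have h5 := (exc_apply C o env K hi).2 (fun h7 => hu ((mU i hi h).1 h7.2))
          have h6 := (exd_apply C o env K hi).2 (mD' i h)
          rw [h5, h6]
          rw [h5] at hgv
          split_ifs at hgv ⊢ <;> omega
    · push Not at hx
      have h5 := exc_off (adjA := adjA) (adjB := adjB) o env K hx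
      have h6 := exd_off (adjA := adjA) (adjB := adjB) o env K hx
      have h7 := b3' x hx
      have h8 := gval x
      have f1 : ∀ k, c1 α β d D m k x = 0 := by
        intro k
        rw [c1_eq]
        exact seg_off 0 D k (by omega) hx
      have f2 : ∀ k, bot α β d D m k x = 0 := fun k => seg_off D d k (by omega) hx
      have f3 : ∀ k, sec α β d D m k x = 0 := fun k => seg_off (D + d) (D + d) k (by omega) hx
      rw [f1, f2, f3, h5] at h8
      rw [f1, f2, f3, h5, h6]
      omega

end pump

end Lab

end Pool.Agent.AD
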