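import Pool.Agent.AD.LabC

/-!
MP_072aa0_al, module LAB, part D: one block.
-/

set_option autoImplicit false

namespace Pool.Agent.AD

namespace Lab

open Finset (range)

section block

variable {A B : Type} {adjA : A → A → Prop} {adjB : B → B → Prop}
  {α : ℕ → A} {ρ : A → ℕ} {β : ℕ → B} {p : B → ℕ} {d D m : ℕ}

/-- loads of the main configurations: corridor and column -/
noncomputable def qld (β : ℕ → B) (m D K : ℕ) (a : A) : A × B →₀ ℕ :=
  cor β m 2 a + pl (fun j => (a, β (m + (j + 1)))) D (2 * K + 2)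

/-- the load of the middle configuration -/
noncomputable def uM (α : ℕ → A) (β : ℕ → B) (d D m K : ℕ) : A × B →₀ ℕ :=
  cor β m 2 (α 0) + cor β m 2 (α d) + (pl (fun j => (α 0, β (m + j))) (D + 1) (K + 2) +
    pl (fun j => (α d, β (m + j))) (D + 1) (K + 2)) +
    (pl (fun i => (α i, β m)) (d + 1) (K + 2) + pl (fun i => (α i, β (m + D))) (d + 1) 2)

/-- difference between the middle configuration and the loads after the pump -/
noncomputable def xM (α : ℕ → A) (β : ℕ → B) (d D m K : ℕ) : A × B →₀ ℕ :=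
  cor β m 2 (α d) + (Finsupp.single (α 0, β m) (K + 2) + Finsupp.single (α d, β (m + D)) (K + 2) +
    Finsupp.single (α d, β m) (K + 2) + Finsupp.single (α 0, β (m + D)) 2)

lemma cyc_col {i : ℕ} (hi : i ≤ D) : cyc α β d D m i = (α 0, β (m + i)) := by
  unfold cyc cidx
  rw [if_pos hi]

lemma cyc_bot {i : ℕ} (hi : 1 ≤ i) (hi' : i ≤ d) :
    cyc α β d D m (D + i) = (α i, β (m + D)) := by
  have h : cidx d D m (D + i) = (i, m + D) := by
    unfold cidx
    rw [if_neg (by omega), if_pos (by omega)]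
    simp
  unfold cyc
  rw [h]

lemma cyc_col' {i : ℕ} (hi : 1 ≤ i) (hi' : i ≤ D) :
    cyc α β d D m (D + d + i) = (α d, β (m + (D - i))) := by
  have h : cidx d D m (D + d + i) = (d, m + (D - i)) := by
    unfold cidx
    rw [if_neg (by omega), if_neg (by omega), if_pos (by omega)]
    rw [show 2 * D + d - (D + d + i) = D - i by omega]
  unfold cyc
  rw [h]

lemma cyc_top {i : ℕ} (hi : 1 ≤ i) (hi' : i ≤ d) :
    cyc α β d D m (D + d + (D + i)) = (α (d - i), β m) := by
  have h : cidx d D m (D + d + (D + i)) = (d - i, m) := by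
    unfold cidx
    rw [if_neg (by omega), if_neg (by omega), if_neg (by omega)]
    rw [show 2 * D + 2 * d - (D + d + (D + i)) = d - i by omega]
  unfold cyc
  rw [h]

lemma c1_col (k : ℕ) : c1 α β d D m k = pl (fun j => (α 0, β (m + (j + 1)))) D k := by
  unfold c1
  exact pl_congr fun i hi => cyc_col (by omega)

lemma uM_eq (K : ℕ) : uM α β d D m K = uB α β d D m K + xM α β d D m K := by
  have e1 : pl (fun j => (α 0, β (m + j))) (D + 1) (K + 2) =
      c1 α β d D m (K + 2) + Finsupp.single (α 0, β m) (K + 2) := by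
    rw [pl_succ', c1_col]
    rfl
  have e2 : pl (fun i => (α i, β (m + D))) (d + 1) 2 =
      bot α β d D m 2 + Finsupp.single (α 0, β (m + D)) 2 := by
    rw [pl_succ']
    unfold bot
    congr 1
    exact pl_congr fun i hi => by
      rw [show D + i + 1 = D + (i + 1) by ring, cyc_bot (by omega) (by omega)]
  have e3 : pl (fun j => (α d, β (m + j))) (D + 1) (K + 2) =
      pl (fun i => cyc α β d D m (D + d + i + 1)) D (K + 2) +
        Finsupp.single (α d, β (m + D)) (K + 2) := by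
    rw [← pl_reflect, pl_succ']
    congr 1
    exact pl_congr fun i hi => by
      rw [show D + d + i + 1 = D + d + (i + 1) by ring, cyc_col' (by omega) (by omega)]
      rfl
  have e4 : pl (fun i => (α i, β m)) (d + 1) (K + 2) =
      pl (fun i => cyc α β d D m (D + d + (D + i) + 1)) d (K + 2) +
        Finsupp.single (α d, β m) (K + 2) := by
    rw [← pl_reflect, pl_succ']
    congr 1
    exact pl_congr fun i hi => by
      rw [show D + d + (D + i) + 1 = D + d + (D + (i + 1)) by ring, cyc_top (by omega) (by omega)]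
      rfl
  have e5 : sec α β d D m (K + 2) = pl (fun i => cyc α β d D m (D + d + i + 1)) D (K + 2) +
      pl (fun i => cyc α β d D m (D + d + (D + i) + 1)) d (K + 2) := pl_add _ _ _ _
  unfold uM uB xM
  rw [e1, e2, e3, e4, e5]
  abel

lemma mass_xM (K : ℕ) : mass (xM α β d D m K) = 2 * m + 3 * K + 8 := by
  unfold xM cor
  simp only [mass_add, mass_single, mass_pl]
  ring

lemma mass_uB (K : ℕ) : mass (uB α β d D m K) = K * (2 * D + d) + 2 * m + 4 * (D + d) := by
  unfold uB cor c1 bot sec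
  simp only [mass_add, mass_pl]
  ring

lemma mass_uM (K : ℕ) :
    mass (uM α β d D m K) = K * (2 * D + d + 3) + (4 * m + 4 * (D + d) + 8) := by
  rw [uM_eq, mass_add, mass_xM, mass_uB]
  ring

lemma mass_qld (K : ℕ) (a : A) : mass (qld β m D K a) = 2 * D * K + (2 * m + 2 * D) := by
  unfold qld cor
  simp only [mass_add, mass_pl]
  ring

/-! ### The finite sets -/

open Classical in
/-- corridor points -/
noncomputable def corF (β : ℕ → B) (m : ℕ) (a : A) : Finset (A × B) :=
  (range m).image (fun j => (a, β (j + 1)))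

open Classical in
/-- points of the cycle -/
noncomputable def cycF (α : ℕ → A) (β : ℕ → B) (d D m : ℕ) : Finset (A × B) :=
  (range (2 * (D + d) + 1)).image (cyc α β d D m)

open Classical in
/-- bottom points -/
noncomputable def botF (α : ℕ → A) (β : ℕ → B) (d b : ℕ) : Finset (A × B) :=
  (range (d + 1)).image (fun i => (α i, β b))

open Classical in
/-- both corridors and the cycle -/
noncomputable def V3 (α : ℕ → A) (β : ℕ → B) (d D m : ℕ) : Finset (A × B) :=
  corF β m (α 0) ∪ (corF β m (α d) ∪ cycF α β d D m)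

lemma mem_corF {a : A} {v : A × B} : v ∈ corF β m a ↔ ∃ j < m, (a, β (j + 1)) = v := by
  unfold corF
  simp [Finset.mem_image]

lemma mem_cycF {v : A × B} : v ∈ cycF α β d D m ↔ ∃ i ≤ 2 * (D + d), cyc α β d D m i = v := by
  classical
  unfold cycF
  rw [Finset.mem_image]
  constructor
  · rintro ⟨i, hi, rfl⟩
    exact ⟨i, by have := Finset.mem_range.1 hi; omega, rfl⟩
  · rintro ⟨i, hi, rfl⟩
    exact ⟨i, Finset.mem_range.2 (by omega), rfl⟩

lemma mem_botF {b : ℕ} {v : A × B} : v ∈ botF α β d b ↔ ∃ i ≤ d, (α i, β b) = v := by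
  classical
  unfold botF
  rw [Finset.mem_image]
  constructor
  · rintro ⟨i, hi, rfl⟩
    exact ⟨i, by have := Finset.mem_range.1 hi; omega, rfl⟩
  · rintro ⟨i, hi, rfl⟩
    exact ⟨i, Finset.mem_range.2 (by omega), rfl⟩

lemma mem_V3 {v : A × B} : v ∈ V3 α β d D m ↔
    v ∈ corF β m (α 0) ∨ v ∈ corF β m (α d) ∨ v ∈ cycF α β d D m := by
  unfold V3
  simp [Finset.mem_union]

lemma card_V3 : (V3 α β d D m).card ≤ 2 * m + 2 * (D + d) + 1 := by
  classical
  unfold V3 corF cycF
  refine (Finset.card_union_le _ _).trans ?_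
  have h1 : ((range m).image (fun j => (α 0, β (j + 1)))).card ≤ m :=
    Finset.card_image_le.trans (by simp)
  have h2 := Finset.card_union_le ((range m).image (fun j => (α d, β (j + 1))))
    ((range (2 * (D + d) + 1)).image (cyc α β d D m))
  have h3 : ((range m).image (fun j => (α d, β (j + 1)))).card ≤ m :=
    Finset.card_image_le.trans (by simp)
  have h4 : ((range (2 * (D + d) + 1)).image (cyc α β d D m)).card ≤ 2 * (D + d) + 1 :=
    Finset.card_image_le.trans (by simp)
  convert (add_le_add h1 (h2.trans (add_le_add h3 h4))) using 1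
  ring

lemma card_botF {b : ℕ} : (botF α β d b).card ≤ d + 1 := by
  classical
  unfold botF
  exact Finset.card_image_le.trans (by simp)

lemma V3_subset_sites (_hm : 1 ≤ m) : (V3 α β d D m : Set (A × B)) ⊆ sites α β d (m + D) := by
  intro v hv
  rcases mem_V3.1 (Finset.mem_coe.1 hv) with h | h | h
  · obtain ⟨j, hj, rfl⟩ := mem_corF.1 h
    exact ⟨0, by omega, j + 1, by omega, rfl⟩
  · obtain ⟨j, hj, rfl⟩ := mem_corF.1 h
    exact ⟨d, le_rfl, j + 1, by omega, rfl⟩
  · obtain ⟨i, hi, rfl⟩ := mem_cycF.1 h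
    exact cyc_mem_sites hi

lemma cyc_mem_V3 {i : ℕ} (hi : i ≤ 2 * (D + d)) : cyc α β d D m i ∈ V3 α β d D m :=
  mem_V3.2 (Or.inr (Or.inr (mem_cycF.2 ⟨i, hi, rfl⟩)))

lemma path_up (C : Ctx adjA adjB α ρ β p d D m) (a : A) {V : Finset (A × B)}
    (hV : ∀ l, 1 ≤ l → l ≤ m → (a, β l) ∈ V) {j : ℕ} (hj : j < m) :
    PathIn (padj adjA adjB) V (a, β (j + 1)) (a, β m) (m - (j + 1)) :=
  pin_path (w := fun l => (a, β l)) (by omega)
    (fun l _ hl => Or.inr ⟨rfl, C.hβ.adj_path l (by omega)⟩) (fun l h1 h2 => hV l (by omega) h2)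

lemma hub_V3 (C : Ctx adjA adjB α ρ β p d D m) : ∀ a ∈ V3 α β d D m, ∃ k ≤ m + 2 * (D + d),
    PathIn (padj adjA adjB) (V3 α β d D m) a (cyc α β d D m 0) k := by
  have hd := C.hd
  intro v hv
  rcases mem_V3.1 hv with h | h | h
  · obtain ⟨j, hj, rfl⟩ := mem_corF.1 h
    rw [cyc_zero]
    refine ⟨m - (j + 1), by omega, path_up C (α 0) (fun l h1 h2 => ?_) hj⟩
    exact mem_V3.2 (Or.inl (mem_corF.2 ⟨l - 1, by omega, by rw [show l - 1 + 1 = l by omega]⟩))
  · obtain ⟨j, hj, rfl⟩ := mem_corF.1 h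
    have p1 := path_up C (α d) (V := V3 α β d D m) (fun l h1 h2 => by
      exact mem_V3.2 (Or.inr (Or.inl (mem_corF.2 ⟨l - 1, by omega, by
        rw [show l - 1 + 1 = l by omega]⟩)))) hj
    have e : cyc α β d D m (D + d + D) = (α d, β m) := by
      rw [cyc_col' (by have := C.hD; omega) le_rfl]
      simp
    have p2 : PathIn (padj adjA adjB) (V3 α β d D m) (cyc α β d D m (D + d + D))
        (cyc α β d D m (2 * (D + d))) (2 * (D + d) - (D + d + D)) :=
      pin_path (by omega) (fun l _ hl => C.cyc_adj hl) (fun l _ hl => cyc_mem_V3 hl)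
    rw [e, cyc_last hd] at p2
    exact ⟨_, by omega, pin_trans p1 p2⟩
  · obtain ⟨i, hi, rfl⟩ := mem_cycF.1 h
    rw [← cyc_last (α := α) (β := β) (D := D) (m := m) hd]
    exact ⟨2 * (D + d) - i, by omega, pin_path hi (fun l _ hl => C.cyc_adj hl)
      (fun l _ hl => cyc_mem_V3 hl)⟩

lemma hub_botF (C : Ctx adjA adjB α ρ β p d D m) : ∀ a ∈ botF α β d (m + D), ∃ k ≤ d,
    PathIn (padj adjA adjB) (botF α β d (m + D)) a (α d, β (m + D)) k := by
  intro v hv
  obtain ⟨i, hi, rfl⟩ := mem_botF.1 hv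
  exact ⟨d - i, by omega, pin_path (w := fun l => (α l, β (m + D))) hi
    (fun l _ hl => Or.inl ⟨C.hα.adj_path l hl, rfl⟩) (fun l _ hl => mem_botF.2 ⟨l, hl, rfl⟩)⟩

/-! ### Lit sets inside the finite sets -/

lemma lit_cor_V3 (k : ℕ) : lit (cor β m k (α 0)) ⊆ V3 α β d D m := by
  intro v hv
  obtain ⟨j, hj, rfl⟩ := lit_pl_subset _ _ _ hv
  exact Finset.mem_coe.2 (mem_V3.2 (Or.inl (mem_corF.2 ⟨j, hj, rfl⟩)))

lemma lit_cor_V3' (k : ℕ) : lit (cor β m k (α d)) ⊆ V3 α β d D m := by
  intro v hv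
  obtain ⟨j, hj, rfl⟩ := lit_pl_subset _ _ _ hv
  exact Finset.mem_coe.2 (mem_V3.2 (Or.inr (Or.inl (mem_corF.2 ⟨j, hj, rfl⟩))))

lemma lit_c1_V3 (k : ℕ) : lit (c1 α β d D m k) ⊆ V3 α β d D m := by
  intro v hv
  obtain ⟨j, hj, rfl⟩ := lit_pl_subset _ _ _ hv
  exact Finset.mem_coe.2 (cyc_mem_V3 (by omega))

lemma lit_bot_V3 (k : ℕ) : lit (bot α β d D m k) ⊆ V3 α β d D m := by
  intro v hv
  obtain ⟨j, hj, rfl⟩ := lit_pl_subset _ _ _ hv
  exact Finset.mem_coe.2 (cyc_mem_V3 (by omega))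

lemma lit_bot_botF (k : ℕ) : lit (bot α β d D m k) ⊆ botF α β d (m + D) := by
  intro v hv
  obtain ⟨j, hj, rfl⟩ := lit_pl_subset _ _ _ hv
  refine Finset.mem_coe.2 (mem_botF.2 ⟨j + 1, by omega, ?_⟩)
  show _ = cyc α β d D m (D + j + 1)
  rw [show D + j + 1 = D + (j + 1) by ring, cyc_bot (by omega) (by omega)]

lemma lit_sec_V3 (k : ℕ) : lit (sec α β d D m k) ⊆ V3 α β d D m := by
  intro v hv
  obtain ⟨j, hj, rfl⟩ := lit_pl_subset _ _ _ hv
  exact Finset.mem_coe.2 (cyc_mem_V3 (by omega))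

lemma rect_V3 (C : Ctx adjA adjB α ρ β p d D m) : rect α β d m D ⊆ V3 α β d D m := by
  rw [← C.rect_eq]
  rintro v ⟨i, hi, rfl⟩
  exact Finset.mem_coe.2 (cyc_mem_V3 (by omega))

lemma lit_exc_V3 (C : Ctx adjA adjB α ρ β p d D m) (o : A × B) (env : A × B →₀ ℕ) (K : ℕ) :
    lit (exc adjA adjB o α β d D m env K) ⊆ V3 α β d D m :=
  (lit_exc_subset C o env K).trans (rect_V3 C)

lemma mem_rect_00 : (α 0, β m) ∈ rect α β d m D :=
  Or.inl ⟨m, le_rfl, by omega, Or.inl rfl⟩

lemma lit_xM_V3 (C : Ctx adjA adjB α ρ β p d D m) (K : ℕ) :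
    lit (xM α β d D m K) ⊆ V3 α β d D m := by
  have key : ∀ (v : A × B) (k : ℕ), v ∈ rect α β d m D →
      lit (Finsupp.single v k : A × B →₀ ℕ) ⊆ V3 α β d D m := by
    intro v k hv w hw
    have := lit_single_subset v k hw
    rw [Set.mem_singleton_iff.1 this]
    exact rect_V3 C hv
  unfold xM
  rw [lit_add, lit_add, lit_add, lit_add]
  refine Set.union_subset (lit_cor_V3' 2) (Set.union_subset (Set.union_subset
    (Set.union_subset (key _ _ ?_) (key _ _ ?_)) (key _ _ ?_)) (key _ _ ?_))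
  · exact Or.inl ⟨m, le_rfl, by omega, Or.inl rfl⟩
  · exact Or.inl ⟨m + D, by omega, le_rfl, Or.inr rfl⟩
  · exact Or.inl ⟨m, le_rfl, by omega, Or.inr rfl⟩
  · exact Or.inl ⟨m + D, by omega, le_rfl, Or.inl rfl⟩

lemma lit_uB_V3 (K : ℕ) : lit (uB α β d D m K) ⊆ V3 α β d D m := by
  unfold uB
  rw [lit_add, lit_add, lit_add]
  exact Set.union_subset (Set.union_subset (Set.union_subset (lit_cor_V3 _) (lit_c1_V3 _))
    (lit_bot_V3 _)) (lit_sec_V3 _)

lemma lit_uM_V3 (C : Ctx adjA adjB α ρ β p d D m) (K : ℕ) :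
    lit (uM α β d D m K) ⊆ V3 α β d D m := by
  rw [uM_eq, lit_add]
  exact Set.union_subset (lit_uB_V3 K) (lit_xM_V3 C K)

lemma lit_uA_V3 (C : Ctx adjA adjB α ρ β p d D m) (o : A × B) (env : A × B →₀ ℕ) (K : ℕ) :
    lit (uA adjA adjB o α β d D m env K) ⊆ V3 α β d D m := by
  unfold uA
  rw [lit_add, lit_add, lit_add, lit_add]
  exact Set.union_subset (Set.union_subset (Set.union_subset (lit_cor_V3 _) (lit_c1_V3 _))
    (lit_bot_V3 _)) (Set.union_subset (lit_sec_V3 _) (lit_exc_V3 C o env K))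

/-! ### Bounds for the remaining load -/

/-- tour lengths inside the laboratory differ by at most `Y` from `T₀` -/
def TB {X : Type} (adj : X → X → Prop) (o : X) (env : X →₀ ℕ) (S : Set X) (T0 Y : ℕ) : Prop :=
  ∀ F : Set X, F ⊆ S → ∀ c ∈ S, T0 ≤ tsp adj (lit env ∪ F) o c + Y ∧
    tsp adj (lit env ∪ F) o c ≤ T0 + Y

lemma lef_bd {X : Type} {adj : X → X → Prop} {o : X} {env : X →₀ ℕ} {S : Set X} {T0 Y n H : ℕ}
    (hT : TB adj o env S T0 Y) (hn : T0 + mass env + H = n + 1) {u : X →₀ ℕ} (hu : lit u ⊆ S)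
    {c : X} (hc : c ∈ S) (b : ℕ) (hb : mass u + Y + b ≤ H) :
    nrm adj o (c, env + u) ≤ n + 1 ∧ b ≤ lef adj o n c (env + u) ∧
      lef adj o n c (env + u) + mass u ≤ H + Y := by
  obtain ⟨h1, h2⟩ := hT (lit u) hu c hc
  have h3 : nrm adj o (c, env + u) = tsp adj (lit env ∪ lit u) o c + (mass env + mass u) := by
    rw [nrm_eq, lit_add, mass_add]
  unfold lef
  rw [h3]
  omega

/-- cost of a half -/
def hcost (d D m K R q : ℕ) : ℕ :=
  8 * d * (2 * (d * K) + 2 * d + 2 * R) + 8 * (m + 2 * (D + d)) * (2 * (D + d) + 2 * K + 2 * R) +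
    (2 * (2 * (D + d)) * K) + 8 * (m + 2 * (D + d)) * (9 * K + 2 * m + 8 + 2 * R) + 3 * cst q

/-- One half of a block. -/
theorem half (hN : NAIVE_Stmt) (hP : PUMP_Stmt) (hPI : PI_Stmt)
    (C : Ctx adjA adjB α ρ β p d D m) {o : A × B} (ho : p o.2 = 0) {env : A × B →₀ ℕ}
    (henv : ∀ v, env v ≠ 0 → p v.2 = 0) {n K T0 Y H R q : ℕ}
    (hT : TB (padj adjA adjB) o env (sites α β d (m + D)) T0 Y)
    (hn : T0 + mass env + H = n + 1) (hq : 2 * m + 2 * (D + d) + 1 ≤ q)
    (hH1 : K * (2 * D + d + 3) + (4 * m + 4 * (D + d) + 8) + Y + bd q ≤ H)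
    (hH2 : H + Y ≤ K * (2 * D + d) + R) :
    Reach (padj adjA adjB) o n (hcost d D m K R q)
      (fil (padj adjA adjB) o n (α 0, β (m + D)) (env + qld β m D K (α 0)))
      (fil (padj adjA adjB) o n (α 0, β m) (env + uM α β d D m K)) := by
  have hd := C.hd
  have hD := C.hD
  have hm := C.hm
  have hG := C.good
  have hsub : (V3 α β d D m : Set (A × B)) ⊆ sites α β d (m + D) := V3_subset_sites (by omega)
  obtain ⟨cU, cD⟩ := exceptional_card hPI C ho henv (o := o)
  have mexc : mass (exc adjA adjB o α β d D m env K) ≤ 2 * K := by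
    unfold exc
    rw [mass_filter (w := fun i => cyc α β d D m (D + d + i + 1))]
    exact Nat.mul_le_mul_right _ cU
  have mexd : mass (exd adjA adjB o α β d D m env K) ≤ 4 * K := by
    unfold exd
    rw [mass_filter (w := fun i => cyc α β d D m (i + 1))]
    calc _ ≤ 2 * (2 * K) := Nat.mul_le_mul_right _ cD
      _ = 4 * K := by ring
  -- the configurations
  obtain ⟨uQ, huQ⟩ : ∃ uQ, uQ = qld β m D K (α 0) := ⟨_, rfl⟩
  have huQ' : uQ = cor β m 2 (α 0) + c1 α β d D m (2 * K + 2) := by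
    rw [huQ, c1_col]; rfl
  obtain ⟨uP, huP⟩ : ∃ uP, uP = uQ + bot α β d D m (K + 2) := ⟨_, rfl⟩
  have huA : uA adjA adjB o α β d D m env K = uP + (sec α β d D m 2 +
      exc adjA adjB o α β d D m env K) := by
    rw [huP, huQ']; rfl
  have mQ : mass uQ = 2 * D * K + (2 * m + 2 * D) := by rw [huQ]; exact mass_qld K (α 0)
  have mbot : mass (bot α β d D m (K + 2)) = d * K + 2 * d := by
    unfold bot; rw [mass_pl]; ring
  have mP : mass uP = K * (2 * D + d) + (2 * m + 2 * D + 2 * d) := by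
    rw [huP, mass_add, mQ, mbot]; ring
  have msec : mass (sec α β d D m 2) = 2 * (D + d) := by
    unfold sec; rw [mass_pl]; ring
  have mA : mass (uA adjA adjB o α β d D m env K) = K * (2 * D + d) + (2 * m + 2 * D + 2 * d) +
      (2 * (D + d) + mass (exc adjA adjB o α β d D m env K)) := by
    rw [huA, mass_add, mP, mass_add, msec]
  have hlQ : lit uQ ⊆ V3 α β d D m := by
    rw [huQ', lit_add]; exact Set.union_subset (lit_cor_V3 _) (lit_c1_V3 _)
  have hlP : lit uP ⊆ V3 α β d D m := by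
    rw [huP, lit_add]; exact Set.union_subset hlQ (lit_bot_V3 _)
  have hlA := lit_uA_V3 C o env K
  have hlM := lit_uM_V3 C K
  have ec0 : cyc α β d D m 0 = (α 0, β m) := cyc_zero
  have ecD : cyc α β d D m D = (α 0, β (m + D)) := cyc_col le_rfl
  have mem0 : (α 0, β m) ∈ V3 α β d D m := ec0 ▸ cyc_mem_V3 (Nat.zero_le _)
  have memD : (α 0, β (m + D)) ∈ V3 α β d D m := ecD ▸ cyc_mem_V3 (by omega)
  have hKexp : K * (2 * D + d + 3) = K * (2 * D + d) + 3 * K := by ring
  have hKexp2 : K * (2 * D + d) = 2 * D * K + d * K := by ring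
  have bQ := lef_bd hT hn (hlQ.trans hsub) (hsub memD) (bd q) (by rw [mQ]; omega)
  have bP := lef_bd hT hn (hlP.trans hsub) (hsub memD) (bd q) (by rw [mP]; omega)
  have bA := lef_bd hT hn (hlA.trans hsub) (hsub mem0) (bd q) (by rw [mA]; omega)
  have bM := lef_bd hT hn (hlM.trans hsub) (hsub mem0) (bd q) (by rw [mass_uM]; omega)
  rw [mQ] at bQ
  rw [mP] at bP
  rw [mA] at bA
  rw [mass_uM] at bM
  -- step 1
  have s1 : Reach (padj adjA adjB) o n (8 * d * (2 * (d * K) + 2 * d + 2 * R) + cst q)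
      (fil (padj adjA adjB) o n (α 0, β (m + D)) (env + uQ))
      (fil (padj adjA adjB) o n (α 0, β (m + D)) (env + uP)) := by
    have e1 : env + uQ = env + uQ + 0 := by rw [add_zero]
    have e2 : env + uP = env + uQ + bot α β d D m (K + 2) := by rw [huP, add_assoc]
    have b1 := bQ.2.1
    have b2 := bQ.2.2
    have b3 := bP.2.1
    have b4 := bP.2.2
    rw [e1] at b1 b2
    rw [e2] at b3 b4
    rw [e2]
    conv_lhs => rw [e1]
    have hmem : (α 0, β (m + D)) ∈ botF α β d (m + D) := mem_botF.2 ⟨0, by omega, rfl⟩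
    refine fil_reach hN hG o n (botF α β d (m + D)) (hub_botF C) (card_botF.trans (by omega))
      hmem hmem ?_ (lit_bot_botF _) b1 b3 ?_
    · rw [lit_zero]; exact Set.empty_subset _
    · rw [mass_zero, mbot]
      omega
  -- step 2
  have s2 : Reach (padj adjA adjB) o n
      (8 * (m + 2 * (D + d)) * (2 * (D + d) + 2 * K + 2 * R) + cst q)
      (fil (padj adjA adjB) o n (α 0, β (m + D)) (env + uP))
      (fil (padj adjA adjB) o n (α 0, β m) (env + uA adjA adjB o α β d D m env K)) := by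
    have e1 : env + uP = env + uP + 0 := by rw [add_zero]
    have e2 : env + uA adjA adjB o α β d D m env K = env + uP + (sec α β d D m 2 +
        exc adjA adjB o α β d D m env K) := by rw [huA, ← add_assoc]
    have b1 := bP.2.1
    have b2 := bP.2.2
    have b3 := bA.2.1
    have b4 := bA.2.2
    rw [e1] at b1 b2
    rw [e2] at b3 b4
    rw [e2]
    conv_lhs => rw [e1]
    refine fil_reach hN hG o n (V3 α β d D m) (hub_V3 C) (card_V3.trans hq)
      memD mem0 ?_ ?_ b1 b3 ?_
    · rw [lit_zero]; exact Set.empty_subset _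
    · rw [lit_add]
      exact Set.union_subset (lit_sec_V3 _) (lit_exc_V3 C o env K)
    · rw [mass_zero, mass_add, msec]
      omega
  -- step 3: the pump
  have hnA := nrm_fil hG bA.1
  obtain ⟨gB, g1, g2, g3, g4, g5⟩ := pump_half hP C (o := o) (env := env) n K
    (lef (padj adjA adjB) o n (α 0, β m) (env + uA adjA adjB o α β d D m env K)) (by
      rw [ec0]; exact hnA)
  rw [ec0] at g1 g2 g4 g5
  -- step 4
  have s4 : Reach (padj adjA adjB) o n
      (8 * (m + 2 * (D + d)) * (9 * K + 2 * m + 8 + 2 * R) + cst q)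
      ((α 0, β m), gB) (fil (padj adjA adjB) o n (α 0, β m) (env + uM α β d D m K)) := by
    refine naive_hub hN hG o n (V3 α β d D m) (hub_V3 C) (card_V3.trans hq) mem0 mem0 ?_
      (bA.2.1.trans g4) (bM.2.1.trans (lef_le_apply _ _)) g1 (nrm_fil hG bM.1) ?_
    · intro x hx
      have e1 : gB x = (env + uA adjA adjB o α β d D m env K) x := by
        refine g3 x fun i hi he => hx ?_
        rw [← he]
        exact cyc_mem_V3 (by omega)
      have e2 : uA adjA adjB o α β d D m env K x = 0 := by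
        by_contra hne
        exact hx (hlA hne)
      have e3 : uM α β d D m K x = 0 := by
        by_contra hne
        exact hx (hlM hne)
      have e4 : (Finsupp.single (α 0, β m) (lef (padj adjA adjB) o n (α 0, β m)
          (env + uM α β d D m K)) : A × B →₀ ℕ) x = 0 :=
        Finsupp.single_eq_of_ne (fun he => hx (he ▸ mem0))
      rw [e1, Finsupp.add_apply, Finsupp.add_apply, Finsupp.add_apply, e2, e3, e4]
    · have d1 := dif_of_add_eq (V3 α β d D m) g5
      have d2 := dif_add_le (V3 α β d D m) (env + uB α β d D m K)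
        (Finsupp.single (α 0, β m) (lef (padj adjA adjB) o n (α 0, β m)
          (env + uA adjA adjB o α β d D m env K)))
        (xM α β d D m K + Finsupp.single (α 0, β m) (lef (padj adjA adjB) o n (α 0, β m)
          (env + uM α β d D m K)))
      rw [mass_single, mass_add_single, mass_xM] at d2
      have e5 : env + uM α β d D m K + Finsupp.single (α 0, β m) (lef (padj adjA adjB) o n
          (α 0, β m) (env + uM α β d D m K)) = env + uB α β d D m K + (xM α β d D m K +
          Finsupp.single (α 0, β m) (lef (padj adjA adjB) o n (α 0, β m)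
            (env + uM α β d D m K))) := by
        conv_lhs => rw [uM_eq]
        rw [uM_eq]
        abel
      rw [e5]
      refine (dif_triangle _ _ _ _).trans ((add_le_add d1 d2).trans ?_)
      have b4 := bA.2.2
      have b6 := bM.2.2
      omega
  have hfin := ((s1.trans s2).trans g2).trans s4
  rw [huQ] at hfin
  refine hfin.mono ?_
  unfold hcost
  omega

end block

end Lab

end Pool.Agent.AD
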