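import Pool.Agent.AD.Defs

/-!
Facts about the tree: the Cayley graph of the free group of rank two.

The word `wd g` is the reduced word of the inverse of `g`, so that the last letters of `g` come
first and the prefixes of `g` are the suffixes of `wd g`.
-/

set_option autoImplicit false

namespace Pool.Agent.AD.Tree

/-- the reduced word of the inverse -/
def wd (g : FreeGroup Bool) : List (Bool × Bool) := g⁻¹.toWord

/-- the element with a given word -/
def el (l : List (Bool × Bool)) : FreeGroup Bool := (FreeGroup.mk l)⁻¹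

lemma wd_red (g : FreeGroup Bool) : FreeGroup.IsReduced (wd g) := FreeGroup.isReduced_toWord

lemma wd_one : wd 1 = [] := by
  unfold wd
  rw [inv_one, FreeGroup.toWord_one]

lemma wd_el {l : List (Bool × Bool)} (h : FreeGroup.IsReduced l) : wd (el l) = l := by
  unfold wd el
  rw [inv_inv, FreeGroup.toWord_mk]
  exact h.reduce_eq

lemma el_wd (g : FreeGroup Bool) : el (wd g) = g := by
  unfold el wd
  rw [FreeGroup.mk_toWord, inv_inv]

lemma el_nil : el [] = 1 := by
  rw [← wd_one, el_wd]

lemma wd_mul_of (a : FreeGroup Bool) (x : Bool) :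
    (∃ c, wd (a * FreeGroup.of x) = c :: wd a) ∨ ∃ c, wd a = c :: wd (a * FreeGroup.of x) := by
  have h : wd (a * FreeGroup.of x) = FreeGroup.reduce ((x, false) :: wd a) := by
    unfold wd
    rw [mul_inv_rev, FreeGroup.toWord_mul, FreeGroup.toWord_inv (FreeGroup.of x),
      FreeGroup.toWord_of]
    rfl
  rw [FreeGroup.reduce.cons, (wd_red a).reduce_eq] at h
  cases hw : wd a with
  | nil =>
    rw [hw] at h
    exact Or.inl ⟨(x, false), h⟩
  | cons hd tl =>
    rw [hw] at h
    simp only at h
    split_ifs at h with hc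
    · exact Or.inr ⟨hd, by rw [h]⟩
    · exact Or.inl ⟨(x, false), h⟩

lemma adj_wd {a b : FreeGroup Bool} (h : fadj a b) :
    (∃ c, wd b = c :: wd a) ∨ ∃ c, wd a = c :: wd b := by
  obtain ⟨x, h | h⟩ := h
  · subst h
    exact wd_mul_of a x
  · subst h
    exact (wd_mul_of b x).symm

lemma adj_symm {a b : FreeGroup Bool} (h : fadj a b) : fadj b a := by
  obtain ⟨x, h⟩ := h
  exact ⟨x, h.symm⟩

lemma adj_of_cons {a b : FreeGroup Bool} {c : Bool × Bool} (h : wd b = c :: wd a) :
    fadj a b := by
  have h1 : b = a * (FreeGroup.mk [c])⁻¹ := by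
    have h2 : b = el (wd b) := (el_wd b).symm
    rw [h] at h2
    have h3 : a = el (wd a) := (el_wd a).symm
    rw [h2]
    nth_rewrite 2 [h3]
    unfold el
    rw [← mul_inv_rev, FreeGroup.mul_mk]
    rfl
  obtain ⟨x, e⟩ := c
  refine ⟨x, ?_⟩
  cases e
  · left
    rw [h1]
    congr 1
  · right
    rw [h1]
    exact inv_mul_cancel_right a (FreeGroup.of x)

lemma adj_mul {a b : FreeGroup Bool} (x : FreeGroup Bool) (h : fadj a b) :
    fadj (x * a) (x * b) := by
  obtain ⟨y, h | h⟩ := h
  · exact ⟨y, Or.inl (by rw [mul_assoc, h])⟩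
  · exact ⟨y, Or.inr (by rw [mul_assoc, h])⟩

lemma adj_mul_iff {a b : FreeGroup Bool} (x : FreeGroup Bool) :
    fadj (x * a) (x * b) ↔ fadj a b := by
  constructor
  · intro h
    have h1 := adj_mul x⁻¹ h
    rwa [inv_mul_cancel_left, inv_mul_cancel_left] at h1
  · exact adj_mul x

/-- the retraction onto the path with word `t` -/
def rt (t : List (Bool × Bool)) (g : FreeGroup Bool) : ℕ :=
  Nat.findGreatest (fun i => t.drop (t.length - i) <:+ wd g) t.length

/-- the path with word `t` -/
def pt (t : List (Bool × Bool)) (i : ℕ) : FreeGroup Bool := el (t.drop (t.length - i))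

lemma wd_pt {t : List (Bool × Bool)} (ht : FreeGroup.IsReduced t) (i : ℕ) :
    wd (pt t i) = t.drop (t.length - i) :=
  wd_el (List.IsChain.drop ht _)

lemma drop_step (t : List (Bool × Bool)) {i : ℕ} (hi : i < t.length) :
    ∃ c, t.drop (t.length - (i + 1)) = c :: t.drop (t.length - i) := by
  have h1 : t.length - (i + 1) < t.length := by omega
  refine ⟨t[t.length - (i + 1)], ?_⟩
  rw [List.drop_eq_getElem_cons h1]
  congr 2
  omega

lemma findGreatest_congr {P Q : ℕ → Prop} [DecidablePred P] [DecidablePred Q] (n : ℕ)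
    (h : ∀ i ≤ n, (P i ↔ Q i)) : Nat.findGreatest P n = Nat.findGreatest Q n := by
  induction n with
  | zero => simp
  | succ n ih =>
    have ih' := ih fun i hi => h i (hi.trans (Nat.le_succ n))
    rw [Nat.findGreatest_succ, Nat.findGreatest_succ, ih']
    have h1 := h (n + 1) le_rfl
    by_cases hp : P (n + 1)
    · rw [if_pos hp, if_pos (h1.1 hp)]
    · rw [if_neg hp, if_neg fun hq => hp (h1.2 hq)]

lemma cross_aux {t : List (Bool × Bool)} {u v : FreeGroup Bool} {c : Bool × Bool}
    (h : wd v = c :: wd u) (hne : rt t u ≠ rt t v) :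
    ∃ i < t.length, u = pt t i ∧ v = pt t (i + 1) := by
  have h1 : ∃ i ≤ t.length, t.drop (t.length - i) = c :: wd u := by
    by_contra hc
    push Not at hc
    apply hne
    unfold rt
    refine findGreatest_congr _ fun i hi => ?_
    rw [h, List.suffix_cons_iff]
    constructor
    · intro h2
      exact Or.inr h2
    · rintro (h2 | h2)
      · exact absurd h2 (hc i hi)
      · exact h2
  obtain ⟨i, hi, h2⟩ := h1
  have h3 : i ≠ 0 := by
    rintro rfl
    rw [Nat.sub_zero, List.drop_length] at h2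
    exact absurd h2 (List.cons_ne_nil _ _).symm
  obtain ⟨j, rfl⟩ := Nat.exists_eq_succ_of_ne_zero h3
  have hj : j < t.length := hi
  refine ⟨j, hj, ?_, ?_⟩
  · obtain ⟨c', h4⟩ := drop_step t hj
    rw [Nat.succ_eq_add_one, h4] at h2
    unfold pt
    rw [(List.cons.inj h2).2, el_wd]
  · unfold pt
    rw [← Nat.succ_eq_add_one, h2, ← h, el_wd]

lemma lineRet_one {t : List (Bool × Bool)} (ht : FreeGroup.IsReduced t) :
    LineRet fadj (pt t) t.length (rt t) := by
  constructor
  · intro i hi
    obtain ⟨c, hc⟩ := drop_step t hi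
    refine adj_of_cons (c := c) ?_
    rw [wd_pt ht, wd_pt ht, hc]
  · intro i hi
    unfold rt
    rw [Nat.findGreatest_eq_iff]
    refine ⟨hi, fun _ => ?_, fun k hk hkn => ?_⟩
    · rw [wd_pt ht]
    · rw [wd_pt ht]
      intro hs
      have h1 := hs.length_le
      rw [List.length_drop, List.length_drop] at h1
      omega
  · intro u v huv hne
    rcases adj_wd huv with ⟨c, hc⟩ | ⟨c, hc⟩
    · obtain ⟨i, hi, h1, h2⟩ := cross_aux hc hne
      exact ⟨i, hi, Or.inl ⟨h1, h2⟩⟩
    · obtain ⟨i, hi, h1, h2⟩ := cross_aux hc hne.symm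
      exact ⟨i, hi, Or.inr ⟨h2, h1⟩⟩
  · intro u
    exact Nat.findGreatest_le _

lemma pt_zero (t : List (Bool × Bool)) : pt t 0 = 1 := by
  unfold pt
  rw [Nat.sub_zero, List.drop_length, el_nil]

lemma pt_length (t : List (Bool × Bool)) : pt t t.length = el t := by
  unfold pt
  rw [Nat.sub_self, List.drop_zero]

lemma lineRet_translate {α : ℕ → FreeGroup Bool} {L : ℕ} {ρ : FreeGroup Bool → ℕ}
    (h : LineRet fadj α L ρ) (x : FreeGroup Bool) :
    LineRet fadj (fun i => x * α i) L (fun g => ρ (x⁻¹ * g)) := by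
  constructor
  · intro i hi
    exact adj_mul x (h.adj_path i hi)
  · intro i hi
    simp only [inv_mul_cancel_left]
    exact h.val i hi
  · intro u v huv hne
    have h1 : fadj (x⁻¹ * u) (x⁻¹ * v) := adj_mul _ huv
    obtain ⟨i, hi, h2⟩ := h.cross _ _ h1 hne
    refine ⟨i, hi, ?_⟩
    rcases h2 with ⟨h2, h3⟩ | ⟨h2, h3⟩
    · left
      exact ⟨by rw [← h2, mul_inv_cancel_left], by rw [← h3, mul_inv_cancel_left]⟩
    · right
      exact ⟨by rw [← h2, mul_inv_cancel_left], by rw [← h3, mul_inv_cancel_left]⟩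
  · intro u
    exact h.le _

lemma length_le {k : ℕ} {w : ℕ → FreeGroup Bool} (h0 : w 0 = 1)
    (hw : ∀ i < k, fadj (w i) (w (i + 1))) : ∀ i ≤ k, (wd (w i)).length ≤ i := by
  intro i
  induction i with
  | zero =>
    intro _
    rw [h0, wd_one]
    exact le_rfl
  | succ i ih =>
    intro hi
    have h1 := ih (Nat.le_of_succ_le hi)
    rcases adj_wd (hw i hi) with ⟨c, hc⟩ | ⟨c, hc⟩
    · rw [hc, List.length_cons]
      omega
    · rw [hc, List.length_cons] at h1
      omega

lemma geodesic (x x' : FreeGroup Bool) :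
    ∃ (L : ℕ) (α : ℕ → FreeGroup Bool) (ρ : FreeGroup Bool → ℕ),
      LineRet fadj α L ρ ∧ α 0 = x ∧ α L = x' ∧ ∀ k, Tour fadj ∅ x x' k → L ≤ k := by
  refine ⟨(wd (x⁻¹ * x')).length, _, _, lineRet_translate (lineRet_one (wd_red (x⁻¹ * x'))) x,
    ?_, ?_, ?_⟩
  · simp only [pt_zero, mul_one]
  · simp only [pt_length, el_wd, mul_inv_cancel_left]
  · rintro k ⟨w, h0, hk, hw, -⟩
    have h1 := length_le (k := k) (w := fun i => x⁻¹ * w i) (by simp only [h0, inv_mul_cancel])
      (fun i hi => adj_mul _ (hw i hi)) k le_rfl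
    simp only [hk] at h1
    exact h1

lemma good : Good fadj := by
  refine ⟨fun h => adj_symm h, fun a b => ?_, ?_⟩
  · obtain ⟨L, α, ρ, h, h0, hL, -⟩ := geodesic a b
    exact ⟨L, α, h0, hL, h.adj_path, fun v hv => absurd hv (Set.notMem_empty v)⟩
  · refine ⟨fun g => (wd g).length.bodd, fun a b hab => ?_⟩
    rcases adj_wd hab with ⟨c, hc⟩ | ⟨c, hc⟩
    · simp only [hc, List.length_cons, Nat.bodd_succ]
      cases (wd a).length.bodd <;> simp
    · simp only [hc, List.length_cons, Nat.bodd_succ]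
      cases (wd b).length.bodd <;> simp

lemma three_letters (l : List (Bool × Bool)) (hl : FreeGroup.IsReduced l) :
    ∃ A : Finset (Bool × Bool), A.card = 3 ∧ ∀ c ∈ A, FreeGroup.IsReduced (c :: l) := by
  cases l with
  | nil =>
    refine ⟨{(true, true), (true, false), (false, true)}, rfl, fun c _ => ?_⟩
    exact FreeGroup.IsReduced.singleton
  | cons h tl =>
    refine ⟨Finset.univ.erase (h.1, !h.2), ?_, fun c hc => ?_⟩
    · rw [Finset.card_erase_of_mem (Finset.mem_univ _)]
      rfl
    · rw [FreeGroup.isReduced_cons_cons]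
      refine ⟨fun h1 => ?_, hl⟩
      by_contra h2
      apply Finset.ne_of_mem_erase hc
      refine Prod.ext h1 ?_
      cases h3 : c.2 <;> cases h4 : h.2 <;> simp_all

lemma ext (q : ℕ) : ∀ (F : Finset (FreeGroup Bool)) (l : List (Bool × Bool)),
    FreeGroup.IsReduced l → F.card < 3 ^ q →
    ∃ z, FreeGroup.IsReduced z ∧ l <:+ z ∧ z.length = l.length + q ∧ ∀ b ∈ F, ¬ z <:+ wd b := by
  classical
  induction q with
  | zero =>
    intro F l hl hF
    rw [pow_zero, Nat.lt_one_iff, Finset.card_eq_zero] at hF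
    subst hF
    exact ⟨l, hl, List.suffix_refl l, rfl, fun b hb => absurd hb (Finset.notMem_empty b)⟩
  | succ q ih =>
    intro F l hl hF
    obtain ⟨A, hA, hAr⟩ := three_letters l hl
    have h1 : ∃ c ∈ A, (F.filter fun b => (c :: l) <:+ wd b).card < 3 ^ q := by
      by_contra hc
      push Not at hc
      have h2 : (A.biUnion fun c => F.filter fun b => (c :: l) <:+ wd b).card =
          ∑ c ∈ A, (F.filter fun b => (c :: l) <:+ wd b).card := by
        refine Finset.card_biUnion fun c _ c' _ hne => Finset.disjoint_left.2 ?_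
        intro b hb hb'
        have h3 := List.suffix_iff_eq_drop.1 (Finset.mem_filter.1 hb).2
        have h4 := List.suffix_iff_eq_drop.1 (Finset.mem_filter.1 hb').2
        rw [List.length_cons] at h3 h4
        exact hne (List.cons.inj (h3.trans h4.symm)).1
      have h3 : (A.biUnion fun c => F.filter fun b => (c :: l) <:+ wd b).card ≤ F.card := by
        refine Finset.card_le_card fun b hb => ?_
        obtain ⟨c, _, h⟩ := Finset.mem_biUnion.1 hb
        exact (Finset.mem_filter.1 h).1
      have h4 : ∑ _c ∈ A, 3 ^ q ≤ ∑ c ∈ A, (F.filter fun b => (c :: l) <:+ wd b).card :=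
        Finset.sum_le_sum fun c hc' => hc c hc'
      rw [Finset.sum_const, hA, smul_eq_mul] at h4
      rw [pow_succ] at hF
      omega
    obtain ⟨c, hcA, hc⟩ := h1
    obtain ⟨z, hz, hs, hlen, hzb⟩ := ih _ (c :: l) (hAr c hcA) hc
    refine ⟨z, hz, (List.suffix_cons c l).trans hs, ?_, fun b hb hzs => ?_⟩
    · rw [hlen, List.length_cons]
      omega
    · exact hzb b (Finset.mem_filter.2 ⟨hb, hs.trans hzs⟩) hzs

lemma branch (F : Finset (FreeGroup Bool)) (y : FreeGroup Bool) (q M : ℕ) (hF : F.card < 3 ^ q) :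
    ∃ (α : ℕ → FreeGroup Bool) (ρ : FreeGroup Bool → ℕ), LineRet fadj α (q + M) ρ ∧ α 0 = y ∧
      ∀ b ∈ F, ρ b ≤ q := by
  classical
  obtain ⟨z, hz, -, hlen, hzb⟩ := ext q (F.image fun b => y⁻¹ * b) [] FreeGroup.IsReduced.nil
    (Finset.card_image_le.trans_lt hF)
  obtain ⟨t, ht, hs, htl, -⟩ := ext M ∅ z hz (by
    rw [Finset.card_empty]
    positivity)
  rw [List.length_nil, Nat.zero_add] at hlen
  rw [hlen] at htl
  have h1 := lineRet_translate (lineRet_one ht) y
  rw [htl] at h1
  refine ⟨_, _, h1, ?_, fun b hb => ?_⟩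
  · simp only [pt_zero, mul_one]
  · by_contra hc
    push Not at hc
    have hb' : y⁻¹ * b ∈ F.image fun b => y⁻¹ * b := Finset.mem_image_of_mem _ hb
    have h2 : rt t (y⁻¹ * b) ≠ 0 := by
      have : q < rt t (y⁻¹ * b) := hc
      omega
    have h3 : t.drop (t.length - rt t (y⁻¹ * b)) <:+ wd (y⁻¹ * b) :=
      Nat.findGreatest_of_ne_zero (P := fun i => t.drop (t.length - i) <:+ wd (y⁻¹ * b)) rfl h2
    have h4 : rt t (y⁻¹ * b) ≤ t.length := Nat.findGreatest_le _
    refine hzb _ hb' (List.IsSuffix.trans ?_ h3)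
    rw [List.suffix_iff_eq_drop.1 hs, hlen]
    have h5 : t.length - q = (t.length - rt t (y⁻¹ * b)) + (rt t (y⁻¹ * b) - q) := by
      have : q < rt t (y⁻¹ * b) := hc
      omega
    rw [h5, ← List.drop_drop]
    exact List.drop_suffix _ _

end Pool.Agent.AD.Tree

namespace Pool.Agent.AD

/-- a block of a line retract -/
lemma LineRet.block {V : Type*} {adj : V → V → Prop} {a : ℕ → V} {s d' r : ℕ} {ρ : V → ℕ}
    (h : LineRet adj a (s + d' + r) ρ) :
    LineRet adj (fun i => a (s + i)) d' (fun u => min (ρ u - s) d') := by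
  constructor
  · intro i hi
    exact h.adj_path (s + i) (by omega)
  · intro i hi
    have h1 := h.val (s + i) (by omega)
    simp only [h1]
    omega
  · intro u v huv hne
    have h1 : ρ u ≠ ρ v := fun he => hne (by simp only [he])
    obtain ⟨i, hi, h2⟩ := h.cross u v huv h1
    have e1 := h.val i hi.le
    have e2 := h.val (i + 1) hi
    rcases h2 with ⟨rfl, rfl⟩ | ⟨rfl, rfl⟩
    · simp only [e1, e2] at hne
      refine ⟨i - s, by omega, Or.inl ⟨?_, ?_⟩⟩
      · congr 1
        omega
      · congr 1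
        omega
    · simp only [e1, e2] at hne
      refine ⟨i - s, by omega, Or.inr ⟨?_, ?_⟩⟩
      · congr 1
        omega
      · congr 1
        omega
  · intro u
    exact min_le_right _ _

/-- the reversed line retract -/
lemma LineRet.rev {V : Type*} {adj : V → V → Prop} (hs : ∀ {x y}, adj x y → adj y x)
    {a : ℕ → V} {d : ℕ} {ρ : V → ℕ} (h : LineRet adj a d ρ) :
    LineRet adj (fun i => a (d - i)) d (fun u => d - ρ u) := by
  constructor
  · intro i hi
    have h1 := hs (h.adj_path (d - (i + 1)) (by omega))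
    have h2 : d - (i + 1) + 1 = d - i := by omega
    rw [h2] at h1
    exact h1
  · intro i hi
    have h1 := h.val (d - i) (by omega)
    simp only [h1]
    omega
  · intro u v huv hne
    have h1 : ρ u ≠ ρ v := fun he => hne (by simp only [he])
    obtain ⟨i, hi, h2⟩ := h.cross u v huv h1
    refine ⟨d - (i + 1), by omega, ?_⟩
    have h3 : d - (d - (i + 1)) = i + 1 := by omega
    have h4 : d - (d - (i + 1) + 1) = i := by omega
    simp only [h3, h4]
    exact h2.symm
  · intro u
    exact Nat.sub_le _ _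

theorem tree : TREE_Stmt :=
  ⟨Tree.good, Tree.geodesic, Tree.branch⟩

end Pool.Agent.AD
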