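import Pool.Agent.AD.PI
import Pool.Agent.AD.Tree
import Pool.Agent.AD.Moves

/-!
MP_072aa0_al: the cycle of the laboratory and the pump inequality along it (for module LAB).
-/

set_option autoImplicit false

namespace Pool.Agent.AD

namespace LabGeo

/-- A sequence which goes up or down by one in each of `L` steps and gains at least `L - 4` goes down
at most twice. -/
theorem downs_le {f : ℕ → ℕ} {L : ℕ} (h : ∀ i < L, f (i + 1) = f i + 1 ∨ f i = f (i + 1) + 1)
    (h2 : f 0 + L ≤ f L + 4) :
    ((Finset.range L).filter fun i => f (i + 1) ≠ f i + 1).card ≤ 2 := by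
  have key : ∀ n ≤ L, f n + 2 * ((Finset.range n).filter fun i => f (i + 1) ≠ f i + 1).card =
      f 0 + n := by
    intro n
    induction n with
    | zero => simp
    | succ n ih =>
      intro hn
      have h1 := ih (by omega)
      rw [Finset.range_add_one, Finset.filter_insert]
      split_ifs with hc
      · rw [Finset.card_insert_of_notMem (by simp)]
        rcases h n (by omega) with h3 | h3 <;> omega
      · omega
  have := key L le_rfl
  omega

/-- A sequence which goes up or down by one in each of `L` steps and loses at least `L - 4` goes up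
at most twice. -/
theorem ups_le {f : ℕ → ℕ} {L : ℕ} (h : ∀ i < L, f (i + 1) = f i + 1 ∨ f i = f (i + 1) + 1)
    (h2 : f L + L ≤ f 0 + 4) :
    ((Finset.range L).filter fun i => f (i + 1) = f i + 1).card ≤ 2 := by
  have key : ∀ n ≤ L, f n + n = f 0 +
      2 * ((Finset.range n).filter fun i => f (i + 1) = f i + 1).card := by
    intro n
    induction n with
    | zero => simp
    | succ n ih =>
      intro hn
      have h1 := ih (by omega)
      rw [Finset.range_add_one, Finset.filter_insert]
      split_ifs with hc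
      · rw [Finset.card_insert_of_notMem (by simp)]
        omega
      · rcases h n (by omega) with h3 | h3 <;> omega
  have := key L le_rfl
  omega

variable {A B : Type} {adjA : A → A → Prop} {adjB : B → B → Prop}

theorem S0_finite {S : Set (A × B)} (hSf : S.Finite) (α : ℕ → A) (β : ℕ → B) (d D m : ℕ) :
    (S ∪ corr (α 0) β m ∪ rect α β d m D).Finite := by
  refine (hSf.union ?_).union ?_
  · refine ((Set.finite_Iic m).image fun j => (α 0, β j)).subset ?_
    rintro v ⟨j, -, hj, rfl⟩
    exact ⟨j, hj, rfl⟩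
  · refine (((Set.finite_Iic d).prod (Set.finite_Iic (m + D))).image
      fun x => (α x.1, β x.2)).subset ?_
    rintro v (⟨j, hj1, hj2, rfl | rfl⟩ | ⟨i, hi, rfl | rfl⟩)
    · exact ⟨(0, j), ⟨Nat.zero_le _, hj2⟩, rfl⟩
    · exact ⟨(d, j), ⟨Set.mem_Iic.2 le_rfl, hj2⟩, rfl⟩
    · exact ⟨(i, m), ⟨hi, Nat.le_add_right _ _⟩, rfl⟩
    · exact ⟨(i, m + D), ⟨hi, Set.mem_Iic.2 le_rfl⟩, rfl⟩

/-- On the way from the corner of the corridor to the opposite corner the tour length goes down at
most twice, on the way back it goes up at most twice. -/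
theorem half_bounds (hA : Good adjA) (hB : Good adjB) {d D m : ℕ} (hd : 2 ≤ d) (hD : 2 ≤ D)
    (hm : 4 * (D + d) ≤ m) {α : ℕ → A} {ρ : A → ℕ} (hα : LineRet adjA α d ρ)
    {β : ℕ → B} {p : B → ℕ} (hβ : LineRet adjB β (m + D) p)
    {o : A × B} (ho : p o.2 = 0) {S : Set (A × B)} (hSf : S.Finite) (hS : ∀ v ∈ S, p v.2 = 0)
    {T : Set (A × B)} (hT : T = S ∪ corr (α 0) β m ∪ rect α β d m D)
    {v : ℕ → A × B} (hv : ∀ i < 2 * (D + d), padj adjA adjB (v i) (v (i + 1)))
    (hv0 : v 0 = (α 0, β m)) (hv1 : v (D + d) = (α d, β (m + D)))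
    (hv2 : v (2 * (D + d)) = (α 0, β m)) :
    ((Finset.range (D + d)).filter fun i =>
      tsp (padj adjA adjB) T o (v (i + 1)) ≠ tsp (padj adjA adjB) T o (v i) + 1).card ≤ 2 ∧
    ((Finset.range (D + d)).filter fun i =>
      tsp (padj adjA adjB) T o (v (D + d + i + 1)) =
        tsp (padj adjA adjB) T o (v (D + d + i)) + 1).card ≤ 2 := by
  have hG := PIaux.good_padj hA hB
  have hpi := pi adjA adjB hA hB d D m hd hD hm α ρ hα β p hβ o ho S hSf hS
  have hTf : T.Finite := hT ▸ S0_finite hSf α β d D m
  rw [← hT] at hpi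
  constructor
  · refine downs_le (f := fun i => tsp (padj adjA adjB) T o (v i)) (fun i hi => ?_) ?_
    · exact hG.tsp_adj hTf (hv i (by omega))
    · show tsp (padj adjA adjB) T o (v 0) + (D + d) ≤ tsp (padj adjA adjB) T o (v (D + d)) + 4
      rw [hv0, hv1]
      exact hpi
  · refine ups_le (f := fun i => tsp (padj adjA adjB) T o (v (D + d + i))) (fun i hi => ?_) ?_
    · exact hG.tsp_adj hTf (hv (D + d + i) (by omega))
    · show tsp (padj adjA adjB) T o (v (D + d + (D + d))) + (D + d) ≤
        tsp (padj adjA adjB) T o (v (D + d + 0)) + 4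
      rw [show D + d + (D + d) = 2 * (D + d) by omega, show D + d + 0 = D + d from rfl, hv2, hv1]
      exact hpi

/-- The cycle around the rectangle `[0, d] × [m, m + D]`, from the corner `(0, m)` along the column
`0` first. -/
def cyc (α : ℕ → A) (β : ℕ → B) (d D m : ℕ) (i : ℕ) : A × B :=
  if i ≤ D then (α 0, β (m + i))
  else if i ≤ D + d then (α (i - D), β (m + D))
  else if i ≤ D + d + D then (α d, β (m + (D - (i - (D + d)))))
  else (α (d - (i - (D + d + D))), β m)

/-- The same cycle in the opposite direction, along the row `m` first. -/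
def cycr (α : ℕ → A) (β : ℕ → B) (d D m : ℕ) (i : ℕ) : A × B :=
  cyc α β d D m (2 * (D + d) - i)

theorem cyc_zero (α : ℕ → A) (β : ℕ → B) (d D m : ℕ) : cyc α β d D m 0 = (α 0, β m) := by
  simp [cyc]

theorem cyc_mid (α : ℕ → A) (β : ℕ → B) {d D m : ℕ} (hd : 1 ≤ d) :
    cyc α β d D m (D + d) = (α d, β (m + D)) := by
  unfold cyc
  rw [if_neg (by omega), if_pos le_rfl, Nat.add_sub_cancel_left]

theorem cyc_end (α : ℕ → A) (β : ℕ → B) {d D m : ℕ} (hd : 1 ≤ d) :
    cyc α β d D m (2 * (D + d)) = (α 0, β m) := by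
  unfold cyc
  rw [if_neg (by omega), if_neg (by omega), if_neg (by omega)]
  congr 2
  omega

theorem cyc_adj (hB : Good adjB) (hA : Good adjA) {α : ℕ → A} {ρ : A → ℕ} {d D m : ℕ}
    (hα : LineRet adjA α d ρ) {β : ℕ → B} {p : B → ℕ} (hβ : LineRet adjB β (m + D) p) (i : ℕ)
    (hi : i < 2 * (D + d)) : padj adjA adjB (cyc α β d D m i) (cyc α β d D m (i + 1)) := by
  unfold cyc
  by_cases h1 : i + 1 ≤ D
  · rw [if_pos h1, if_pos (by omega)]
    exact Or.inr ⟨rfl, hβ.adj_path (m + i) (by omega)⟩
  by_cases h2 : i + 1 ≤ D + d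
  · rw [if_neg h1, if_pos h2]
    have h3 := hα.adj_path (i - D) (by omega)
    rw [show i - D + 1 = i + 1 - D by omega] at h3
    by_cases h4 : i ≤ D
    · rw [if_pos h4]
      have : i = D := by omega
      subst this
      rw [Nat.sub_self] at h3
      exact Or.inl ⟨h3, rfl⟩
    · rw [if_neg h4, if_pos (by omega)]
      exact Or.inl ⟨h3, rfl⟩
  by_cases h3 : i + 1 ≤ D + d + D
  · rw [if_neg h1, if_neg h2, if_pos h3]
    have h5 := hB.symm (hβ.adj_path (m + (D - (i + 1 - (D + d)))) (by omega))
    by_cases h4 : i ≤ D + d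
    · have e : i = D + d := by omega
      subst e
      rw [show m + (D - (D + d + 1 - (D + d))) + 1 = m + D by omega] at h5
      by_cases h6 : D + d ≤ D
      · have : d = 0 := by omega
        subst this
        rw [if_pos (by omega)]
        exact Or.inr ⟨rfl, h5⟩
      · rw [if_neg h6, if_pos le_rfl, Nat.add_sub_cancel_left]
        exact Or.inr ⟨rfl, h5⟩
    · rw [if_neg (by omega), if_neg h4, if_pos (by omega)]
      rw [show m + (D - (i + 1 - (D + d))) + 1 = m + (D - (i - (D + d))) by omega] at h5
      exact Or.inr ⟨rfl, h5⟩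
  · rw [if_neg h1, if_neg h2, if_neg h3]
    have h5 := hA.symm (hα.adj_path (d - (i + 1 - (D + d + D))) (by omega))
    rw [show d - (i + 1 - (D + d + D)) + 1 = d - (i - (D + d + D)) by omega] at h5
    by_cases h4 : i ≤ D + d + D
    · have e : i = D + d + D := by omega
      subst e
      rw [Nat.sub_self, Nat.sub_zero] at h5
      by_cases h6 : D + d + D ≤ D
      · omega
      · by_cases h7 : D + d + D ≤ D + d
        · have : D = 0 := by omega
          subst this
          rw [if_neg h6, if_pos (by omega)]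
          refine Or.inl ⟨?_, rfl⟩
          rw [show 0 + d + 0 - 0 = d by omega]
          exact h5
        · rw [if_neg h6, if_neg h7, if_pos le_rfl]
          refine Or.inl ⟨h5, ?_⟩
          show β (m + (D - (D + d + D - (D + d)))) = β m
          congr 1
          omega
    · rw [if_neg (by omega), if_neg (by omega), if_neg h4]
      exact Or.inl ⟨h5, rfl⟩

theorem cyc_mem (α : ℕ → A) (β : ℕ → B) (d D m : ℕ) (i : ℕ) :
    cyc α β d D m i ∈ rect α β d m D := by
  unfold cyc
  split_ifs with h1 h2 h3
  · exact Or.inl ⟨m + i, by omega, by omega, Or.inl rfl⟩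
  · exact Or.inr ⟨i - D, by omega, Or.inr rfl⟩
  · exact Or.inl ⟨_, Nat.le_add_right _ _, by omega, Or.inr rfl⟩
  · exact Or.inr ⟨_, Nat.sub_le _ _, Or.inl rfl⟩

theorem exists_cyc {α : ℕ → A} {β : ℕ → B} {d D m : ℕ} (hd : 1 ≤ d) {v : A × B}
    (hv : v ∈ rect α β d m D) : ∃ i < 2 * (D + d), cyc α β d D m i = v := by
  rcases hv with ⟨j, hj1, hj2, rfl | rfl⟩ | ⟨i, hi, rfl | rfl⟩
  · refine ⟨j - m, by omega, ?_⟩
    unfold cyc
    rw [if_pos (by omega), show m + (j - m) = j by omega]
  · refine ⟨D + d + (m + D - j), by omega, ?_⟩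
    unfold cyc
    rw [if_neg (by omega)]
    by_cases h : j = m + D
    · subst h
      rw [if_pos (by omega)]
      congr 2
      omega
    · rw [if_neg (by omega), if_pos (by omega)]
      congr 2
      omega
  · by_cases h : i = 0
    · subst h
      exact ⟨0, by omega, cyc_zero α β d D m⟩
    · refine ⟨D + d + D + (d - i), by omega, ?_⟩
      unfold cyc
      rw [if_neg (by omega)]
      by_cases h4 : D + d + D + (d - i) ≤ D + d
      · have hD : D = 0 := by omega
        have hid : i = d := by omega
        subst hD hid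
        rw [if_pos h4]
        congr 2
        omega
      · rw [if_neg h4]
        by_cases h5 : i = d
        · subst h5
          rw [if_pos (by omega)]
          congr 2
          omega
        · rw [if_neg (by omega)]
          congr 2
          omega
  · refine ⟨D + i, by omega, ?_⟩
    unfold cyc
    by_cases h : i = 0
    · subst h
      rw [if_pos (by omega)]
      rfl
    · rw [if_neg (by omega), if_pos (by omega)]
      congr 2
      omega

theorem cyc_inj {α : ℕ → A} {ρ : A → ℕ} {d D m : ℕ} (hd : 1 ≤ d) (hD : 1 ≤ D)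
    (hα : LineRet adjA α d ρ) {β : ℕ → B} {p : B → ℕ} (hβ : LineRet adjB β (m + D) p)
    {i j : ℕ} (hi : i < 2 * (D + d)) (hj : j < 2 * (D + d))
    (h : cyc α β d D m i = cyc α β d D m j) : i = j := by
  have key : ∀ i < 2 * (D + d), ρ (cyc α β d D m i).1 =
      (if i ≤ D then 0 else if i ≤ D + d then i - D else if i ≤ D + d + D then d
        else d - (i - (D + d + D))) ∧ p (cyc α β d D m i).2 =
      (if i ≤ D then m + i else if i ≤ D + d then m + D else
        if i ≤ D + d + D then m + (D - (i - (D + d))) else m) := by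
    intro i hi
    unfold cyc
    split_ifs with h1 h2 h3
    · exact ⟨hα.val _ (by omega), hβ.val _ (by omega)⟩
    · exact ⟨hα.val _ (by omega), hβ.val _ (by omega)⟩
    · exact ⟨hα.val _ (by omega), hβ.val _ (by omega)⟩
    · exact ⟨hα.val _ (by omega), hβ.val _ (by omega)⟩
  have k1 := key i hi
  have k2 := key j hj
  rw [h] at k1
  have e1 := k1.1.symm.trans k2.1
  have e2 := k1.2.symm.trans k2.2
  split_ifs at e1 e2 <;> omega

end LabGeo

end Pool.Agent.AD
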