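import Pool.Agent.AD.Moves
import Pool.Agent.AD.Tree

/-!
MP_072aa0_al: moving a heap over the distance `d ^ 3` (MOVE_Stmt).
-/

set_option autoImplicit false

namespace Pool.Agent.AD.Mv

variable {X : Type} {adj : X → X → Prop} {o : X} {n : ℕ}

/-- the norm of a heap -/
lemma nrm_heap (hG : Good adj) (o c : X) (env : X →₀ ℕ) (H : ℕ) :
    nrm adj o (c, env + Finsupp.single c H) = tsp adj (lit env) o c + mass env + H := by
  rw [nrm_eq, mass_add_single]
  rcases Nat.eq_zero_or_pos H with rfl | hH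
  · rw [Finsupp.single_zero, add_zero]
    omega
  · rw [lit_add_single _ _ hH.ne', hG.tsp_insert_self (lit_finite env)]
    omega

lemma tsp_path (hG : Good adj) (o : X) (S : Set X) (hS : S.Finite) (w : ℕ → X) (l : ℕ)
    (hw : ∀ i < l, adj (w i) (w (i + 1))) :
    tsp adj S o (w l) ≤ tsp adj S o (w 0) + l ∧ tsp adj S o (w 0) ≤ tsp adj S o (w l) + l := by
  induction l with
  | zero => exact ⟨le_rfl, le_rfl⟩
  | succ l ih =>
    have h1 := ih fun i hi => hw i (by omega)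
    rcases hG.tsp_adj hS (o := o) (hw l (by omega)) with h2 | h2 <;> omega

lemma dif_le (V : Finset X) (a b : X) (env : X →₀ ℕ) (H H' : ℕ) :
    dif V (env + Finsupp.single a H) (env + Finsupp.single b H') ≤ H + H' := by
  classical
  have h1 : ∀ (a : X) (H : ℕ), ∑ x ∈ V, Finsupp.single a H x ≤ H := by
    intro a H
    simp only [Finsupp.single_apply]
    rw [Finset.sum_ite_eq]
    split_ifs
    · exact le_rfl
    · exact Nat.zero_le _
  calc dif V (env + Finsupp.single a H) (env + Finsupp.single b H')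
      ≤ ∑ x ∈ V, (Finsupp.single a H x + Finsupp.single b H' x) := by
        refine Finset.sum_le_sum fun x _ => ?_
        rw [Finsupp.add_apply, Finsupp.add_apply]
        omega
    _ = ∑ x ∈ V, Finsupp.single a H x + ∑ x ∈ V, Finsupp.single b H' x :=
        Finset.sum_add_distrib
    _ ≤ H + H' := Nat.add_le_add (h1 a H) (h1 b H')

lemma bd_mono {a b : ℕ} (h : a ≤ b) : bd a ≤ bd b := by
  unfold bd
  gcongr

lemma cst_mono {a b : ℕ} (h : a ≤ b) : cst a ≤ cst b := by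
  unfold cst
  gcongr

/-- a heap is moved along an injective path by NAIVE -/
lemma heap_naive (hN : NAIVE_Stmt) (hG : Good adj) (o : X) (n : ℕ) (w : ℕ → X) (l : ℕ)
    (hw : ∀ i < l, adj (w i) (w (i + 1))) (hinj : ∀ i ≤ l, ∀ j ≤ l, w i = w j → i = j)
    (env : X →₀ ℕ) (H : ℕ) (hH : bd (l + 1) + l ≤ H)
    (hn : nrm adj o (w 0, env + Finsupp.single (w 0) H) = n + 1) :
    ∃ H' : ℕ, H ≤ H' + l ∧ H' ≤ H + l ∧
      nrm adj o (w l, env + Finsupp.single (w l) H') = n + 1 ∧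
      Reach adj o n (4 * l * (2 * H + l) + cst (l + 1)) (w 0, env + Finsupp.single (w 0) H)
        (w l, env + Finsupp.single (w l) H') := by
  classical
  obtain ⟨h1, h2⟩ := tsp_path hG o (lit env) (lit_finite env) w l hw
  rw [nrm_heap hG] at hn
  set T0 := tsp adj (lit env) o (w 0) with hT0
  set Tl := tsp adj (lit env) o (w l) with hTl
  have hbd : 0 ≤ bd (l + 1) := Nat.zero_le _
  have hn' : nrm adj o (w l, env + Finsupp.single (w l) (H + T0 - Tl)) = n + 1 := by
    rw [nrm_heap hG, ← hTl]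
    omega
  refine ⟨H + T0 - Tl, by omega, by omega, hn', ?_⟩
  set V : Finset X := (Finset.range (l + 1)).image w with hV
  have hVc : V.card = l + 1 := by
    rw [hV, Finset.card_image_of_injOn, Finset.card_range]
    intro i hi j hj hij
    rw [Finset.coe_range, Set.mem_Iio] at hi hj
    exact hinj i (by omega) j (by omega) hij
  have hmem : ∀ i ≤ l, w i ∈ V := fun i hi =>
    Finset.mem_image_of_mem w (Finset.mem_range.2 (by omega))
  have hpath : ∀ a ∈ V, ∀ b ∈ V, ∃ k ≤ l, PathIn adj V a b k := by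
    intro a ha b hb
    obtain ⟨i, hi, rfl⟩ := Finset.mem_image.1 ha
    obtain ⟨j, hj, rfl⟩ := Finset.mem_image.1 hb
    rw [Finset.mem_range] at hi hj
    rcases le_total i j with hij | hij
    · refine ⟨j - i, by omega, fun t => w (i + t), rfl, ?_, fun t ht => ?_, fun t ht => ?_⟩
      · show w (i + (j - i)) = w j
        congr 1
        omega
      · exact hw (i + t) (by omega)
      · exact hmem _ (by omega)
    · refine ⟨i - j, by omega, fun t => w (i - t), rfl, ?_, fun t ht => ?_, fun t ht => ?_⟩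
      · show w (i - (i - j)) = w j
        congr 1
        omega
      · have h3 := hG.symm (hw (i - (t + 1)) (by omega))
        have h4 : i - (t + 1) + 1 = i - t := by omega
        rw [h4] at h3
        exact h3
      · exact hmem _ (by omega)
  have hrun := hN adj hG o n V l (by omega) hpath (w 0) (hmem 0 (by omega)) (w l) (hmem l le_rfl)
    (env + Finsupp.single (w 0) H) (env + Finsupp.single (w l) (H + T0 - Tl)) ?_ ?_ ?_ ?_ hn'
  · refine hrun.mono ?_
    rw [hVc]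
    have h3 := dif_le V (w 0) (w l) env H (H + T0 - Tl)
    have h4 : dif V (env + Finsupp.single (w 0) H) (env + Finsupp.single (w l) (H + T0 - Tl)) ≤
        2 * H + l := by omega
    gcongr
  · intro x hx
    have hx0 : x ≠ w 0 := fun h => hx (h ▸ hmem 0 (by omega))
    have hxl : x ≠ w l := fun h => hx (h ▸ hmem l le_rfl)
    rw [Finsupp.add_apply, Finsupp.add_apply, Finsupp.single_eq_of_ne hx0,
      Finsupp.single_eq_of_ne hxl]
  · rw [hVc, Finsupp.add_apply, Finsupp.single_eq_same]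
    omega
  · rw [hVc, Finsupp.add_apply, Finsupp.single_eq_same]
    omega
  · rw [nrm_heap hG]
    exact hn

section product

variable {A B : Type} {adjA : A → A → Prop} {adjB : B → B → Prop}

lemma tour_fst {a a' : A} {k : ℕ} (b : B) (h : Tour adjA ∅ a a' k) :
    Tour (padj adjA adjB) ∅ (a, b) (a', b) k := by
  obtain ⟨w, h0, h1, h2, -⟩ := h
  exact ⟨fun i => (w i, b), by simp only [h0], by simp only [h1],
    fun i hi => Or.inl ⟨h2 i hi, rfl⟩, fun v hv => absurd hv (Set.notMem_empty v)⟩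

lemma tour_snd {b b' : B} {k : ℕ} (a : A) (h : Tour adjB ∅ b b' k) :
    Tour (padj adjA adjB) ∅ (a, b) (a, b') k := by
  obtain ⟨w, h0, h1, h2, -⟩ := h
  exact ⟨fun i => (a, w i), by simp only [h0], by simp only [h1],
    fun i hi => Or.inr ⟨rfl, h2 i hi⟩, fun v hv => absurd hv (Set.notMem_empty v)⟩

lemma good_padj (hA : Good adjA) (hB : Good adjB) : Good (padj adjA adjB) := by
  refine ⟨?_, ?_, ?_⟩
  · rintro x y (⟨h1, h2⟩ | ⟨h1, h2⟩)
    · exact Or.inl ⟨hA.symm h1, h2.symm⟩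
    · exact Or.inr ⟨h1.symm, hB.symm h2⟩
  · rintro ⟨a, b⟩ ⟨a', b'⟩
    obtain ⟨k, hk⟩ := hA.conn a a'
    obtain ⟨l, hl⟩ := hB.conn b b'
    exact ⟨k + l, ((tour_fst b hk).trans (tour_snd a' hl)).mono (Set.empty_subset _)⟩
  · obtain ⟨χ, hχ⟩ := hA.bip
    obtain ⟨χ', hχ'⟩ := hB.bip
    refine ⟨fun x => xor (χ x.1) (χ' x.2), ?_⟩
    rintro x y (⟨h1, h2⟩ | ⟨h1, h2⟩)
    · have h3 := hχ _ _ h1
      simp only [h2]
      intro h4
      apply h3
      revert h4
      cases χ x.1 <;> cases χ y.1 <;> cases χ' y.2 <;> simp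
    · have h3 := hχ' _ _ h2
      simp only [h1]
      intro h4
      apply h3
      revert h4
      cases χ y.1 <;> cases χ' x.2 <;> cases χ' y.2 <;> simp

/-- along a walk in the product the index grows by at most one in each step -/
lemma ret_le {α : ℕ → A} {L : ℕ} {ρ : A → ℕ} (h : LineRet adjA α L ρ) {k : ℕ} {w : ℕ → A × B}
    (h0 : (w 0).1 = α 0) (hw : ∀ i < k, padj adjA adjB (w i) (w (i + 1))) :
    ∀ i ≤ k, ρ (w i).1 ≤ i := by
  intro i
  induction i with
  | zero =>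
    intro _
    rw [h0, h.val 0 (Nat.zero_le _)]
  | succ i ih =>
    intro hi
    have h1 := ih (by omega)
    rcases hw i (by omega) with ⟨h2, -⟩ | ⟨h2, -⟩
    · by_cases h3 : ρ (w i).1 = ρ (w (i + 1)).1
      · omega
      · obtain ⟨j, hj, h4⟩ := h.cross _ _ h2 h3
        rcases h4 with ⟨h5, h6⟩ | ⟨h5, h6⟩
        · rw [h6, h.val (j + 1) hj]
          rw [h5, h.val j hj.le] at h1
          omega
        · rw [h6, h.val j hj.le]
          rw [h5, h.val (j + 1) hj] at h1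
          omega
    · rw [← h2]
      omega

lemma card_support_le {X : Type} (g : X →₀ ℕ) : g.support.card ≤ mass g := by
  unfold mass Finsupp.sum
  rw [Finset.card_eq_sum_ones]
  refine Finset.sum_le_sum fun x hx => ?_
  exact Nat.one_le_iff_ne_zero.2 (Finsupp.mem_support_iff.1 hx)

lemma d_ineq1 {d : ℕ} (hd : 2 ≤ d) : d + 1 ≤ d ^ 2 := by nlinarith

lemma d_ineq2 {d : ℕ} (hd : 2 ≤ d) : d + 3 ≤ d ^ 3 := by
  have h1 : 4 * d ≤ d ^ 3 := by
    have : d ^ 3 = d * d * d := by ring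
    rw [this]
    have : 2 * 2 ≤ d * d := Nat.mul_le_mul hd hd
    nlinarith
  omega

lemma cst_le {d : ℕ} (hd : 2 ≤ d) : cst (d + 2) ≤ d ^ 38 := by
  unfold cst
  have h1 : (10 : ℕ) ^ 6 ≤ d ^ 20 := calc
    (10 : ℕ) ^ 6 ≤ 2 ^ 20 := by norm_num
    _ ≤ d ^ 20 := Nat.pow_le_pow_left hd 20
  have h2 : (d + 2 + 1) ^ 6 ≤ (d ^ 3) ^ 6 := Nat.pow_le_pow_left (d_ineq2 hd) 6
  calc 10 ^ 6 * (d + 2 + 1) ^ 6 ≤ d ^ 20 * (d ^ 3) ^ 6 := Nat.mul_le_mul h1 h2
    _ = d ^ 38 := by ring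

lemma bd_le {d : ℕ} (hd : 2 ≤ d) : bd (d + 2) + (d + 1) ≤ d ^ 20 := by
  unfold bd
  have h1 : (1000 : ℕ) ≤ d ^ 10 := calc
    (1000 : ℕ) ≤ 2 ^ 10 := by norm_num
    _ ≤ d ^ 10 := Nat.pow_le_pow_left hd 10
  have h2 : (d + 2 + 1) ^ 3 ≤ (d ^ 3) ^ 3 := Nat.pow_le_pow_left (d_ineq2 hd) 3
  have h3 : 1000 * (d + 2 + 1) ^ 3 ≤ d ^ 19 := calc
    1000 * (d + 2 + 1) ^ 3 ≤ d ^ 10 * (d ^ 3) ^ 3 := Nat.mul_le_mul h1 h2
    _ = d ^ 19 := by ring
  have h4 : d + 1 ≤ d ^ 19 := (d_ineq1 hd).trans (Nat.pow_le_pow_right (by omega) (by omega))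
  have h5 : 2 * d ^ 19 ≤ d ^ 20 := by
    rw [pow_succ d 19]
    nlinarith [Nat.zero_le (d ^ 19)]
  omega

/-- a power is at least four times a smaller power -/
lemma four_pow {d : ℕ} (hd : 2 ≤ d) {a b : ℕ} (h : a + 2 ≤ b) : 4 * d ^ a ≤ d ^ b := calc
  4 * d ^ a ≤ d ^ 2 * d ^ a := by
    have : 2 ^ 2 ≤ d ^ 2 := Nat.pow_le_pow_left hd 2
    exact Nat.mul_le_mul_right _ this
  _ = d ^ (a + 2) := by ring
  _ ≤ d ^ b := Nat.pow_le_pow_right (by omega) h

lemma cost_le {d l H Hi : ℕ} (hd : 2 ≤ d) (hl : l ≤ d + 1) (hH : d + 1 ≤ H) (hi : Hi ≤ 2 * H) :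
    4 * l * (2 * Hi + l) + cst (l + 1) ≤ 20 * H * d ^ 2 + d ^ 38 := by
  have h1 : cst (l + 1) ≤ d ^ 38 := (cst_mono (by omega)).trans (cst_le hd)
  have h2 : 4 * l * (2 * Hi + l) ≤ 4 * d ^ 2 * (5 * H) :=
    Nat.mul_le_mul (Nat.mul_le_mul_left 4 (hl.trans (d_ineq1 hd))) (by omega)
  have h3 : 4 * d ^ 2 * (5 * H) = 20 * H * d ^ 2 := by ring
  omega

end product

section moveA

variable {A B : Type} {adjA : A → A → Prop} {adjB : B → B → Prop}

/-- the LAB statement with its constant -/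
def LabC (C : ℕ) : Prop :=
  ∀ {A B : Type} (adjA : A → A → Prop) (adjB : B → B → Prop), Good adjA → Good adjB →
    ∀ (d N : ℕ), 2 ≤ d → N ≤ d ^ 2 →
    ∀ (α : ℕ → A) (ρ : A → ℕ), LineRet adjA α (N * d) ρ →
    ∀ (β : ℕ → B) (p : B → ℕ), LineRet adjB β (4 * (d ^ 2 + d) + d ^ 2) p →
    ∀ o : A × B, p o.2 = 0 → ∀ env : A × B →₀ ℕ, (∀ v, env v ≠ 0 → p v.2 = 0) →
    ∀ n H : ℕ, d ^ C ≤ H →
      nrm (padj adjA adjB) o ((α 0, β 1), env + Finsupp.single (α 0, β 1) H) = n + 1 →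
      ∃ H' : ℕ, H ≤ H' + d ^ C ∧ H' ≤ H + d ^ C ∧
        nrm (padj adjA adjB) o ((α (N * d), β 1), env + Finsupp.single (α (N * d), β 1) H') = n + 1 ∧
        Reach (padj adjA adjB) o n (C * H * d ^ 2 + d ^ C)
          ((α 0, β 1), env + Finsupp.single (α 0, β 1) H)
          ((α (N * d), β 1), env + Finsupp.single (α (N * d), β 1) H')

/-- empty branches -/
def Branchy (adjB : B → B → Prop) : Prop :=
  ∀ (F : Finset B) (y : B) (q M : ℕ), F.card < 3 ^ q →
    ∃ (α : ℕ → B) (ρ : B → ℕ), LineRet adjB α (q + M) ρ ∧ α 0 = y ∧ ∀ b ∈ F, ρ b ≤ q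

lemma lineRet_inj {V : Type*} {adj : V → V → Prop} {a : ℕ → V} {d : ℕ} {ρ : V → ℕ}
    (h : LineRet adj a d ρ) {i j : ℕ} (hi : i ≤ d) (hj : j ≤ d) (he : a i = a j) : i = j := by
  rw [← h.val i hi, he, h.val j hj]

/-- the heap moves in the first factor over a distance at most `d ^ 3` -/
lemma moveA (hN : NAIVE_Stmt) {C : ℕ} (hL : LabC C) (hA : Good adjA) (hB : Good adjB)
    (hBr : Branchy adjB) {d n : ℕ} (hd : 2 ≤ d) (hn6 : n + 6 ≤ 2 ^ d) {α : ℕ → A} {L : ℕ}
    {ρ : A → ℕ} (hα : LineRet adjA α L ρ) (hLd : L ≤ d ^ 3) (y : B) (o : A × B)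
    (env : A × B →₀ ℕ) (H : ℕ) (hH : d ^ (2 * C + 60) ≤ H)
    (hn : nrm (padj adjA adjB) o ((α 0, y), env + Finsupp.single (α 0, y) H) = n + 1) :
    ∃ H' : ℕ, H ≤ H' + d ^ (2 * C + 60) ∧ H' ≤ H + d ^ (2 * C + 60) ∧
      nrm (padj adjA adjB) o ((α L, y), env + Finsupp.single (α L, y) H') = n + 1 ∧
      Reach (padj adjA adjB) o n ((2 * C + 120) * H * d ^ 2 + d ^ (2 * C + 60))
        ((α 0, y), env + Finsupp.single (α 0, y) H)
        ((α L, y), env + Finsupp.single (α L, y) H') := by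
  classical
  have hG := good_padj hA hB
  -- the empty branch
  have hF : (insert o.2 (env.support.image Prod.snd)).card < 3 ^ d := by
    have h1 : (insert o.2 (env.support.image Prod.snd)).card ≤ env.support.card + 1 :=
      (Finset.card_insert_le _ _).trans (Nat.add_le_add_right Finset.card_image_le 1)
    have h2 := card_support_le env
    have h3 : mass env ≤ n + 1 := by
      rw [nrm_heap hG] at hn
      omega
    have h4 : 2 ^ d ≤ 3 ^ d := Nat.pow_le_pow_left (by norm_num) d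
    omega
  obtain ⟨β0, ρ0, hβ0, hβy, hρ0⟩ := hBr _ y d (4 * (d ^ 2 + d) + d ^ 2) hF
  have hβ : LineRet adjB (fun i => β0 (d + i)) (4 * (d ^ 2 + d) + d ^ 2)
      (fun u => min (ρ0 u - d) (4 * (d ^ 2 + d) + d ^ 2)) :=
    LineRet.block (s := d) (d' := 4 * (d ^ 2 + d) + d ^ 2) (r := 0) (by
      rw [Nat.add_zero]
      exact hβ0)
  have hp : ∀ b ∈ insert o.2 (env.support.image Prod.snd),
      min (ρ0 b - d) (4 * (d ^ 2 + d) + d ^ 2) = 0 := by
    intro b hb
    have := hρ0 b hb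
    have h1 : ρ0 b - d = 0 := by omega
    rw [h1, Nat.zero_min]
  have hMpos : d + 1 ≤ d + (4 * (d ^ 2 + d) + d ^ 2) := by
    have : 0 < d ^ 2 := by positivity
    omega
  -- the first factor
  set N := L / d with hNdef
  have hN2 : N ≤ d ^ 2 := by
    rw [hNdef]
    refine Nat.div_le_of_le_mul ?_
    calc L ≤ d ^ 3 := hLd
      _ = d * d ^ 2 := by ring
  have hNL : N * d ≤ L := Nat.div_mul_le_self L d
  have hLr : L - N * d < d := by
    have h1 := Nat.div_add_mod L d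
    have h2 := Nat.mod_lt L (show 0 < d by omega)
    have h3 : N * d = d * (L / d) := by rw [hNdef, mul_comm]
    omega
  have hα1 : LineRet adjA α (N * d) (fun u => min (ρ u) (N * d)) := by
    have h1 : LineRet adjA (fun i => α (0 + i)) (N * d) (fun u => min (ρ u - 0) (N * d)) :=
      LineRet.block (s := 0) (d' := N * d) (r := L - N * d) (by
        have : 0 + N * d + (L - N * d) = L := by omega
        rw [this]
        exact hα)
    simpa only [Nat.zero_add, Nat.sub_zero] using h1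
  -- inequalities between powers
  have hd0 : 1 ≤ d := by omega
  have hP : ∀ a b, a ≤ b → d ^ a ≤ d ^ b := fun a b h => Nat.pow_le_pow_right hd0 h
  have e1 : d + 1 ≤ d ^ 2 := d_ineq1 hd
  have e2 : d ^ 2 ≤ d ^ (2 * C + 58) := hP _ _ (by omega)
  have e3 : d ^ C ≤ d ^ (2 * C + 56) := hP _ _ (by omega)
  have e4 : 4 * d ^ (2 * C + 58) ≤ d ^ (2 * C + 60) := four_pow hd le_rfl
  have e5 : bd (d + 2) + (d + 1) ≤ d ^ 20 := bd_le hd
  have e5' : bd (d + 1 + 1) + (d + 1) ≤ d ^ 20 := bd_le hd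
  have e6 : d ^ 20 ≤ d ^ (2 * C + 56) := hP _ _ (by omega)
  have e7 : 4 * d ^ (2 * C + 56) ≤ d ^ (2 * C + 58) := four_pow hd le_rfl
  have e8 : d ^ 38 ≤ d ^ (2 * C + 56) := hP _ _ (by omega)
  have e9 : d ^ 2 ≤ d ^ (2 * C + 56) := hP _ _ (by omega)
  -- step 1
  obtain ⟨H1, a1, a2, a3, a4⟩ := heap_naive hN hG o n (fun i => (α 0, β0 i)) (d + 1)
    (fun i hi => Or.inr ⟨rfl, hβ0.adj_path i (by omega)⟩)
    (fun i hi j hj hij => lineRet_inj hβ0 (by omega) (by omega) (congrArg Prod.snd hij))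
    env H (by omega) (by simpa only [hβy] using hn)
  simp only [hβy] at a4
  -- step 2
  obtain ⟨H2, b1, b2, b3, b4⟩ := hL adjA adjB hA hB d N hd hN2 α _ hα1 (fun i => β0 (d + i)) _ hβ
    o (hp o.2 (Finset.mem_insert_self _ _)) env (fun v hv => hp v.2 (Finset.mem_insert_of_mem
      (Finset.mem_image_of_mem _ (Finsupp.mem_support_iff.2 hv)))) n H1 (by omega) a3
  -- step 3
  obtain ⟨H3, c1, c2, c3, c4⟩ := heap_naive hN hG o n (fun i => (α (N * d), β0 (d + 1 - i))) (d + 1)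
    (fun i hi => Or.inr ⟨rfl, by
      have h1 := hB.symm (hβ0.adj_path (d + 1 - (i + 1)) (by omega))
      have h2 : d + 1 - (i + 1) + 1 = d + 1 - i := by omega
      rw [h2] at h1
      exact h1⟩)
    (fun i hi j hj hij => by
      have := lineRet_inj hβ0 (i := d + 1 - i) (j := d + 1 - j) (by omega) (by omega)
        (congrArg Prod.snd hij)
      omega)
    env H2 (by omega) (by simpa only [Nat.sub_zero] using b3)
  simp only [Nat.sub_zero, Nat.sub_self, hβy] at c3 c4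
  -- step 4
  obtain ⟨H4, f1, f2, f3, f4⟩ := heap_naive hN hG o n (fun i => (α (N * d + i), y)) (L - N * d)
    (fun i hi => Or.inl ⟨hα.adj_path (N * d + i) (by omega), rfl⟩)
    (fun i hi j hj hij => by
      have := lineRet_inj hα (i := N * d + i) (j := N * d + j) (by omega) (by omega)
        (congrArg Prod.fst hij)
      omega)
    env H3 (by
      have := bd_mono (show L - N * d + 1 ≤ d + 2 by omega)
      omega) (by simpa only [Nat.add_zero] using c3)
  have hsum : N * d + (L - N * d) = L := by omega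
  simp only [hsum, Nat.add_zero] at f3 f4
  refine ⟨H4, by omega, by omega, f3, ?_⟩
  refine (((a4.trans b4).trans c4).trans f4).mono ?_
  have g1 := cost_le (l := d + 1) (H := H) (Hi := H) hd le_rfl (by omega) (by omega)
  have g3 := cost_le (l := d + 1) (H := H) (Hi := H2) hd le_rfl (by omega) (by omega)
  have g4 := cost_le (l := L - N * d) (H := H) (Hi := H3) hd (by omega) (by omega) (by omega)
  have g2 : C * H1 * d ^ 2 ≤ 2 * C * H * d ^ 2 := by
    have : C * H1 ≤ 2 * C * H := by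
      calc C * H1 ≤ C * (2 * H) := Nat.mul_le_mul_left C (by omega)
        _ = 2 * C * H := by ring
    exact Nat.mul_le_mul_right _ this
  have g5 : (2 * C + 120) * H * d ^ 2 = 2 * C * H * d ^ 2 + 6 * (20 * H * d ^ 2) := by ring
  rw [g5]
  omega

end moveA

/-- exchange of the two factors -/
lemma moveB (hN : NAIVE_Stmt) {C : ℕ} (hL : LabC C) {A B : Type} {adjA : A → A → Prop}
    {adjB : B → B → Prop} (hA : Good adjA) (hB : Good adjB)
    (hBr : Branchy adjA) {d n : ℕ} (hd : 2 ≤ d) (hn6 : n + 6 ≤ 2 ^ d) {α : ℕ → B} {L : ℕ}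
    {ρ : B → ℕ} (hα : LineRet adjB α L ρ) (hLd : L ≤ d ^ 3) (x : A) (o : A × B)
    (env : A × B →₀ ℕ) (H : ℕ) (hH : d ^ (2 * C + 60) ≤ H)
    (hn : nrm (padj adjA adjB) o ((x, α 0), env + Finsupp.single (x, α 0) H) = n + 1) :
    ∃ H' : ℕ, H ≤ H' + d ^ (2 * C + 60) ∧ H' ≤ H + d ^ (2 * C + 60) ∧
      nrm (padj adjA adjB) o ((x, α L), env + Finsupp.single (x, α L) H') = n + 1 ∧
      Reach (padj adjA adjB) o n ((2 * C + 120) * H * d ^ 2 + d ^ (2 * C + 60))
        ((x, α 0), env + Finsupp.single (x, α 0) H)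
        ((x, α L), env + Finsupp.single (x, α L) H') := by
  have he : ∀ a b : A × B, padj adjA adjB a b ↔
      padj adjB adjA (Equiv.prodComm A B a) (Equiv.prodComm A B b) := by
    intro a b
    unfold padj
    simp only [Equiv.prodComm_apply, Prod.fst_swap, Prod.snd_swap]
    tauto
  have he' : ∀ a b : B × A, padj adjB adjA a b ↔
      padj adjA adjB (Equiv.prodComm B A a) (Equiv.prodComm B A b) := by
    intro a b
    unfold padj
    simp only [Equiv.prodComm_apply, Prod.fst_swap, Prod.snd_swap]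
    tauto
  have hmap : ∀ (c : B) (K : ℕ), mapSt (Equiv.prodComm A B)
      ((x, c), env + Finsupp.single (x, c) K) =
      ((c, x), env.mapDomain (Equiv.prodComm A B) + Finsupp.single (c, x) K) := by
    intro c K
    unfold mapSt
    simp only [Finsupp.mapDomain_add, Finsupp.mapDomain_single, Equiv.prodComm_apply,
      Prod.swap_prod_mk]
  have hmap' : ∀ (c : B) (K : ℕ), mapSt (Equiv.prodComm B A)
      ((c, x), env.mapDomain (Equiv.prodComm A B) + Finsupp.single (c, x) K) =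
      ((x, c), env + Finsupp.single (x, c) K) := by
    intro c K
    unfold mapSt
    have h1 : Finsupp.mapDomain (Equiv.prodComm B A)
        (Finsupp.mapDomain (Equiv.prodComm A B) env) = env := by
      rw [← Finsupp.mapDomain_comp]
      have : (Equiv.prodComm B A : B × A → A × B) ∘ (Equiv.prodComm A B : A × B → B × A) = id := by
        funext v
        simp
      rw [this, Finsupp.mapDomain_id]
    simp only [Finsupp.mapDomain_add, Finsupp.mapDomain_single, Equiv.prodComm_apply,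
      Prod.swap_prod_mk, h1]
  have hn' := nrm_map (o := o) (Equiv.prodComm A B) he ((x, α 0), env + Finsupp.single (x, α 0) H)
  rw [hmap, hn] at hn'
  obtain ⟨H', h1, h2, h3, h4⟩ := moveA hN hL hB hA hBr hd hn6 hα hLd x (Equiv.prodComm A B o)
    (env.mapDomain (Equiv.prodComm A B)) H hH hn'
  refine ⟨H', h1, h2, ?_, ?_⟩
  · rw [← nrm_map (o := o) (Equiv.prodComm A B) he, hmap]
    exact h3
  · have h5 := h4.map (Equiv.prodComm B A) he'
    rw [hmap', hmap'] at h5
    exact h5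

end Pool.Agent.AD.Mv

namespace Pool.Agent.AD

theorem move (hN : NAIVE_Stmt) (hLab : LAB_Stmt) : MOVE_Stmt := by
  obtain ⟨C, hL⟩ := hLab
  have hL' : Mv.LabC C := hL
  obtain ⟨hT, hgeo, hbr⟩ := tree
  refine ⟨6 * C + 400, ?_⟩
  intro d n hd hn6 o c c' k hk hc env H hH hn
  obtain ⟨x, y⟩ := c
  obtain ⟨x', y'⟩ := c'
  obtain ⟨w, hw0, hwk, hw, -⟩ := hc
  -- the two geodesics
  obtain ⟨L1, α1, ρ1, hα1, h10, h1L, -⟩ := hgeo x x'
  obtain ⟨L2, α2, ρ2, hα2, h20, h2L, -⟩ := hgeo y y'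
  have hL1 : L1 ≤ d ^ 3 := by
    have h := Mv.ret_le (adjB := fadj) hα1 (w := w) (by rw [hw0, h10]) hw k le_rfl
    rw [hwk, ← h1L, hα1.val L1 le_rfl] at h
    exact h.trans hk
  have hL2 : L2 ≤ d ^ 3 := by
    have h := Mv.ret_le (adjB := fadj) hα2 (w := fun i => (w i).swap)
      (by simp only [hw0, h20, Prod.fst_swap]) (fun i hi => by
        rcases hw i hi with ⟨h1, h2⟩ | ⟨h1, h2⟩
        · exact Or.inr ⟨h2, h1⟩
        · exact Or.inl ⟨h2, h1⟩) k le_rfl
    simp only [hwk, Prod.fst_swap] at h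
    rw [← h2L, hα2.val L2 le_rfl] at h
    exact h.trans hk
  have hd0 : 1 ≤ d := by omega
  have e1 : 4 * d ^ (2 * C + 60) ≤ d ^ (6 * C + 400) := Mv.four_pow hd (by omega)
  have e2 : 1 ≤ d ^ (2 * C + 60) := Nat.one_le_pow _ _ hd0
  obtain ⟨H1, a1, a2, a3, a4⟩ := Mv.moveA hN hL' hT hT hbr hd hn6 hα1 hL1 y o env H (by omega)
    (by rw [h10]; exact hn)
  rw [h10, h1L] at a4
  rw [h1L] at a3
  obtain ⟨H2, b1, b2, b3, b4⟩ := Mv.moveB hN hL' hT hT hbr hd hn6 hα2 hL2 x' o env H1 (by omega)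
    (by rw [h20]; exact a3)
  rw [h20, h2L] at b4
  rw [h2L] at b3
  refine ⟨H2, by omega, by omega, b3, (a4.trans b4).mono ?_⟩
  have g1 : (2 * C + 120) * H1 * d ^ 2 ≤ (2 * C + 120) * (2 * H) * d ^ 2 :=
    Nat.mul_le_mul_right _ (Nat.mul_le_mul_left _ (by omega))
  have g2 : (6 * C + 400) * H * d ^ 2 = (2 * C + 120) * H * d ^ 2 +
      (2 * C + 120) * (2 * H) * d ^ 2 + 40 * H * d ^ 2 := by ring
  rw [g2]
  omega

end Pool.Agent.AD
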