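import Pool.Agent.AD.Moves

/-!
MP_072aa0_al: naive rearrangements of loads on a small connected set.
-/

set_option autoImplicit false

namespace Pool.Agent.AD

open Finsupp

variable {X : Type*} {adj : X → X → Prop} {o : X} {n : ℕ}

/-! ### Paths -/

theorem PathIn.zero {V : Finset X} {a : X} (ha : a ∈ V) : PathIn adj V a a 0 :=
  ⟨fun _ => a, rfl, rfl, fun i hi => absurd hi (Nat.not_lt_zero i), fun _ _ => ha⟩

theorem PathIn.left_mem {V : Finset X} {a b : X} {k : ℕ} (p : PathIn adj V a b k) : a ∈ V := by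
  obtain ⟨w, h0, h1, h2, h3⟩ := p
  rw [← h0]
  exact h3 0 (Nat.zero_le _)

theorem PathIn.right_mem {V : Finset X} {a b : X} {k : ℕ} (p : PathIn adj V a b k) : b ∈ V := by
  obtain ⟨w, h0, h1, h2, h3⟩ := p
  rw [← h1]
  exact h3 k le_rfl

theorem PathIn.mono {V V' : Finset X} {a b : X} {k : ℕ} (p : PathIn adj V a b k) (h : V ⊆ V') :
    PathIn adj V' a b k := by
  obtain ⟨w, h0, h1, h2, h3⟩ := p
  exact ⟨w, h0, h1, h2, fun i hi => h (h3 i hi)⟩

theorem PathIn.eq_of_zero {V : Finset X} {a b : X} (p : PathIn adj V a b 0) : a = b := by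
  obtain ⟨w, h0, h1, h2, h3⟩ := p
  rw [← h0, ← h1]

theorem PathIn.uncons {V : Finset X} {a c : X} {k : ℕ} (p : PathIn adj V a c (k + 1)) :
    ∃ b, adj a b ∧ PathIn adj V b c k := by
  obtain ⟨w, h0, h1, h2, h3⟩ := p
  refine ⟨w 1, ?_, fun i => w (i + 1), rfl, h1, fun i hi => h2 (i + 1) (by omega),
    fun i hi => h3 (i + 1) (by omega)⟩
  rw [← h0]
  exact h2 0 (by omega)

theorem PathIn.snoc {V : Finset X} {a b c : X} {k : ℕ} (p : PathIn adj V a b k) (h : adj b c)
    (hc : c ∈ V) : PathIn adj V a c (k + 1) := by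
  obtain ⟨w, h0, h1, h2, h3⟩ := p
  refine ⟨fun i => if i ≤ k then w i else c, by simpa using h0, by simp, fun i hi => ?_,
    fun i hi => ?_⟩
  · by_cases hk : i + 1 ≤ k
    · simp only [hk, show i ≤ k by omega, if_true]
      exact h2 i (by omega)
    · have : i = k := by omega
      subst this
      simp [h1, h]
  · by_cases hk : i ≤ k
    · simp only [hk, if_true]
      exact h3 i hk
    · simp only [hk, if_false]
      exact hc

/-! ### Transfers at a distance -/

theorem wstep_add {u u' c : X} {h : X →₀ ℕ} (hc : h c ≠ 0) (hu' : 1 ≤ h u') (M : ℕ) :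
    wstep adj o u u' (h + single c M) = wstep adj o u u' h + single c M := by
  unfold wstep
  rw [lit_add_single_of_ne hc]
  split_ifs
  · exact (tsub_add_eq_add_tsub (Finsupp.single_le_iff.mpr hu')).symm
  · rw [add_right_comm]

theorem nrm_congr {c : X} {g g' : X →₀ ℕ} (hl : lit g = lit g') (hm : mass g = mass g') :
    nrm adj o (c, g) = nrm adj o (c, g') := by
  rw [nrm_eq, nrm_eq, hl, hm]

theorem nrm_single_single {s c c' : X} {h : X →₀ ℕ} (hc : h c ≠ 0) (hc' : h c' ≠ 0) (M : ℕ) :
    nrm adj o (s, h + single c M) = nrm adj o (s, h + single c' M) :=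
  nrm_congr (by rw [lit_add_single_of_ne hc, lit_add_single_of_ne hc'])
    (by rw [mass_add_single, mass_add_single])

theorem Good.transfer_far (hG : Good adj) {A : Finset X} {u u' : X} (huu : adj u u')
    (hu'A : u' ∈ A) (M k : ℕ) : ∀ {s : X} {h : X →₀ ℕ}, PathIn adj A s u k →
      (∀ x ∈ A, 2 + k ≤ h x) → nrm adj o (s, h + single u M) = n + 1 →
      Reach adj o n (4 * k + 4 * M) (s, h + single u M) (s, h + single u' M) := by
  induction k with
  | zero =>
    intro s h p hh hn
    obtain rfl := p.eq_of_zero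
    have h1 := hh s p.left_mem
    have h2 := hh u' hu'A
    exact (hG.transfer huu M (by omega) (by omega) hn).2.mono (by omega)
  | succ k ih =>
    intro s h p hh hn
    have huA := p.right_mem
    obtain ⟨s1, hs1, q⟩ := p.uncons
    have h1 := hh u huA
    have h2 := hh u' hu'A
    have h3 := hh s1 q.left_mem
    have hn2 : nrm adj o (s, h + single u' M) = n + 1 := by
      rw [← hn]
      exact nrm_single_single (by omega) (by omega) M
    refine (hG.conj (k := 4 * k + 4 * M) hs1 (by simp; omega) (by simp; omega) hn hn2 ?_).mono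
      (by omega)
    have hw := (hG.walk_step hs1 (g := h + single u M) (by simp; omega) hn).1
    rw [wstep_add (by omega) (by omega)] at hw ⊢
    rw [wstep_add (by omega) (by omega)]
    refine ih q (fun x hx => ?_) hw
    have := (wstep_apply_bounds (adj := adj) (o := o) s s1 x h).2
    have := hh x hx
    omega

/-- Moving `M` units along a path, with the cursor at `s`. -/
theorem Good.move_path (hG : Good adj) {A : Finset X} {s : X} {D : ℕ}
    (hs : ∀ b ∈ A, ∃ k ≤ D, PathIn adj A s b k) (M l : ℕ) {h : X →₀ ℕ}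
    (hh : ∀ x ∈ A, 2 + D ≤ h x) : ∀ {a b : X}, PathIn adj A a b l →
      nrm adj o (s, h + single a M) = n + 1 →
      Reach adj o n (l * (4 * D + 4 * M)) (s, h + single a M) (s, h + single b M) := by
  induction l with
  | zero =>
    intro a b p hn
    obtain rfl := p.eq_of_zero
    have h0 : InW adj o n (s, h + single a M) := inW_of_eq hn (by omega) (by omega)
    exact (Reach.refl h0).mono (by omega)
  | succ l ih =>
    intro a b p hn
    have haA := p.left_mem
    obtain ⟨a1, ha1, q⟩ := p.uncons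
    obtain ⟨k, hk, pk⟩ := hs a haA
    have h1 := hh a haA
    have h2 := hh a1 q.left_mem
    have r1 := hG.transfer_far ha1 q.left_mem M k pk (fun x hx => by
      have := hh x hx
      omega) hn
    have hn2 : nrm adj o (s, h + single a1 M) = n + 1 := by
      rw [← hn]
      exact nrm_single_single (by omega) (by omega) M
    refine (r1.trans (ih q hn2)).mono ?_
    have e1 : (l + 1) * (4 * D + 4 * M) = l * (4 * D + 4 * M) + (4 * D + 4 * M) := by ring
    omega

/-! ### Rearrangement -/

theorem exists_lt_of_mass {g g' : X →₀ ℕ} (hm : mass g' ≤ mass g) (hne : g ≠ g') :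
    ∃ a, g' a < g a := by
  by_contra hcon
  push Not at hcon
  obtain ⟨d, hd⟩ : ∃ d, g' = g + d := ⟨g' - g, (add_tsub_cancel_of_le hcon).symm⟩
  have h1 : mass d = 0 := by
    have := mass_add g d
    rw [← hd] at this
    omega
  apply hne
  have h2 : d = 0 := by
    ext x
    by_contra hx
    have h3 : d x ≤ mass d := by
      unfold mass Finsupp.sum
      exact Finset.single_le_sum (f := fun a => d a) (fun _ _ => Nat.zero_le _)
        (Finsupp.mem_support_iff.mpr hx)
    simp at hx
    omega
  rw [hd, h2, add_zero]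

theorem Good.rearr (hG : Good adj) {V : Finset X} {δ : ℕ}
    (hV : ∀ a ∈ V, ∀ b ∈ V, ∃ k ≤ δ, PathIn adj V a b k) {s : X} (hs : s ∈ V) (m : ℕ) :
    ∀ (g g' : X →₀ ℕ), (∃ W : Finset X, W.card ≤ m ∧ W ⊆ V ∧ ∀ x, g x ≠ g' x → x ∈ W) →
      (∀ x ∈ V, 2 + δ ≤ g x) → (∀ x ∈ V, 2 + δ ≤ g' x) →
      nrm adj o (s, g) = n + 1 → nrm adj o (s, g') = n + 1 →
      Reach adj o n (2 * δ * dif V g g' + m * (4 * δ * δ)) (s, g) (s, g') := by
  classical
  induction m with
  | zero =>
    rintro g g' ⟨W, hW1, hW2, hW3⟩ hg hg' hn hn'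
    have hW : W = ∅ := Finset.card_eq_zero.mp (by omega)
    subst hW
    have : g = g' := by
      ext x
      by_contra hx
      exact absurd (hW3 x hx) (by simp)
    subst this
    have h0 : InW adj o n (s, g) := inW_of_eq hn (by omega) (by omega)
    exact (Reach.refl h0).mono (by omega)
  | succ m ih =>
    rintro g g' ⟨W, hW1, hW2, hW3⟩ hg hg' hn hn'
    by_cases hgg : g = g'
    · subst hgg
      have h0 : InW adj o n (s, g) := inW_of_eq hn (by omega) (by omega)
      exact (Reach.refl h0).mono (by omega)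
    have hl : lit g = lit g' := by
      ext x
      simp only [lit, Set.mem_setOf_eq]
      by_cases hx : x ∈ V
      · have := hg x hx
        have := hg' x hx
        omega
      · have : g x = g' x := by
          by_contra h
          exact hx (hW2 (hW3 x h))
        rw [this]
    have hm : mass g = mass g' := by
      rw [nrm_eq] at hn hn'
      rw [hl] at hn
      omega
    obtain ⟨a, ha⟩ := exists_lt_of_mass hm.ge hgg
    obtain ⟨b, hb⟩ := exists_lt_of_mass hm.le (Ne.symm hgg)
    have haW : a ∈ W := hW3 a (by omega)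
    have hbW : b ∈ W := hW3 b (by omega)
    have haV := hW2 haW
    have hbV := hW2 hbW
    have hab : a ≠ b := by
      rintro rfl
      omega
    set M := min (g a - g' a) (g' b - g b) with hM
    have hM1 : M ≤ g a - g' a := min_le_left _ _
    have hM2 : M ≤ g' b - g b := min_le_right _ _
    have hM3 : M = g a - g' a ∨ M = g' b - g b := by
      rcases min_choice (g a - g' a) (g' b - g b) with h | h
      · exact Or.inl h
      · exact Or.inr h
    obtain ⟨h, hh⟩ := exists_add_single (show M ≤ g a by omega)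
    have ha' : h a + M = g a := by rw [hh]; simp
    have hx' : ∀ x, x ≠ a → h x = g x := by
      intro x hx
      rw [hh]
      simp [Finsupp.single_eq_of_ne hx]
    have hhV : ∀ x ∈ V, 2 + δ ≤ h x := by
      intro x hx
      by_cases hxa : x = a
      · subst hxa
        have := hg' x hx
        omega
      · rw [hx' x hxa]
        exact hg x hx
    have h1a := hhV a haV
    have h1b := hhV b hbV
    set g1 := h + single b M with hg1
    have hn1 : nrm adj o (s, g1) = n + 1 := by
      rw [← hn, hh]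
      exact nrm_single_single (by omega) (by omega) M
    have g1a : g1 a = h a := by
      rw [hg1]
      simp [Finsupp.single_eq_of_ne hab]
    have g1b : g1 b = g b + M := by
      rw [hg1, ← hx' b hab.symm]
      simp
    have g1x : ∀ x, x ≠ a → x ≠ b → g1 x = g x := by
      intro x hxa hxb
      rw [hg1]
      simp [Finsupp.single_eq_of_ne hxb, hx' x hxa]
    obtain ⟨l, hl, pl⟩ := hV a haV b hbV
    have r1 := hG.move_path (hV s hs) M l hhV pl (by rw [← hh]; exact hn)
    rw [← hh, ← hg1] at r1
    -- the new set of differences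
    obtain ⟨z, hzW, hz⟩ : ∃ z ∈ W, g1 z = g' z := by
      rcases hM3 with h3 | h3
      · exact ⟨a, haW, by omega⟩
      · exact ⟨b, hbW, by omega⟩
    have hzm : (W.erase z).card ≤ m := by
      rw [Finset.card_erase_of_mem hzW]
      omega
    have r2 := ih g1 g' ⟨W.erase z, hzm, (Finset.erase_subset _ _).trans hW2, by
      intro x hx
      refine Finset.mem_erase.mpr ⟨?_, ?_⟩
      · rintro rfl
        exact hx hz
      · by_cases hxa : x = a
        · rw [hxa]; exact haW
        · by_cases hxb : x = b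
          · rw [hxb]; exact hbW
          · rw [g1x x hxa hxb] at hx
            exact hW3 x hx⟩ (by
      intro x hx
      have := hhV x hx
      rw [hg1]
      simp
      omega) hg' hn1 hn'
    -- the distances
    have hd : dif V g1 g' + 2 * M = dif V g g' := by
      unfold dif
      have e : ∀ f : X → ℕ, ∑ x ∈ V, f x = f a + f b + ∑ x ∈ (V.erase a).erase b, f x := by
        intro f
        rw [← Finset.add_sum_erase V f haV,
          ← Finset.add_sum_erase (V.erase a) f (Finset.mem_erase.mpr ⟨hab.symm, hbV⟩)]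
        omega
      rw [e, e]
      have e2 : ∑ x ∈ (V.erase a).erase b, ((g1 x - g' x) + (g' x - g1 x)) =
          ∑ x ∈ (V.erase a).erase b, ((g x - g' x) + (g' x - g x)) := by
        refine Finset.sum_congr rfl fun x hx => ?_
        rw [Finset.mem_erase, Finset.mem_erase] at hx
        rw [g1x x hx.2.1 hx.1]
      rw [e2]
      omega
    refine (r1.trans r2).mono ?_
    rw [← hd]
    have h5 : l * (4 * δ + 4 * M) ≤ δ * (4 * δ + 4 * M) := Nat.mul_le_mul_right _ hl
    nlinarith

/-! ### Building up a rich configuration -/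

/-- The operation at the cursor `u`: the neighbour `x` gets at least `L` units. -/
theorem Good.grow_local (hG : Good adj) {u x : X} (hux : adj u x) (hne : x ≠ u) (L : ℕ)
    {f : X →₀ ℕ} (hu : L + 4 ≤ f u) (hn : nrm adj o (u, f) = n + 1) :
    ∃ f2 : X →₀ ℕ, nrm adj o (u, f2) = n + 1 ∧ Reach adj o n (6 + 4 * L) (u, f) (u, f2) ∧
      f x + L ≤ f2 x ∧ f2 x ≤ f x + L + 1 ∧ f u ≤ f2 u + L + 3 ∧ f2 u ≤ f u ∧
      ∀ y, y ≠ u → y ≠ x → f2 y = f y := by
  by_cases hx : f x = 0
  · obtain ⟨h0, hh0⟩ := exists_add_single (show L + 3 ≤ f u by omega)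
    have hfu : h0 u + (L + 3) = f u := by rw [hh0]; simp
    have hfx : h0 x = 0 := by
      rw [hh0] at hx
      simp at hx
      exact hx.1
    have e1 : f = (h0 + single u L) + single u 3 := by
      rw [hh0, Finsupp.single_add, add_assoc]
    rw [e1] at hn
    obtain ⟨a, ha, b1, b2⟩ := hG.light hux (h0 := h0 + single u L) (by simp; omega)
      (by simp [hfx, Finsupp.single_eq_of_ne hne]) hn
    have e2 : h0 + single u L + single u a + single x 1 =
        (h0 + single u a + single x 1) + single u L := by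
      rw [add_right_comm h0, add_right_comm (h0 + single u a)]
    rw [e2] at b1 b2
    obtain ⟨c1, c2⟩ := hG.transfer hux L (h0 := h0 + single u a + single x 1)
      (by simp; omega) (by simp) b1
    rw [← e1] at b2
    refine ⟨_, c1, (b2.trans c2).mono (by omega), ?_, ?_, ?_, ?_, ?_⟩
    · simp [hfx, hx, Finsupp.single_eq_of_ne hne]
    · simp [hfx, hx, Finsupp.single_eq_of_ne hne]
      omega
    · simp
      omega
    · simp [Finsupp.single_eq_of_ne hne.symm]
      rcases ha with rfl | rfl <;> omega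
    · intro y hyu hyx
      rw [hh0]
      simp [Finsupp.single_eq_of_ne hyu, Finsupp.single_eq_of_ne hyx]
  · obtain ⟨h0, hh0⟩ := exists_add_single (show L ≤ f u by omega)
    have hfu : h0 u + L = f u := by rw [hh0]; simp
    have hfx : h0 x = f x := by
      rw [hh0]
      simp [Finsupp.single_eq_of_ne hne]
    rw [hh0] at hn
    obtain ⟨c1, c2⟩ := hG.transfer hux L (by omega) (by omega) hn
    rw [← hh0] at c2
    refine ⟨_, c1, c2.mono (by omega), ?_, ?_, ?_, ?_, ?_⟩
    · simp [hfx]
    · simp [hfx]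
    · simp [Finsupp.single_eq_of_ne hne.symm]
      omega
    · simp [Finsupp.single_eq_of_ne hne.symm]
      omega
    · intro y hyu hyx
      rw [hh0]
      simp [Finsupp.single_eq_of_ne hyu, Finsupp.single_eq_of_ne hyx]

/-- The operation at a distance `k` from the cursor. -/
theorem Good.grow_far (hG : Good adj) {A : Finset X} {u x : X} (hux : adj u x) (hxA : x ∉ A)
    (L k : ℕ) : ∀ {s : X} {f : X →₀ ℕ}, PathIn adj A s u k → (∀ y ∈ A, 3 + 2 * k ≤ f y) →
      L + 6 + 2 * k ≤ f u → nrm adj o (s, f) = n + 1 →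
      ∃ f2 : X →₀ ℕ, nrm adj o (s, f2) = n + 1 ∧
        Reach adj o n (6 + 4 * L + 4 * k) (s, f) (s, f2) ∧
        f x + L ≤ f2 x ∧ f2 x ≤ f x + L + 1 ∧ f u ≤ f2 u + L + 3 + 2 * k ∧
        (∀ y ∈ A, f2 y ≤ f y + 2 * k) ∧ (∀ y ∈ A, y ≠ u → f y ≤ f2 y + 2 * k) ∧
        ∀ y ∉ A, y ≠ x → f2 y = f y := by
  induction k with
  | zero =>
    intro s f p hf hu hn
    obtain rfl := p.eq_of_zero
    have hsA := p.left_mem
    have hne : x ≠ s := fun h => hxA (h ▸ hsA)
    obtain ⟨f2, a1, a2, a3, a4, a5, a6, a7⟩ := hG.grow_local hux hne L (by omega) hn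
    refine ⟨f2, a1, a2.mono (by omega), a3, a4, by omega, fun y hy => ?_, fun y hy hys => ?_,
      fun y hy hyx => ?_⟩
    · by_cases hys : y = s
      · subst hys; omega
      · rw [a7 y hys (fun h => hxA (h ▸ hy))]; omega
    · rw [a7 y hys (fun h => hxA (h ▸ hy))]; omega
    · exact a7 y (fun h => hy (h ▸ hsA)) hyx
  | succ k ih =>
    intro s f p hf hu hn
    have huA := p.right_mem
    have hsA := p.left_mem
    obtain ⟨s1, hs1, q⟩ := p.uncons
    have hs1A := q.left_mem
    have h3 := hf s1 hs1A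
    obtain ⟨w1, w2⟩ := hG.walk_step hs1 (g := f) (by omega) hn
    set g1 := wstep adj o s s1 f with hg1
    have bd1 : ∀ y, g1 y ≤ f y + 1 ∧ f y ≤ g1 y + 1 := fun y =>
      wstep_apply_bounds (adj := adj) (o := o) s s1 y f
    have bd2 : ∀ y, y ≠ s1 → g1 y = f y := fun y hy => wstep_apply_ne f hy
    obtain ⟨f3, a1, a2, a3, a4, a5, a6, a7, a8⟩ := ih (f := g1) q (fun y hy => by
      have := hf y hy
      have := (bd1 y).2
      omega) (by
      have := (bd1 u).2
      omega) w1
    have hfs : 2 ≤ f3 s := by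
      have e1 := bd1 s
      have e2 := hf s hsA
      by_cases hsu : s = u
      · subst hsu
        omega
      · have := a7 s hsA hsu
        omega
    obtain ⟨z1, z2⟩ := hG.walk_step (hG.symm hs1) (g := f3) hfs a1
    set g2 := wstep adj o s1 s f3 with hg2
    have bd3 : ∀ y, g2 y ≤ f3 y + 1 ∧ f3 y ≤ g2 y + 1 := fun y =>
      wstep_apply_bounds (adj := adj) (o := o) s1 s y f3
    have bd4 : ∀ y, y ≠ s → g2 y = f3 y := fun y hy => wstep_apply_ne f3 hy
    have hxs : x ≠ s := fun h => hxA (h ▸ hsA)
    have hxs1 : x ≠ s1 := fun h => hxA (h ▸ hs1A)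
    refine ⟨g2, z1, ((w2.trans a2).trans z2).mono (by omega), ?_, ?_, ?_, ?_, ?_, ?_⟩
    · rw [bd4 x hxs, ← bd2 x hxs1]
      exact a3
    · rw [bd4 x hxs, ← bd2 x hxs1]
      exact a4
    · have := (bd3 u).2
      have := (bd1 u).2
      omega
    · intro y hy
      have := (bd3 y).1
      have := (bd1 y).1
      have := a6 y hy
      omega
    · intro y hy hyu
      have := (bd3 y).2
      have := (bd1 y).2
      have := a7 y hy hyu
      omega
    · intro y hy hyx
      rw [bd4 y (fun h => hy (h ▸ hsA)), a8 y hy hyx, bd2 y (fun h => hy (h ▸ hs1A))]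

/-- The required load at the points already built, when `j` points are left. -/
def thr (v j : ℕ) : ℕ := 3 * v + 10 + 2 * v * j

/-- The number of units moved for a new point. -/
def wt (v : ℕ) : ℕ := 2 * v * v + 6 * v + 20

theorem exists_exit {V A : Finset X} {k : ℕ} : ∀ {a b : X}, PathIn adj V a b k → a ∈ A → b ∉ A →
    ∃ u ∈ A, ∃ x ∈ V, x ∉ A ∧ adj u x := by
  induction k with
  | zero =>
    intro a b p ha hb
    obtain rfl := p.eq_of_zero
    exact absurd ha hb
  | succ k ih =>
    intro a b p ha hb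
    obtain ⟨a1, h1, q⟩ := p.uncons
    by_cases ha1 : a1 ∈ A
    · exact ih q ha1 hb
    · exact ⟨a, ha, a1, q.left_mem, ha1, h1⟩

theorem Good.build (hG : Good adj) {V : Finset X}
    (hV : ∀ a ∈ V, ∀ b ∈ V, ∃ k, PathIn adj V a b k) {s : X} (j : ℕ) :
    ∀ (A : Finset X) (g : X →₀ ℕ), A ⊆ V → A.card + j = V.card → s ∈ A →
      (∀ b ∈ A, ∃ k < A.card, PathIn adj A s b k) → (∀ y ∈ A, thr V.card j ≤ g y) →
      thr V.card j + j * (2 * wt V.card) ≤ g s → nrm adj o (s, g) = n + 1 →
      ∃ g1 : X →₀ ℕ, nrm adj o (s, g1) = n + 1 ∧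
        Reach adj o n (j * (100 * (V.card + 1) ^ 3)) (s, g) (s, g1) ∧
        (∀ y ∈ V, thr V.card 0 ≤ g1 y) ∧ (∀ y ∉ V, g1 y = g y) ∧
        (∀ y, g y ≤ g1 y + j * (2 * wt V.card)) ∧ ∀ y, g1 y ≤ g y + j * (2 * wt V.card) := by
  classical
  induction j with
  | zero =>
    intro A g hAV hcard hsA hconn hthr hs hn
    have hA : A = V := Finset.eq_of_subset_of_card_le hAV (by omega)
    subst hA
    have h0 : InW adj o n (s, g) := inW_of_eq hn (by omega) (by omega)
    exact ⟨g, hn, (Reach.refl h0).mono (by omega), hthr, fun _ _ => rfl, fun _ => by omega,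
      fun _ => by omega⟩
  | succ j ih =>
    intro A g hAV hcard hsA hconn hthr hs hn
    set v := V.card with hv
    obtain ⟨b, hbV, hbA⟩ : ∃ b ∈ V, b ∉ A := by
      by_contra hcon
      push Not at hcon
      have := Finset.card_le_card (show V ⊆ A from hcon)
      omega
    obtain ⟨k0, p0⟩ := hV s (hAV hsA) b hbV
    obtain ⟨u, huA, x, hxV, hxA, hux⟩ := exists_exit p0 hsA hbA
    obtain ⟨k, hk, pk⟩ := hconn u huA
    have hAv : A.card ≤ v := Finset.card_le_card hAV
    have hjv : j ≤ v := by omega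
    -- move `wt v` units to `u`
    have t1 : thr v (j + 1) = thr v j + 2 * v := by unfold thr; ring
    have t2 : 3 * v + 10 ≤ thr v j := by unfold thr; omega
    have t3 : thr v j ≤ 3 * v + 10 + 2 * v * v := by
      unfold thr
      have : 2 * v * j ≤ 2 * v * v := Nat.mul_le_mul_left _ hjv
      omega
    have t4 : wt v = 2 * v * v + 6 * v + 20 := rfl
    have t5 : (j + 1) * (2 * wt v) = j * (2 * wt v) + 2 * wt v := by ring
    obtain ⟨h, hh⟩ := exists_add_single (show wt v ≤ g s by omega)
    have hgs : h s + wt v = g s := by rw [hh]; simp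
    have hgx : ∀ y, y ≠ s → h y = g y := by
      intro y hy
      rw [hh]
      simp [Finsupp.single_eq_of_ne hy]
    have hhA : ∀ y ∈ A, thr v (j + 1) ≤ h y := by
      intro y hy
      by_cases hys : y = s
      · subst hys
        omega
      · rw [hgx y hys]
        exact hthr y hy
    have r1 := hG.move_path (A := A) (s := s) (D := v) (fun b hb => by
        obtain ⟨k, hk, p⟩ := hconn b hb
        exact ⟨k, by omega, p⟩) (wt v) k (h := h) (fun y hy => by
        have := hhA y hy
        omega) pk (by rw [← hh]; exact hn)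
    have hs2 := hhA s hsA
    have hu2 := hhA u huA
    have hn1 : nrm adj o (s, h + single u (wt v)) = n + 1 := by
      rw [← hn, hh]
      exact nrm_single_single (by omega) (by omega) _
    rw [← hh] at r1
    -- the new point
    obtain ⟨g2, a1, a2, a3, a4, a5, a6, a7, a8⟩ := hG.grow_far (A := A) hux hxA (thr v j) k pk
      (f := h + single u (wt v)) (fun y hy => by
        have := hhA y hy
        simp
        omega) (by
        simp
        omega) hn1
    have hxu : x ≠ u := fun h => hxA (h ▸ huA)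
    have hxs : x ≠ s := fun h => hxA (h ▸ hsA)
    have f1 : (h + single u (wt v)) x = g x := by
      rw [← hgx x hxs]
      simp [Finsupp.single_eq_of_ne hxu]
    have f2 : (h + single u (wt v)) u = h u + wt v := by simp
    have f3 : ∀ y, y ≠ u → (h + single u (wt v)) y = h y := by
      intro y hy
      simp [Finsupp.single_eq_of_ne hy]
    rw [f1] at a3 a4
    rw [f2] at a5
    have hkv : k ≤ v := by omega
    have hcardA : (insert x A).card = A.card + 1 := Finset.card_insert_of_notMem hxA
    -- lower bounds in `A`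
    have lowA : ∀ y ∈ A, h y ≤ g2 y + 2 * v := by
      intro y hy
      by_cases hyu : y = u
      · subst hyu
        omega
      · have := a7 y hy hyu
        rw [f3 y hyu] at this
        omega
    have upA : ∀ y ∈ A, g2 y ≤ h y + wt v + 2 * v := by
      intro y hy
      have := a6 y hy
      by_cases hyu : y = u
      · subst hyu
        omega
      · rw [f3 y hyu] at this
        omega
    have sub : A ⊆ insert x A := Finset.subset_insert _ _
    obtain ⟨g1, b1, b2, b3, b4, b5, b6⟩ := ih (insert x A) g2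
      (Finset.insert_subset hxV hAV) (by omega) (sub hsA) (by
        intro b hb
        rw [hcardA]
        rcases Finset.mem_insert.mp hb with rfl | hb
        · exact ⟨k + 1, by omega, (pk.mono sub).snoc hux (Finset.mem_insert_self _ _)⟩
        · obtain ⟨l, hl, p⟩ := hconn b hb
          exact ⟨l, by omega, p.mono sub⟩) (by
        intro y hy
        rcases Finset.mem_insert.mp hy with rfl | hy
        · omega
        · have := lowA y hy
          have := hhA y hy
          omega) (by
        have := lowA s hsA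
        by_cases hsu : s = u
        · subst hsu
          omega
        · omega) a1
    refine ⟨g1, b1, ((r1.trans a2).trans b2).mono ?_, b3, ?_, ?_, ?_⟩
    · have e1 : (j + 1) * (100 * (v + 1) ^ 3) = j * (100 * (v + 1) ^ 3) + 100 * (v + 1) ^ 3 := by
        ring
      have e2 : k * (4 * v + 4 * wt v) ≤ v * (4 * v + 4 * wt v) := Nat.mul_le_mul_right _ hkv
      have e3 : v * (4 * v + 4 * wt v) + (6 + 4 * (3 * v + 10 + 2 * v * v) + 4 * v) ≤
          100 * (v + 1) ^ 3 := by
        rw [t4]
        nlinarith [sq_nonneg v, Nat.zero_le (v ^ 3), Nat.zero_le (v * v), Nat.zero_le v]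
      omega
    · intro y hy
      rw [b4 y hy, a8 y (fun h => hy (hAV h)) (fun h => hy (h ▸ hxV)), f3 y (fun h => hy (h ▸ hAV huA)),
        hgx y (fun h => hy (h ▸ hAV hsA))]
    · intro y
      have c1 := b5 y
      rw [t5]
      by_cases hyA : y ∈ A
      · have c2 := lowA y hyA
        by_cases hys : y = s
        · subst hys
          omega
        · have := hgx y hys
          omega
      · by_cases hyx : y = x
        · subst hyx
          omega
        · have c2 := a8 y hyA hyx
          rw [f3 y (fun h => hyA (h ▸ huA)), hgx y (fun h => hyA (h ▸ hsA))] at c2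
          omega
    · intro y
      have c1 := b6 y
      rw [t5]
      by_cases hyA : y ∈ A
      · have c2 := upA y hyA
        by_cases hys : y = s
        · subst hys
          omega
        · have := hgx y hys
          omega
      · by_cases hyx : y = x
        · subst hyx
          omega
        · have c2 := a8 y hyA hyx
          rw [f3 y (fun h => hyA (h ▸ huA)), hgx y (fun h => hyA (h ▸ hsA))] at c2
          omega

/-! ### The cursor -/

theorem Good.walk_path (hG : Good adj) {V : Finset X} (k : ℕ) : ∀ {s s' : X} {g : X →₀ ℕ},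
    PathIn adj V s s' k → (∀ y ∈ V, 2 + k ≤ g y) → nrm adj o (s, g) = n + 1 →
    ∃ g2 : X →₀ ℕ, nrm adj o (s', g2) = n + 1 ∧ Reach adj o n (2 * k) (s, g) (s', g2) ∧
      (∀ y, g2 y ≤ g y + k) ∧ (∀ y, g y ≤ g2 y + k) ∧ ∀ y ∉ V, g2 y = g y := by
  induction k with
  | zero =>
    intro s s' g p hg hn
    obtain rfl := p.eq_of_zero
    have h0 : InW adj o n (s, g) := inW_of_eq hn (by omega) (by omega)
    exact ⟨g, hn, (Reach.refl h0).mono (by omega), fun _ => by omega, fun _ => by omega,
      fun _ _ => rfl⟩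
  | succ k ih =>
    intro s s' g p hg hn
    obtain ⟨s1, hs1, q⟩ := p.uncons
    have h3 := hg s1 q.left_mem
    obtain ⟨w1, w2⟩ := hG.walk_step hs1 (g := g) (by omega) hn
    set g1 := wstep adj o s s1 g with hg1
    have bd1 : ∀ y, g1 y ≤ g y + 1 ∧ g y ≤ g1 y + 1 := fun y =>
      wstep_apply_bounds (adj := adj) (o := o) s s1 y g
    obtain ⟨g2, a1, a2, a3, a4, a5⟩ := ih (g := g1) q (fun y hy => by
      have := (bd1 y).2
      have := hg y hy
      omega) w1
    refine ⟨g2, a1, (w2.trans a2).mono (by omega), fun y => ?_, fun y => ?_, fun y hy => ?_⟩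
    · have := (bd1 y).1
      have := a3 y
      omega
    · have := (bd1 y).2
      have := a4 y
      omega
    · rw [a5 y hy]
      exact wstep_apply_ne g fun h => hy (h ▸ q.left_mem)

theorem dif_triangle (V : Finset X) (f g h : X →₀ ℕ) : dif V f h ≤ dif V f g + dif V g h := by
  unfold dif
  rw [← Finset.sum_add_distrib]
  exact Finset.sum_le_sum fun x _ => by omega

theorem dif_comm (V : Finset X) (f g : X →₀ ℕ) : dif V f g = dif V g f := by
  unfold dif
  exact Finset.sum_congr rfl fun x _ => by omega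

theorem dif_le {V : Finset X} {f g : X →₀ ℕ} {E : ℕ} (h1 : ∀ y, f y ≤ g y + E)
    (h2 : ∀ y, g y ≤ f y + E) : dif V f g ≤ V.card * E := by
  unfold dif
  calc ∑ x ∈ V, ((f x - g x) + (g x - f x)) ≤ ∑ _x ∈ V, E := by
        refine Finset.sum_le_sum fun x _ => ?_
        have := h1 x
        have := h2 x
        omega
    _ = V.card * E := by simp

theorem naive : NAIVE_Stmt := by
  classical
  intro X adj hG o n V δ hδ hV s hs s' hs' g g' hgg hgs hgs' hn hn'
  set v := V.card with hv
  have hv1 : 1 ≤ v := Finset.card_pos.mpr ⟨s, hs⟩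
  have key : ∀ (s : X) (g : X →₀ ℕ), s ∈ V → bd v ≤ g s → nrm adj o (s, g) = n + 1 →
      ∃ g1 : X →₀ ℕ, nrm adj o (s, g1) = n + 1 ∧
        Reach adj o n (v * (100 * (v + 1) ^ 3)) (s, g) (s, g1) ∧
        (∀ y ∈ V, 3 * v + 10 ≤ g1 y) ∧ (∀ y ∉ V, g1 y = g y) ∧
        dif V g g1 ≤ v * (v * (2 * wt v)) := by
    intro s g hs hgs hn
    have e1 : wt v = 2 * v * v + 6 * v + 20 := rfl
    have e2 : thr v (v - 1) + (v - 1) * (2 * wt v) ≤ bd v := by
      obtain ⟨w, hw⟩ : ∃ w, v = w + 1 := ⟨v - 1, by omega⟩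
      rw [hw, Nat.add_sub_cancel]
      unfold thr wt bd
      nlinarith [Nat.zero_le (w ^ 3), Nat.zero_le (w * w), Nat.zero_le w]
    have B := hG.build (n := n) (o := o) (fun a ha b hb => by
        obtain ⟨k, -, p⟩ := hV a ha b hb
        exact ⟨k, p⟩) (s := s) (v - 1) {s} g (Finset.singleton_subset_iff.mpr hs)
        (by rw [Finset.card_singleton]; omega) (Finset.mem_singleton_self s)
    rw [← hv] at B
    obtain ⟨g1, a1, a2, a3, a4, a5, a6⟩ := B (by
        intro b hb
        rw [Finset.mem_singleton] at hb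
        subst hb
        exact ⟨0, by simp, PathIn.zero (Finset.mem_singleton_self _)⟩) (by
        intro y hy
        rw [Finset.mem_singleton] at hy
        subst hy
        omega) (by omega) hn
    have e3 : (v - 1) * (2 * wt v) ≤ v * (2 * wt v) := Nat.mul_le_mul_right _ (by omega)
    refine ⟨g1, a1, a2.mono (Nat.mul_le_mul_right _ (by omega)), fun y hy => ?_, a4,
      dif_le (fun y => ?_) fun y => ?_⟩
    · have := a3 y hy
      have e4 : thr v 0 = 3 * v + 10 := by unfold thr; omega
      omega
    · have := a5 y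
      omega
    · have := a6 y
      omega
  obtain ⟨g1, a1, a2, a3, a4, a5⟩ := key s g hs hgs hn
  obtain ⟨g1', b1, b2, b3, b4, b5⟩ := key s' g' hs' hgs' hn'
  obtain ⟨k, hk, p⟩ := hV s hs s' hs'
  obtain ⟨g2, c1, c2, c3, c4, c5⟩ := hG.walk_path k p (fun y hy => by
    have := a3 y hy
    omega) a1
  have r := hG.rearr hV hs' v g2 g1' ⟨V, le_rfl, Finset.Subset.refl _, fun x hx => by
      by_contra hxV
      apply hx
      rw [c5 x hxV, a4 x hxV, b4 x hxV, hgg x hxV]⟩ (fun y hy => by
      have := a3 y hy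
      have := c4 y
      omega) (fun y hy => by
      have := b3 y hy
      omega) c1 b1
  have hd : dif V g2 g1' ≤ v * k + v * (v * (2 * wt v)) + dif V g g' + v * (v * (2 * wt v)) := by
    have d1 := dif_triangle V g2 g1 g1'
    have d2 := dif_triangle V g1 g g1'
    have d3 := dif_triangle V g g' g1'
    have d4 : dif V g2 g1 ≤ v * k := dif_le c3 c4
    have d5 := dif_comm V g1 g
    omega
  refine (((a2.trans c2).trans r).trans (b2.symm hG.symm)).mono ?_
  set Dd := dif V g g'
  have f1 : 2 * δ * dif V g2 g1' ≤ 2 * δ * Dd +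
      2 * v * (v * v + v * (v * (2 * wt v)) + v * (v * (2 * wt v))) := by
    have f2 : 2 * δ * dif V g2 g1' ≤
        2 * δ * (v * k + v * (v * (2 * wt v)) + Dd + v * (v * (2 * wt v))) :=
      Nat.mul_le_mul_left _ hd
    have f3 : v * k ≤ v * v := Nat.mul_le_mul_left _ (by omega)
    have f4 : 2 * δ * (v * k + v * (v * (2 * wt v)) + v * (v * (2 * wt v))) ≤
        2 * v * (v * v + v * (v * (2 * wt v)) + v * (v * (2 * wt v))) :=
      Nat.mul_le_mul (by omega) (by omega)
    have f5 : 2 * δ * (v * k + v * (v * (2 * wt v)) + Dd + v * (v * (2 * wt v))) =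
        2 * δ * Dd + 2 * δ * (v * k + v * (v * (2 * wt v)) + v * (v * (2 * wt v))) := by ring
    omega
  have f6 : v * (4 * δ * δ) ≤ v * (4 * v * v) :=
    Nat.mul_le_mul_left _ (Nat.mul_le_mul (by omega) hδ)
  have f7 : 2 * k ≤ 2 * v := by omega
  have f8 : v * (100 * (v + 1) ^ 3) + 2 * v +
      (2 * v * (v * v + v * (v * (2 * wt v)) + v * (v * (2 * wt v))) + v * (4 * v * v)) +
      v * (100 * (v + 1) ^ 3) ≤ cst v := by
    have e1 : wt v = 2 * v * v + 6 * v + 20 := rfl
    have g1 : wt v ≤ 20 * (v + 1) ^ 2 := by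
      rw [e1]
      nlinarith
    have g2 : v ≤ v + 1 := Nat.le_succ v
    have g3 : v * (v * (2 * wt v)) ≤ (v + 1) * ((v + 1) * (2 * (20 * (v + 1) ^ 2))) :=
      Nat.mul_le_mul g2 (Nat.mul_le_mul g2 (Nat.mul_le_mul_left _ g1))
    have g4 : v * v ≤ (v + 1) * (v + 1) := Nat.mul_le_mul g2 g2
    have g5 : 2 * v * (v * v + v * (v * (2 * wt v)) + v * (v * (2 * wt v))) ≤
        2 * (v + 1) * ((v + 1) * (v + 1) + (v + 1) * ((v + 1) * (2 * (20 * (v + 1) ^ 2))) +
          (v + 1) * ((v + 1) * (2 * (20 * (v + 1) ^ 2)))) :=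
      Nat.mul_le_mul (by omega) (by omega)
    have g6 : v * (4 * v * v) ≤ (v + 1) * (4 * (v + 1) * (v + 1)) :=
      Nat.mul_le_mul g2 (Nat.mul_le_mul (by omega) g2)
    have g7 : v * (100 * (v + 1) ^ 3) ≤ (v + 1) * (100 * (v + 1) ^ 3) :=
      Nat.mul_le_mul_right _ g2
    unfold cst
    set t := v + 1 with ht
    have p1 : t ≤ t ^ 6 := Nat.le_self_pow (by norm_num) t
    have p3 : t ^ 3 ≤ t ^ 6 := Nat.pow_le_pow_right (by omega) (by norm_num)
    have p4 : t ^ 4 ≤ t ^ 6 := Nat.pow_le_pow_right (by omega) (by norm_num)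
    have p5 : t ^ 5 ≤ t ^ 6 := Nat.pow_le_pow_right (by omega) (by norm_num)
    have q1 : t * (100 * t ^ 3) = 100 * t ^ 4 := by ring
    have q2 : 2 * t * (t * t + t * (t * (2 * (20 * t ^ 2))) + t * (t * (2 * (20 * t ^ 2)))) =
        2 * t ^ 3 + 160 * t ^ 5 := by ring
    have q3 : t * (4 * t * t) = 4 * t ^ 3 := by ring
    rw [q1] at g7
    rw [q2] at g5
    rw [q3] at g6
    omega
  have f9 : 4 * δ * Dd = 2 * δ * Dd + 2 * δ * Dd := by ring
  omega

end Pool.Agent.AD
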