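import Pool.Agent.AD.Tsp

/-!
MP_072aa0_al: the pump inequality (module PI).
-/

set_option autoImplicit false

namespace Pool.Agent.AD

namespace PIaux

/-- Number of crossings of the edge `{j, j + 1}` by the sequence `f` in the first `n` steps. -/
def crs (f : ℕ → ℕ) (n j : ℕ) : ℕ :=
  ((Finset.range n).filter fun k =>
    (f k ≤ j ∧ j < f (k + 1)) ∨ (f (k + 1) ≤ j ∧ j < f k)).card

theorem crs_zero (f : ℕ → ℕ) (j : ℕ) : crs f 0 j = 0 := by simp [crs]

theorem crs_succ (f : ℕ → ℕ) (n j : ℕ) :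
    crs f (n + 1) j = crs f n j +
      if (f n ≤ j ∧ j < f (n + 1)) ∨ (f (n + 1) ≤ j ∧ j < f n) then 1 else 0 := by
  unfold crs
  rw [Finset.range_add_one, Finset.filter_insert]
  split_ifs with h
  · rw [Finset.card_insert_of_notMem (by simp)]
  · rfl

theorem crs_parity (f : ℕ → ℕ) (n j : ℕ) :
    crs f n j % 2 = if (f 0 ≤ j ↔ f n ≤ j) then 0 else 1 := by
  induction n with
  | zero => simp [crs_zero]
  | succ n ih =>
    rw [crs_succ]
    by_cases h0 : f 0 ≤ j <;> by_cases h1 : f n ≤ j <;> by_cases h2 : f (n + 1) ≤ j <;>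
      simp only [h0, h1, h2, iff_true, iff_false, true_and, false_and, if_true, if_false, not_true,
        or_false, false_or] at ih ⊢ <;>
      (try simp only [not_le] at h0 h1 h2) <;>
      (try split_ifs) <;> omega

theorem crs_odd {f : ℕ → ℕ} {n j : ℕ} (h0 : f 0 ≤ j) (h1 : j < f n) : crs f n j % 2 = 1 := by
  rw [crs_parity, if_neg]
  intro h
  exact absurd (h.1 h0) (by omega)

theorem crs_pos {f : ℕ → ℕ} {n j : ℕ} (h0 : f 0 ≤ j) (h1 : j < f n) : 1 ≤ crs f n j := by
  have := crs_odd h0 h1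
  omega

/-- A single crossing separates the times. -/
theorem crs_single {f : ℕ → ℕ} {n j : ℕ} (h0 : f 0 ≤ j) (h : crs f n j = 1) :
    ∃ s < n, (∀ k ≤ s, f k ≤ j) ∧ ∀ k, s < k → k ≤ n → j < f k := by
  obtain ⟨s, hs⟩ := Finset.card_eq_one.1 h
  have hs0 : s ∈ (Finset.range n).filter fun k =>
    (f k ≤ j ∧ j < f (k + 1)) ∨ (f (k + 1) ≤ j ∧ j < f k) := by rw [hs]; simp
  have huniq : ∀ k < n, k ≠ s → (f k ≤ j ↔ f (k + 1) ≤ j) := by
    intro k hk hks
    by_contra hc
    have : k ∈ (Finset.range n).filter fun k =>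
      (f k ≤ j ∧ j < f (k + 1)) ∨ (f (k + 1) ≤ j ∧ j < f k) := by
      rw [Finset.mem_filter, Finset.mem_range]
      refine ⟨hk, ?_⟩
      by_cases h1 : f k ≤ j <;> by_cases h2 : f (k + 1) ≤ j <;> simp [h1, h2] at hc ⊢ <;> omega
    rw [hs, Finset.mem_singleton] at this
    exact hks this
  rw [Finset.mem_filter, Finset.mem_range] at hs0
  have hlow : ∀ k ≤ s, f k ≤ j := by
    intro k
    induction k with
    | zero => intro; exact h0
    | succ k ih =>
      intro hk
      exact (huniq k (by omega) (by omega)).1 (ih (by omega))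
  refine ⟨s, hs0.1, hlow, ?_⟩
  have hhigh : ∀ k, s + 1 + k ≤ n → j < f (s + 1 + k) := by
    intro k
    induction k with
    | zero =>
      intro _
      have := hlow s le_rfl
      rcases hs0.2 with h | h
      · exact h.2
      · omega
    | succ k ih =>
      intro hk
      have h1 := ih (by omega)
      have h2 := huniq (s + 1 + k) (by omega) (by omega)
      by_contra hc
      have h3 : f (s + 1 + k + 1) ≤ j := by
        have : s + 1 + (k + 1) = s + 1 + k + 1 := by ring
        rw [this] at hc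
        omega
      have := h2.2 h3
      omega
  intro k hk hkn
  have := hhigh (k - (s + 1)) (by omega)
  rwa [show s + 1 + (k - (s + 1)) = k by omega] at this

/-- Between two times there is a crossing. -/
theorem exists_crs {f : ℕ → ℕ} {j : ℕ} : ∀ {a b : ℕ}, a ≤ b → (f a ≤ j ∧ j < f b) ∨ (f b ≤ j ∧ j < f a) →
    ∃ t, a ≤ t ∧ t < b ∧ ((f t ≤ j ∧ j < f (t + 1)) ∨ (f (t + 1) ≤ j ∧ j < f t)) := by
  intro a b hab
  induction b, hab using Nat.le_induction with
  | base => intro h; omega
  | succ b hab ih =>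
    intro h
    by_cases hb : (f a ≤ j ∧ j < f b) ∨ (f b ≤ j ∧ j < f a)
    · obtain ⟨t, h1, h2, h3⟩ := ih hb
      exact ⟨t, h1, by omega, h3⟩
    · refine ⟨b, hab, by omega, by omega⟩

/-- Counting crossings of `g` by the columns of `f` between the single crossings. -/
theorem crs_count {f g : ℕ → ℕ} {n j c₀ : ℕ} (hf0 : f 0 ≤ c₀) (I : Finset ℕ)
    (hI : ∀ i ∈ I, c₀ ≤ i ∧ crs f n i = 1)
    (hlo : ∀ c, (c = c₀ ∨ ∃ i ∈ I, c = i + 1) → ∃ k ≤ n, f k = c ∧ g k ≤ j)
    (hhi : ∀ c, (c = c₀ ∨ ∃ i ∈ I, c = i + 1) → ∃ k ≤ n, f k = c ∧ j < g k) :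
    I.card + 1 ≤ crs g n j := by
  classical
  have hs : ∀ i : ℕ, ∃ s, i ∈ I → s < n ∧ (∀ k ≤ s, f k ≤ i) ∧ ∀ k, s < k → k ≤ n → i < f k := by
    intro i
    by_cases hi : i ∈ I
    · obtain ⟨s, h⟩ := crs_single (f := f) (n := n) (j := i) (by have := (hI i hi).1; omega) (hI i hi).2
      exact ⟨s, fun _ => h⟩
    · exact ⟨0, fun h => absurd h hi⟩
  choose s hs using hs
  set C : Finset ℕ := insert c₀ (I.image (· + 1)) with hC
  have hCmem : ∀ c, c ∈ C ↔ (c = c₀ ∨ ∃ i ∈ I, c = i + 1) := by
    intro c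
    simp only [hC, Finset.mem_insert, Finset.mem_image]
    constructor
    · rintro (h | ⟨i, hi, h⟩)
      · exact Or.inl h
      · exact Or.inr ⟨i, hi, h.symm⟩
    · rintro (h | ⟨i, hi, h⟩)
      · exact Or.inl h
      · exact Or.inr ⟨i, hi, h.symm⟩
  have hcard : C.card = I.card + 1 := by
    rw [hC, Finset.card_insert_of_notMem, Finset.card_image_of_injective _ (add_left_injective 1)]
    simp only [Finset.mem_image, not_exists, not_and]
    intro i hi h
    have := (hI i hi).1
    omega
  have ht : ∀ c : ℕ, ∃ t, c ∈ C → (t < n ∧ ((g t ≤ j ∧ j < g (t + 1)) ∨ (g (t + 1) ≤ j ∧ j < g t))) ∧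
      (∀ i ∈ I, i < c → s i < t) ∧ (∀ i ∈ I, c ≤ i → t < s i) := by
    intro c
    by_cases hc : c ∈ C
    · obtain ⟨k1, hk1, hf1, hg1⟩ := hlo c ((hCmem c).1 hc)
      obtain ⟨k2, hk2, hf2, hg2⟩ := hhi c ((hCmem c).1 hc)
      have key : ∀ a b, a ≤ b → b ≤ n → f a = c → f b = c →
          ((g a ≤ j ∧ j < g b) ∨ (g b ≤ j ∧ j < g a)) →
          ∃ t, (t < n ∧ ((g t ≤ j ∧ j < g (t + 1)) ∨ (g (t + 1) ≤ j ∧ j < g t))) ∧
      (∀ i ∈ I, i < c → s i < t) ∧ (∀ i ∈ I, c ≤ i → t < s i) := by
        intro a b hab hbn hfa hfb hg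
        obtain ⟨t, h1, h2, h3⟩ := exists_crs hab hg
        refine ⟨t, ⟨by omega, h3⟩, ?_, ?_⟩
        · intro i hi hic
          by_contra hcon
          have := (hs i hi).2.1 a (by omega)
          omega
        · intro i hi hic
          by_contra hcon
          have := (hs i hi).2.2 b (by omega) hbn
          omega
      rcases le_total k1 k2 with h | h
      · obtain ⟨t, ht⟩ := key k1 k2 h hk2 hf1 hf2 (Or.inl ⟨hg1, hg2⟩)
        exact ⟨t, fun _ => ht⟩
      · obtain ⟨t, ht⟩ := key k2 k1 h hk1 hf2 hf1 (Or.inr ⟨hg1, hg2⟩)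
        exact ⟨t, fun _ => ht⟩
    · exact ⟨0, fun h => absurd h hc⟩
  choose t ht using ht
  rw [← hcard]
  unfold crs
  refine Finset.card_le_card_of_injOn t ?_ ?_
  · intro c hc
    have := (ht c hc).1
    simp only [Finset.coe_filter, Finset.mem_range, Set.mem_ofPred_eq]
    exact this
  · have hmono : ∀ c ∈ C, ∀ c' ∈ C, c < c' → t c < t c' := by
      intro c hc c' hc' hcc
      have hcc0 : c₀ ≤ c := by
        rcases (hCmem c).1 hc with h | ⟨i, hi, h⟩
        · omega
        · have := (hI i hi).1; omega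
      rcases (hCmem c').1 hc' with h | ⟨i, hi, h⟩
      · omega
      · have h1 := (ht c hc).2.2 i hi (by omega)
        have h2 := (ht c' hc').2.1 i hi (by omega)
        omega
    intro c hc c' hc' h
    rcases lt_trichotomy c c' with h1 | h1 | h1
    · exact absurd h (hmono c hc c' hc' h1).ne
    · exact h1
    · exact absurd h.symm (hmono c' hc' c hc h1).ne

/-- Changing steps dominate the sum of the crossing numbers. -/
theorem sum_crs_le {f : ℕ → ℕ} {n : ℕ}
    (hf : ∀ k < n, f (k + 1) ≤ f k + 1 ∧ f k ≤ f (k + 1) + 1) (J : Finset ℕ) :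
    ∑ j ∈ J, crs f n j ≤ ((Finset.range n).filter fun k => f (k + 1) ≠ f k).card := by
  classical
  induction n with
  | zero => simp [crs_zero]
  | succ n ih =>
    have h := ih (fun k hk => hf k (by omega))
    simp only [crs_succ, Finset.sum_add_distrib]
    rw [Finset.range_add_one, Finset.filter_insert]
    have hle : (∑ j ∈ J, if (f n ≤ j ∧ j < f (n + 1)) ∨ (f (n + 1) ≤ j ∧ j < f n) then 1 else 0) ≤
        if f (n + 1) ≠ f n then 1 else 0 := by
      rw [← Finset.card_filter]
      have h1 := hf n (by omega)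
      split_ifs with hne
      · refine Finset.card_le_one.2 ?_
        intro a ha b hb
        simp only [Finset.mem_filter] at ha hb
        omega
      · rw [Nat.le_zero, Finset.card_eq_zero, Finset.filter_eq_empty_iff]
        intro a _
        omega
    split_ifs at hle ⊢ with hne
    · rw [Finset.card_insert_of_notMem (by simp)]
      omega
    · omega


/-- A lattice path which visits the whole boundary of a rectangle and ends at the corner opposite to
the start is long. -/
theorem rlb (d D m n : ℕ) (hd : 2 ≤ d) (hD : 2 ≤ D) (r l : ℕ → ℕ)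
    (hstep : ∀ k < n, (r (k + 1) = r k ∧ l (k + 1) ≤ l k + 1 ∧ l k ≤ l (k + 1) + 1) ∨
      (l (k + 1) = l k ∧ r (k + 1) ≤ r k + 1 ∧ r k ≤ r (k + 1) + 1))
    (hr0 : r 0 = 0) (hl0 : l 0 ≤ m) (hrn : r n = d) (hln : l n = m + D)
    (hleft : ∀ j, m ≤ j → j ≤ m + D → ∃ k ≤ n, r k = 0 ∧ l k = j)
    (hright : ∀ j, m ≤ j → j ≤ m + D → ∃ k ≤ n, r k = d ∧ l k = j)
    (hbot : ∀ i ≤ d, ∃ k ≤ n, r k = i ∧ l k = m)
    (htop : ∀ i ≤ d, ∃ k ≤ n, r k = i ∧ l k = m + D) :
    (m - l 0) + 3 * (D + d) ≤ n + 4 := by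
  classical
  -- the total number of steps
  have htot : ∑ i ∈ Finset.range d, crs r n i + (∑ j ∈ Finset.Ico (l 0) m, crs l n j +
      ∑ j ∈ Finset.Ico m (m + D), crs l n j) ≤ n := by
    rw [Finset.sum_Ico_consecutive _ hl0 (by omega)]
    have h1 := sum_crs_le (f := r) (n := n) (fun k hk => by
      rcases hstep k hk with h | h <;> omega) (Finset.range d)
    have h2 := sum_crs_le (f := l) (n := n) (fun k hk => by
      rcases hstep k hk with h | h <;> omega) (Finset.Ico (l 0) (m + D))
    have h3 : ((Finset.range n).filter fun k => r (k + 1) ≠ r k).card +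
        ((Finset.range n).filter fun k => l (k + 1) ≠ l k).card ≤ n := by
      rw [← Finset.card_union_of_disjoint]
      · refine (Finset.card_le_card (Finset.union_subset (Finset.filter_subset _ _)
          (Finset.filter_subset _ _))).trans ?_
        simp
      · rw [Finset.disjoint_left]
        intro k hk hk'
        simp only [Finset.mem_filter, Finset.mem_range] at hk hk'
        rcases hstep k hk.1 with h | h
        · exact hk.2 h.1
        · exact hk'.2 h.1
    omega
  -- levels below `m`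
  have hbelow : m - l 0 ≤ ∑ j ∈ Finset.Ico (l 0) m, crs l n j := by
    have : ∑ j ∈ Finset.Ico (l 0) m, 1 ≤ ∑ j ∈ Finset.Ico (l 0) m, crs l n j := by
      refine Finset.sum_le_sum fun j hj => ?_
      rw [Finset.mem_Ico] at hj
      exact crs_pos hj.1 (by omega)
    simpa using this
  have hodd_r : ∀ i < d, crs r n i % 2 = 1 := fun i hi => crs_odd (by omega) (by omega)
  have hodd_l : ∀ j, m ≤ j → j < m + D → crs l n j % 2 = 1 :=
    fun j h1 h2 => crs_odd (by omega) (by omega)
  -- not both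
  have hnot : ¬ ((∃ i < d, crs r n i = 1) ∧ ∃ j, m ≤ j ∧ j < m + D ∧ crs l n j = 1) := by
    rintro ⟨⟨i, hi, hci⟩, j, hj1, hj2, hcj⟩
    obtain ⟨s, hs, hs1, hs2⟩ := crs_single (f := r) (n := n) (j := i) (by omega) hci
    obtain ⟨t, ht, ht1, ht2⟩ := crs_single (f := l) (n := n) (j := j) (by omega) hcj
    rcases lt_trichotomy s t with h | h | h
    · obtain ⟨k, hk, hk1, hk2⟩ := htop 0 (by omega)
      have h1 : k ≤ s := by
        by_contra hc
        have := hs2 k (by omega) hk
        omega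
      have := ht1 k (by omega)
      omega
    · subst h
      rcases hstep s hs with h | h
      · have := hs1 s le_rfl
        have := hs2 (s + 1) (by omega) (by omega)
        omega
      · have := ht1 s le_rfl
        have := ht2 (s + 1) (by omega) (by omega)
        omega
    · obtain ⟨k, hk, hk1, hk2⟩ := hbot d le_rfl
      have h1 : k ≤ t := by
        by_contra hc
        have := ht2 k (by omega) hk
        omega
      have := hs1 k (by omega)
      omega
  by_cases hcase : ∃ i < d, crs r n i = 1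
  · -- all rows are crossed at least three times
    have hrow : ∀ j, m ≤ j → j < m + D → 3 ≤ crs l n j := by
      intro j h1 h2
      have h3 := hodd_l j h1 h2
      have h4 : crs l n j ≠ 1 := fun h => hnot ⟨hcase, j, h1, h2, h⟩
      omega
    set I : Finset ℕ := (Finset.range d).filter fun i => crs r n i = 1 with hI
    have hcount : ∀ j, m ≤ j → j < m + D → I.card + 1 ≤ crs l n j := by
      intro j h1 h2
      refine crs_count (f := r) (g := l) (c₀ := 0) (by omega) I ?_ ?_ ?_
      · intro i hi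
        rw [hI, Finset.mem_filter] at hi
        exact ⟨Nat.zero_le _, hi.2⟩
      · rintro c hc
        have hcd : c ≤ d := by
          rcases hc with h | ⟨i, hi, h⟩
          · omega
          · rw [hI, Finset.mem_filter, Finset.mem_range] at hi
            omega
        obtain ⟨k, hk, hk1, hk2⟩ := hbot c hcd
        exact ⟨k, hk, hk1, by omega⟩
      · rintro c hc
        have hcd : c ≤ d := by
          rcases hc with h | ⟨i, hi, h⟩
          · omega
          · rw [hI, Finset.mem_filter, Finset.mem_range] at hi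
            omega
        obtain ⟨k, hk, hk1, hk2⟩ := htop c hcd
        exact ⟨k, hk, hk1, by omega⟩
    have hrsum : 3 * d ≤ ∑ i ∈ Finset.range d, crs r n i + 2 * I.card := by
      have h1 : ∑ i ∈ Finset.range d, 3 ≤
          ∑ i ∈ Finset.range d, (crs r n i + if crs r n i = 1 then 2 else 0) := by
        refine Finset.sum_le_sum fun i hi => ?_
        have := hodd_r i (Finset.mem_range.1 hi)
        split_ifs <;> omega
      rw [Finset.sum_add_distrib, Finset.sum_const, Finset.card_range, ← Finset.sum_filter,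
        Finset.sum_const] at h1
      simp only [smul_eq_mul] at h1
      rw [← hI] at h1
      omega
    have hlsum : D * max 3 (I.card + 1) ≤ ∑ j ∈ Finset.Ico m (m + D), crs l n j := by
      have h1 : ∑ j ∈ Finset.Ico m (m + D), max 3 (I.card + 1) ≤
          ∑ j ∈ Finset.Ico m (m + D), crs l n j := by
        refine Finset.sum_le_sum fun j hj => ?_
        rw [Finset.mem_Ico] at hj
        exact max_le (hrow j hj.1 hj.2) (hcount j hj.1 hj.2)
      rw [Finset.sum_const, Nat.card_Ico, smul_eq_mul] at h1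
      have : m + D - m = D := by omega
      rwa [this] at h1
    have hfin : 3 * D + 2 * I.card ≤ D * max 3 (I.card + 1) + 4 := by
      rcases le_total I.card 2 with h | h
      · rw [max_eq_left (by omega)]
        omega
      · rw [max_eq_right (by omega)]
        nlinarith
    omega
  · push Not at hcase
    have hcol : ∀ i < d, 3 ≤ crs r n i := by
      intro i hi
      have h1 := hodd_r i hi
      have h2 := hcase i hi
      omega
    set J : Finset ℕ := (Finset.Ico m (m + D)).filter fun j => crs l n j = 1 with hJ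
    have hcount : ∀ i < d, J.card + 1 ≤ crs r n i := by
      intro i hi0
      refine crs_count (f := l) (g := r) (c₀ := m) hl0 J ?_ ?_ ?_
      · intro j hj
        rw [hJ, Finset.mem_filter, Finset.mem_Ico] at hj
        exact ⟨hj.1.1, hj.2⟩
      · rintro c hc
        have hcd : m ≤ c ∧ c ≤ m + D := by
          rcases hc with h | ⟨i, hi, h⟩
          · omega
          · rw [hJ, Finset.mem_filter, Finset.mem_Ico] at hi
            omega
        obtain ⟨k, hk, hk1, hk2⟩ := hleft c hcd.1 hcd.2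
        exact ⟨k, hk, hk2, by omega⟩
      · rintro c hc
        have hcd : m ≤ c ∧ c ≤ m + D := by
          rcases hc with h | ⟨i, hi, h⟩
          · omega
          · rw [hJ, Finset.mem_filter, Finset.mem_Ico] at hi
            omega
        obtain ⟨k, hk, hk1, hk2⟩ := hright c hcd.1 hcd.2
        exact ⟨k, hk, hk2, by omega⟩
    have hlsum : 3 * D ≤ ∑ j ∈ Finset.Ico m (m + D), crs l n j + 2 * J.card := by
      have h1 : ∑ j ∈ Finset.Ico m (m + D), 3 ≤
          ∑ j ∈ Finset.Ico m (m + D), (crs l n j + if crs l n j = 1 then 2 else 0) := by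
        refine Finset.sum_le_sum fun j hj => ?_
        rw [Finset.mem_Ico] at hj
        have := hodd_l j hj.1 hj.2
        split_ifs <;> omega
      rw [Finset.sum_add_distrib, Finset.sum_const, Nat.card_Ico, ← Finset.sum_filter,
        Finset.sum_const] at h1
      simp only [smul_eq_mul] at h1
      rw [← hJ] at h1
      omega
    have hrsum : d * max 3 (J.card + 1) ≤ ∑ i ∈ Finset.range d, crs r n i := by
      have h1 : ∑ i ∈ Finset.range d, max 3 (J.card + 1) ≤
          ∑ i ∈ Finset.range d, crs r n i := by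
        refine Finset.sum_le_sum fun i hi => ?_
        rw [Finset.mem_range] at hi
        exact max_le (hcol i hi) (hcount i hi)
      rwa [Finset.sum_const, Finset.card_range, smul_eq_mul] at h1
    have hfin : 3 * d + 2 * J.card ≤ d * max 3 (J.card + 1) + 4 := by
      rcases le_total J.card 2 with h | h
      · rw [max_eq_left (by omega)]
        omega
      · rw [max_eq_right (by omega)]
        nlinarith
    omega


open Classical in
/-- Number of changes of the sequence in the first `n` steps. -/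
noncomputable def chg {T : Type*} (f : ℕ → T) (n : ℕ) : ℕ :=
  ∑ i ∈ Finset.range n, if f i = f (i + 1) then 0 else 1

theorem chg_zero {T : Type*} (f : ℕ → T) : chg f 0 = 0 := by simp [chg]

theorem chg_succ_eq {T : Type*} {f : ℕ → T} {n : ℕ} (h : f n = f (n + 1)) :
    chg f (n + 1) = chg f n := by
  unfold chg
  rw [Finset.sum_range_succ, if_pos h, add_zero]

theorem chg_succ_ne {T : Type*} {f : ℕ → T} {n : ℕ} (h : f n ≠ f (n + 1)) :
    chg f (n + 1) = chg f n + 1 := by
  unfold chg
  rw [Finset.sum_range_succ, if_neg h]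

theorem chg_add {T : Type*} (f : ℕ → T) (a b : ℕ) :
    chg f (a + b) = chg f a + chg (fun i => f (a + i)) b := by
  unfold chg
  rw [Finset.sum_range_add]
  rfl

theorem le_chg {f : ℕ → ℕ} {n : ℕ} (h : ∀ k < n, f (k + 1) ≤ f k + 1 ∧ f k ≤ f (k + 1) + 1) :
    f n ≤ f 0 + chg f n ∧ f 0 ≤ f n + chg f n := by
  induction n with
  | zero => simp
  | succ n ih =>
    have h1 := ih fun k hk => h k (by omega)
    have h2 := h n (by omega)
    by_cases h3 : f n = f (n + 1)
    · rw [chg_succ_eq h3]
      omega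
    · rw [chg_succ_ne h3]
      omega

theorem sum_crs_le_chg {f : ℕ → ℕ} {n : ℕ}
    (hf : ∀ k < n, f (k + 1) ≤ f k + 1 ∧ f k ≤ f (k + 1) + 1) (J : Finset ℕ) :
    ∑ j ∈ J, crs f n j ≤ chg f n := by
  refine (sum_crs_le hf J).trans (le_of_eq ?_)
  rw [Finset.card_filter]
  unfold chg
  refine Finset.sum_congr rfl fun i _ => ?_
  by_cases h : f i = f (i + 1)
  · rw [if_pos h, if_neg (by rw [h]; simp)]
  · rw [if_neg h, if_pos (fun h' => h h'.symm)]

/-- If no step changes both sequences, the numbers of changes add up to at most `n`. -/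
theorem chg_add_chg_le {T T' : Type*} {f : ℕ → T} {g : ℕ → T'} {n : ℕ}
    (h : ∀ i < n, f i = f (i + 1) ∨ g i = g (i + 1)) : chg f n + chg g n ≤ n := by
  induction n with
  | zero => simp [chg_zero]
  | succ n ih =>
    have h1 := ih fun i hi => h i (by omega)
    have h2 := h n (by omega)
    by_cases h3 : f n = f (n + 1) <;> by_cases h4 : g n = g (n + 1)
    · rw [chg_succ_eq h3, chg_succ_eq h4]; omega
    · rw [chg_succ_eq h3, chg_succ_ne h4]; omega
    · rw [chg_succ_ne h3, chg_succ_eq h4]; omega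
    · rcases h2 with h2 | h2
      · exact absurd h2 h3
      · exact absurd h2 h4

/-- A walk with stationary steps. -/
theorem lazy_tour {X : Type*} {adj : X → X → Prop} (w : ℕ → X) (n : ℕ)
    (h : ∀ i < n, w i = w (i + 1) ∨ adj (w i) (w (i + 1))) :
    Tour adj {v | ∃ i ≤ n, w i = v} (w 0) (w n) (chg w n) := by
  induction n with
  | zero =>
    rw [chg_zero]
    refine (Tour.refl (w 0)).mono ?_
    rintro v ⟨i, hi, rfl⟩
    rw [Nat.le_zero.1 hi]
    rfl
  | succ n ih =>
    have h1 := ih fun i hi => h i (by omega)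
    by_cases h3 : w n = w (n + 1)
    · rw [chg_succ_eq h3, ← h3]
      refine h1.mono ?_
      rintro v ⟨i, hi, rfl⟩
      rcases Nat.lt_or_ge i (n + 1) with h | h
      · exact ⟨i, by omega, rfl⟩
      · exact ⟨n, le_rfl, by rw [h3]; congr 1; omega⟩
    · rw [chg_succ_ne h3]
      have h4 := (h n (by omega)).resolve_left h3
      refine (h1.snoc h4).mono ?_
      rintro v ⟨i, hi, rfl⟩
      rcases Nat.lt_or_ge i (n + 1) with h | h
      · exact Or.inr ⟨i, by omega, rfl⟩
      · exact Or.inl (by congr 1; omega)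

theorem tour_path {X : Type*} {adj : X → X → Prop} {γ : ℕ → X} {n : ℕ}
    (h : ∀ i < n, adj (γ i) (γ (i + 1))) : Tour adj {v | ∃ i ≤ n, γ i = v} (γ 0) (γ n) n :=
  ⟨γ, rfl, rfl, h, fun _ hv => hv⟩

variable {A B : Type*} {adjA : A → A → Prop} {adjB : B → B → Prop}

theorem good_padj (hA : Good adjA) (hB : Good adjB) : Good (padj adjA adjB) where
  symm := by
    rintro a b (⟨h1, h2⟩ | ⟨h1, h2⟩)
    · exact Or.inl ⟨hA.symm h1, h2.symm⟩
    · exact Or.inr ⟨h1.symm, hB.symm h2⟩
  conn := by
    rintro ⟨a, b⟩ ⟨a', b'⟩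
    obtain ⟨k, w, h0, h1, h2, -⟩ := hA.conn a a'
    obtain ⟨k', w', h0', h1', h2', -⟩ := hB.conn b b'
    have t1 : Tour (padj adjA adjB) ∅ (a, b) (a', b) k :=
      ⟨fun i => (w i, b), by simp [h0], by simp [h1], fun i hi => Or.inl ⟨h2 i hi, rfl⟩,
        fun v hv => hv.elim⟩
    have t2 : Tour (padj adjA adjB) ∅ (a', b) (a', b') k' :=
      ⟨fun i => (a', w' i), by simp [h0'], by simp [h1'], fun i hi => Or.inr ⟨rfl, h2' i hi⟩,
        fun v hv => hv.elim⟩
    exact ⟨k + k', (t1.trans t2).mono (Set.empty_subset _)⟩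
  bip := by
    obtain ⟨χ, hχ⟩ := hA.bip
    obtain ⟨χ', hχ'⟩ := hB.bip
    refine ⟨fun x => xor (χ x.1) (χ' x.2), ?_⟩
    rintro ⟨a, b⟩ ⟨a', b'⟩ (⟨h1, h2⟩ | ⟨h1, h2⟩)
    · have h := hχ _ _ h1
      simp only at h2 h ⊢
      subst h2
      revert h
      cases χ a <;> cases χ a' <;> cases χ' b <;> simp
    · have h := hχ' _ _ h2
      simp only at h1 h ⊢
      subst h1
      revert h
      cases χ a <;> cases χ' b <;> cases χ' b' <;> simp

theorem lineRet_unit {V : Type*} {adj : V → V → Prop} {a : ℕ → V} {d : ℕ} {ρ : V → ℕ}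
    (h : LineRet adj a d ρ) {u v : V} (huv : adj u v) : ρ v ≤ ρ u + 1 ∧ ρ u ≤ ρ v + 1 := by
  by_cases he : ρ u = ρ v
  · omega
  · obtain ⟨i, hi, ⟨h1, h2⟩ | ⟨h1, h2⟩⟩ := h.cross u v huv he
    · rw [h1, h2, h.val i (by omega), h.val (i + 1) (by omega)]; omega
    · rw [h1, h2, h.val i (by omega), h.val (i + 1) (by omega)]; omega

theorem lineRet_up {V : Type*} {adj : V → V → Prop} {a : ℕ → V} {d : ℕ} {ρ : V → ℕ}
    (h : LineRet adj a d ρ) {u v : V} (huv : adj u v) (hlt : ρ u < ρ v) :
    ρ u < d ∧ u = a (ρ u) ∧ v = a (ρ u + 1) := by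
  obtain ⟨i, hi, ⟨h1, h2⟩ | ⟨h1, h2⟩⟩ := h.cross u v huv (by omega)
  · have : ρ u = i := by rw [h1, h.val i (by omega)]
    rw [this]
    exact ⟨hi, h1, h2⟩
  · exfalso
    rw [h1, h2, h.val i (by omega), h.val (i + 1) (by omega)] at hlt
    omega


/-- Projection to level `0`. -/
def proj (p : B → ℕ) (b₀ : B) (x : A × B) : A × B := (x.1, if p x.2 = 0 then x.2 else b₀)

theorem proj_step {β : ℕ → B} {p : B → ℕ} {M : ℕ} (hB : Good adjB) (hβ : LineRet adjB β M p)
    {x y : A × B} (h : padj adjA adjB x y) :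
    (proj p (β 0) x = proj p (β 0) y ∨ padj adjA adjB (proj p (β 0) x) (proj p (β 0) y)) ∧
      (p x.2 ≠ p y.2 → proj p (β 0) x = proj p (β 0) y) := by
  obtain ⟨x1, x2⟩ := x
  obtain ⟨y1, y2⟩ := y
  unfold proj
  rcases h with ⟨h1, h2⟩ | ⟨h1, h2⟩
  · simp only at h1 h2 ⊢
    subst h2
    exact ⟨Or.inr (Or.inl ⟨h1, rfl⟩), fun h => absurd rfl h⟩
  · simp only at h1 h2 ⊢
    subst h1
    by_cases hx : p x2 = 0 <;> by_cases hy : p y2 = 0
    · rw [if_pos hx, if_pos hy]
      exact ⟨Or.inr (Or.inr ⟨rfl, h2⟩), fun h => absurd (hx.trans hy.symm) h⟩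
    · rw [if_pos hx, if_neg hy]
      have h3 := (lineRet_up hβ h2 (by omega)).2.1
      rw [hx] at h3
      rw [h3]
      exact ⟨Or.inl rfl, fun _ => rfl⟩
    · rw [if_neg hx, if_pos hy]
      have h3 := (lineRet_up hβ (hB.symm h2) (by omega)).2.1
      rw [hy] at h3
      rw [h3]
      exact ⟨Or.inl rfl, fun _ => rfl⟩
    · rw [if_neg hx, if_neg hy]
      exact ⟨Or.inl rfl, fun _ => rfl⟩

/-- Lower bound for the part of a walk before a given time: the projected tour and the changes of
the level. -/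
theorem proj_bound {β : ℕ → B} {p : B → ℕ} {M : ℕ} (hB : Good adjB)
    (hβ : LineRet adjB β M p) {w : ℕ → A × B} {n : ℕ}
    (hadj : ∀ i < n, padj adjA adjB (w i) (w (i + 1))) {S : Set (A × B)}
    (hS : ∀ v ∈ S, p v.2 = 0) (hcov : ∀ v ∈ S, ∃ i ≤ n, w i = v) (h0 : p (w 0).2 = 0) :
    tsp (padj adjA adjB) S (w 0) (proj p (β 0) (w n)) + chg (fun i => p (w i).2) n ≤ n := by
  have h1 : Tour (padj adjA adjB) S (w 0) (proj p (β 0) (w n))
      (chg (fun i => proj p (β 0) (w i)) n) := by
    have := lazy_tour (adj := padj adjA adjB) (fun i => proj p (β 0) (w i)) n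
      (fun i hi => (proj_step hB hβ (hadj i hi)).1)
    have e0 : proj p (β 0) (w 0) = w 0 := by simp [proj, h0]
    rw [e0] at this
    refine this.mono fun v hv => ?_
    obtain ⟨i, hi, rfl⟩ := hcov v hv
    exact ⟨i, hi, by simp [proj, hS _ hv]⟩
  have h2 := tsp_le h1
  have h3 : chg (fun i => proj p (β 0) (w i)) n + chg (fun i => p (w i).2) n ≤ n := by
    refine chg_add_chg_le fun i hi => ?_
    by_cases h : p (w i).2 = p (w (i + 1)).2
    · exact Or.inr h
    · exact Or.inl ((proj_step hB hβ (hadj i hi)).2 h)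
  omega

theorem lower {adjA : A → A → Prop} {adjB : B → B → Prop} (hA : Good adjA) (hB : Good adjB)
    (d D m : ℕ) (hd : 2 ≤ d) (hD : 2 ≤ D) (hm : 4 * (D + d) ≤ m)
    (α : ℕ → A) (ρ : A → ℕ) (hα : LineRet adjA α d ρ)
    (β : ℕ → B) (p : B → ℕ) (hβ : LineRet adjB β (m + D) p)
    (o : A × B) (ho : p o.2 = 0) (S : Set (A × B)) (hSf : S.Finite) (hS : ∀ v ∈ S, p v.2 = 0)
    (k : ℕ) (ht : Tour (padj adjA adjB) (S ∪ corr (α 0) β m ∪ rect α β d m D) o
      (α d, β (m + D)) k) :
    tsp (padj adjA adjB) S o (α 0, β 0) + m + 3 * (D + d) ≤ k + 4 := by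
  have hG := good_padj hA hB
  obtain ⟨w, hw0, hwk, hadj, hcov⟩ := ht
  have hl0 : p (w 0).2 = 0 := by rw [hw0]; exact ho
  have hlk : p (w k).2 = m + D := by rw [hwk]; exact hβ.val _ le_rfl
  have hunit : ∀ i < k, p (w (i + 1)).2 ≤ p (w i).2 + 1 ∧ p (w i).2 ≤ p (w (i + 1)).2 + 1 := by
    intro i hi
    rcases hadj i hi with ⟨-, h⟩ | ⟨-, h⟩
    · rw [h]; omega
    · exact lineRet_unit hβ h
  have hlstep : ∀ i < k, (w i).1 = (w (i + 1)).1 ∨ p (w i).2 = p (w (i + 1)).2 := by
    intro i hi
    rcases hadj i hi with ⟨-, h⟩ | ⟨h, -⟩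
    · exact Or.inr (by rw [h])
    · exact Or.inl h
  by_cases hcase : ∃ j < m - 2 * (D + d), crs (fun i => p (w i).2) k j = 1
  · obtain ⟨j, hj, hcj⟩ := hcase
    obtain ⟨s, hsk, hs1, hs2⟩ := crs_single (f := fun i => p (w i).2) (n := k) (j := j)
      (by show p (w 0).2 ≤ j; omega) hcj
    -- the single crossing
    have hjs : p (w s).2 = j ∧ p (w (s + 1)).2 = j + 1 := by
      have h1 := hs1 s le_rfl
      have h2 := hs2 (s + 1) (by omega) (by omega)
      have h3 := hunit s hsk
      omega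
    have hcross : (w s).2 = β j ∧ (w (s + 1)).2 = β (j + 1) ∧ (w s).1 = (w (s + 1)).1 := by
      rcases hadj s hsk with ⟨-, h⟩ | ⟨h1, h⟩
      · exfalso
        rw [h] at hjs
        omega
      · have := lineRet_up hβ h (by omega)
        rw [hjs.1] at this
        exact ⟨this.2.1, this.2.2, h1⟩
    -- first part
    have hfirst : tsp (padj adjA adjB) S o ((w s).1, β 0) + j ≤ s := by
      have h1 := proj_bound (adjA := adjA) hB hβ (w := w) (n := s) (fun i hi => hadj i (by omega)) hS
        (fun v hv => by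
          obtain ⟨i, hi, hiv⟩ := hcov v (Or.inl (Or.inl hv))
          refine ⟨i, ?_, hiv⟩
          by_contra hc
          have h2 := hs2 i (by omega) hi
          rw [hiv, hS v hv] at h2
          omega) hl0
      have h2 : proj p (β 0) (w s) = ((w s).1, β 0) := by
        unfold proj
        split_ifs with h
        · rw [hjs.1] at h
          rw [hcross.1, h]
        · rfl
      rw [h2, hw0] at h1
      have h3 := (le_chg (f := fun i => p (w i).2) (n := s) (fun i hi => hunit i (by omega))).1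
      rw [hl0, hjs.1] at h3
      omega
    -- a visit of `(α 0, β (j + 1))` after time `s`
    have hvis : ∃ t, s + 1 ≤ t ∧ t ≤ k ∧ w t = (α 0, β (j + 1)) := by
      obtain ⟨i, hi, hiv⟩ := hcov (α 0, β (j + 1)) (Or.inl (Or.inr ⟨j + 1, by omega, by omega, rfl⟩))
      refine ⟨i, ?_, hi, hiv⟩
      by_contra hc
      have h2 := hs1 i (by omega)
      rw [hiv] at h2
      simp only at h2
      rw [hβ.val _ (by omega)] at h2
      omega
    obtain ⟨τ, hτ1, hτ2, hτ3⟩ := hvis
    -- horizontal moves in between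
    have hA1 : tsp (padj adjA adjB) S o (α 0, β 0) ≤ tsp (padj adjA adjB) S o ((w s).1, β 0) +
        chg (fun i => (w (s + 1 + i)).1) (τ - (s + 1)) := by
      have h1 := lazy_tour (adj := padj adjA adjB) (fun i => ((w (s + 1 + i)).1, β 0)) (τ - (s + 1))
        (fun i hi => by
          rcases hadj (s + 1 + i) (by omega) with ⟨h, -⟩ | ⟨h, -⟩
          · exact Or.inr (Or.inl ⟨h, rfl⟩)
          · refine Or.inl ?_
            show ((w (s + 1 + i)).1, β 0) = ((w (s + 1 + i + 1)).1, β 0)
            rw [h])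
      have h2 : chg (fun i => ((w (s + 1 + i)).1, β 0)) (τ - (s + 1)) =
          chg (fun i => (w (s + 1 + i)).1) (τ - (s + 1)) := by
        unfold chg
        refine Finset.sum_congr rfl fun i _ => ?_
        by_cases h : (w (s + 1 + i)).1 = (w (s + 1 + (i + 1))).1
        · rw [if_pos h, if_pos (by simp only [h])]
        · rw [if_neg h, if_neg (fun h' => h (Prod.mk.inj h').1)]
      rw [h2] at h1
      simp only [add_zero] at h1
      rw [← hcross.2.2, show s + 1 + (τ - (s + 1)) = τ by omega, hτ3] at h1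
      exact tsp_le (((hG.tour_tsp hSf o ((w s).1, β 0)).trans h1).mono Set.subset_union_left)
    by_cases hb : ∃ t, s + 1 ≤ t ∧ t ≤ τ ∧ m ≤ p (w t).2
    · -- level `m` is visited before
      obtain ⟨t, ht1, ht2, ht3⟩ := hb
      -- split the time
      have e1 := chg_add (fun i => p (w (s + 1 + i)).2) (t - (s + 1)) (τ - t)
      have c1 := le_chg (f := fun i => p (w (s + 1 + i)).2) (n := t - (s + 1))
        (fun i hi => hunit (s + 1 + i) (by omega))
      have c2 := le_chg (f := fun i => p (w (s + 1 + (t - (s + 1) + i))).2) (n := τ - t)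
        (fun i hi => hunit (s + 1 + (t - (s + 1) + i)) (by omega))
      have c3 := le_chg (f := fun i => p (w (τ + i)).2) (n := k - τ)
        (fun i hi => hunit (τ + i) (by omega))
      have hle : chg (fun i => (w (s + 1 + i)).1) (τ - (s + 1)) +
          chg (fun i => p (w (s + 1 + i)).2) (τ - (s + 1)) ≤ τ - (s + 1) :=
        chg_add_chg_le fun i hi => hlstep (s + 1 + i) (by omega)
      have hle2 : chg (fun i => (w (τ + i)).1) (k - τ) +
          chg (fun i => p (w (τ + i)).2) (k - τ) ≤ k - τ :=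
        chg_add_chg_le fun i hi => hlstep (τ + i) (by omega)
      have a1 : t - (s + 1) + (τ - t) = τ - (s + 1) := by omega
      rw [a1] at e1
      simp only [add_zero] at c1 c2 c3
      rw [show s + 1 + (t - (s + 1)) = t by omega, hjs.2] at c1
      rw [show s + 1 + (t - (s + 1) + (τ - t)) = τ by omega,
        show s + 1 + (t - (s + 1)) = t by omega, hτ3] at c2
      rw [hτ3, show τ + (k - τ) = k by omega, hlk] at c3
      simp only at c2 c3
      rw [hβ.val _ (by omega)] at c2 c3
      omega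
    · -- otherwise
      push Not at hb
      have hr := rlb d D m (k - τ) hd hD (fun i => ρ (w (τ + i)).1) (fun i => p (w (τ + i)).2)
        (by
          intro i hi
          rcases hadj (τ + i) (by omega) with ⟨h1, h2⟩ | ⟨h1, h2⟩
          · refine Or.inr ⟨?_, ?_⟩
            · show p (w (τ + i + 1)).2 = p (w (τ + i)).2
              rw [h2]
            · exact lineRet_unit hα h1
          · refine Or.inl ⟨?_, ?_⟩
            · show ρ (w (τ + i + 1)).1 = ρ (w (τ + i)).1
              rw [h1]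
            · exact lineRet_unit hβ h2)
        (by
          show ρ (w (τ + 0)).1 = 0
          rw [add_zero, hτ3]
          exact hα.val 0 (by omega))
        (by
          show p (w (τ + 0)).2 ≤ m
          rw [add_zero, hτ3]
          simp only
          rw [hβ.val _ (by omega)]
          omega)
        (by
          show ρ (w (τ + (k - τ))).1 = d
          rw [show τ + (k - τ) = k by omega, hwk]
          exact hα.val d le_rfl)
        (by
          show p (w (τ + (k - τ))).2 = m + D
          rw [show τ + (k - τ) = k by omega]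
          exact hlk)
      have hvis2 : ∀ a c : ℕ, a ≤ d → m ≤ c → c ≤ m + D → (α a, β c) ∈ rect α β d m D →
          ∃ i ≤ k - τ, ρ (w (τ + i)).1 = a ∧ p (w (τ + i)).2 = c := by
        intro a c ha hc1 hc2 hmem
        obtain ⟨i, hi, hiv⟩ := hcov _ (Or.inr hmem)
        have hpi : p (w i).2 = c := by rw [hiv]; exact hβ.val _ hc2
        have hi1 : s + 1 ≤ i := by
          by_contra hcon
          have := hs1 i (by omega)
          omega
        have hi2 : τ ≤ i := by
          by_contra hcon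
          have := hb i hi1 (by omega)
          omega
        refine ⟨i - τ, by omega, ?_, ?_⟩
        · rw [show τ + (i - τ) = i by omega, hiv]
          exact hα.val _ ha
        · rw [show τ + (i - τ) = i by omega]
          exact hpi
      have hr' := hr
        (fun c h1 h2 => hvis2 0 c (by omega) h1 h2 (Or.inl ⟨c, h1, h2, Or.inl rfl⟩))
        (fun c h1 h2 => hvis2 d c le_rfl h1 h2 (Or.inl ⟨c, h1, h2, Or.inr rfl⟩))
        (fun a h1 => hvis2 a m h1 le_rfl (by omega) (Or.inr ⟨a, h1, Or.inl rfl⟩))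
        (fun a h1 => hvis2 a (m + D) h1 (by omega) le_rfl (Or.inr ⟨a, h1, Or.inr rfl⟩))
      simp only [add_zero] at hr'
      rw [hτ3] at hr'
      simp only at hr'
      rw [hβ.val _ (by omega)] at hr'
      have hle : chg (fun i => (w (s + 1 + i)).1) (τ - (s + 1)) +
          chg (fun i => p (w (s + 1 + i)).2) (τ - (s + 1)) ≤ τ - (s + 1) :=
        chg_add_chg_le fun i hi => hlstep (s + 1 + i) (by omega)
      omega
  · -- all low levels are crossed at least three times
    push Not at hcase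
    have h1 := proj_bound (adjA := adjA) hB hβ (w := w) (n := k) hadj hS
      (fun v hv => hcov v (Or.inl (Or.inl hv))) hl0
    have h2 : proj p (β 0) (w k) = (α d, β 0) := by
      unfold proj
      rw [if_neg (by rw [hlk]; omega), hwk]
    rw [h2, hw0] at h1
    have h3 := sum_crs_le_chg (f := fun i => p (w i).2) (n := k) hunit (Finset.Ico 0 (m + D))
    rw [← Finset.sum_Ico_consecutive _ (Nat.zero_le (m - 2 * (D + d)))
      (show m - 2 * (D + d) ≤ m + D by omega)] at h3
    have h4 : ∑ j ∈ Finset.Ico 0 (m - 2 * (D + d)), 3 ≤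
        ∑ j ∈ Finset.Ico 0 (m - 2 * (D + d)), crs (fun i => p (w i).2) k j := by
      refine Finset.sum_le_sum fun j hj => ?_
      rw [Finset.mem_Ico] at hj
      have h5 := crs_odd (f := fun i => p (w i).2) (n := k) (j := j)
        (by show p (w 0).2 ≤ j; omega) (by show j < p (w k).2; omega)
      have h6 := hcase j hj.2
      omega
    have h5 : ∑ j ∈ Finset.Ico (m - 2 * (D + d)) (m + D), 1 ≤
        ∑ j ∈ Finset.Ico (m - 2 * (D + d)) (m + D), crs (fun i => p (w i).2) k j := by
      refine Finset.sum_le_sum fun j hj => ?_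
      rw [Finset.mem_Ico] at hj
      exact crs_pos (by show p (w 0).2 ≤ j; omega) (by show j < p (w k).2; omega)
    rw [Finset.sum_const, Nat.card_Ico, smul_eq_mul] at h4 h5
    have h6 : tsp (padj adjA adjB) S o (α 0, β 0) ≤ tsp (padj adjA adjB) S o (α d, β 0) + d := by
      have ht : Tour (padj adjA adjB) ∅ (α 0, β 0) (α d, β 0) d :=
        ⟨fun i => (α i, β 0), rfl, rfl, fun i hi => Or.inl ⟨hα.adj_path i hi, rfl⟩,
          fun v hv => hv.elim⟩
      exact tsp_le (((hG.tour_tsp hSf o (α d, β 0)).trans (ht.reverse hG.symm)).mono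
        Set.subset_union_left)
    omega

theorem upper {adjA : A → A → Prop} {adjB : B → B → Prop} (hA : Good adjA) (hB : Good adjB)
    (d D m : ℕ) (α : ℕ → A) (ρ : A → ℕ) (hα : LineRet adjA α d ρ)
    (β : ℕ → B) (p : B → ℕ) (hβ : LineRet adjB β (m + D) p)
    (o : A × B) (S : Set (A × B)) (hSf : S.Finite) :
    tsp (padj adjA adjB) (S ∪ corr (α 0) β m ∪ rect α β d m D) o (α 0, β m) ≤
      tsp (padj adjA adjB) S o (α 0, β 0) + m + 2 * (D + d) := by
  have hG := good_padj hA hB
  have t0 := hG.tour_tsp hSf o (α 0, β 0)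
  have t1 : Tour (padj adjA adjB) {v | ∃ i ≤ m, (α 0, β i) = v} (α 0, β 0) (α 0, β m) m :=
    tour_path (γ := fun i => (α 0, β i)) fun i hi => Or.inr ⟨rfl, hβ.adj_path i (by omega)⟩
  have t2 : Tour (padj adjA adjB) {v | ∃ i ≤ D, (α 0, β (m + i)) = v} (α 0, β m)
      (α 0, β (m + D)) D :=
    tour_path (γ := fun i => (α 0, β (m + i))) fun i hi => Or.inr ⟨rfl, hβ.adj_path _ (by omega)⟩
  have t3 : Tour (padj adjA adjB) {v | ∃ i ≤ d, (α i, β (m + D)) = v} (α 0, β (m + D))
      (α d, β (m + D)) d :=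
    tour_path (γ := fun i => (α i, β (m + D))) fun i hi => Or.inl ⟨hα.adj_path i hi, rfl⟩
  have t4 : Tour (padj adjA adjB) {v | ∃ i ≤ D, (α d, β (m + i)) = v} (α d, β (m + D))
      (α d, β m) D :=
    (tour_path (γ := fun i => (α d, β (m + i)))
      fun i hi => Or.inr ⟨rfl, hβ.adj_path _ (by omega)⟩).reverse hG.symm
  have t5 : Tour (padj adjA adjB) {v | ∃ i ≤ d, (α i, β m) = v} (α d, β m) (α 0, β m) d :=
    (tour_path (γ := fun i => (α i, β m)) fun i hi => Or.inl ⟨hα.adj_path i hi, rfl⟩).reverse hG.symm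
  have t := ((((t0.trans t1).trans t2).trans t3).trans t4).trans t5
  have h := tsp_le (t.mono (S' := S ∪ corr (α 0) β m ∪ rect α β d m D) (by
    rintro v ((hv | ⟨j, hj1, hj2, rfl⟩) | (⟨j, hj1, hj2, rfl | rfl⟩ | ⟨i, hi, rfl | rfl⟩))
    · exact Or.inl (Or.inl (Or.inl (Or.inl (Or.inl hv))))
    · exact Or.inl (Or.inl (Or.inl (Or.inl (Or.inr ⟨j, hj2, rfl⟩))))
    · exact Or.inl (Or.inl (Or.inl (Or.inr ⟨j - m, by omega, by
        rw [show m + (j - m) = j by omega]⟩)))
    · exact Or.inl (Or.inr ⟨j - m, by omega, by rw [show m + (j - m) = j by omega]⟩)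
    · exact Or.inr ⟨i, hi, rfl⟩
    · exact Or.inl (Or.inl (Or.inr ⟨i, hi, rfl⟩))))
  omega

end PIaux

theorem pi : PI_Stmt := by
  intro A B adjA adjB hA hB d D m hd hD hm α ρ hα β p hβ o ho S hSf hS
  have h1 := PIaux.upper hA hB d D m α ρ hα β p hβ o S hSf
  have hfin : (S ∪ corr (α 0) β m ∪ rect α β d m D).Finite := by
    refine (hSf.union ?_).union ?_
    · refine ((Set.finite_Iic m).image fun j => (α 0, β j)).subset ?_
      rintro v ⟨j, -, hj, rfl⟩
      exact ⟨j, hj, rfl⟩
    · refine (((Set.finite_Iic d).prod (Set.finite_Iic (m + D))).image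
        fun x => (α x.1, β x.2)).subset ?_
      rintro v (⟨j, hj1, hj2, rfl | rfl⟩ | ⟨i, hi, rfl | rfl⟩)
      · exact ⟨(0, j), ⟨Nat.zero_le _, hj2⟩, rfl⟩
      · exact ⟨(d, j), ⟨Set.mem_Iic.2 le_rfl, hj2⟩, rfl⟩
      · exact ⟨(i, m), ⟨hi, Nat.le_add_right _ _⟩, rfl⟩
      · exact ⟨(i, m + D), ⟨hi, Set.mem_Iic.2 le_rfl⟩, rfl⟩
  have h2 := PIaux.lower hA hB d D m hd hD hm α ρ hα β p hβ o ho S hSf hS _
    ((PIaux.good_padj hA hB).tour_tsp hfin o (α d, β (m + D)))
  omega

end Pool.Agent.AD
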