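import Pool.Agent.AD.Moves

/-!
MP_072aa0_al: revolutions around a lit cycle.
-/

set_option autoImplicit false

namespace Pool.Agent.AD

variable {X : Type*} {adj : X → X → Prop} {o : X} {n : ℕ}

theorem cyc_inj {P : ℕ} {v : ℕ → X} (hP : v P = v 0)
    (hinj : ∀ i < P, ∀ j < P, v i = v j → i = j) {i j : ℕ} (hi : i < P) (hj : j < P)
    (h : v (i + 1) = v (j + 1)) : i = j := by
  rcases Nat.lt_or_ge (i + 1) P with hi1 | hi1
  · rcases Nat.lt_or_ge (j + 1) P with hj1 | hj1
    · have := hinj _ hi1 _ hj1 h
      omega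
    · have e1 : j + 1 = P := by omega
      rw [e1, hP] at h
      have := hinj _ hi1 _ (by omega) h
      omega
  · have e1 : i + 1 = P := by omega
    rcases Nat.lt_or_ge (j + 1) P with hj1 | hj1
    · rw [e1, hP] at h
      have := hinj _ (by omega) _ hj1 h
      omega
    · omega

/-- The loads during one revolution. -/
noncomputable def revo (adj : X → X → Prop) (o : X) (v : ℕ → X) (g : X →₀ ℕ) : ℕ → X →₀ ℕ
  | 0 => g
  | i + 1 => wstep adj o (v i) (v (i + 1)) (revo adj o v g i)

theorem Good.revo_spec (hG : Good adj) {P : ℕ} {v : ℕ → X} (hP : v P = v 0)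
    (hadj : ∀ i < P, adj (v i) (v (i + 1))) (hinj : ∀ i < P, ∀ j < P, v i = v j → i = j)
    {g : X →₀ ℕ} (hn : nrm adj o (v 0, g) = n + 1) (h2 : ∀ i < P, 2 ≤ g (v (i + 1))) (i : ℕ)
    (hi : i ≤ P) :
    lit (revo adj o v g i) = lit g ∧ nrm adj o (v i, revo adj o v g i) = n + 1 ∧
      Reach adj o n (2 * i) (v 0, g) (v i, revo adj o v g i) ∧
      (∀ x, (∀ i < P, v i ≠ x) → revo adj o v g i x = g x) ∧
      (∀ j < P, i ≤ j → revo adj o v g i (v (j + 1)) = g (v (j + 1))) ∧
      (∀ j < P, j < i → tsp adj (lit g) o (v (j + 1)) = tsp adj (lit g) o (v j) + 1 →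
        revo adj o v g i (v (j + 1)) + 1 = g (v (j + 1))) ∧
      (∀ j < P, j < i → tsp adj (lit g) o (v (j + 1)) ≠ tsp adj (lit g) o (v j) + 1 →
        revo adj o v g i (v (j + 1)) = g (v (j + 1)) + 1) := by
  induction i with
  | zero =>
    refine ⟨rfl, hn, ?_, fun _ _ => rfl, fun _ _ _ => rfl, fun j _ h => absurd h (by omega),
      fun j _ h => absurd h (by omega)⟩
    have h0 : InW adj o n (v 0, g) := inW_of_eq hn (by omega) (by omega)
    exact Reach.refl h0
  | succ i ih =>
    obtain ⟨i1, i2, i3, i4, i5, i6, i7⟩ := ih (by omega)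
    have hi' : i < P := by omega
    have hg2 : 2 ≤ revo adj o v g i (v (i + 1)) := by
      rw [i5 i hi' le_rfl]
      exact h2 i hi'
    have hw := hG.walk_step (hadj i hi') hg2 i2
    have hne : ∀ j < P, j ≠ i → v (j + 1) ≠ v (i + 1) := by
      intro j hj hji h
      exact hji (cyc_inj hP hinj hj hi' h)
    refine ⟨?_, hw.1, ?_, ?_, ?_, ?_, ?_⟩
    · show lit (wstep adj o (v i) (v (i + 1)) (revo adj o v g i)) = lit g
      rw [lit_wstep _ hg2, i1]
    · exact (i3.trans hw.2).mono (by omega)
    · intro x hx
      show wstep adj o (v i) (v (i + 1)) (revo adj o v g i) x = g x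
      rw [wstep_apply_ne, i4 x hx]
      rcases Nat.lt_or_ge (i + 1) P with h | h
      · exact (hx _ h).symm
      · have e1 : i + 1 = P := by omega
        rw [e1, hP]
        exact (hx 0 (by omega)).symm
    · intro j hj hij
      show wstep adj o (v i) (v (i + 1)) (revo adj o v g i) (v (j + 1)) = g (v (j + 1))
      rw [wstep_apply_ne _ (hne j hj (by omega)), i5 j hj (by omega)]
    · intro j hj hij hup
      show wstep adj o (v i) (v (i + 1)) (revo adj o v g i) (v (j + 1)) + 1 = g (v (j + 1))
      by_cases hji : j = i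
      · subst hji
        have hup' := hup
        rw [← i1] at hup'
        rw [wstep_apply_up hup', i5 j hj le_rfl]
        have := h2 j hj
        omega
      · rw [wstep_apply_ne _ (hne j hj hji), i6 j hj (by omega) hup]
    · intro j hj hij hup
      show wstep adj o (v i) (v (i + 1)) (revo adj o v g i) (v (j + 1)) = g (v (j + 1)) + 1
      by_cases hji : j = i
      · subst hji
        have hup' := hup
        rw [← i1] at hup'
        rw [wstep_apply_down hup', i5 j hj le_rfl]
      · rw [wstep_apply_ne _ (hne j hj hji), i7 j hj (by omega) hup]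

theorem pump : PUMP_Stmt := by
  intro X adj hG o n P K v hP hadj hinj
  induction K with
  | zero =>
    intro g hn h2 _
    have h0 : InW adj o n (v 0, g) := inW_of_eq hn (by omega) (by omega)
    exact ⟨g, hn, (Reach.refl h0).mono (by omega), fun _ _ => rfl, fun _ _ _ => rfl,
      fun _ _ _ => rfl⟩
  | succ K ih =>
    intro g hn h2 hK
    obtain ⟨i1, i2, i3, i4, -, i6, i7⟩ := hG.revo_spec hP hadj hinj hn h2 P le_rfl
    set g1 := revo adj o v g P with hg1
    rw [hP] at i2 i3
    obtain ⟨g', a1, a2, a3, a4, a5⟩ := ih g1 i2 (by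
        intro i hi
        by_cases hup : tsp adj (lit g) o (v (i + 1)) = tsp adj (lit g) o (v i) + 1
        · have := i6 i hi hi hup
          have := hK i hi hup
          omega
        · have := i7 i hi hi hup
          have := h2 i hi
          omega) (by
        intro i hi hup
        rw [i1] at hup
        have := i6 i hi hi hup
        have := hK i hi hup
        omega)
    rw [i1] at a4 a5
    refine ⟨g', a1, (i3.trans a2).mono ?_, fun x hx => ?_, fun i hi hup => ?_, fun i hi hup => ?_⟩
    · rw [Nat.mul_succ]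
      omega
    · rw [a3 x hx, i4 x hx]
    · have := a4 i hi hup
      have := i6 i hi hi hup
      omega
    · have := a5 i hi hup
      have := i7 i hi hi hup
      omega

end Pool.Agent.AD
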