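import Pool.Agent.AD.UnwindA

/-!
MP_072aa0_al, module UNW, part 2: jumps and the bound for the unwinding.
-/

set_option autoImplicit false

namespace Pool.Agent.AD

variable {X : Type*} {adj : X → X → Prop} {o : X} {n : ℕ}

theorem dif_gr_le {w : ℕ → X} {g : X →₀ ℕ} {i j : ℕ} (hij : i ≤ j) (V : Finset X) (H H' : ℕ) :
    dif V (gr g w j + Finsupp.single (w i) H') (gr g w i + Finsupp.single (w i) H) ≤
      (mass (gr g w j) - mass (gr g w i)) + ((H - H') + (H' - H)) := by
  classical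
  have h1 := sum_sub_le_mass (fun x => gr_apply_mono g w hij x) V
  have h2 := sum_le_mass (Finsupp.single (w i) ((H - H') + (H' - H))) V
  rw [mass_single] at h2
  have h3 : dif V (gr g w j + Finsupp.single (w i) H') (gr g w i + Finsupp.single (w i) H) ≤
      ∑ x ∈ V, ((gr g w j x - gr g w i x) +
        (Finsupp.single (w i) ((H - H') + (H' - H)) : X →₀ ℕ) x) := by
    unfold dif
    refine Finset.sum_le_sum fun x _ => ?_
    have h4 := gr_apply_mono g w hij x
    rw [Finsupp.add_apply, Finsupp.add_apply]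
    by_cases hx : x = w i
    · subst hx
      rw [Finsupp.single_eq_same, Finsupp.single_eq_same, Finsupp.single_eq_same]
      omega
    · rw [Finsupp.single_eq_of_ne hx, Finsupp.single_eq_of_ne hx, Finsupp.single_eq_of_ne hx]
      omega
  rw [Finset.sum_add_distrib] at h3
  omega

theorem bd_mono {a b : ℕ} (h : a ≤ b) : bd a ≤ bd b := by
  unfold bd
  exact Nat.mul_le_mul_left _ (Nat.pow_le_pow_left (by omega) 3)

theorem cst_mono {a b : ℕ} (h : a ≤ b) : cst a ≤ cst b := by
  unfold cst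
  exact Nat.mul_le_mul_left _ (Nat.pow_le_pow_left (by omega) 6)

/-- The second half of a jump: after the heap has been moved from `w (i + k)` to `w i`, it absorbs
the loads that are visited only after the time `i`. -/
theorem Short.absorb (hN : NAIVE_Stmt) {X : Type} {adj : X → X → Prop} (hG : Good adj) {o : X}
    {g : X →₀ ℕ} {w : ℕ → X} {T : ℕ} (h : Short adj o n g w T) {i k : ℕ} (hk : i + k ≤ T)
    {E H' : ℕ} (h1 : n + 1 - (i + k) - mass (gr g w (i + k)) ≤ H' + E)
    (h2 : H' ≤ n + 1 - (i + k) - mass (gr g w (i + k)) + E)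
    (hn : nrm adj o (w i, gr g w (i + k) + Finsupp.single (w i) H') = n + 1)
    (hbig : bd (k + 1) + E ≤ n + 1 - (i + k) - mass (gr g w (i + k))) :
    Reach adj o n (8 * (k + 1) * (mass (gr g w (i + k)) - mass (gr g w i)) +
        4 * (k + 1) * (k + E) + cst (k + 1))
      (w i, gr g w (i + k) + Finsupp.single (w i) H') (xst n g w i) := by
  classical
  obtain ⟨V, hV⟩ : ∃ V : Finset X, V = (Finset.Icc i (i + k)).image w := ⟨_, rfl⟩
  have hmem : ∀ x, x ∈ V ↔ ∃ l, i ≤ l ∧ l ≤ i + k ∧ w l = x := by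
    intro x
    rw [hV]
    simp only [Finset.mem_image, Finset.mem_Icc, and_assoc]
  have hcard : V.card ≤ k + 1 := by
    rw [hV]
    refine Finset.card_image_le.trans ?_
    rw [Nat.card_Icc]
    omega
  have hconn : ∀ a ∈ V, ∀ b ∈ V, ∃ l ≤ V.card, PathIn adj V a b l := by
    have key : ∀ a b : ℕ, i ≤ a → a ≤ b → b ≤ i + k → PathIn adj V (w a) (w b) (b - a) := by
      intro a b ha hab hb
      refine ⟨fun l => w (a + l), rfl, by
        show w (a + (b - a)) = w b; rw [Nat.add_sub_cancel' hab], fun l hl => ?_, fun l hl => ?_⟩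
      · exact h.adj_w (a + l) (by omega)
      · exact (hmem _).mpr ⟨a + l, by omega, by omega, rfl⟩
    intro a ha b hb
    obtain ⟨p, hp1, hp2, rfl⟩ := (hmem a).mp ha
    obtain ⟨q, hq1, hq2, rfl⟩ := (hmem b).mp hb
    rcases Nat.le_total p q with hpq | hpq
    · obtain ⟨l, hl, hP⟩ := (key p q hp1 hpq hq2).exists_short
      exact ⟨l, hl.le, hP⟩
    · obtain ⟨l, hl, hP⟩ := ((key q p hq1 hpq hp2).symm hG.symm).exists_short
      exact ⟨l, hl.le, hP⟩
  have hwi : w i ∈ V := (hmem _).mpr ⟨i, le_rfl, by omega, rfl⟩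
  have hiT : i ≤ T := by omega
  have hm1 := h.mass_le hk
  have hm2 := h.mass_le hiT
  have hm3 := mass_gr_mono g w (show i ≤ i + k by omega)
  have hb := bd_mono hcard
  have hoff : ∀ x ∉ V, (gr g w (i + k) + Finsupp.single (w i) H') x =
      (gr g w i + Finsupp.single (w i) (n + 1 - i - mass (gr g w i))) x := by
    intro x hx
    have hxi : x ≠ w i := fun hc => hx (hc ▸ hwi)
    rw [Finsupp.add_apply, Finsupp.add_apply, Finsupp.single_eq_of_ne hxi,
      Finsupp.single_eq_of_ne hxi, add_zero, add_zero]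
    by_cases hl : ∃ l ≤ i, w l = x
    · rw [gr_apply_pos hl]
      obtain ⟨l, hl, rfl⟩ := hl
      exact gr_apply_pos ⟨l, by omega, rfl⟩
    · rw [gr_apply_neg hl]
      refine gr_apply_neg ?_
      rintro ⟨l, hl2, rfl⟩
      rcases Nat.lt_or_ge i l with h3 | h3
      · exact hx ((hmem _).mpr ⟨l, h3.le, hl2, rfl⟩)
      · exact hl ⟨l, h3, rfl⟩
  have hR := hN adj hG o n V V.card le_rfl hconn (w i) hwi (w i) hwi
    (gr g w (i + k) + Finsupp.single (w i) H')
    (gr g w i + Finsupp.single (w i) (n + 1 - i - mass (gr g w i))) hoff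
    (by
      rw [Finsupp.add_apply, Finsupp.single_eq_same]
      omega)
    (by
      rw [Finsupp.add_apply, Finsupp.single_eq_same]
      omega) hn (h.nrm_xst hG hiT)
  refine hR.mono ?_
  have hd := dif_gr_le (g := g) (w := w) (show i ≤ i + k by omega) V
    (n + 1 - i - mass (gr g w i)) H'
  have hd2 : dif V (gr g w (i + k) + Finsupp.single (w i) H')
      (gr g w i + Finsupp.single (w i) (n + 1 - i - mass (gr g w i))) ≤
      2 * (mass (gr g w (i + k)) - mass (gr g w i)) + (k + E) := by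
    omega
  have hc := cst_mono hcard
  calc 4 * V.card * (dif V (gr g w (i + k) + Finsupp.single (w i) H')
      (gr g w i + Finsupp.single (w i) (n + 1 - i - mass (gr g w i)))) + cst V.card
      ≤ 4 * (k + 1) * (2 * (mass (gr g w (i + k)) - mass (gr g w i)) + (k + E)) + cst (k + 1) :=
        Nat.add_le_add (Nat.mul_le_mul (Nat.mul_le_mul_left 4 hcard) hd2) hc
    _ = 8 * (k + 1) * (mass (gr g w (i + k)) - mass (gr g w i)) +
        4 * (k + 1) * (k + E) + cst (k + 1) := by ring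

/-- Many jumps. `A` is the fixed cost of a jump. -/
theorem Short.jumps (hN : NAIVE_Stmt) {X : Type} {adj : X → X → Prop} (hG : Good adj) {o : X}
    {g : X →₀ ℕ} {w : ℕ → X} {T : ℕ} (h : Short adj o n g w T) {k : ℕ} {E R θ : ℕ}
    (hθ : bd (k + 1) + E ≤ θ)
    (hM : ∀ i, i + k ≤ T → θ ≤ n + 1 - (i + k) - mass (gr g w (i + k)) →
      ∃ H' : ℕ, n + 1 - (i + k) - mass (gr g w (i + k)) ≤ H' + E ∧
        H' ≤ n + 1 - (i + k) - mass (gr g w (i + k)) + E ∧
        nrm adj o (w i, gr g w (i + k) + Finsupp.single (w i) H') = n + 1 ∧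
        Reach adj o n R (xst n g w (i + k)) (w i, gr g w (i + k) + Finsupp.single (w i) H'))
    (r q : ℕ) (hT : r + q * k + θ ≤ T) :
    Reach adj o n (q * (R + (4 * (k + 1) * (k + E) + cst (k + 1))) +
        8 * (k + 1) * (mass (gr g w (r + q * k)) - mass (gr g w r)))
      (xst n g w (r + q * k)) (xst n g w r) := by
  induction q with
  | zero =>
    have := h.nrm_xst hG (show r ≤ T by omega)
    rw [Nat.zero_mul, Nat.zero_mul, Nat.add_zero]
    exact (Reach.refl (inW_of_eq this (by omega) (by omega))).mono (by omega)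
  | succ q ih =>
    have e1 : r + (q + 1) * k = r + q * k + k := by ring
    rw [e1] at hT ⊢
    have ih' := ih (by omega)
    have hm := h.mass_le (show r + q * k + k ≤ T by omega)
    have hm1 := mass_gr_mono g w (show r + q * k + k ≤ T by omega)
    rw [h.gr_last] at hm1
    have hlev := h.lev
    have hbig : θ ≤ n + 1 - (r + q * k + k) - mass (gr g w (r + q * k + k)) := by omega
    obtain ⟨H', a1, a2, a3, a4⟩ := hM (r + q * k) (by omega) hbig
    have h5 := h.absorb hN hG (show r + q * k + k ≤ T by omega) a1 a2 a3 (hθ.trans hbig)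
    refine ((a4.trans h5).trans ih').mono (le_of_eq ?_)
    have m1 := mass_gr_mono g w (show r ≤ r + q * k by omega)
    have m2 := mass_gr_mono g w (show r + q * k ≤ r + q * k + k by omega)
    obtain ⟨x, hx⟩ := Nat.exists_eq_add_of_le m1
    obtain ⟨y, hy⟩ := Nat.exists_eq_add_of_le m2
    rw [hy, hx]
    have e2 : mass (gr g w r) + x + y - (mass (gr g w r) + x) = y := by omega
    have e3 : mass (gr g w r) + x - mass (gr g w r) = x := by omega
    have e4 : mass (gr g w r) + x + y - mass (gr g w r) = x + y := by omega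
    rw [e2, e3, e4]
    ring

/-! ### Arithmetic -/

theorem pow_le_of_le {d a b c : ℕ} (hd : 2 ≤ d) (ha : c ≤ 2 ^ a) (b' : ℕ) (hb : a + b' ≤ b) :
    c * d ^ b' ≤ d ^ b := by
  calc c * d ^ b' ≤ d ^ a * d ^ b' :=
        Nat.mul_le_mul_right _ (ha.trans (Nat.pow_le_pow_left hd a))
    _ = d ^ (a + b') := (pow_add d a b').symm
    _ ≤ d ^ b := Nat.pow_le_pow_right (by omega) hb

theorem bd_le_pow {d : ℕ} (hd : 2 ≤ d) : bd (d ^ 3 + 1) ≤ d ^ 22 := by
  have h8 : 8 ≤ d ^ 3 := by
    calc 8 = 2 ^ 3 := by norm_num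
      _ ≤ d ^ 3 := Nat.pow_le_pow_left hd 3
  unfold bd
  calc 1000 * (d ^ 3 + 1 + 1) ^ 3 ≤ 1000 * (2 * d ^ 3) ^ 3 :=
        Nat.mul_le_mul_left _ (Nat.pow_le_pow_left (by omega) 3)
    _ = 8000 * d ^ 9 := by ring
    _ ≤ d ^ 22 := pow_le_of_le hd (a := 13) (by norm_num) 9 (by norm_num)

theorem cst_le_pow {d : ℕ} (hd : 2 ≤ d) : cst (d ^ 3 + 1) ≤ d ^ 44 := by
  have h8 : 8 ≤ d ^ 3 := by
    calc 8 = 2 ^ 3 := by norm_num
      _ ≤ d ^ 3 := Nat.pow_le_pow_left hd 3
  unfold cst
  calc 10 ^ 6 * (d ^ 3 + 1 + 1) ^ 6 ≤ 10 ^ 6 * (2 * d ^ 3) ^ 6 :=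
        Nat.mul_le_mul_left _ (Nat.pow_le_pow_left (by omega) 6)
    _ = 64000000 * d ^ 18 := by ring
    _ ≤ d ^ 44 := pow_le_of_le hd (a := 26) (by norm_num) 18 (by norm_num)

/-- Unwinding: every state at level `n + 1` is joined to the heap at the origin. -/
theorem unwind (hT : Good fadj) (hN : NAIVE_Stmt) (hM : MOVE_Stmt) : UNWIND_Stmt := by
  obtain ⟨C, hC⟩ := hM
  refine ⟨C + 50, ?_⟩
  intro d n hd hn o s hs
  have hG : Good fadj2 := hT.padj hT
  obtain ⟨w, T, h, hw⟩ := hG.exists_short hs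
  obtain ⟨c, g⟩ := s
  simp only at hw h
  obtain ⟨k, hk⟩ : ∃ k, k = d ^ 3 := ⟨_, rfl⟩
  have hk0 : 8 ≤ k := by
    rw [hk]
    calc 8 = 2 ^ 3 := by norm_num
      _ ≤ d ^ 3 := Nat.pow_le_pow_left hd 3
  -- the threshold
  obtain ⟨θ, hθ⟩ : ∃ θ, θ = d ^ (C + 23) := ⟨_, rfl⟩
  have hθ1 : bd (k + 1) + d ^ C ≤ θ := by
    have h1 := bd_le_pow hd
    rw [← hk] at h1
    have h2 : d ^ 22 ≤ d ^ (C + 22) := Nat.pow_le_pow_right (by omega) (by omega)
    have h3 : d ^ C ≤ d ^ (C + 22) := Nat.pow_le_pow_right (by omega) (by omega)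
    have h4 : 2 * d ^ (C + 22) ≤ θ := by
      rw [hθ]
      exact pow_le_of_le hd (a := 1) (by norm_num) (C + 22) (by omega)
    omega
  have hθ2 : d ^ C ≤ θ := by omega
  -- the end points of the unwinding
  have hlast := h.xst_last
  rw [hw] at hlast
  have hzero := h.xst_zero
  have hTn : T ≤ n + 1 := by have := h.lev; omega
  rw [← hlast, ← hzero]
  -- total cost bounds
  obtain ⟨D, hD⟩ : ∃ D, D = d ^ (C + 29) := ⟨_, rfl⟩
  have hD1 : θ * 4 + k * 4 + 8 * (k + 1) ≤ D := by
    have h1 : 8 * d ^ (C + 23) ≤ d ^ (C + 28) :=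
      pow_le_of_le hd (a := 3) (by norm_num) (C + 23) (by omega)
    have h2 : 32 * d ^ 3 ≤ d ^ (C + 28) :=
      pow_le_of_le hd (a := 5) (by norm_num) 3 (by omega)
    have h3 : 2 * d ^ (C + 28) ≤ D := by
      rw [hD]
      exact pow_le_of_le hd (a := 1) (by norm_num) (C + 28) (by omega)
    rw [← hθ] at h1
    rw [← hk] at h2
    omega
  have hDC : D ≤ d ^ (C + 50) := by
    rw [hD]
    exact Nat.pow_le_pow_right (by omega) (by omega)
  rcases Nat.lt_or_ge T (θ + 1) with hTθ | hTθ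
  · -- a short tour
    have h1 := h.steps_back hG (i := 0) T (by omega)
    rw [Nat.zero_add] at h1
    refine h1.mono ?_
    have h2 : T * (4 * (n + 1)) ≤ D * (n + 1) := by
      calc T * (4 * (n + 1)) = T * 4 * (n + 1) := by ring
        _ ≤ D * (n + 1) := Nat.mul_le_mul_right _ (by omega)
    have h3 : D * (n + 1) ≤ n * d ^ (C + 50) + d ^ (C + 50) := by
      calc D * (n + 1) ≤ d ^ (C + 50) * (n + 1) := Nat.mul_le_mul_right _ hDC
        _ = n * d ^ (C + 50) + d ^ (C + 50) := by ring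
    have h4 : d ^ (C + 50) ≤ (n / d ^ 3 + 1) * ((C + 50) * n * d ^ 2 + d ^ (C + 50)) := by
      calc d ^ (C + 50) ≤ (C + 50) * n * d ^ 2 + d ^ (C + 50) := Nat.le_add_left _ _
        _ = 1 * ((C + 50) * n * d ^ 2 + d ^ (C + 50)) := (Nat.one_mul _).symm
        _ ≤ (n / d ^ 3 + 1) * ((C + 50) * n * d ^ 2 + d ^ (C + 50)) :=
          Nat.mul_le_mul_right _ (Nat.le_add_left 1 _)
    omega
  · -- naive steps, jumps, naive steps
    obtain ⟨j0, hj0⟩ : ∃ j0, T = j0 + θ := ⟨T - θ, by omega⟩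
    obtain ⟨q, r, hr, hqr⟩ : ∃ q r, r < k ∧ j0 = r + q * k :=
      ⟨j0 / k, j0 % k, Nat.mod_lt _ (by omega), by
        have := Nat.mod_add_div j0 k
        rw [Nat.mul_comm] at this
        omega⟩
    have s1 := h.steps_back hG (i := j0) θ (by omega)
    rw [← hj0, hqr] at s1
    have s3 := h.steps_back hG (i := 0) r (by omega)
    rw [Nat.zero_add] at s3
    have hMM : ∀ i, i + k ≤ T → θ ≤ n + 1 - (i + k) - mass (gr g w (i + k)) →
      ∃ H' : ℕ, n + 1 - (i + k) - mass (gr g w (i + k)) ≤ H' + d ^ C ∧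
        H' ≤ n + 1 - (i + k) - mass (gr g w (i + k)) + d ^ C ∧
        nrm fadj2 o (w i, gr g w (i + k) + Finsupp.single (w i) H') = n + 1 ∧
        Reach fadj2 o n (C * (n + 1) * d ^ 2 + d ^ C) (xst n g w (i + k))
          (w i, gr g w (i + k) + Finsupp.single (w i) H') := by
      intro i hi hbig
      have t1 := ((h.tour_part (i := i) (j := i + k) (by omega) hi).reverse hG.symm).mono
        (Set.empty_subset _)
      rw [Nat.add_sub_cancel_left] at t1
      obtain ⟨H', b1, b2, b3, b4⟩ := hC d n hd hn o (w (i + k)) (w i) k hk.le t1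
        (gr g w (i + k)) (n + 1 - (i + k) - mass (gr g w (i + k))) (hθ2.trans hbig)
        (h.nrm_xst hG hi)
      refine ⟨H', b1, b2, b3, b4.mono ?_⟩
      have : n + 1 - (i + k) - mass (gr g w (i + k)) ≤ n + 1 := by omega
      exact Nat.add_le_add_right (Nat.mul_le_mul_right _ (Nat.mul_le_mul_left _ this)) _
    have s2 := h.jumps hN hG hθ1 hMM r q (by omega)
    refine ((s1.trans s2).trans s3).mono ?_
    -- the cost
    obtain ⟨A, hA⟩ : ∃ A, A = C * (n + 1) * d ^ 2 + d ^ C +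
      (4 * (k + 1) * (k + d ^ C) + cst (k + 1)) := ⟨_, rfl⟩
    have hA1 : A + D ≤ (C + 50) * n * d ^ 2 + d ^ (C + 50) := by
      have c1 : C * d ^ 2 ≤ d ^ (C + 45) :=
        pow_le_of_le hd (a := C) Nat.lt_two_pow_self.le 2 (by omega)
      have c2 : d ^ C ≤ d ^ (C + 45) := Nat.pow_le_pow_right (by omega) (by omega)
      have c3 : 4 * (k + 1) * (k + d ^ C) ≤ d ^ (C + 45) := by
        have c4 : k + d ^ C ≤ 2 * d ^ (C + 3) := by
          have : k ≤ d ^ (C + 3) := by
            rw [hk]; exact Nat.pow_le_pow_right (by omega) (by omega)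
          have : d ^ C ≤ d ^ (C + 3) := Nat.pow_le_pow_right (by omega) (by omega)
          omega
        calc 4 * (k + 1) * (k + d ^ C) ≤ (8 * k) * (2 * d ^ (C + 3)) :=
              Nat.mul_le_mul (by omega) c4
          _ = 16 * d ^ (C + 6) := by rw [hk]; ring
          _ ≤ d ^ (C + 45) := pow_le_of_le hd (a := 4) (by norm_num) (C + 6) (by omega)
      have c5 : cst (k + 1) ≤ d ^ (C + 45) := by
        rw [hk]
        exact (cst_le_pow hd).trans (Nat.pow_le_pow_right (by omega) (by omega))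
      have c6 : D ≤ d ^ (C + 45) := by
        rw [hD]; exact Nat.pow_le_pow_right (by omega) (by omega)
      have c7 : 8 * d ^ (C + 45) ≤ d ^ (C + 50) :=
        pow_le_of_le hd (a := 3) (by norm_num) (C + 45) (by omega)
      have c8 : C * (n + 1) * d ^ 2 = C * n * d ^ 2 + C * d ^ 2 := by ring
      have c9 : C * n * d ^ 2 ≤ (C + 50) * n * d ^ 2 :=
        Nat.mul_le_mul_right _ (Nat.mul_le_mul_right _ (by omega))
      omega
    have hq : q ≤ n / d ^ 3 + 1 := by
      rw [← hk]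
      have q1 : q * k ≤ n + 1 := by omega
      have q2 : q ≤ (n + 1) / k := (Nat.le_div_iff_mul_le (by omega)).mpr q1
      have q3 : (n + 1) / k ≤ n / k + 1 := by
        calc (n + 1) / k ≤ (n + k) / k := Nat.div_le_div_right (by omega)
          _ = n / k + 1 := Nat.add_div_right n (by omega)
      omega
    have hmass : mass (gr g w (r + q * k)) - mass (gr g w r) ≤ n + 1 := by
      have := h.mass_le (show r + q * k ≤ T by omega)
      omega
    have hDn : D * (n + 1) ≤ n * d ^ (C + 50) + D := by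
      have : n * D ≤ n * d ^ (C + 50) := Nat.mul_le_mul_left _ hDC
      calc D * (n + 1) = n * D + D := by ring
        _ ≤ n * d ^ (C + 50) + D := Nat.add_le_add_right this _
    calc θ * (4 * (n + 1)) + (q * (C * (n + 1) * d ^ 2 + d ^ C +
          (4 * (k + 1) * (k + d ^ C) + cst (k + 1))) +
          8 * (k + 1) * (mass (gr g w (r + q * k)) - mass (gr g w r))) + r * (4 * (n + 1))
        ≤ θ * (4 * (n + 1)) + (q * A + 8 * (k + 1) * (n + 1)) + k * (4 * (n + 1)) := by
          rw [hA]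
          gcongr
      _ = (θ * 4 + k * 4 + 8 * (k + 1)) * (n + 1) + q * A := by ring
      _ ≤ D * (n + 1) + (n / d ^ 3 + 1) * A :=
          Nat.add_le_add (Nat.mul_le_mul_right _ hD1) (Nat.mul_le_mul_right _ hq)
      _ ≤ n * d ^ (C + 50) + D + (n / d ^ 3 + 1) * A := Nat.add_le_add_right hDn _
      _ ≤ n * d ^ (C + 50) + (n / d ^ 3 + 1) * (A + D) := by
          have : D ≤ (n / d ^ 3 + 1) * D := Nat.le_mul_of_pos_left _ (Nat.succ_pos _)
          have e : (n / d ^ 3 + 1) * (A + D) = (n / d ^ 3 + 1) * A + (n / d ^ 3 + 1) * D := by ring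
          omega
      _ ≤ n * d ^ (C + 50) + (n / d ^ 3 + 1) * ((C + 50) * n * d ^ 2 + d ^ (C + 50)) :=
          Nat.add_le_add_left (Nat.mul_le_mul_left _ hA1) _
      _ = (n / d ^ 3 + 1) * ((C + 50) * n * d ^ 2 + d ^ (C + 50)) + n * d ^ (C + 50) :=
          Nat.add_comm _ _

end Pool.Agent.AD
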