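import Pool.Agent.AD.Final
import Pool.Agent.AD.Unwind
import Pool.Agent.AD.Move
import Pool.Agent.AD.PI
import Pool.Agent.AD.Pump
import Pool.Agent.AD.Naive
import Pool.Agent.AD.Tree

/-!
MP_072aa0_al: assembly of the modules.
-/

set_option autoImplicit false

namespace Pool.Agent.AD

theorem main (hLab : LAB_Stmt) :
    Infinite GG ∧ Infinite LL ∧ IsGenSet SG ∧ IsGenSet SL ∧ NoDeadEnds SL ∧
    (∀ n ≥ 1, annulusDiam (Wreath.gens SG SL) n 2 = ⊤) ∧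
    ∀ r ≥ 3, ∃ C : ℝ, 0 < C ∧ ∃ n₀ : ℕ, ∀ n ≥ n₀, ∃ D : ℕ,
      annulusDiam (Wreath.gens SG SL) n r ≤ D ∧ (D : ℝ) ≤ C * (n : ℝ) ^ 2 / Real.log n :=
  ⟨inferInstance, inferInstance, SG_isGenSet, SL_isGenSet, SL_noDeadEnds,
    fun _ hn => annulusDiam_two SG_isGenSet SL_isGenSet hn,
    fun r hr => final_log tree (unwind tree.1 naive (move naive hLab)) naive r hr⟩

end Pool.Agent.AD
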