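import Pool.Agent.AD.Defs

/-!
MP_072aa0_al: basic facts about tours.
-/

set_option autoImplicit false

namespace Pool.Agent.AD

variable {X : Type*} {adj : X → X → Prop}

theorem Tour.refl (o : X) : Tour adj {o} o o 0 :=
  ⟨fun _ => o, rfl, rfl, fun i hi => absurd hi (Nat.not_lt_zero i), fun v hv => ⟨0, le_rfl, by
    simpa using hv.symm⟩⟩

theorem Tour.mono {S S' : Set X} {o c : X} {k : ℕ} (h : Tour adj S o c k) (hS : S' ⊆ S) :
    Tour adj S' o c k := by
  obtain ⟨w, h0, h1, h2, h3⟩ := h
  exact ⟨w, h0, h1, h2, fun v hv => h3 v (hS hv)⟩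

theorem Tour.edge {a b : X} (h : adj a b) : Tour adj {a, b} a b 1 := by
  refine ⟨fun i => if i = 0 then a else b, by simp, by simp, ?_, ?_⟩
  · intro i hi
    have : i = 0 := by omega
    subst this
    simpa using h
  · intro v hv
    rcases hv with rfl | hv
    · exact ⟨0, by omega, by simp⟩
    · exact ⟨1, le_rfl, by simpa using hv.symm⟩

theorem Tour.trans {S S' : Set X} {o a c : X} {k l : ℕ} (h : Tour adj S o a k)
    (h' : Tour adj S' a c l) : Tour adj (S ∪ S') o c (k + l) := by
  obtain ⟨w, h0, h1, h2, h3⟩ := h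
  obtain ⟨w', h0', h1', h2', h3'⟩ := h'
  refine ⟨fun i => if i ≤ k then w i else w' (i - k), ?_, ?_, ?_, ?_⟩
  · simpa using h0
  · show (if k + l ≤ k then w (k + l) else w' (k + l - k)) = c
    split_ifs with hh
    · have : l = 0 := by omega
      subst this
      rw [Nat.add_zero, h1, ← h0', h1']
    · rw [Nat.add_sub_cancel_left]; exact h1'
  · intro i hi
    show adj (if i ≤ k then w i else w' (i - k)) (if i + 1 ≤ k then w (i + 1) else w' (i + 1 - k))
    rcases Nat.lt_trichotomy i k with h | h | h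
    · rw [if_pos h.le, if_pos (by omega)]
      exact h2 i h
    · subst h
      rw [if_pos le_rfl, if_neg (by omega), Nat.add_sub_cancel_left, h1, ← h0']
      exact h2' 0 (by omega)
    · rw [if_neg (by omega), if_neg (by omega), show i + 1 - k = i - k + 1 by omega]
      exact h2' (i - k) (by omega)
  · intro v hv
    rcases hv with hv | hv
    · obtain ⟨i, hi, rfl⟩ := h3 v hv
      exact ⟨i, by omega, by simp [hi]⟩
    · obtain ⟨i, hi, rfl⟩ := h3' v hv
      refine ⟨k + i, by omega, ?_⟩
      show (if k + i ≤ k then w (k + i) else w' (k + i - k)) = w' i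
      split_ifs with hh
      · have : i = 0 := by omega
        subst this
        rw [Nat.add_zero, h1, h0']
      · rw [Nat.add_sub_cancel_left]

theorem Tour.start_mem {S : Set X} {o c : X} {k : ℕ} (h : Tour adj S o c k) :
    Tour adj (insert o S) o c k := by
  obtain ⟨w, h0, h1, h2, h3⟩ := h
  refine ⟨w, h0, h1, h2, fun v hv => ?_⟩
  rcases hv with rfl | hv
  · exact ⟨0, Nat.zero_le _, h0⟩
  · exact h3 v hv

theorem Tour.end_mem {S : Set X} {o c : X} {k : ℕ} (h : Tour adj S o c k) :
    Tour adj (insert c S) o c k := by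
  obtain ⟨w, h0, h1, h2, h3⟩ := h
  refine ⟨w, h0, h1, h2, fun v hv => ?_⟩
  rcases hv with rfl | hv
  · exact ⟨k, le_rfl, h1⟩
  · exact h3 v hv

theorem Tour.snoc {S : Set X} {o c c' : X} {k : ℕ} (h : Tour adj S o c k) (ha : adj c c') :
    Tour adj (insert c' S) o c' (k + 1) :=
  ((h.trans (Tour.edge ha)).mono (Set.subset_union_left)).end_mem

/-- A tour of positive length has a last step. -/
theorem Tour.unsnoc {S : Set X} {o c : X} {k : ℕ} (h : Tour adj S o c (k + 1)) :
    ∃ c', adj c' c ∧ Tour adj (S \ {c}) o c' k := by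
  obtain ⟨w, h0, h1, h2, h3⟩ := h
  refine ⟨w k, ?_, w, h0, rfl, fun i hi => h2 i (by omega), fun v hv => ?_⟩
  · rw [← h1]; exact h2 k (by omega)
  · obtain ⟨i, hi, rfl⟩ := h3 v hv.1
    refine ⟨i, ?_, rfl⟩
    by_contra hc
    have : i = k + 1 := by omega
    subst this
    exact hv.2 h1

theorem Tour.of_zero {S : Set X} {o c : X} (h : Tour adj S o c 0) : c = o ∧ S ⊆ {o} := by
  obtain ⟨w, h0, h1, h2, h3⟩ := h
  refine ⟨by rw [← h1, ← h0], fun v hv => ?_⟩
  obtain ⟨i, hi, rfl⟩ := h3 v hv
  have : i = 0 := by omega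
  subst this
  exact h0

theorem Tour.reverse (hs : ∀ {a b}, adj a b → adj b a) {S : Set X} {o c : X} {k : ℕ}
    (h : Tour adj S o c k) : Tour adj S c o k := by
  obtain ⟨w, h0, h1, h2, h3⟩ := h
  refine ⟨fun i => w (k - i), by simpa using h1, by simpa using h0, fun i hi => ?_, fun v hv => ?_⟩
  · show adj (w (k - i)) (w (k - (i + 1)))
    have := h2 (k - (i + 1)) (by omega)
    rw [show k - (i + 1) + 1 = k - i by omega] at this
    exact hs this
  · obtain ⟨i, hi, rfl⟩ := h3 v hv
    exact ⟨k - i, by omega, by show w (k - (k - i)) = w i; rw [Nat.sub_sub_self hi]⟩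

/-- Tours of finite sets exist. -/
theorem Good.exists_tour (hG : Good adj) {S : Set X} (hS : S.Finite) (o c : X) :
    ∃ k, Tour adj S o c k := by
  have key : ∀ S : Set X, S.Finite → ∃ k, Tour adj S o o k := by
    intro S hS
    refine Set.Finite.induction_on S hS ?_ ?_
    · exact ⟨0, (Tour.refl o).mono (Set.empty_subset _)⟩
    · intro a S _ _ ih
      obtain ⟨k, hk⟩ := ih
      obtain ⟨l, hl⟩ := hG.conn o a
      obtain ⟨l', hl'⟩ := hG.conn a o
      exact ⟨k + (l + l'), (hk.trans (hl.end_mem.trans hl')).mono (by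
        intro v hv
        rcases hv with rfl | hv
        · exact Or.inr (Or.inl (Or.inl rfl))
        · exact Or.inl hv)⟩
  obtain ⟨k, hk⟩ := key S hS
  obtain ⟨l, hl⟩ := hG.conn o c
  exact ⟨k + l, (hk.trans hl).mono Set.subset_union_left⟩

theorem tsp_le {S : Set X} {o c : X} {k : ℕ} (h : Tour adj S o c k) : tsp adj S o c ≤ k :=
  Nat.sInf_le h

theorem Good.tour_tsp (hG : Good adj) {S : Set X} (hS : S.Finite) (o c : X) :
    Tour adj S o c (tsp adj S o c) :=
  Nat.sInf_mem (hG.exists_tour hS o c)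

theorem Good.le_tsp (hG : Good adj) {S : Set X} (hS : S.Finite) {o c : X} {m : ℕ}
    (h : ∀ k, Tour adj S o c k → m ≤ k) : m ≤ tsp adj S o c :=
  h _ (hG.tour_tsp hS o c)

theorem Good.tsp_mono (hG : Good adj) {S S' : Set X} (hS : S.Finite) (h : S' ⊆ S) (o c : X) :
    tsp adj S' o c ≤ tsp adj S o c :=
  tsp_le ((hG.tour_tsp hS o c).mono h)

/-- Walks of the same ends have lengths of the same parity. -/
theorem Tour.parity {χ : X → Bool} (hχ : ∀ a b, adj a b → χ a ≠ χ b) {S : Set X} {o c : X} {k : ℕ}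
    (h : Tour adj S o c k) : (k % 2 = 0 ↔ χ c = χ o) := by
  obtain ⟨w, h0, h1, h2, -⟩ := h
  subst h0 h1
  have : ∀ j ≤ k, (j % 2 = 0 ↔ χ (w j) = χ (w 0)) := by
    intro j
    induction j with
    | zero => intro; simp
    | succ j ih =>
      intro hj
      have h := ih (by omega)
      have h' := hχ _ _ (h2 j (by omega))
      have : (j + 1) % 2 = 0 ↔ ¬ (j % 2 = 0) := by omega
      rw [this, h]
      revert h'
      cases χ (w j) <;> cases χ (w (j + 1)) <;> cases χ (w 0) <;> simp
  exact this k le_rfl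

theorem Good.tsp_parity (hG : Good adj) {S S' : Set X} (hS : S.Finite) (hS' : S'.Finite)
    (o c : X) : tsp adj S o c % 2 = tsp adj S' o c % 2 := by
  obtain ⟨χ, hχ⟩ := hG.bip
  have h1 := (hG.tour_tsp hS o c).parity hχ
  have h2 := (hG.tour_tsp hS' o c).parity hχ
  have : tsp adj S o c % 2 = 0 ↔ tsp adj S' o c % 2 = 0 := h1.trans h2.symm
  omega

/-- The tour length changes by exactly one along an edge. -/
theorem Good.tsp_adj (hG : Good adj) {S : Set X} (hS : S.Finite) {o c c' : X} (h : adj c c') :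
    tsp adj S o c' = tsp adj S o c + 1 ∨ tsp adj S o c = tsp adj S o c' + 1 := by
  have h1 : tsp adj S o c' ≤ tsp adj S o c + 1 :=
    tsp_le (((hG.tour_tsp hS o c).snoc h).mono (Set.subset_insert _ _))
  have h2 : tsp adj S o c ≤ tsp adj S o c' + 1 :=
    tsp_le (((hG.tour_tsp hS o c').snoc (hG.symm h)).mono (Set.subset_insert _ _))
  have h3 : tsp adj S o c ≠ tsp adj S o c' := by
    intro he
    obtain ⟨χ, hχ⟩ := hG.bip
    have e1 := (hG.tour_tsp hS o c).parity hχ
    have e2 := (hG.tour_tsp hS o c').parity hχ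
    rw [← he] at e2
    have e3 := hχ c c' h
    have e4 : χ c = χ o ↔ χ c' = χ o := e1.symm.trans e2
    revert e3 e4
    cases χ c <;> cases χ c' <;> cases χ o <;> simp
  omega

/-- Lighting the end point does not change the tour length. -/
theorem Good.tsp_insert_self (hG : Good adj) {S : Set X} (hS : S.Finite) (o c : X) :
    tsp adj (insert c S) o c = tsp adj S o c :=
  le_antisymm (tsp_le (hG.tour_tsp hS o c).end_mem)
    (hG.tsp_mono (hS.insert c) (Set.subset_insert _ _) o c)

theorem Good.tsp_insert_start (hG : Good adj) {S : Set X} (hS : S.Finite) (o c : X) :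
    tsp adj (insert o S) o c = tsp adj S o c :=
  le_antisymm (tsp_le (hG.tour_tsp hS o c).start_mem)
    (hG.tsp_mono (hS.insert o) (Set.subset_insert _ _) o c)

/-- Lighting a neighbour of the end point changes the tour length by `0` or `2`. -/
theorem Good.tsp_insert_adj (hG : Good adj) {S : Set X} (hS : S.Finite) {o c v : X}
    (h : adj c v) :
    tsp adj (insert v S) o c = tsp adj S o c ∨ tsp adj (insert v S) o c = tsp adj S o c + 2 := by
  have h1 := hG.tsp_mono (hS.insert v) (Set.subset_insert v S) o c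
  have h2 : tsp adj (insert v S) o c ≤ tsp adj S o c + 2 := by
    have := ((hG.tour_tsp hS o c).snoc h).snoc (hG.symm h)
    exact tsp_le (this.mono (Set.subset_insert _ _))
  have h3 := hG.tsp_parity (hS.insert v) hS o c
  omega

theorem Good.tsp_le_add (hG : Good adj) {S S' : Set X} (hS : S.Finite) {o c c' : X} {k : ℕ}
    (h : Tour adj S' c c' k) : tsp adj (S ∪ S') o c' ≤ tsp adj S o c + k :=
  tsp_le ((hG.tour_tsp hS o c).trans h)

theorem lit_finite {X : Type*} (g : X →₀ ℕ) : (lit g).Finite := by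
  refine g.support.finite_toSet.subset fun v hv => ?_
  simpa [lit] using hv

theorem lit_add_single {X : Type*} (g : X →₀ ℕ) (c : X) {k : ℕ} (hk : k ≠ 0) :
    lit (g + Finsupp.single c k) = insert c (lit g) := by
  classical
  ext v
  simp only [lit, Set.mem_setOf_eq, Finsupp.add_apply, Set.mem_insert_iff]
  by_cases h : v = c
  · subst h; simp [hk]
  · rw [Finsupp.single_eq_of_ne h]
    simp [h]

theorem mass_add {X : Type*} (g g' : X →₀ ℕ) : mass (g + g') = mass g + mass g' :=
  Finsupp.sum_add_index' (fun _ => rfl) (fun _ _ _ => rfl)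

theorem mass_single {X : Type*} (c : X) (k : ℕ) : mass (Finsupp.single c k) = k :=
  Finsupp.sum_single_index rfl

theorem mass_add_single {X : Type*} (g : X →₀ ℕ) (c : X) (k : ℕ) :
    mass (g + Finsupp.single c k) = mass g + k := by
  rw [mass_add, mass_single]

/-- Changing the load at the cursor changes the norm by the change of the load. -/
theorem Good.nrm_add_single (hG : Good adj) (o c : X) (g : X →₀ ℕ) (k : ℕ) :
    nrm adj o (c, g + Finsupp.single c k) = nrm adj o (c, g) + k := by
  show tsp adj (lit (g + Finsupp.single c k)) o c + mass (g + Finsupp.single c k) =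
    tsp adj (lit g) o c + mass g + k
  rcases Nat.eq_zero_or_pos k with rfl | hk
  · simp
  · rw [lit_add_single g c hk.ne', hG.tsp_insert_self (lit_finite g) o c, mass_add_single]
    omega

end Pool.Agent.AD
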