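import Pool.Agent.AD.Moves

/-!
MP_072aa0_al, module UNW, part 1: one step backwards along a shortest tour, restrictions of the
loads to the beginning of a tour, and facts about sets of points of a walk.
-/

set_option autoImplicit false

namespace Pool.Agent.AD

variable {X : Type*} {adj : X → X → Prop} {o : X} {n : ℕ}

/-! ### The naive step -/

section NaiveStep

variable (hG : Good adj) {c c' : X} (h : adj c c') {e : X →₀ ℕ}
include hG h

theorem Good.lit_two (x y : ℕ) :
    lit e ⊆ lit (e + Finsupp.single c x + Finsupp.single c' y) ∧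
      lit (e + Finsupp.single c x + Finsupp.single c' y) ⊆ insert c (insert c' (lit e)) := by
  classical
  constructor
  · intro v hv
    simp only [lit, Set.mem_setOf_eq, Finsupp.add_apply] at hv ⊢
    omega
  · intro v hv
    simp only [lit, Set.mem_setOf_eq, Finsupp.add_apply, Set.mem_insert_iff] at hv ⊢
    by_cases h1 : v = c
    · exact Or.inl h1
    · by_cases h2 : v = c'
      · exact Or.inr (Or.inl h2)
      · rw [Finsupp.single_eq_of_ne h1, Finsupp.single_eq_of_ne h2] at hv
        exact Or.inr (Or.inr (by simpa using hv))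

theorem Good.ns_tsp_c (ht : tsp adj (lit e) o c = tsp adj (lit e) o c' + 1) :
    tsp adj (insert c (insert c' (lit e))) o c = tsp adj (lit e) o c := by
  have f := lit_finite e
  rw [hG.tsp_insert_self (f.insert c') o c]
  have h1 := hG.tsp_insert_self f o c'
  have h2 := hG.tsp_mono (f.insert c') (Set.subset_insert c' (lit e)) o c
  rcases hG.tsp_adj (f.insert c') (o := o) h with h3 | h3 <;> omega

theorem Good.ns_nrm_c (ht : tsp adj (lit e) o c = tsp adj (lit e) o c' + 1) (x y : ℕ) :
    nrm adj o (c, e + Finsupp.single c x + Finsupp.single c' y) =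
      tsp adj (lit e) o c' + mass e + 1 + x + y := by
  obtain ⟨s1, s2⟩ := hG.lit_two h (e := e) x y
  have f := lit_finite (e + Finsupp.single c x + Finsupp.single c' y)
  have f2 := ((lit_finite e).insert c').insert c
  have h1 := hG.tsp_mono f s1 o c
  have h2 := hG.tsp_mono f2 s2 o c
  have h3 := hG.ns_tsp_c h ht
  rw [nrm_eq, mass_add_single, mass_add_single]
  omega

theorem Good.ns_nrm_c'_zero (y : ℕ) :
    nrm adj o (c', e + Finsupp.single c' y) = tsp adj (lit e) o c' + mass e + y := by
  rw [hG.nrm_add_single, nrm_eq]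

theorem Good.ns_nrm_c'_pos (x y : ℕ) (hx : x ≠ 0) :
    nrm adj o (c', e + Finsupp.single c x + Finsupp.single c' y) =
      tsp adj (insert c (lit e)) o c' + mass e + x + y := by
  rw [hG.nrm_add_single, nrm_eq, lit_add_single e c hx, mass_add_single]
  omega

/-- One step backwards along a shortest tour: the cursor moves from `c` to `c'` and takes all the
`a` units at `c` with it. -/
theorem Good.naive_step (ht : tsp adj (lit e) o c = tsp adj (lit e) o c' + 1) (a : ℕ)
    (hn : nrm adj o (c, e + Finsupp.single c a) = n + 1) :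
    nrm adj o (c', e + Finsupp.single c' (a + 1)) = n + 1 ∧
      Reach adj o n (4 * a + 2) (c, e + Finsupp.single c a)
        (c', e + Finsupp.single c' (a + 1)) := by
  have N1 := fun x y => hG.ns_nrm_c h (o := o) ht x y
  have N2 := fun y => hG.ns_nrm_c'_zero h (o := o) (e := e) y
  have N3 := fun x y hx => hG.ns_nrm_c'_pos h (o := o) (e := e) x y hx
  have e0 : e + Finsupp.single c a = e + Finsupp.single c a + Finsupp.single c' 0 := by
    rw [Finsupp.single_zero, add_zero]
  have hb : tsp adj (lit e) o c' + mass e + a = n := by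
    have := N1 a 0
    rw [← e0] at this
    omega
  have hfin : nrm adj o (c', e + Finsupp.single c' (a + 1)) = n + 1 := by
    rw [N2]; omega
  refine ⟨hfin, ?_⟩
  have hs := hG.symm h
  -- the last two steps in the case of a high return
  have fin0 : InW adj o n (c, e + Finsupp.single c' a) := by
    have := N1 0 a
    rw [Finsupp.single_zero, add_zero] at this
    exact inW_of_eq this (by omega) (by omega)
  have sc : ∀ (g : X →₀ ℕ) (v : X) (k : ℕ), g + Finsupp.single v (k + 1) =
      g + Finsupp.single v k + Finsupp.single v 1 := by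
    intro g v k
    rw [Finsupp.single_add, add_assoc]
  have scx : ∀ x y : ℕ, e + Finsupp.single c (x + 1) + Finsupp.single c' y =
      e + Finsupp.single c x + Finsupp.single c' y + Finsupp.single c 1 := by
    intro x y
    rw [sc, add_right_comm]
  by_cases htau : tsp adj (insert c (lit e)) o c' = tsp adj (lit e) o c'
  · -- low return: loop with the cursor at `c'`
    have L : ∀ x y : ℕ, x + y = a + 1 →
        Reach adj o n (4 * x) (c', e + Finsupp.single c x + Finsupp.single c' y)
          (c', e + Finsupp.single c' (a + 1)) := by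
      intro x
      induction x with
      | zero =>
        intro y hy
        have : y = a + 1 := by omega
        subst this
        rw [Finsupp.single_zero, add_zero]
        exact (Reach.refl (inW_of_eq hfin (by omega) (by omega))).mono (by omega)
      | succ x ih =>
        intro y hy
        have b0 := N3 (x + 1) y (by omega)
        have b1 := N1 (x + 1) y
        have b2 := N1 x y
        have a1 := (Reach.refl (inW_of_eq b0 (by omega) (by omega) : InW adj o n _)).snoc
          (Step.move c' c _ hs) (inW_of_eq b1 (by omega) (by omega))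
        rw [scx] at a1
        have a2 := a1.snoc (Step.dec c _) (inW_of_eq b2 (by omega) (by omega))
        have b3 : nrm adj o (c', e + Finsupp.single c x + Finsupp.single c' y) = n := by
          rcases Nat.eq_zero_or_pos x with rfl | hx
          · rw [Finsupp.single_zero, add_zero, N2]; omega
          · rw [N3 x y (by omega)]; omega
        have a3 := a2.snoc (Step.move c c' _ h) (inW_of_eq b3 (by omega) (by omega))
        have b4 : nrm adj o (c', e + Finsupp.single c x + Finsupp.single c' (y + 1)) = n + 1 := by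
          rw [sc, hG.nrm_add_single, b3]
        have a4 := a3.snoc (Step.inc c' _) (by
          rw [← sc]; exact inW_of_eq b4 (by omega) (by omega))
        rw [← sc, ← scx] at a4
        exact (a4.trans (ih (y + 1) (by omega))).mono (by omega)
    have c0 := inW_of_eq (n := n) hn (by omega) (by omega)
    rcases Nat.eq_zero_or_pos a with rfl | ha
    · rw [Finsupp.single_zero, add_zero] at hn c0 ⊢
      have b1 : nrm adj o (c', e) = n := by
        have := N2 0
        rw [Finsupp.single_zero, add_zero] at this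
        omega
      have a1 := (Reach.refl c0).snoc (Step.move c c' _ h) (inW_of_eq b1 (by omega) (by omega))
      exact (a1.snoc (Step.inc c' _) (inW_of_eq hfin (by omega) (by omega))).mono (by omega)
    · have b1 : nrm adj o (c', e + Finsupp.single c a) = n := by
        have := N3 a 0 (by omega)
        rw [← e0] at this
        omega
      have a1 := (Reach.refl c0).snoc (Step.move c c' _ h) (inW_of_eq b1 (by omega) (by omega))
      have b2 : nrm adj o (c', e + Finsupp.single c a + Finsupp.single c' 1) = n + 1 := by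
        rw [N3 a 1 (by omega)]; omega
      have a2 := a1.snoc (Step.inc c' _) (inW_of_eq b2 (by omega) (by omega))
      exact (a2.trans (L a 1 rfl)).mono (by omega)
  · -- high return: loop with the cursor at `c`
    have htau2 : tsp adj (insert c (lit e)) o c' = tsp adj (lit e) o c' + 2 := by
      rcases hG.tsp_insert_adj (lit_finite e) (o := o) hs with h1 | h1
      · exact absurd h1 htau
      · exact h1
    have L : ∀ x y : ℕ, x + y = a →
        Reach adj o n (4 * x) (c, e + Finsupp.single c x + Finsupp.single c' y)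
          (c, e + Finsupp.single c' a) := by
      intro x
      induction x with
      | zero =>
        intro y hy
        have : y = a := by omega
        subst this
        rw [Finsupp.single_zero, add_zero]
        exact (Reach.refl fin0).mono (by omega)
      | succ x ih =>
        intro y hy
        have b0 := N1 (x + 1) y
        have b1 := N3 (x + 1) y (by omega)
        have b2 := N3 (x + 1) (y + 1) (by omega)
        have b3 := N1 (x + 1) (y + 1)
        have b4 := N1 x (y + 1)
        have a1 := (Reach.refl (inW_of_eq b0 (by omega) (by omega) : InW adj o n _)).snoc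
          (Step.move c c' _ h) (inW_of_eq b1 (by omega) (by omega))
        have a2 := a1.snoc (Step.inc c' _) (by
          rw [← sc]; exact inW_of_eq b2 (by omega) (by omega))
        rw [← sc] at a2
        have a3 := a2.snoc (Step.move c' c _ hs) (inW_of_eq b3 (by omega) (by omega))
        rw [scx x (y + 1)] at a3
        have a4 := a3.snoc (Step.dec c _) (inW_of_eq b4 (by omega) (by omega))
        exact (a4.trans (ih (y + 1) (by omega))).mono (by omega)
    have a0 := L a 0 rfl
    rw [← e0] at a0
    have b1 : nrm adj o (c', e + Finsupp.single c' a) = n := by rw [N2]; omega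
    have a1 := a0.snoc (Step.move c c' _ h) (inW_of_eq b1 (by omega) (by omega))
    have a2 := a1.snoc (Step.inc c' _) (by
      rw [← sc]; exact inW_of_eq hfin (by omega) (by omega))
    rw [← sc] at a2
    exact a2.mono (by omega)

end NaiveStep

/-! ### Restriction of the loads to the beginning of a walk -/

open Classical in
/-- The restriction of the loads to the points `w 0, …, w j`. -/
noncomputable def gr (g : X →₀ ℕ) (w : ℕ → X) (j : ℕ) : X →₀ ℕ := g.filter fun x => ∃ i ≤ j, w i = x

theorem gr_apply_pos {g : X →₀ ℕ} {w : ℕ → X} {j : ℕ} {x : X} (h : ∃ i ≤ j, w i = x) :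
    gr g w j x = g x := by
  classical
  unfold gr
  exact Finsupp.filter_apply_pos _ _ h

theorem gr_apply_neg {g : X →₀ ℕ} {w : ℕ → X} {j : ℕ} {x : X} (h : ¬ ∃ i ≤ j, w i = x) :
    gr g w j x = 0 := by
  classical
  unfold gr
  exact Finsupp.filter_apply_neg _ _ h

theorem gr_succ (g : X →₀ ℕ) (w : ℕ → X) (j : ℕ) :
    ∃ b : ℕ, gr g w (j + 1) = gr g w j + Finsupp.single (w (j + 1)) b := by
  classical
  by_cases h : ∃ i ≤ j, w i = w (j + 1)
  · refine ⟨0, ?_⟩
    ext x
    rw [Finsupp.single_zero, add_zero]
    by_cases hx : ∃ i ≤ j, w i = x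
    · rw [gr_apply_pos hx]
      obtain ⟨i, hi, rfl⟩ := hx
      exact gr_apply_pos ⟨i, by omega, rfl⟩
    · rw [gr_apply_neg hx]
      refine gr_apply_neg ?_
      rintro ⟨i, hi, rfl⟩
      rcases Nat.lt_or_ge j i with h1 | h1
      · have : i = j + 1 := by omega
        subst this
        exact hx h
      · exact hx ⟨i, h1, rfl⟩
  · refine ⟨g (w (j + 1)), ?_⟩
    ext x
    rw [Finsupp.add_apply]
    by_cases hxw : x = w (j + 1)
    · subst hxw
      rw [gr_apply_neg h, Finsupp.single_eq_same, zero_add]
      exact gr_apply_pos ⟨j + 1, le_rfl, rfl⟩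
    · rw [Finsupp.single_eq_of_ne hxw, add_zero]
      by_cases hx : ∃ i ≤ j, w i = x
      · rw [gr_apply_pos hx]
        obtain ⟨i, hi, rfl⟩ := hx
        exact gr_apply_pos ⟨i, by omega, rfl⟩
      · rw [gr_apply_neg hx]
        refine gr_apply_neg ?_
        rintro ⟨i, hi, rfl⟩
        rcases Nat.lt_or_ge j i with h1 | h1
        · have : i = j + 1 := by omega
          subst this
          exact hxw rfl
        · exact hx ⟨i, h1, rfl⟩

theorem mass_gr_succ_le (g : X →₀ ℕ) (w : ℕ → X) (j : ℕ) :
    mass (gr g w j) ≤ mass (gr g w (j + 1)) := by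
  obtain ⟨b, hb⟩ := gr_succ g w j
  rw [hb, mass_add_single]
  omega

theorem mass_gr_mono (g : X →₀ ℕ) (w : ℕ → X) {i j : ℕ} (h : i ≤ j) :
    mass (gr g w i) ≤ mass (gr g w j) :=
  monotone_nat_of_le_succ (fun j => mass_gr_succ_le g w j) h

theorem gr_apply_mono (g : X →₀ ℕ) (w : ℕ → X) {i j : ℕ} (h : i ≤ j) (x : X) :
    gr g w i x ≤ gr g w j x := by
  by_cases hx : ∃ l ≤ i, w l = x
  · rw [gr_apply_pos hx]
    obtain ⟨l, hl, rfl⟩ := hx
    rw [gr_apply_pos ⟨l, by omega, rfl⟩]
  · rw [gr_apply_neg hx]
    omega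

/-- The data of a shortest tour. -/
structure Short (adj : X → X → Prop) (o : X) (n : ℕ) (g : X →₀ ℕ) (w : ℕ → X) (T : ℕ) : Prop where
  start : w 0 = o
  adj_w : ∀ i < T, adj (w i) (w (i + 1))
  cover : ∀ v ∈ lit g, ∃ i ≤ T, w i = v
  len : tsp adj (lit g) o (w T) = T
  lev : T + mass g = n + 1

theorem Good.exists_short (hG : Good adj) {s : St X} (hs : nrm adj o s = n + 1) :
    ∃ w T, Short adj o n s.2 w T ∧ w T = s.1 := by
  obtain ⟨w, h0, h1, h2, h3⟩ := hG.tour_tsp (lit_finite s.2) o s.1
  refine ⟨w, tsp adj (lit s.2) o s.1, ⟨h0, h2, h3, ?_, hs⟩, h1⟩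
  rw [h1]

namespace Short

variable {g : X →₀ ℕ} {w : ℕ → X} {T : ℕ} (h : Short adj o n g w T)
include h

theorem gr_last : gr g w T = g := by
  ext x
  by_cases hx : ∃ i ≤ T, w i = x
  · exact gr_apply_pos hx
  · rw [gr_apply_neg hx]
    by_contra hc
    exact hx (h.cover x (by simpa [lit] using Ne.symm hc))

theorem gr_zero : gr g w 0 = Finsupp.single o (g o) := by
  classical
  ext x
  by_cases hx : x = o
  · subst hx
    rw [Finsupp.single_eq_same]
    exact gr_apply_pos ⟨0, le_rfl, h.start⟩
  · rw [Finsupp.single_eq_of_ne hx]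
    refine gr_apply_neg ?_
    rintro ⟨i, hi, rfl⟩
    have : i = 0 := by omega
    subst this
    exact hx h.start

theorem mass_le {j : ℕ} (hj : j ≤ T) : j + mass (gr g w j) ≤ n + 1 := by
  have h1 := mass_gr_mono g w hj
  rw [h.gr_last] at h1
  have := h.lev
  omega

theorem tour_part {i j : ℕ} (hij : i ≤ j) (hj : j ≤ T) :
    Tour adj {v | ∃ l, i ≤ l ∧ l ≤ j ∧ w l = v} (w i) (w j) (j - i) := by
  refine ⟨fun l => w (i + l), rfl, by show w (i + (j - i)) = w j; rw [Nat.add_sub_cancel' hij],
    fun l hl => ?_, ?_⟩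
  · show adj (w (i + l)) (w (i + (l + 1)))
    exact h.adj_w (i + l) (by omega)
  · rintro v ⟨l, h1, h2, rfl⟩
    exact ⟨l - i, by omega, by show w (i + (l - i)) = w l; rw [Nat.add_sub_cancel' h1]⟩

/-- The beginning of a shortest tour is a shortest tour. -/
theorem tsp_gr (hG : Good adj) {j : ℕ} (hj : j ≤ T) : tsp adj (lit (gr g w j)) o (w j) = j := by
  apply le_antisymm
  · have h1 := h.tour_part (Nat.zero_le j) hj
    rw [h.start] at h1
    refine (tsp_le (h1.mono ?_)).trans (by omega)
    intro v hv
    by_contra hc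
    refine hv (gr_apply_neg ?_)
    rintro ⟨i, hi, rfl⟩
    exact hc ⟨i, Nat.zero_le _, hi, rfl⟩
  · have h1 := hG.tour_tsp (lit_finite (gr g w j)) o (w j)
    have h2 := (h1.trans (h.tour_part hj le_rfl)).mono (S' := lit g) (by
      intro v hv
      obtain ⟨i, hi, rfl⟩ := h.cover v hv
      rcases Nat.lt_or_ge j i with h3 | h3
      · exact Or.inr ⟨i, h3.le, hi, rfl⟩
      · left
        show gr g w j (w i) ≠ 0
        rw [gr_apply_pos ⟨i, h3, rfl⟩]
        exact hv)
    have h3 := tsp_le h2
    rw [h.len] at h3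
    omega

end Short

/-- The state at time `j` of the unwinding. -/
noncomputable def xst (n : ℕ) (g : X →₀ ℕ) (w : ℕ → X) (j : ℕ) : St X :=
  (w j, gr g w j + Finsupp.single (w j) (n + 1 - j - mass (gr g w j)))

namespace Short

variable {g : X →₀ ℕ} {w : ℕ → X} {T : ℕ} (h : Short adj o n g w T)
include h

theorem nrm_xst (hG : Good adj) {j : ℕ} (hj : j ≤ T) : nrm adj o (xst n g w j) = n + 1 := by
  unfold xst
  rw [hG.nrm_add_single, nrm_eq, h.tsp_gr hG hj]
  have := h.mass_le hj
  omega

theorem xst_last : xst n g w T = (w T, g) := by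
  unfold xst
  rw [h.gr_last]
  have := h.lev
  have h0 : n + 1 - T - mass g = 0 := by omega
  rw [h0, Finsupp.single_zero, add_zero]

theorem xst_zero : xst n g w 0 = (o, Finsupp.single o (n + 1)) := by
  unfold xst
  have h1 := h.mass_le (Nat.zero_le T)
  rw [h.gr_zero, mass_single] at h1
  rw [h.gr_zero, mass_single, h.start, ← Finsupp.single_add]
  congr 2
  omega

/-- One step backwards. -/
theorem step_back (hG : Good adj) {j : ℕ} (hj : j + 1 ≤ T) :
    Reach adj o n (4 * (n + 1)) (xst n g w (j + 1)) (xst n g w j) := by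
  obtain ⟨b, hb⟩ := gr_succ g w j
  have hm := h.mass_le hj
  have hadj := h.adj_w j (by omega)
  have ht : tsp adj (lit (gr g w j)) o (w (j + 1)) = tsp adj (lit (gr g w j)) o (w j) + 1 := by
    have t1 := h.tsp_gr hG (show j ≤ T by omega)
    have t2 := h.tsp_gr hG hj
    have f := lit_finite (gr g w j)
    have t3 : tsp adj (lit (gr g w (j + 1))) o (w (j + 1)) ≤
        tsp adj (insert (w (j + 1)) (lit (gr g w j))) o (w (j + 1)) := by
      refine hG.tsp_mono (f.insert _) ?_ o _
      rw [hb]
      rcases Nat.eq_zero_or_pos b with rfl | hb0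
      · rw [Finsupp.single_zero, add_zero]
        exact Set.subset_insert _ _
      · rw [lit_add_single _ _ hb0.ne']
    rw [hG.tsp_insert_self f] at t3
    rcases hG.tsp_adj f (o := o) hadj with t4 | t4 <;> omega
  have hx1 : xst n g w (j + 1) = (w (j + 1), gr g w j + Finsupp.single (w (j + 1))
      (b + (n + 1 - (j + 1) - mass (gr g w (j + 1))))) := by
    unfold xst
    rw [Finsupp.single_add, ← add_assoc, ← hb]
  have hmb : mass (gr g w (j + 1)) = mass (gr g w j) + b := by rw [hb, mass_add_single]
  have hx2 : xst n g w j = (w j, gr g w j + Finsupp.single (w j)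
      (b + (n + 1 - (j + 1) - mass (gr g w (j + 1))) + 1)) := by
    unfold xst
    congr 3
    omega
  have hn := h.nrm_xst hG hj
  rw [hx1] at hn
  have := (hG.naive_step (hG.symm hadj) ht _ hn).2
  rw [hx1, hx2]
  exact this.mono (by omega)

/-- Several steps backwards. -/
theorem steps_back (hG : Good adj) {i : ℕ} (k : ℕ) (hj : i + k ≤ T) :
    Reach adj o n (k * (4 * (n + 1))) (xst n g w (i + k)) (xst n g w i) := by
  induction k with
  | zero =>
    have := h.nrm_xst hG hj
    exact (Reach.refl (inW_of_eq this (by omega) (by omega))).mono (by omega)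
  | succ k ih =>
    have h1 := (h.step_back hG (j := i + k) (by omega)).trans (ih (by omega))
    refine h1.mono (le_of_eq ?_)
    ring

end Short

/-! ### Sums and connected sets -/

theorem sum_le_mass (f : X →₀ ℕ) (V : Finset X) : ∑ x ∈ V, f x ≤ mass f := by
  classical
  unfold mass
  rw [Finsupp.sum]
  have h1 : ∑ x ∈ V, f x = ∑ x ∈ V ∩ f.support, f x := by
    symm
    refine Finset.sum_subset Finset.inter_subset_left fun x hx hx2 => ?_
    by_contra hc
    exact hx2 (Finset.mem_inter.mpr ⟨hx, Finsupp.mem_support_iff.mpr hc⟩)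
  rw [h1]
  exact Finset.sum_le_sum_of_subset Finset.inter_subset_right

theorem sum_sub_le_mass {f f' : X →₀ ℕ} (h : ∀ x, f x ≤ f' x) (V : Finset X) :
    ∑ x ∈ V, (f' x - f x) + mass f ≤ mass f' := by
  have e : f' = (f' - f) + f := by
    ext x
    rw [Finsupp.add_apply, Finsupp.tsub_apply]
    have := h x
    omega
  have h1 : mass f' = mass (f' - f) + mass f := by
    conv_lhs => rw [e]
    rw [mass_add]
  rw [h1]
  have h2 := sum_le_mass (f' - f) V
  have h3 : ∑ x ∈ V, (f' - f) x = ∑ x ∈ V, (f' x - f x) :=
    Finset.sum_congr rfl fun x _ => Finsupp.tsub_apply _ _ _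
  omega

theorem PathIn.refl {V : Finset X} {a : X} (ha : a ∈ V) : PathIn adj V a a 0 :=
  ⟨fun _ => a, rfl, rfl, fun i hi => absurd hi (Nat.not_lt_zero i), fun _ _ => ha⟩

theorem PathIn.trans {V : Finset X} {a b c : X} {k l : ℕ} (h : PathIn adj V a b k)
    (h' : PathIn adj V b c l) : PathIn adj V a c (k + l) := by
  obtain ⟨w, h0, h1, h2, h3⟩ := h
  obtain ⟨w', h0', h1', h2', h3'⟩ := h'
  refine ⟨fun i => if i ≤ k then w i else w' (i - k), by simpa using h0, ?_, ?_, ?_⟩
  · show (if k + l ≤ k then w (k + l) else w' (k + l - k)) = c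
    split_ifs with hh
    · have : l = 0 := by omega
      subst this
      rw [Nat.add_zero, h1, ← h0', h1']
    · rw [Nat.add_sub_cancel_left]; exact h1'
  · intro i hi
    show adj (if i ≤ k then w i else w' (i - k)) (if i + 1 ≤ k then w (i + 1) else w' (i + 1 - k))
    rcases Nat.lt_trichotomy i k with h | h | h
    · rw [if_pos h.le, if_pos (by omega)]
      exact h2 i h
    · subst h
      rw [if_pos le_rfl, if_neg (by omega), Nat.add_sub_cancel_left, h1, ← h0']
      exact h2' 0 (by omega)
    · rw [if_neg (by omega), if_neg (by omega), show i + 1 - k = i - k + 1 by omega]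
      exact h2' (i - k) (by omega)
  · intro i hi
    show (if i ≤ k then w i else w' (i - k)) ∈ V
    split_ifs with hh
    · exact h3 i hh
    · exact h3' _ (by omega)

theorem PathIn.take {V : Finset X} {w : ℕ → X} {k i j : ℕ} (h2 : ∀ i < k, adj (w i) (w (i + 1)))
    (h3 : ∀ i ≤ k, w i ∈ V) (hij : i ≤ j) (hj : j ≤ k) : PathIn adj V (w i) (w j) (j - i) := by
  refine ⟨fun l => w (i + l), rfl, by show w (i + (j - i)) = w j; rw [Nat.add_sub_cancel' hij],
    fun l hl => ?_, fun l hl => h3 _ (by omega)⟩
  exact h2 (i + l) (by omega)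

/-- A path in `V` can be shortened to a path of length less than the number of points of `V`. -/
theorem PathIn.exists_short {V : Finset X} {a b : X} {k : ℕ} (h : PathIn adj V a b k) :
    ∃ l, l < V.card ∧ PathIn adj V a b l := by
  classical
  obtain ⟨l, hl⟩ : ∃ l, l = sInf {k | PathIn adj V a b k} := ⟨_, rfl⟩
  have hne : {k | PathIn adj V a b k}.Nonempty := ⟨k, h⟩
  have hmem : PathIn adj V a b l := by
    rw [hl]; exact Nat.sInf_mem hne
  refine ⟨l, ?_, hmem⟩
  obtain ⟨w, h0, h1, h2, h3⟩ := hmem
  have hinj : ∀ i ≤ l, ∀ j ≤ l, i < j → w i ≠ w j := by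
    intro i hi j hj hij he
    have p1 := PathIn.take h2 h3 (Nat.zero_le i) hi
    have p2 := PathIn.take h2 h3 hj le_rfl
    rw [← he] at p2
    have p3 := p1.trans p2
    rw [h0, h1] at p3
    have : l ≤ i - 0 + (l - j) := by
      rw [hl]
      exact Nat.sInf_le (by rw [← hl]; exact p3)
    omega
  have hcard : (Finset.range (l + 1)).card ≤ V.card := by
    refine Finset.card_le_card_of_injOn w ?_ ?_
    · intro i hi
      have : i < l + 1 := by simpa using hi
      exact h3 i (by omega)
    · intro i hi j hj he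
      have hi' : i < l + 1 := by simpa using hi
      have hj' : j < l + 1 := by simpa using hj
      rcases Nat.lt_trichotomy i j with hlt | heq | hlt
      · exact absurd he (hinj i (by omega) j (by omega) hlt)
      · exact heq
      · exact absurd he.symm (hinj j (by omega) i (by omega) hlt)
  rw [Finset.card_range] at hcard
  omega

theorem PathIn.symm (hs : ∀ {a b}, adj a b → adj b a) {V : Finset X} {a b : X} {k : ℕ}
    (h : PathIn adj V a b k) : PathIn adj V b a k := by
  obtain ⟨w, h0, h1, h2, h3⟩ := h
  refine ⟨fun i => w (k - i), by simpa using h1, by simpa using h0, fun i hi => ?_,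
    fun i hi => h3 _ (by omega)⟩
  show adj (w (k - i)) (w (k - (i + 1)))
  have := h2 (k - (i + 1)) (by omega)
  rw [show k - (i + 1) + 1 = k - i by omega] at this
  exact hs this

/-! ### Products -/

theorem Tour.fst_lift {A B : Type*} {adjA : A → A → Prop} (adjB : B → B → Prop) {a a' : A} (b : B)
    {k : ℕ} (h : Tour adjA ∅ a a' k) : Tour (padj adjA adjB) ∅ (a, b) (a', b) k := by
  obtain ⟨w, h0, h1, h2, h3⟩ := h
  exact ⟨fun i => (w i, b), by simp [h0], by simp [h1], fun i hi => Or.inl ⟨h2 i hi, rfl⟩,
    fun v hv => absurd hv (Set.notMem_empty v)⟩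

theorem Tour.snd_lift {A B : Type*} (adjA : A → A → Prop) {adjB : B → B → Prop} (a : A) {b b' : B}
    {k : ℕ} (h : Tour adjB ∅ b b' k) : Tour (padj adjA adjB) ∅ (a, b) (a, b') k := by
  obtain ⟨w, h0, h1, h2, h3⟩ := h
  exact ⟨fun i => (a, w i), by simp [h0], by simp [h1], fun i hi => Or.inr ⟨rfl, h2 i hi⟩,
    fun v hv => absurd hv (Set.notMem_empty v)⟩

theorem Good.padj {A B : Type*} {adjA : A → A → Prop} {adjB : B → B → Prop} (hA : Good adjA)
    (hB : Good adjB) : Good (padj adjA adjB) where
  symm := by
    rintro ⟨a, b⟩ ⟨a', b'⟩ (⟨h1, h2⟩ | ⟨h1, h2⟩)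
    · exact Or.inl ⟨hA.symm h1, h2.symm⟩
    · exact Or.inr ⟨h1.symm, hB.symm h2⟩
  conn := by
    rintro ⟨a, b⟩ ⟨a', b'⟩
    obtain ⟨k, hk⟩ := hA.conn a a'
    obtain ⟨l, hl⟩ := hB.conn b b'
    exact ⟨k + l, ((hk.fst_lift adjB b).trans (hl.snd_lift adjA a')).mono (Set.empty_subset _)⟩
  bip := by
    obtain ⟨χ, hχ⟩ := hA.bip
    obtain ⟨ψ, hψ⟩ := hB.bip
    refine ⟨fun x => xor (χ x.1) (ψ x.2), ?_⟩
    rintro ⟨a, b⟩ ⟨a', b'⟩ (⟨h1, h2⟩ | ⟨h1, h2⟩)
    · have h3 := hχ a a' h1
      have h4 : b = b' := h2
      subst h4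
      show xor (χ a) (ψ b) ≠ xor (χ a') (ψ b)
      revert h3
      cases χ a <;> cases χ a' <;> cases ψ b <;> simp
    · have h3 := hψ b b' h2
      have h4 : a = a' := h1
      subst h4
      show xor (χ a) (ψ b) ≠ xor (χ a) (ψ b')
      revert h3
      cases χ a <;> cases ψ b <;> cases ψ b' <;> simp

end Pool.Agent.AD
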